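import Mathlib

/-!
Divisor bound: for every `k` there is `C` with `τ(n)^k ≤ C n`.
-/

namespace Pool.Agent.Lib.MP1e1427

open Finset

/-- `(e+1)^k ≤ C 2^e`. -/
lemma exists_pow_le_two_pow (k : ℕ) : ∃ C : ℕ, 0 < C ∧ ∀ e : ℕ, (e + 1) ^ k ≤ C * 2 ^ e := by
  induction k with
  | zero => exact ⟨1, one_pos, fun e => by simpa using Nat.one_le_two_pow⟩
  | succ k ih =>
    -- use (e+1)^(k+1) ≤ 2^e * ... : split e = 2j or 2j+1
    -- simpler: compare with factorial: use tendsto
    have h := (isLittleO_pow_const_const_pow_of_one_lt (R := ℝ) (k + 1) (r := 2) (by norm_num))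
    have h2 := h.tendsto_div_nhds_zero
    obtain ⟨N, hN⟩ := (h2.eventually (gt_mem_nhds (show (0:ℝ) < 1 by norm_num))).exists_forall_of_atTop
    refine ⟨2 * (N + 2) ^ (k + 1), by positivity, fun e => ?_⟩
    rcases le_or_gt N (e + 1) with he | he
    · have h3 := hN (e + 1) he
      rw [div_lt_one (by positivity)] at h3
      have h4 : ((e + 1) ^ (k + 1) : ℕ) < 2 ^ (e + 1) := by
        have : (((e + 1) ^ (k + 1) : ℕ) : ℝ) < ((2 ^ (e + 1) : ℕ) : ℝ) := by
          push_cast
          exact_mod_cast h3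
        exact_mod_cast this
      calc (e + 1) ^ (k + 1) ≤ 2 ^ (e + 1) := h4.le
        _ = 2 * 1 * 2 ^ e := by ring
        _ ≤ 2 * (N + 2) ^ (k + 1) * 2 ^ e := by
          gcongr
          exact Nat.one_le_pow _ _ (by omega)
    · calc (e + 1) ^ (k + 1) ≤ (N + 2) ^ (k + 1) := Nat.pow_le_pow_left (by omega) _
        _ = 1 * (N + 2) ^ (k + 1) * 1 := by ring
        _ ≤ 2 * (N + 2) ^ (k + 1) * 2 ^ e := by
          gcongr
          · norm_num
          · exact Nat.one_le_two_pow

/-- The divisor bound. -/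
theorem exists_card_divisors_pow_le (k : ℕ) :
    ∃ C : ℕ, 0 < C ∧ ∀ n : ℕ, n ≠ 0 → (n.divisors.card) ^ k ≤ C * n := by
  obtain ⟨C, hC, h⟩ := exists_pow_le_two_pow k
  refine ⟨C ^ (2 ^ k), by positivity, fun n hn => ?_⟩
  have key : ∀ p ∈ n.primeFactors, (n.factorization p + 1) ^ k ≤
      (if p < 2 ^ k then C else 1) * p ^ (n.factorization p) := by
    intro p hp
    have hp' := Nat.prime_of_mem_primeFactors hp
    split_ifs with hlt
    · exact (h _).trans (Nat.mul_le_mul_left _ (Nat.pow_le_pow_left hp'.two_le _))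
    · rw [one_mul]
      calc (n.factorization p + 1) ^ k ≤ (2 ^ (n.factorization p)) ^ k :=
            Nat.pow_le_pow_left (Nat.lt_two_pow_self) _
        _ = (2 ^ k) ^ (n.factorization p) := by rw [← pow_mul, ← pow_mul, mul_comm]
        _ ≤ p ^ (n.factorization p) := Nat.pow_le_pow_left (not_lt.mp hlt) _
  rw [Nat.card_divisors hn, ← Finset.prod_pow]
  calc ∏ p ∈ n.primeFactors, (n.factorization p + 1) ^ k
      ≤ ∏ p ∈ n.primeFactors, ((if p < 2 ^ k then C else 1) * p ^ (n.factorization p)) :=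
        Finset.prod_le_prod' key
    _ = (∏ p ∈ n.primeFactors, (if p < 2 ^ k then C else 1)) * n := by
        rw [Finset.prod_mul_distrib]
        congr 1
        exact Nat.prod_factorization_pow_eq_self hn
    _ ≤ C ^ (2 ^ k) * n := by
        gcongr
        rw [← Finset.prod_filter, Finset.prod_const]
        apply Nat.pow_le_pow_right hC
        calc _ ≤ (Finset.range (2 ^ k)).card := by
              apply Finset.card_le_card
              intro p hp
              rw [Finset.mem_filter] at hp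
              exact Finset.mem_range.mpr hp.2
          _ = 2 ^ k := Finset.card_range _

/-- Real form: for `n ≤ y^k`, `τ(n) ≤ C y`. -/
theorem exists_card_divisors_le (k : ℕ) (hk : k ≠ 0) :
    ∃ C : ℝ, 1 ≤ C ∧ ∀ y : ℝ, 1 ≤ y → ∀ n : ℕ, (n : ℝ) ≤ y ^ k →
      ((n.divisors.card : ℕ) : ℝ) ≤ C * y := by
  obtain ⟨C, hC, h⟩ := exists_card_divisors_pow_le k
  have hC1 : (1 : ℝ) ≤ C := by exact_mod_cast hC
  refine ⟨C, hC1, fun y hy n hn => ?_⟩
  rcases Nat.eq_zero_or_pos n with rfl | hpos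
  · simp; positivity
  have h1 := h n hpos.ne'
  have h2 : ((n.divisors.card : ℕ) : ℝ) ^ k ≤ C * n := by exact_mod_cast h1
  by_contra hlt
  push Not at hlt
  have h3 : (C * y) ^ k < ((n.divisors.card : ℕ) : ℝ) ^ k :=
    pow_lt_pow_left₀ hlt (by positivity) hk
  have h4 : (C : ℝ) ≤ (C : ℝ) ^ k := le_self_pow₀ hC1 hk
  have h5 : (C : ℝ) * n ≤ (C * y) ^ k := by
    rw [mul_pow]
    exact mul_le_mul h4 hn (by positivity) (by positivity)
  linarith

end Pool.Agent.Lib.MP1e1427
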