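import Mathlib

/-!
The circle `x² + y² = m` over `ZMod d`, and its number of points for `d` an odd prime.
-/

namespace Pool.Agent.Lib.MP1e1427

open Finset

/-- The solutions of `x² + y² = m` in a finite commutative ring. -/
def circ (R : Type*) [CommRing R] [Fintype R] [DecidableEq R] (m : R) : Finset (R × R) :=
  univ.filter (fun v => v.1 ^ 2 + v.2 ^ 2 = m)

lemma mem_circ {R : Type*} [CommRing R] [Fintype R] [DecidableEq R] {m : R} {v : R × R} :
    v ∈ circ R m ↔ v.1 ^ 2 + v.2 ^ 2 = m := by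
  simp [circ]

section Prime

variable {p : ℕ} [Fact p.Prime]

lemma sum_sq_eq (hp : p ≠ 2) (g : ZMod p → ℤ) :
    ∑ x : ZMod p, g (x ^ 2) = ∑ u : ZMod p, (quadraticChar (ZMod p) u + 1) * g u := by
  have hF : ringChar (ZMod p) ≠ 2 := by rwa [ZMod.ringChar_zmod_n]
  rw [← Finset.sum_fiberwise (s := univ) (g := fun x : ZMod p => x ^ 2)]
  apply Finset.sum_congr rfl
  intro u _
  have h1 := quadraticChar_card_sqrts hF u
  rw [← h1]
  have h2 : ∀ x ∈ univ.filter (fun x : ZMod p => x ^ 2 = u), g (x ^ 2) = g u := by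
    intro x hx
    rw [(mem_filter.mp hx).2]
  rw [Finset.sum_congr rfl h2, Finset.sum_const, nsmul_eq_mul]
  congr 2
  congr 1
  ext x
  simp

lemma sum_quadraticChar (hp : p ≠ 2) : ∑ u : ZMod p, quadraticChar (ZMod p) u = 0 := by
  have hF : ringChar (ZMod p) ≠ 2 := by rwa [ZMod.ringChar_zmod_n]
  exact quadraticChar_sum_zero hF

lemma card_circ_aux (hp : p ≠ 2) (m : ZMod p) :
    ((circ (ZMod p) m).card : ℤ) =
      p + ∑ u : ZMod p, quadraticChar (ZMod p) u * quadraticChar (ZMod p) (m - u) := by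
  have hF : ringChar (ZMod p) ≠ 2 := by rwa [ZMod.ringChar_zmod_n]
  have h1 : ((circ (ZMod p) m).card : ℤ) =
      ∑ x : ZMod p, (quadraticChar (ZMod p) (m - x ^ 2) + 1) := by
    have : (circ (ZMod p) m).card = ∑ x : ZMod p, #{y : ZMod p | y ^ 2 = m - x ^ 2}.toFinset := by
      rw [Finset.card_eq_sum_card_fiberwise (f := Prod.fst) (t := univ) (fun _ _ => mem_coe.mpr (mem_univ _))]
      apply Finset.sum_congr rfl
      intro x _
      apply Finset.card_bij (fun v _ => v.2)
      · intro v hv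
        rw [mem_filter, mem_circ] at hv
        simp only [Set.mem_toFinset, Set.mem_ofPred_eq]
        rw [← hv.1, hv.2]; ring
      · intro v hv v' hv' h
        rw [mem_filter] at hv hv'
        exact Prod.ext (hv.2.trans hv'.2.symm) h
      · intro y hy
        simp only [Set.mem_toFinset, Set.mem_ofPred_eq] at hy
        exact ⟨(x, y), by rw [mem_filter, mem_circ]; simp [hy], rfl⟩
    rw [this]
    push_cast
    apply Finset.sum_congr rfl
    intro x _
    exact quadraticChar_card_sqrts hF _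
  rw [h1, sum_sq_eq hp (fun u => quadraticChar (ZMod p) (m - u) + 1)]
  have h2 : ∀ u : ZMod p, (quadraticChar (ZMod p) u + 1) * (quadraticChar (ZMod p) (m - u) + 1) =
      quadraticChar (ZMod p) u * quadraticChar (ZMod p) (m - u) + quadraticChar (ZMod p) u
        + quadraticChar (ZMod p) (m - u) + 1 := fun u => by ring
  simp_rw [h2]
  rw [sum_add_distrib, sum_add_distrib, sum_add_distrib, sum_quadraticChar hp]
  have h3 : ∑ u : ZMod p, quadraticChar (ZMod p) (m - u) = 0 := by
    rw [← sum_quadraticChar hp]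
    exact Fintype.sum_equiv (Equiv.subLeft m) _ _ (fun u => by simp)
  rw [h3]
  simp [ZMod.card]
  ring

lemma card_circ_of_ne_zero (hp : p ≠ 2) {m : ZMod p} (hm : m ≠ 0) :
    ((circ (ZMod p) m).card : ℤ) = p - ZMod.χ₄ p := by
  have hF : ringChar (ZMod p) ≠ 2 := by rwa [ZMod.ringChar_zmod_n]
  rw [card_circ_aux hp]
  have h1 : ∑ u : ZMod p, quadraticChar (ZMod p) u * quadraticChar (ZMod p) (m - u) =
      ∑ t : ZMod p, quadraticChar (ZMod p) t * quadraticChar (ZMod p) (1 - t) := by
    symm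
    apply Fintype.sum_equiv (Equiv.mulLeft₀ m hm)
    intro t
    simp only [Equiv.mulLeft₀_apply]
    rw [map_mul, show m - m * t = m * (1 - t) by ring, map_mul]
    have := quadraticChar_sq_one (F := ZMod p) hm
    calc _ = 1 * (quadraticChar (ZMod p) t * quadraticChar (ZMod p) (1 - t)) := by ring
      _ = _ := by rw [← this]; ring
  have h2 : ∑ t : ZMod p, quadraticChar (ZMod p) t * quadraticChar (ZMod p) (1 - t) =
      - quadraticChar (ZMod p) (-1) := by
    have h3 := jacobiSum_nontrivial_inv (quadraticChar_ne_one hF)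
    rw [← h3]
    have h4 : (quadraticChar (ZMod p))⁻¹ = quadraticChar (ZMod p) :=
      (quadraticChar_isQuadratic (ZMod p)).inv
    rw [h4]
    rfl
  rw [h1, h2, quadraticChar_neg_one hF, ZMod.card]
  ring

lemma card_circ_zero (hp : p ≠ 2) :
    ((circ (ZMod p) 0).card : ℤ) = 1 + (p - 1) * (1 + ZMod.χ₄ p) := by
  have hF : ringChar (ZMod p) ≠ 2 := by rwa [ZMod.ringChar_zmod_n]
  rw [card_circ_aux hp]
  have h1 : ∑ u : ZMod p, quadraticChar (ZMod p) u * quadraticChar (ZMod p) (0 - u) =
      quadraticChar (ZMod p) (-1) * (p - 1) := by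
    have h2 : ∀ u : ZMod p, quadraticChar (ZMod p) u * quadraticChar (ZMod p) (0 - u) =
        quadraticChar (ZMod p) (-1) * (if u = 0 then 0 else 1) := by
      intro u
      rw [show 0 - u = (-1) * u by ring, map_mul]
      split_ifs with h
      · rw [h]; simp
      · have := quadraticChar_sq_one (F := ZMod p) h
        calc _ = quadraticChar (ZMod p) (-1) * (quadraticChar (ZMod p) u) ^ 2 := by ring
          _ = _ := by rw [this]
    simp_rw [h2]
    rw [← mul_sum]
    congr 1
    have h3 : ∀ u : ZMod p, (if u = 0 then (0:ℤ) else 1) = 1 - (if u = 0 then 1 else 0) := by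
      intro u; split_ifs <;> ring
    simp_rw [h3]
    rw [sum_sub_distrib]
    simp [ZMod.card]
  rw [h1, quadraticChar_neg_one hF, ZMod.card]
  ring

lemma card_circ_le (hp : p ≠ 2) {m : ZMod p} (hm : m ≠ 0) :
    (circ (ZMod p) m).card ≤ p + 1 ∧ p - 1 ≤ (circ (ZMod p) m).card := by
  have h := card_circ_of_ne_zero hp hm
  have hp1 := (Fact.out : p.Prime).one_lt
  have h1 : ZMod.χ₄ (p : ZMod 4) = 0 ∨ ZMod.χ₄ (p : ZMod 4) = 1 ∨ ZMod.χ₄ (p : ZMod 4) = -1 := by
    generalize (p : ZMod 4) = a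
    revert a; decide
  rcases h1 with h1 | h1 | h1 <;> rw [h1] at h <;> omega

end Prime

end Pool.Agent.Lib.MP1e1427
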