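import Mathlib
import Pool.Agent.Lib.MP_1e1427_nt.Circle

/-!
Fourth moment bound for the Fourier transform of a circle over `ZMod p`.
-/

namespace Pool.Agent.Lib.MP1e1427

open Finset

/-- Fourth moment identity. -/
lemma sum_norm_pow_four {H : Type*} [AddCommGroup H] [Fintype H] [DecidableEq H] (V : Finset H) :
    ∑ Ψ : AddChar H ℂ, ‖∑ v ∈ V, Ψ v‖ ^ 4 =
      Fintype.card H * (((V ×ˢ V) ×ˢ (V ×ˢ V)).filter
        (fun w => w.1.1 + w.1.2 = w.2.1 + w.2.2)).card := by
  have h1 : ∀ Ψ : AddChar H ℂ, ((‖∑ v ∈ V, Ψ v‖ ^ 4 : ℝ) : ℂ) =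
      ∑ w ∈ (V ×ˢ V) ×ˢ (V ×ˢ V), Ψ (w.1.1 + w.1.2 - (w.2.1 + w.2.2)) := by
    intro Ψ
    have h2 : ((‖∑ v ∈ V, Ψ v‖ ^ 4 : ℝ) : ℂ) =
        ((∑ v ∈ V, Ψ v) * (∑ v ∈ V, Ψ v)) *
          ((∑ v ∈ V, Ψ (-v)) * (∑ v ∈ V, Ψ (-v))) := by
      have h3 : ∑ v ∈ V, Ψ (-v) = (starRingEnd ℂ) (∑ v ∈ V, Ψ v) := by
        rw [map_sum]
        apply Finset.sum_congr rfl
        intro v _
        rw [AddChar.map_neg_eq_conj]
      rw [h3]
      have h4 := Complex.mul_conj (∑ v ∈ V, Ψ v)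
      have h5 : (‖∑ v ∈ V, Ψ v‖ ^ 4 : ℝ) = Complex.normSq (∑ v ∈ V, Ψ v) ^ 2 := by
        rw [Complex.normSq_eq_norm_sq]; ring
      rw [h5]
      push_cast
      rw [← h4]; ring
    rw [h2, Finset.sum_mul_sum, Finset.sum_mul_sum, ← Finset.sum_product',
      ← Finset.sum_product', Finset.sum_mul_sum, ← Finset.sum_product']
    apply Finset.sum_congr rfl
    intro w _
    rw [← AddChar.map_add_eq_mul, ← AddChar.map_add_eq_mul, ← AddChar.map_add_eq_mul]
    congr 1
    abel
  have h2 : ((∑ Ψ : AddChar H ℂ, ‖∑ v ∈ V, Ψ v‖ ^ 4 : ℝ) : ℂ) =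
      ((Fintype.card H * (((V ×ˢ V) ×ˢ (V ×ˢ V)).filter
        (fun w => w.1.1 + w.1.2 = w.2.1 + w.2.2)).card : ℝ) : ℂ) := by
    rw [Complex.ofReal_sum]
    simp_rw [h1]
    rw [Finset.sum_comm]
    simp_rw [AddChar.sum_apply_eq_ite, sub_eq_zero]
    rw [Finset.sum_ite]
    simp [mul_comm]
  exact_mod_cast h2

section Prime

variable {p : ℕ} [Fact p.Prime]

/-- At most two points of the circle have the same sum with their partner. -/
lemma circ_pair {m : ZMod p} (hm : m ≠ 0) (hp : p ≠ 2) {σ v v' : ZMod p × ZMod p} (hσ : σ ≠ 0)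
    (hv : v ∈ circ (ZMod p) m) (hv1 : σ - v ∈ circ (ZMod p) m)
    (hv' : v' ∈ circ (ZMod p) m) (hv1' : σ - v' ∈ circ (ZMod p) m) :
    v' = v ∨ v' = σ - v := by
  obtain ⟨s, t⟩ := σ
  obtain ⟨x, y⟩ := v
  obtain ⟨x', y'⟩ := v'
  simp only [mem_circ, Prod.mk_sub_mk, Prod.mk.injEq] at *
  have h2 : (2 : ZMod p) ≠ 0 := by
    have := Ring.two_ne_zero (R := ZMod p) (by rwa [ZMod.ringChar_zmod_n])
    exact this
  -- the linear relations
  have l1 : 2 * (s * x + t * y) = s ^ 2 + t ^ 2 := by linear_combination hv - hv1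
  have l2 : 2 * (s * x' + t * y') = s ^ 2 + t ^ 2 := by linear_combination hv' - hv1'
  have hst : ¬ (s = 0 ∧ t = 0) := by
    rintro ⟨rfl, rfl⟩
    exact hσ rfl
  -- nonisotropic
  have hiso : s ^ 2 + t ^ 2 ≠ 0 := by
    intro h0
    have h3 : s * x + t * y = 0 := by
      have : 2 * (s * x + t * y) = 0 := by rw [l1, h0]
      exact (mul_eq_zero.mp this).resolve_left h2
    -- (s^2) * m = s^2 x^2 + s^2 y^2 = t^2 y^2 + s^2 y^2 = 0
    have h4 : s ^ 2 * m = 0 := by
      rw [← hv]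
      linear_combination (s * x - t * y) * h3 + y ^ 2 * h0
    have h5 : t ^ 2 * m = 0 := by
      rw [← hv]
      linear_combination (t * y - s * x) * h3 + x ^ 2 * h0
    apply hst
    constructor
    · exact pow_eq_zero_iff (two_ne_zero) |>.mp ((mul_eq_zero.mp h4).resolve_right hm)
    · exact pow_eq_zero_iff (two_ne_zero) |>.mp ((mul_eq_zero.mp h5).resolve_right hm)
  -- difference orthogonal to σ
  have d1 : s * (x' - x) + t * (y' - y) = 0 := by
    have : 2 * (s * (x' - x) + t * (y' - y)) = 0 := by linear_combination l2 - l1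
    exact (mul_eq_zero.mp this).resolve_left h2
  have d2 : (x + x') * (x' - x) + (y + y') * (y' - y) = 0 := by linear_combination hv' - hv
  by_cases hxy : x' = x ∧ y' = y
  · left; exact hxy
  right
  -- parallel
  have par : s * (y + y') - t * (x + x') = 0 := by
    by_contra hne
    apply hxy
    have e1 : (s * (y + y') - t * (x + x')) * (x' - x) = 0 := by
      linear_combination (y + y') * d1 - t * d2
    have e2 : (s * (y + y') - t * (x + x')) * (y' - y) = 0 := by
      linear_combination s * d2 - (x + x') * d1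
    exact ⟨sub_eq_zero.mp ((mul_eq_zero.mp e1).resolve_left hne),
      sub_eq_zero.mp ((mul_eq_zero.mp e2).resolve_left hne)⟩
  have dot : s * (x + x') + t * (y + y') = s ^ 2 + t ^ 2 := by
    have : 2 * (s * (x + x') + t * (y + y')) = 2 * (s ^ 2 + t ^ 2) := by
      linear_combination l1 + l2
    exact mul_left_cancel₀ h2 this
  constructor
  · have : (s ^ 2 + t ^ 2) * (x' - (s - x)) = 0 := by
      linear_combination s * dot - t * par
    exact sub_eq_zero.mp ((mul_eq_zero.mp this).resolve_left hiso)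
  · have : (s ^ 2 + t ^ 2) * (y' - (t - y)) = 0 := by
      linear_combination t * dot + s * par
    exact sub_eq_zero.mp ((mul_eq_zero.mp this).resolve_left hiso)

/-- Additive energy of the circle. -/
lemma energy_circ_le {m : ZMod p} (hm : m ≠ 0) (hp : p ≠ 2) :
    (((circ (ZMod p) m ×ˢ circ (ZMod p) m) ×ˢ (circ (ZMod p) m ×ˢ circ (ZMod p) m)).filter
        (fun w => w.1.1 + w.1.2 = w.2.1 + w.2.2)).card ≤ 3 * (circ (ZMod p) m).card ^ 2 := by
  set V := circ (ZMod p) m with hV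
  rw [Finset.card_eq_sum_card_fiberwise (f := Prod.fst) (t := V ×ˢ V)]
  swap
  · intro w hw
    rw [mem_coe, mem_filter, mem_product] at hw
    exact hw.1.1
  -- for each (v1,v2)
  have h1 : ∀ a ∈ V ×ˢ V, ((((V ×ˢ V) ×ˢ (V ×ˢ V)).filter
      (fun w => w.1.1 + w.1.2 = w.2.1 + w.2.2)).filter (fun w => w.1 = a)).card ≤
      2 + (if a.1 + a.2 = 0 then V.card else 0) := by
    intro a ha
    rw [mem_product] at ha
    by_cases h0 : a.1 + a.2 = 0
    · rw [if_pos h0]
      have : ((((V ×ˢ V) ×ˢ (V ×ˢ V)).filter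
          (fun w => w.1.1 + w.1.2 = w.2.1 + w.2.2)).filter (fun w => w.1 = a)).card ≤ V.card := by
        apply Finset.card_le_card_of_injOn (fun w => w.2.1)
        · intro w hw
          rw [mem_coe, mem_filter, mem_filter, mem_product, mem_product, mem_product] at hw
          exact hw.1.1.2.1
        · intro w hw w' hw' h
          rw [mem_coe, mem_filter, mem_filter] at hw hw'
          have e1 : w.1 = w'.1 := hw.2.trans hw'.2.symm
          have e2 : w.2.1 = w'.2.1 := h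
          have e3 : w.2.2 = w'.2.2 := by
            have a1 := hw.1.2
            have a2 := hw'.1.2
            rw [e1, a2, e2] at a1
            exact (add_left_cancel a1).symm
          exact Prod.ext e1 (Prod.ext e2 e3)
      omega
    · rw [if_neg h0, add_zero]
      calc _ ≤ (({a.1, a.1 + a.2 - a.1} : Finset (ZMod p × ZMod p))).card := by
            apply Finset.card_le_card_of_injOn (fun w => w.2.1)
            · intro w hw
              rw [mem_coe, mem_filter, mem_filter, mem_product, mem_product, mem_product] at hw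
              obtain ⟨⟨⟨_, hw3, hw4⟩, hw5⟩, hw6⟩ := hw
              rw [hw6] at hw5
              have e1 : a.1 + a.2 - a.1 ∈ V := by rw [add_sub_cancel_left]; exact ha.2
              have e2 : a.1 + a.2 - w.2.1 ∈ V := by rw [hw5, add_sub_cancel_left]; exact hw4
              have := circ_pair hm hp h0 ha.1 e1 hw3 e2
              simp only [coe_insert, coe_singleton, Set.mem_insert_iff, Set.mem_singleton_iff]
              exact this
            · intro w hw w' hw' h
              rw [mem_coe, mem_filter, mem_filter] at hw hw'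
              have e1 : w.1 = w'.1 := hw.2.trans hw'.2.symm
              have e2 : w.2.1 = w'.2.1 := h
              have e3 : w.2.2 = w'.2.2 := by
                have a1 := hw.1.2
                have a2 := hw'.1.2
                rw [e1, a2, e2] at a1
                exact (add_left_cancel a1).symm
              exact Prod.ext e1 (Prod.ext e2 e3)
        _ ≤ 2 := Finset.card_le_two
  calc _ ≤ ∑ a ∈ V ×ˢ V, (2 + (if a.1 + a.2 = 0 then V.card else 0)) := Finset.sum_le_sum h1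
    _ = 2 * V.card ^ 2 + ((V ×ˢ V).filter (fun a => a.1 + a.2 = 0)).card * V.card := by
        rw [sum_add_distrib, sum_const, card_product, ← sum_filter, sum_const]
        simp only [smul_eq_mul]
        ring
    _ ≤ 2 * V.card ^ 2 + V.card * V.card := by
        gcongr
        apply Finset.card_le_card_of_injOn (fun w => w.1)
        · intro w hw
          rw [mem_coe, mem_filter, mem_product] at hw
          exact hw.1.1
        · intro w hw w' hw' h
          rw [mem_coe, mem_filter] at hw hw'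
          have e1 : w.1 = w'.1 := h
          have e2 : w.2 = w'.2 := by
            have a1 := hw.2
            have a2 := hw'.2
            rw [e1, ← a2] at a1
            exact add_left_cancel a1
          exact Prod.ext e1 e2
    _ = 3 * V.card ^ 2 := by ring

/-- Rotation by `g = (c,s)`, `c² + s² = 1`, as an additive map. -/
def rot (g : ZMod p × ZMod p) : ZMod p × ZMod p →+ ZMod p × ZMod p where
  toFun v := (g.1 * v.1 - g.2 * v.2, g.2 * v.1 + g.1 * v.2)
  map_zero' := by simp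
  map_add' a b := by ext <;> simp <;> ring

lemma rot_apply (g v : ZMod p × ZMod p) :
    rot g v = (g.1 * v.1 - g.2 * v.2, g.2 * v.1 + g.1 * v.2) := rfl

lemma sum_circ_rot {m : ZMod p} {g : ZMod p × ZMod p} (hg : g ∈ circ (ZMod p) 1)
    (Ψ : AddChar (ZMod p × ZMod p) ℂ) :
    ∑ v ∈ circ (ZMod p) m, (Ψ.compAddMonoidHom (rot g)) v = ∑ v ∈ circ (ZMod p) m, Ψ v := by
  rw [mem_circ] at hg
  apply Finset.sum_bij' (fun v _ => rot g v) (fun v _ => rot (g.1, -g.2) v)
  · intro v hv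
    rw [mem_circ] at hv ⊢
    rw [rot_apply]
    linear_combination m * hg + (g.1 ^ 2 + g.2 ^ 2) * hv
  · intro v hv
    rw [mem_circ] at hv ⊢
    rw [rot_apply]
    linear_combination m * hg + (g.1 ^ 2 + g.2 ^ 2) * hv
  · intro v _
    rw [rot_apply, rot_apply]
    ext
    · linear_combination v.1 * hg
    · linear_combination v.2 * hg
  · intro v _
    rw [rot_apply, rot_apply]
    ext
    · linear_combination v.1 * hg
    · linear_combination v.2 * hg
  · intro v _
    rw [AddChar.compAddMonoidHom_apply]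

lemma rot_injOn (hp : p ≠ 2) {Ψ : AddChar (ZMod p × ZMod p) ℂ} (hΨ : Ψ ≠ 0) :
    Set.InjOn (fun g => Ψ.compAddMonoidHom (rot g)) (circ (ZMod p) (1 : ZMod p) : Set _) := by
  have h2 : (2 : ZMod p) ≠ 0 := Ring.two_ne_zero (R := ZMod p) (by rwa [ZMod.ringChar_zmod_n])
  intro g hg g' hg' h
  rw [mem_coe, mem_circ] at hg hg'
  by_contra hne
  apply hΨ
  -- determinant of `g - g'` is nonzero
  have hdet : (g.1 - g'.1) ^ 2 + (g.2 - g'.2) ^ 2 ≠ 0 := by
    intro h0
    have h1 : g.1 * g'.1 + g.2 * g'.2 = 1 := by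
      have : 2 * (g.1 * g'.1 + g.2 * g'.2) = 2 * 1 := by linear_combination hg + hg' - h0
      exact mul_left_cancel₀ h2 this
    have h3 : g.1 * g'.2 - g.2 * g'.1 = 0 := by
      have : (g.1 * g'.2 - g.2 * g'.1) ^ 2 = 0 := by
        linear_combination (g'.1 ^ 2 + g'.2 ^ 2) * hg + hg' - (g.1 * g'.1 + g.2 * g'.2 + 1) * h1
      exact pow_eq_zero_iff (two_ne_zero) |>.mp this
    apply hne
    ext
    · linear_combination -g.1 * h1 + g.2 * h3 + g'.1 * hg
    · linear_combination -g.2 * h1 - g.1 * h3 + g'.2 * hg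
  rw [AddChar.eq_zero_iff]
  intro u
  -- solve (g - g') v = u
  set D := (g.1 - g'.1) ^ 2 + (g.2 - g'.2) ^ 2 with hD
  set v : ZMod p × ZMod p := (D⁻¹ * ((g.1 - g'.1) * u.1 + (g.2 - g'.2) * u.2),
    D⁻¹ * (-(g.2 - g'.2) * u.1 + (g.1 - g'.1) * u.2)) with hv
  have hDi : D⁻¹ * D = 1 := inv_mul_cancel₀ hdet
  have hu : u = rot g v - rot g' v := by
    rw [rot_apply, rot_apply, hv]
    ext
    · simp only [Prod.mk_sub_mk]
      linear_combination (-u.1) * hDi + u.1 * D⁻¹ * hD
    · simp only [Prod.mk_sub_mk]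
      linear_combination (-u.2) * hDi + u.2 * D⁻¹ * hD
  have h3 := DFunLike.congr_fun h v
  simp only [AddChar.compAddMonoidHom_apply] at h3
  rw [hu, sub_eq_add_neg, AddChar.map_add_eq_mul, AddChar.map_neg_eq_inv, h3]
  exact mul_inv_cancel₀ (Ψ.val_isUnit _).ne_zero

/-- The pointwise bound: `|S|⁴ ≤ 256 p³`. -/
theorem norm_sum_circ_pow_four_le {m : ZMod p} (hm : m ≠ 0) (hp : p ≠ 2)
    {Ψ : AddChar (ZMod p × ZMod p) ℂ} (hΨ : Ψ ≠ 0) :
    ‖∑ v ∈ circ (ZMod p) m, Ψ v‖ ^ 4 ≤ 256 * (p : ℝ) ^ 3 := by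
  classical
  have hprime := (Fact.out : p.Prime)
  have hp3 : 3 ≤ p := by
    have := hprime.two_le
    omega
  have h1 : ((circ (ZMod p) (1 : ZMod p)).card : ℝ) * ‖∑ v ∈ circ (ZMod p) m, Ψ v‖ ^ 4 ≤
      ∑ Φ : AddChar (ZMod p × ZMod p) ℂ, ‖∑ v ∈ circ (ZMod p) m, Φ v‖ ^ 4 := by
    calc ((circ (ZMod p) (1 : ZMod p)).card : ℝ) * ‖∑ v ∈ circ (ZMod p) m, Ψ v‖ ^ 4
        = ∑ g ∈ circ (ZMod p) (1 : ZMod p),
            ‖∑ v ∈ circ (ZMod p) m, (Ψ.compAddMonoidHom (rot g)) v‖ ^ 4 := by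
          have h0 : ∀ g ∈ circ (ZMod p) (1 : ZMod p),
              ‖∑ v ∈ circ (ZMod p) m, (Ψ.compAddMonoidHom (rot g)) v‖ ^ 4 =
                ‖∑ v ∈ circ (ZMod p) m, Ψ v‖ ^ 4 := fun g hg => by rw [sum_circ_rot hg Ψ]
          rw [Finset.sum_congr rfl h0, Finset.sum_const, nsmul_eq_mul]
      _ = ∑ Φ ∈ (circ (ZMod p) (1 : ZMod p)).image (fun g => Ψ.compAddMonoidHom (rot g)),
            ‖∑ v ∈ circ (ZMod p) m, Φ v‖ ^ 4 := by
          rw [Finset.sum_image (rot_injOn hp hΨ)]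
      _ ≤ _ := by
          apply Finset.sum_le_sum_of_subset_of_nonneg (Finset.subset_univ _)
          intros; positivity
  rw [sum_norm_pow_four] at h1
  have h2 := energy_circ_le hm hp
  have h3 := (card_circ_le (m := m) hp hm).1
  have h4 := (card_circ_le (m := (1 : ZMod p)) hp one_ne_zero).2
  have h5 : (p : ℝ) / 2 ≤ ((circ (ZMod p) (1 : ZMod p)).card : ℝ) := by
    have : ((p - 1 : ℕ) : ℝ) ≤ ((circ (ZMod p) (1 : ZMod p)).card : ℝ) := by exact_mod_cast h4
    rw [Nat.cast_sub (by omega)] at this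
    have : (3 : ℝ) ≤ p := by exact_mod_cast hp3
    push_cast at *
    linarith
  have h6 : (((((circ (ZMod p) m ×ˢ circ (ZMod p) m) ×ˢ
      (circ (ZMod p) m ×ˢ circ (ZMod p) m)).filter
        (fun w => w.1.1 + w.1.2 = w.2.1 + w.2.2)).card : ℕ) : ℝ) ≤ 12 * (p : ℝ) ^ 2 := by
    calc _ ≤ ((3 * (circ (ZMod p) m).card ^ 2 : ℕ) : ℝ) := by exact_mod_cast h2
      _ ≤ ((3 * (2 * p) ^ 2 : ℕ) : ℝ) := by
          norm_cast
          gcongr
          omega
      _ = 12 * (p : ℝ) ^ 2 := by push_cast; ring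
  have h7 : (Fintype.card (ZMod p × ZMod p) : ℝ) = (p : ℝ) ^ 2 := by
    rw [Fintype.card_prod, ZMod.card]; push_cast; ring
  rw [h7] at h1
  have hp0 : (0 : ℝ) < p := by positivity
  have h8 : (p : ℝ) / 2 * ‖∑ v ∈ circ (ZMod p) m, Ψ v‖ ^ 4 ≤ (p : ℝ) ^ 2 * (12 * (p : ℝ) ^ 2) := by
    calc _ ≤ _ := mul_le_mul_of_nonneg_right h5 (by positivity)
      _ ≤ _ := h1
      _ ≤ _ := mul_le_mul_of_nonneg_left h6 (by positivity)
  have h9 : ‖∑ v ∈ circ (ZMod p) m, Ψ v‖ ^ 4 ≤ 24 * (p : ℝ) ^ 3 := by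
    have : (p : ℝ) / 2 * ‖∑ v ∈ circ (ZMod p) m, Ψ v‖ ^ 4 ≤ (p : ℝ) / 2 * (24 * (p : ℝ) ^ 3) := by
      calc _ ≤ _ := h8
        _ = _ := by ring
    exact le_of_mul_le_mul_left this (by positivity)
  calc _ ≤ _ := h9
    _ ≤ _ := by
      have : (0 : ℝ) ≤ (p : ℝ) ^ 3 := by positivity
      linarith

end Prime

end Pool.Agent.Lib.MP1e1427
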