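import Mathlib
import Pool.Agent.Lib.MP_1e1427_nt.Fourth

/-!
The exponential sum over a circle modulo `d`, its multiplicativity, and its bound.
-/

namespace Pool.Agent.Lib.MP1e1427

open Finset

/-- `S(A,B) = ∑_{x²+y²=m} A(x) B(y)`. -/
noncomputable def SS (R : Type*) [CommRing R] [Fintype R] [DecidableEq R] (m : R)
    (A B : AddChar R ℂ) : ℂ := ∑ v ∈ circ R m, A v.1 * B v.2

section Prod

variable {R R₁ R₂ : Type*} [CommRing R] [Fintype R] [DecidableEq R]
  [CommRing R₁] [Fintype R₁] [DecidableEq R₁] [CommRing R₂] [Fintype R₂] [DecidableEq R₂]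

/-- Inclusion of the first factor. -/
def incl₁ (e : R ≃+* R₁ × R₂) : R₁ →+ R :=
  (e.symm.toAddEquiv.toAddMonoidHom).comp (AddMonoidHom.inl R₁ R₂)

/-- Inclusion of the second factor. -/
def incl₂ (e : R ≃+* R₁ × R₂) : R₂ →+ R :=
  (e.symm.toAddEquiv.toAddMonoidHom).comp (AddMonoidHom.inr R₁ R₂)

omit [Fintype R] [DecidableEq R] [Fintype R₁] [DecidableEq R₁] [Fintype R₂] [DecidableEq R₂] in
lemma incl₁_apply (e : R ≃+* R₁ × R₂) (x : R₁) : incl₁ e x = e.symm (x, 0) := rfl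
omit [Fintype R] [DecidableEq R] [Fintype R₁] [DecidableEq R₁] [Fintype R₂] [DecidableEq R₂] in
lemma incl₂_apply (e : R ≃+* R₁ × R₂) (x : R₂) : incl₂ e x = e.symm (0, x) := rfl

omit [Fintype R] [DecidableEq R] [Fintype R₁] [DecidableEq R₁] [Fintype R₂] [DecidableEq R₂] in
lemma addChar_split (e : R ≃+* R₁ × R₂) (A : AddChar R ℂ) (x : R) :
    A x = A.compAddMonoidHom (incl₁ e) (e x).1 * A.compAddMonoidHom (incl₂ e) (e x).2 := by
  rw [AddChar.compAddMonoidHom_apply, AddChar.compAddMonoidHom_apply, incl₁_apply, incl₂_apply,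
    ← AddChar.map_add_eq_mul, ← map_add]
  congr 1
  rw [Prod.mk_add_mk, add_zero, zero_add, Prod.mk.eta, RingEquiv.symm_apply_apply]

lemma SS_prod (e : R ≃+* R₁ × R₂) (m : R) (A B : AddChar R ℂ) :
    SS R m A B = SS R₁ (e m).1 (A.compAddMonoidHom (incl₁ e)) (B.compAddMonoidHom (incl₁ e)) *
      SS R₂ (e m).2 (A.compAddMonoidHom (incl₂ e)) (B.compAddMonoidHom (incl₂ e)) := by
  unfold SS
  rw [Finset.sum_mul_sum, ← Finset.sum_product']
  apply Finset.sum_bij' (fun v _ => (((e v.1).1, (e v.2).1), ((e v.1).2, (e v.2).2)))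
    (fun w _ => (e.symm (w.1.1, w.2.1), e.symm (w.1.2, w.2.2)))
  · intro v hv
    rw [mem_circ] at hv
    rw [mem_product, mem_circ, mem_circ, ← hv]
    simp
  · intro w hw
    rw [mem_product, mem_circ, mem_circ] at hw
    rw [mem_circ]
    apply e.injective
    simp only [map_add, map_pow, RingEquiv.apply_symm_apply]
    exact Prod.ext hw.1 hw.2
  · intro v _
    simp
  · intro w _
    simp
  · intro v _
    rw [addChar_split e A v.1, addChar_split e B v.2]
    ring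

end Prod

/-- The number of solutions of `x² + y² ≡ m mod d`. -/
def rho (m d : ℕ) [NeZero d] : ℕ := (circ (ZMod d) (m : ZMod d)).card

lemma SS_zero {R : Type*} [CommRing R] [Fintype R] [DecidableEq R] (m : R) :
    SS R m 0 0 = (circ R m).card := by
  simp [SS]

lemma norm_SS_le_card {R : Type*} [CommRing R] [Fintype R] [DecidableEq R] (m : R)
    (A B : AddChar R ℂ) : ‖SS R m A B‖ ≤ (circ R m).card := by
  unfold SS
  calc _ ≤ ∑ v ∈ circ R m, ‖A v.1 * B v.2‖ := norm_sum_le _ _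
    _ = ∑ v ∈ circ R m, 1 := by
        apply Finset.sum_congr rfl
        intro v _
        rw [norm_mul, AddChar.norm_apply, AddChar.norm_apply, one_mul]
    _ = _ := by simp

section Prime
variable {p : ℕ} [Fact p.Prime]

lemma norm_SS_prime_le {m : ZMod p} (hm : m ≠ 0) (hp : p ≠ 2) {A B : AddChar (ZMod p) ℂ}
    (hAB : ¬ (A = 0 ∧ B = 0)) :
    ‖SS (ZMod p) m A B‖ ≤ 4 * (p : ℝ) ^ (3 / 4 : ℝ) := by
  set Ψ : AddChar (ZMod p × ZMod p) ℂ :=
    (A.compAddMonoidHom (AddMonoidHom.fst _ _)) + (B.compAddMonoidHom (AddMonoidHom.snd _ _))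
    with hΨdef
  have hval : ∀ v, Ψ v = A v.1 * B v.2 := by
    intro v
    rw [hΨdef, AddChar.add_apply, AddChar.compAddMonoidHom_apply, AddChar.compAddMonoidHom_apply]
    rfl
  have hΨ : Ψ ≠ 0 := by
    intro h0
    apply hAB
    rw [AddChar.eq_zero_iff] at h0
    constructor
    · rw [AddChar.eq_zero_iff]
      intro x
      have := h0 (x, 0)
      rw [hval] at this
      simpa using this
    · rw [AddChar.eq_zero_iff]
      intro x
      have := h0 (0, x)
      rw [hval] at this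
      simpa using this
  have h1 := norm_sum_circ_pow_four_le hm hp hΨ
  have h2 : SS (ZMod p) m A B = ∑ v ∈ circ (ZMod p) m, Ψ v := by
    unfold SS
    exact Finset.sum_congr rfl (fun v _ => (hval v).symm)
  rw [h2]
  have hp0 : (0 : ℝ) ≤ p := by positivity
  have h3 : (4 * (p : ℝ) ^ (3 / 4 : ℝ)) ^ 4 = 256 * (p : ℝ) ^ 3 := by
    rw [mul_pow, ← Real.rpow_natCast ((p : ℝ) ^ (3 / 4 : ℝ)) 4, ← Real.rpow_mul hp0]
    norm_num
  rw [← h3] at h1
  exact le_of_pow_le_pow_left₀ (by norm_num) (by positivity) h1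

lemma norm_SS_prime_le' {m : ZMod p} (hm : m ≠ 0) (hp : p ≠ 2) (A B : AddChar (ZMod p) ℂ) :
    ‖SS (ZMod p) m A B‖ ≤ 4 * (p : ℝ) ^ (3 / 4 : ℝ) + 
      (open Classical in if A = 0 ∧ B = 0 then 4 * (p : ℝ) else 0) := by
  classical
  split_ifs with h
  · have h1 := norm_SS_le_card m A B
    have h2 := (card_circ_le hp hm).1
    have h3 : ((circ (ZMod p) m).card : ℝ) ≤ p + 1 := by exact_mod_cast h2
    have h4 : (1 : ℝ) ≤ p := by exact_mod_cast (Fact.out : p.Prime).one_lt.le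
    have h5 : 0 ≤ 4 * (p : ℝ) ^ (3 / 4 : ℝ) := by positivity
    linarith
  · rw [add_zero]
    exact norm_SS_prime_le hm hp h

end Prime

lemma nsmul_eq_zero_of_zmod {d : ℕ} (A : AddChar (ZMod d) ℂ) : d • A = 0 := by
  rw [AddChar.eq_zero_iff]
  intro x
  rw [AddChar.nsmul_apply, ← AddChar.map_nsmul_eq_pow]
  simp

/-- The general bound. -/
theorem norm_SS_le (m : ℕ) (f : ℕ) : Squarefree f → (∀ p, p.Prime → p ∣ f → p ≠ 2 ∧ ¬ p ∣ m) →
    ∀ (g d : ℕ) [NeZero g] [NeZero d], d = f * g → Nat.Coprime f g →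
    ∀ A B : AddChar (ZMod d) ℂ,
    ‖SS (ZMod d) (m : ZMod d) A B‖ ≤ (rho m g : ℝ) * ∏ p ∈ f.primeFactors,
      (4 * (p : ℝ) ^ (3 / 4 : ℝ) +
        (open Classical in if (d / p) • A = 0 ∧ (d / p) • B = 0 then 4 * (p : ℝ) else 0)) := by
  classical
  induction f using Nat.strong_induction_on with
  | _ f ih =>
  intro hsf hf g d _ _ hd hfg A B
  rcases eq_or_ne f 1 with rfl | hf1
  · rw [one_mul] at hd
    subst hd
    simp only [Nat.primeFactors_one, Finset.prod_empty, mul_one]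
    exact norm_SS_le_card (m : ZMod d) A B
  have hf0 : f ≠ 0 := hsf.ne_zero
  obtain ⟨q, hq, f', hff⟩ : ∃ q, q.Prime ∧ ∃ f', f = q * f' := by
    refine ⟨f.minFac, Nat.minFac_prime hf1, f / f.minFac, ?_⟩
    exact (Nat.mul_div_cancel' (Nat.minFac_dvd f)).symm
  have hqf' : Nat.Coprime q f' := by
    rw [hff] at hsf
    exact Nat.coprime_of_squarefree_mul hsf
  have hf'0 : f' ≠ 0 := by rintro rfl; simp at hff; exact hf0 hff
  have hf'lt : f' < f := by
    rw [hff]
    calc f' = 1 * f' := (one_mul _).symm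
      _ < q * f' := Nat.mul_lt_mul_of_pos_right hq.one_lt (Nat.pos_of_ne_zero hf'0)
  have hsf' : Squarefree f' := hsf.squarefree_of_dvd (by rw [hff]; exact dvd_mul_left _ _)
  have hf'g : Nat.Coprime f' g := Nat.Coprime.coprime_dvd_left (by rw [hff]; exact dvd_mul_left _ _) hfg
  have hqg : Nat.Coprime q g := Nat.Coprime.coprime_dvd_left (by rw [hff]; exact dvd_mul_right _ _) hfg
  have hd' : d = q * (f' * g) := by rw [hd, hff, mul_assoc]
  obtain ⟨d', hdd'⟩ : ∃ d', d' = f' * g := ⟨_, rfl⟩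
  rw [← hdd'] at hd'
  have hd'0 : d' ≠ 0 := by rw [hdd']; exact mul_ne_zero hf'0 (NeZero.ne g)
  have : NeZero d' := ⟨hd'0⟩
  have : NeZero q := ⟨hq.ne_zero⟩
  have : Fact q.Prime := ⟨hq⟩
  have hcop : Nat.Coprime q d' := by rw [hdd']; exact Nat.Coprime.mul_right hqf' hqg
  subst hd'
  set e := ZMod.chineseRemainder hcop with he
  have hm1 : (e (m : ZMod (q * d'))).1 = (m : ZMod q) := by rw [map_natCast]; rfl
  have hm2 : (e (m : ZMod (q * d'))).2 = (m : ZMod d') := by rw [map_natCast]; rfl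
  rw [SS_prod e, hm1, hm2, norm_mul]
  obtain ⟨hq2, hqm⟩ := hf q hq (by rw [hff]; exact dvd_mul_right _ _)
  have hmq : (m : ZMod q) ≠ 0 := by
    rw [Ne, ZMod.natCast_eq_zero_iff]; exact hqm
  have b1 := norm_SS_prime_le' hmq hq2 (A.compAddMonoidHom (incl₁ e)) (B.compAddMonoidHom (incl₁ e))
  have b2 := ih f' hf'lt hsf' (fun p hp hpf => hf p hp (hpf.trans (by rw [hff]; exact dvd_mul_left _ _)))
    g d' hdd' hf'g (A.compAddMonoidHom (incl₂ e)) (B.compAddMonoidHom (incl₂ e))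
  have hpf : f.primeFactors = insert q f'.primeFactors := by
    rw [hff, Nat.primeFactors_mul hq.ne_zero hf'0, hq.primeFactors]; rfl
  have hqnot : q ∉ f'.primeFactors := by
    intro hmem
    have h1 := Nat.dvd_of_mem_primeFactors hmem
    have h2 := Nat.Coprime.eq_one_of_dvd hqf' h1
    exact hq.one_lt.ne' h2
  rw [hpf, Finset.prod_insert hqnot]
  -- the first factor
  have c1 : (4 * (q : ℝ) ^ (3 / 4 : ℝ) +
      (if A.compAddMonoidHom (incl₁ e) = 0 ∧ B.compAddMonoidHom (incl₁ e) = 0 then 4 * (q : ℝ) else 0))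
      ≤ (4 * (q : ℝ) ^ (3 / 4 : ℝ) +
        (if (q * d' / q) • A = 0 ∧ (q * d' / q) • B = 0 then 4 * (q : ℝ) else 0)) := by
    gcongr
    have key : ∀ C : AddChar (ZMod (q * d')) ℂ, C.compAddMonoidHom (incl₁ e) = 0 →
        (q * d' / q) • C = 0 := by
      intro C hC
      rw [Nat.mul_div_cancel_left _ hq.pos, AddChar.eq_zero_iff]
      intro x
      rw [AddChar.nsmul_apply, addChar_split e C x, hC, AddChar.zero_apply, one_mul,
        ← AddChar.nsmul_apply, nsmul_eq_zero_of_zmod, AddChar.zero_apply]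
    by_cases h : A.compAddMonoidHom (incl₁ e) = 0 ∧ B.compAddMonoidHom (incl₁ e) = 0
    · rw [if_pos h, if_pos ⟨key A h.1, key B h.2⟩]
    · rw [if_neg h]; positivity
  have c2 : ∏ p ∈ f'.primeFactors, (4 * (p : ℝ) ^ (3 / 4 : ℝ) +
      (if (d' / p) • (A.compAddMonoidHom (incl₂ e)) = 0 ∧
        (d' / p) • (B.compAddMonoidHom (incl₂ e)) = 0 then 4 * (p : ℝ) else 0)) ≤
      ∏ p ∈ f'.primeFactors, (4 * (p : ℝ) ^ (3 / 4 : ℝ) +
        (if (q * d' / p) • A = 0 ∧ (q * d' / p) • B = 0 then 4 * (p : ℝ) else 0)) := by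
    apply Finset.prod_le_prod
    · intro p _; positivity
    intro p hp
    gcongr
    have hpd' : p ∣ d' := by rw [hdd']; exact (Nat.dvd_of_mem_primeFactors hp).trans (dvd_mul_right _ _)
    have key : ∀ C : AddChar (ZMod (q * d')) ℂ, (d' / p) • (C.compAddMonoidHom (incl₂ e)) = 0 →
        (q * d' / p) • C = 0 := by
      intro C hC
      rw [Nat.mul_div_assoc _ hpd', AddChar.eq_zero_iff]
      intro x
      rw [AddChar.nsmul_apply, addChar_split e C x, mul_pow, pow_mul, mul_comm q (d' / p), pow_mul,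
        ← AddChar.nsmul_apply, nsmul_eq_zero_of_zmod, AddChar.zero_apply, one_pow, one_mul,
        ← AddChar.nsmul_apply, hC, AddChar.zero_apply, one_pow]
    by_cases h : (d' / p) • (A.compAddMonoidHom (incl₂ e)) = 0 ∧
        (d' / p) • (B.compAddMonoidHom (incl₂ e)) = 0
    · rw [if_pos h, if_pos ⟨key A h.1, key B h.2⟩]
    · rw [if_neg h]; positivity
  calc _ ≤ (4 * (q : ℝ) ^ (3 / 4 : ℝ) +
        (if (q * d' / q) • A = 0 ∧ (q * d' / q) • B = 0 then 4 * (q : ℝ) else 0)) *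
        ((rho m g : ℝ) * ∏ p ∈ f'.primeFactors, (4 * (p : ℝ) ^ (3 / 4 : ℝ) +
        (if (q * d' / p) • A = 0 ∧ (q * d' / p) • B = 0 then 4 * (p : ℝ) else 0))) := by
        apply mul_le_mul (b1.trans c1) (b2.trans (mul_le_mul_of_nonneg_left c2 (by positivity)))
          (norm_nonneg _) (by positivity)
    _ = _ := by ring

end Pool.Agent.Lib.MP1e1427
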