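import Mathlib
import Pool.Agent.Lib.MP_1e1427_nt.SBound

/-!
Counting points of the circle mod `d` in a weighted box of an arithmetic progression.
-/

namespace Pool.Agent.Lib.MP1e1427

open Finset

/-- Fourier transform of the progression `W i`, `i < K`. -/
noncomputable def muh (d W K : ℕ) (A : AddChar (ZMod d) ℂ) : ℂ :=
  ∑ i ∈ range K, A ((W * i : ℕ) : ZMod d)

/-- Number of `x` mod `d` with `z + d' x = 0`. -/
lemma card_fiber_le {d d' : ℕ} [NeZero d] (hd : d' ∣ d) (z : ZMod d) :
    (univ.filter (fun x : ZMod d => z + d' * x = 0)).card ≤ d' := by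
  obtain ⟨e, he⟩ := hd
  have hd0 := NeZero.ne d
  have hd'0 : d' ≠ 0 := by rintro rfl; simp at he; exact hd0 he
  have he0 : e ≠ 0 := by rintro rfl; simp at he; exact hd0 he
  calc _ ≤ (range d').card := by
        apply Finset.card_le_card_of_injOn (fun x => x.val / e)
        · intro x _
          rw [mem_coe, mem_range]
          apply Nat.div_lt_of_lt_mul
          rw [mul_comm, ← he]
          exact ZMod.val_lt x
        · intro x hx x' hx' h
          rw [mem_coe, mem_filter] at hx hx'
          have h1 : (d' : ZMod d) * x = (d' : ZMod d) * x' := by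
            have := hx.2.trans hx'.2.symm
            exact add_left_cancel this
          have h2 : ((d' * x.val : ℕ) : ZMod d) = ((d' * x'.val : ℕ) : ZMod d) := by
            push_cast
            rw [ZMod.natCast_zmod_val, ZMod.natCast_zmod_val]
            exact h1
          rw [ZMod.natCast_eq_natCast_iff] at h2
          have h2' : d' * x.val ≡ d' * x'.val [MOD d' * e] := by rw [← he]; exact h2
          have h3 : x.val ≡ x'.val [MOD e] := Nat.ModEq.mul_left_cancel' hd'0 h2'
          apply ZMod.val_injective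
          have h4 : x.val / e = x'.val / e := h
          rw [← Nat.div_add_mod x.val e, ← Nat.div_add_mod x'.val e, h4]
          congr 1
    _ = d' := card_range _

lemma sum_addChar_nsmul_eq_zero {d d' : ℕ} [NeZero d] (z : ZMod d) :
    ∑ A : AddChar (ZMod d) ℂ, (open Classical in if d' • A = 0 then A z else 0) =
      ((univ.filter (fun x : ZMod d => z + d' * x = 0)).card : ℂ) := by
  classical
  have hd0 : (d : ℂ) ≠ 0 := by exact_mod_cast NeZero.ne d
  have h1 : ∀ A : AddChar (ZMod d) ℂ, (if d' • A = 0 then A z else 0) =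
      (1 / (d : ℂ)) * ∑ x : ZMod d, A (z + d' * x) := by
    intro A
    have h2 := AddChar.sum_eq_ite (d' • A)
    have h3 : ∑ x : ZMod d, A (z + d' * x) = A z * ∑ x : ZMod d, (d' • A) x := by
      rw [mul_sum]
      apply Finset.sum_congr rfl
      intro x _
      rw [AddChar.map_add_eq_mul, AddChar.nsmul_apply, ← AddChar.map_nsmul_eq_pow, nsmul_eq_mul]
    rw [h3, h2]
    split_ifs
    · rw [ZMod.card]; field_simp
    · simp
  simp_rw [h1]
  rw [← mul_sum, Finset.sum_comm]
  simp_rw [AddChar.sum_apply_eq_ite]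
  rw [Finset.sum_ite]
  simp only [sum_const, nsmul_eq_mul, ZMod.card]
  field_simp
  ring

lemma norm_muh_sq {d W K : ℕ} [NeZero d] (A : AddChar (ZMod d) ℂ) :
    ((‖muh d W K A‖ ^ 2 : ℝ) : ℂ) =
      ∑ w ∈ range K ×ˢ range K, A (((W * w.1 : ℕ) : ZMod d) - ((W * w.2 : ℕ) : ZMod d)) := by
  have h3 : ∑ i ∈ range K, A (-((W * i : ℕ) : ZMod d)) = (starRingEnd ℂ) (muh d W K A) := by
    unfold muh
    rw [map_sum]
    apply Finset.sum_congr rfl
    intro v _
    rw [AddChar.map_neg_eq_conj]
  have h4 : ((‖muh d W K A‖ ^ 2 : ℝ) : ℂ) = muh d W K A * (starRingEnd ℂ) (muh d W K A) := by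
    rw [Complex.mul_conj, Complex.normSq_eq_norm_sq]
  rw [h4, ← h3]
  unfold muh
  rw [Finset.sum_mul_sum, ← Finset.sum_product']
  apply Finset.sum_congr rfl
  intro w _
  rw [← AddChar.map_add_eq_mul, sub_eq_add_neg]

/-- Parseval on a subgroup of characters. -/
lemma sum_norm_muh_sq_le {d d' W K : ℕ} [NeZero d] (hd : d' ∣ d) (hW : Nat.Coprime W d) :
    ∑ A : AddChar (ZMod d) ℂ, (open Classical in if d' • A = 0 then ‖muh d W K A‖ ^ 2 else 0)
      ≤ K * (K + d' : ℝ) := by
  classical
  have hd0 := NeZero.ne d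
  have hd'0 : d' ≠ 0 := by rintro rfl; exact hd0 (zero_dvd_iff.mp hd)
  have h1 : ((∑ A : AddChar (ZMod d) ℂ, (if d' • A = 0 then ‖muh d W K A‖ ^ 2 else 0) : ℝ) : ℂ) =
      ((∑ w ∈ range K ×ˢ range K, (univ.filter (fun x : ZMod d =>
        (((W * w.1 : ℕ) : ZMod d) - ((W * w.2 : ℕ) : ZMod d)) + d' * x = 0)).card : ℕ) : ℂ) := by
    push_cast
    have h2 : ∀ w : ℕ × ℕ, ((univ.filter (fun x : ZMod d =>
        (((W * w.1 : ℕ) : ZMod d) - ((W * w.2 : ℕ) : ZMod d)) + d' * x = 0)).card : ℂ) =
        ∑ A : AddChar (ZMod d) ℂ, (if d' • A = 0 then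
          A (((W * w.1 : ℕ) : ZMod d) - ((W * w.2 : ℕ) : ZMod d)) else 0) := by
      intro w
      rw [sum_addChar_nsmul_eq_zero]
    push_cast at h2
    simp_rw [h2]
    rw [Finset.sum_comm]
    apply Finset.sum_congr rfl
    intro A _
    split_ifs
    · have := norm_muh_sq (W := W) (K := K) A
      push_cast at this
      rw [Complex.ofReal_pow, this]
    · simp
  have h2 : (∑ A : AddChar (ZMod d) ℂ, (if d' • A = 0 then ‖muh d W K A‖ ^ 2 else 0)) =
      ((∑ w ∈ range K ×ˢ range K, (univ.filter (fun x : ZMod d =>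
        (((W * w.1 : ℕ) : ZMod d) - ((W * w.2 : ℕ) : ZMod d)) + d' * x = 0)).card : ℕ) : ℝ) := by
    exact_mod_cast h1
  rw [h2]
  have h3 : ∑ w ∈ range K ×ˢ range K, (univ.filter (fun x : ZMod d =>
        (((W * w.1 : ℕ) : ZMod d) - ((W * w.2 : ℕ) : ZMod d)) + d' * x = 0)).card ≤
      K * (K + d') := by
    have h4 : ∀ w ∈ range K ×ˢ range K, (univ.filter (fun x : ZMod d =>
        (((W * w.1 : ℕ) : ZMod d) - ((W * w.2 : ℕ) : ZMod d)) + d' * x = 0)).card ≤
        if w.2 ≡ w.1 [MOD d'] then d' else 0 := by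
      intro w _
      split_ifs with h
      · exact card_fiber_le hd _
      · rw [Nat.le_zero, Finset.card_eq_zero, Finset.filter_eq_empty_iff]
        intro x _ hx
        apply h
        have h5 := congrArg (ZMod.castHom hd (ZMod d')) hx
        rw [map_add, map_mul, map_sub, map_natCast, map_natCast, map_natCast, map_zero] at h5
        rw [ZMod.natCast_self, zero_mul, add_zero, sub_eq_zero, ZMod.natCast_eq_natCast_iff] at h5
        have hWd' : Nat.Coprime d' W := (Nat.Coprime.coprime_dvd_right hd hW).symm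
        exact (Nat.ModEq.cancel_left_of_coprime hWd' h5).symm
    calc _ ≤ ∑ w ∈ range K ×ˢ range K, (if w.2 ≡ w.1 [MOD d'] then d' else 0) :=
          Finset.sum_le_sum h4
      _ = ∑ i ∈ range K, ∑ j ∈ range K, (if j ≡ i [MOD d'] then d' else 0) := by
          rw [Finset.sum_product]
      _ ≤ ∑ i ∈ range K, (K + d') := by
          apply Finset.sum_le_sum
          intro i _
          rw [← Finset.sum_filter, Finset.sum_const, smul_eq_mul]
          have h6 : ((range K).filter (fun j => j ≡ i [MOD d'])).card = K.count (· ≡ i [MOD d']) := by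
            rw [Nat.count_eq_card_filter_range]
          rw [h6, Nat.count_modEq_card _ (Nat.pos_of_ne_zero hd'0)]
          have h7 : K / d' * d' ≤ K := Nat.div_mul_le_self K d'
          rw [add_mul]
          split_ifs <;> omega
      _ = K * (K + d') := by rw [sum_const, card_range, smul_eq_mul]
  exact_mod_cast h3

end Pool.Agent.Lib.MP1e1427
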