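import Mathlib
import Pool.Agent.Lib.MP_1e1427_nt.Compl

/-!
Counting points of the circle mod `d` in a weighted box: main term and error term.
-/

namespace Pool.Agent.Lib.MP1e1427

open Finset

/-- The progression. -/
def bpt (a₀ W : ℕ) (w : ℕ × ℕ) : ℕ := a₀ + W * (w.1 + w.2)

/-- The index box. -/
def ibox (K : ℕ) : Finset ((ℕ × ℕ) × (ℕ × ℕ)) := (range K ×ˢ range K) ×ˢ (range K ×ˢ range K)

/-- Number of points of the box on the circle mod `d`. -/
def cnt (m d W K a₀ b₀ : ℕ) : ℕ :=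
  ((ibox K).filter (fun w => ((bpt a₀ W w.1 : ℕ) : ZMod d) ^ 2 + ((bpt b₀ W w.2 : ℕ) : ZMod d) ^ 2
    = (m : ZMod d))).card

lemma indicator_circ {d : ℕ} [NeZero d] (m X Y : ZMod d) :
    (if X ^ 2 + Y ^ 2 = m then (1 : ℂ) else 0) =
      (1 / (d : ℂ) ^ 2) * ∑ A : AddChar (ZMod d) ℂ, ∑ B : AddChar (ZMod d) ℂ,
        A X * B Y * SS (ZMod d) m (-A) (-B) := by
  have hd0 : (d : ℂ) ≠ 0 := by exact_mod_cast NeZero.ne d
  have h1 : ∑ A : AddChar (ZMod d) ℂ, ∑ B : AddChar (ZMod d) ℂ,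
        A X * B Y * SS (ZMod d) m (-A) (-B) =
      ∑ v ∈ circ (ZMod d) m, (∑ A : AddChar (ZMod d) ℂ, A (X - v.1)) *
        (∑ B : AddChar (ZMod d) ℂ, B (Y - v.2)) := by
    unfold SS
    simp_rw [Finset.mul_sum, Finset.sum_mul]
    rw [Finset.sum_congr rfl (fun A _ => Finset.sum_comm)]
    rw [Finset.sum_comm]
    apply Finset.sum_congr rfl
    intro v _
    rw [Finset.sum_comm]
    apply Finset.sum_congr rfl
    intro B _
    apply Finset.sum_congr rfl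
    intro A _
    rw [sub_eq_add_neg, sub_eq_add_neg, AddChar.map_add_eq_mul, AddChar.map_add_eq_mul,
      AddChar.neg_apply, AddChar.neg_apply]
    ring
  rw [h1]
  simp_rw [AddChar.sum_apply_eq_ite, sub_eq_zero, ZMod.card]
  have h2 : ∀ v ∈ circ (ZMod d) m, (if X = v.1 then (d : ℂ) else 0) * (if Y = v.2 then (d : ℂ) else 0)
      = if v = (X, Y) then (d : ℂ) ^ 2 else 0 := by
    intro v _
    by_cases hx : X = v.1
    · by_cases hy : Y = v.2
      · rw [if_pos hx, if_pos hy, if_pos (by rw [hx, hy])]; ring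
      · rw [if_neg hy, mul_zero, if_neg (by rintro rfl; exact hy rfl)]
    · rw [if_neg hx, zero_mul, if_neg (by rintro rfl; exact hx rfl)]
  rw [Finset.sum_congr rfl h2, Finset.sum_ite_eq' , mul_ite, mul_zero]
  simp only [mem_circ]
  congr 1
  field_simp

lemma cnt_eq {m d W K a₀ b₀ : ℕ} [NeZero d] :
    ((cnt m d W K a₀ b₀ : ℕ) : ℂ) =
      (1 / (d : ℂ) ^ 2) * ∑ A : AddChar (ZMod d) ℂ, ∑ B : AddChar (ZMod d) ℂ,
        SS (ZMod d) (m : ZMod d) (-A) (-B) * (A (a₀ : ZMod d) * muh d W K A ^ 2) *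
          (B (b₀ : ZMod d) * muh d W K B ^ 2) := by
  have h1 : ∀ (A : AddChar (ZMod d) ℂ) (c : ℕ), A (c : ZMod d) * muh d W K A ^ 2 =
      ∑ u ∈ range K ×ˢ range K, A ((bpt c W u : ℕ) : ZMod d) := by
    intro A c
    unfold muh
    rw [sq, Finset.sum_mul_sum, ← Finset.sum_product', Finset.mul_sum]
    apply Finset.sum_congr rfl
    intro u _
    rw [← AddChar.map_add_eq_mul, ← AddChar.map_add_eq_mul]
    congr 1
    unfold bpt
    push_cast
    ring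
  have h2 : ((cnt m d W K a₀ b₀ : ℕ) : ℂ) = ∑ w ∈ ibox K,
      (if ((bpt a₀ W w.1 : ℕ) : ZMod d) ^ 2 + ((bpt b₀ W w.2 : ℕ) : ZMod d) ^ 2
    = (m : ZMod d) then (1 : ℂ) else 0) := by
    unfold cnt
    rw [Finset.sum_ite]
    simp
  rw [h2]
  simp_rw [indicator_circ]
  rw [← Finset.mul_sum]
  congr 1
  rw [Finset.sum_comm]
  apply Finset.sum_congr rfl
  intro A _
  rw [Finset.sum_comm]
  apply Finset.sum_congr rfl
  intro B _
  rw [mul_assoc, h1, h1, Finset.sum_mul_sum, ← Finset.sum_product', Finset.mul_sum]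
  unfold ibox
  apply Finset.sum_congr rfl
  intro w _
  ring

lemma muh_zero {d W K : ℕ} : muh d W K 0 = K := by
  simp [muh]

/-- Separate the trivial characters. -/
lemma cnt_sub_main_le {m d W K a₀ b₀ : ℕ} [NeZero d] :
    |((cnt m d W K a₀ b₀ : ℕ) : ℝ) - (K : ℝ) ^ 4 * rho m d / (d : ℝ) ^ 2| ≤
      (1 / (d : ℝ) ^ 2) * ∑ C : AddChar (ZMod d) ℂ × AddChar (ZMod d) ℂ,
        (open Classical in if C = 0 then 0 else
          ‖SS (ZMod d) (m : ZMod d) (-C.1) (-C.2)‖ * (‖muh d W K C.1‖ ^ 2 * ‖muh d W K C.2‖ ^ 2)) := by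
  classical
  have h0 : ((((cnt m d W K a₀ b₀ : ℕ) : ℝ) - (K : ℝ) ^ 4 * rho m d / (d : ℝ) ^ 2 : ℝ) : ℂ) =
      (1 / (d : ℂ) ^ 2) * ∑ C : AddChar (ZMod d) ℂ × AddChar (ZMod d) ℂ,
        (if C = 0 then 0 else SS (ZMod d) (m : ZMod d) (-C.1) (-C.2) *
          (C.1 (a₀ : ZMod d) * muh d W K C.1 ^ 2) * (C.2 (b₀ : ZMod d) * muh d W K C.2 ^ 2)) := by
    push_cast
    rw [cnt_eq, ← Finset.sum_product', Finset.univ_product_univ]
    have h1 : ∀ C : AddChar (ZMod d) ℂ × AddChar (ZMod d) ℂ,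
        (if C = 0 then 0 else SS (ZMod d) (m : ZMod d) (-C.1) (-C.2) *
          (C.1 (a₀ : ZMod d) * muh d W K C.1 ^ 2) * (C.2 (b₀ : ZMod d) * muh d W K C.2 ^ 2)) =
        SS (ZMod d) (m : ZMod d) (-C.1) (-C.2) *
          (C.1 (a₀ : ZMod d) * muh d W K C.1 ^ 2) * (C.2 (b₀ : ZMod d) * muh d W K C.2 ^ 2) -
        (if C = 0 then (K : ℂ) ^ 4 * rho m d else 0) := by
      intro C
      split_ifs with h
      · subst h
        simp only [Prod.fst_zero, Prod.snd_zero, neg_zero, SS_zero, AddChar.zero_apply, muh_zero, rho]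
        ring
      · ring
    simp_rw [h1]
    rw [Finset.sum_sub_distrib, Finset.sum_ite_eq' univ (0 : AddChar (ZMod d) ℂ × AddChar (ZMod d) ℂ)]
    simp only [mem_univ, if_true]
    ring
  have h1 : |((cnt m d W K a₀ b₀ : ℕ) : ℝ) - (K : ℝ) ^ 4 * rho m d / (d : ℝ) ^ 2| =
      ‖((((cnt m d W K a₀ b₀ : ℕ) : ℝ) - (K : ℝ) ^ 4 * rho m d / (d : ℝ) ^ 2 : ℝ) : ℂ)‖ := by
    rw [Complex.norm_real, Real.norm_eq_abs]
  rw [h1, h0, norm_mul]
  have h2 : ‖(1 / (d : ℂ) ^ 2)‖ = 1 / (d : ℝ) ^ 2 := by simp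
  rw [h2]
  apply mul_le_mul_of_nonneg_left _ (by positivity)
  apply (norm_sum_le _ _).trans
  apply Finset.sum_le_sum
  intro C _
  split_ifs
  · simp
  · rw [norm_mul, norm_mul, norm_mul, norm_mul, norm_pow, norm_pow, AddChar.norm_apply,
      AddChar.norm_apply]
    apply le_of_eq
    ring

end Pool.Agent.Lib.MP1e1427
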