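import Mathlib
import Pool.Agent.Lib.MP_1e1427_nt.Compl2

/-!
Error term for the number of points of the circle mod `d` in a weighted box.
-/

namespace Pool.Agent.Lib.MP1e1427

open Finset

lemma nsmul_div_prod_eq_zero {d : ℕ} [NeZero d] (A : AddChar (ZMod d) ℂ) (T : Finset ℕ)
    (hT : ∀ p ∈ T, p.Prime) (hTd : ∀ p ∈ T, p ∣ d) (h : ∀ p ∈ T, (d / p) • A = 0) :
    (d / ∏ p ∈ T, p) • A = 0 := by
  have hd0 : d ≠ 0 := NeZero.ne d
  have ho : addOrderOf A ∣ d := addOrderOf_dvd_iff_nsmul_eq_zero.mpr (nsmul_eq_zero_of_zmod A)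
  obtain ⟨k, hk⟩ := ho
  have ho0 : 0 < addOrderOf A := Nat.pos_of_ne_zero (by intro h0; rw [h0] at hk; simp at hk; exact hd0 hk)
  have h1 : ∀ p ∈ T, p ∣ k := by
    intro p hp
    have h2 := addOrderOf_dvd_iff_nsmul_eq_zero.mpr (h p hp)
    obtain ⟨l, hl⟩ := h2
    have h3 : d = p * (d / p) := (Nat.mul_div_cancel' (hTd p hp)).symm
    rw [hl] at h3
    have h4 : addOrderOf A * k = addOrderOf A * (p * l) :=
      calc addOrderOf A * k = d := hk.symm
        _ = p * (addOrderOf A * l) := h3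
        _ = _ := by ring
    exact ⟨l, Nat.eq_of_mul_eq_mul_left ho0 h4⟩
  have h2 : ∏ p ∈ T, p ∣ k := Finset.prod_primes_dvd k (fun p hp => (hT p hp).prime) h1
  obtain ⟨l, hl⟩ := h2
  have hT0 : 0 < ∏ p ∈ T, p := Finset.prod_pos (fun p hp => (hT p hp).pos)
  rw [← addOrderOf_dvd_iff_nsmul_eq_zero]
  refine ⟨l, ?_⟩
  apply Nat.div_eq_of_eq_mul_right hT0
  calc d = addOrderOf A * k := hk
    _ = _ := by rw [hl]; ring

lemma sum_ne_zero_le {d d' W K : ℕ} [NeZero d] (hd : d' ∣ d) (hW : Nat.Coprime W d) :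
    ∑ C : AddChar (ZMod d) ℂ × AddChar (ZMod d) ℂ,
      (open Classical in if C = 0 then 0 else
        (if d' • C.1 = 0 ∧ d' • C.2 = 0 then ‖muh d W K C.1‖ ^ 2 * ‖muh d W K C.2‖ ^ 2 else 0))
      ≤ 2 * (K : ℝ) ^ 3 * d' + (K : ℝ) ^ 2 * (d' : ℝ) ^ 2 := by
  classical
  have h1 : ∀ C : AddChar (ZMod d) ℂ × AddChar (ZMod d) ℂ, (if C = 0 then 0 else
        (if d' • C.1 = 0 ∧ d' • C.2 = 0 then ‖muh d W K C.1‖ ^ 2 * ‖muh d W K C.2‖ ^ 2 else 0)) =
      (if d' • C.1 = 0 then ‖muh d W K C.1‖ ^ 2 else 0) *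
        (if d' • C.2 = 0 then ‖muh d W K C.2‖ ^ 2 else 0) - (if C = 0 then (K : ℝ) ^ 4 else 0) := by
    intro C
    by_cases h : C = 0
    · subst h
      simp only [if_true, Prod.fst_zero, Prod.snd_zero, muh_zero]
      simp
      ring
    · rw [if_neg h, if_neg h, sub_zero]
      by_cases h1 : d' • C.1 = 0
      · by_cases h2 : d' • C.2 = 0
        · rw [if_pos ⟨h1, h2⟩, if_pos h1, if_pos h2]
        · rw [if_neg (fun h => h2 h.2), if_neg h2, mul_zero]
      · rw [if_neg (fun h => h1 h.1), if_neg h1, zero_mul]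
  simp_rw [h1]
  rw [Finset.sum_sub_distrib, Finset.sum_ite_eq' univ (0 : AddChar (ZMod d) ℂ × AddChar (ZMod d) ℂ)]
  simp only [mem_univ, if_true]
  have h5 : ∑ C : AddChar (ZMod d) ℂ × AddChar (ZMod d) ℂ,
      (if d' • C.1 = 0 then ‖muh d W K C.1‖ ^ 2 else 0) *
        (if d' • C.2 = 0 then ‖muh d W K C.2‖ ^ 2 else 0) =
      (∑ A : AddChar (ZMod d) ℂ, (if d' • A = 0 then ‖muh d W K A‖ ^ 2 else 0)) *
      (∑ A : AddChar (ZMod d) ℂ, (if d' • A = 0 then ‖muh d W K A‖ ^ 2 else 0)) := by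
    rw [Finset.sum_mul_sum, ← Finset.sum_product', Finset.univ_product_univ]
  rw [h5]
  have h2 := sum_norm_muh_sq_le (K := K) hd hW
  have h3 : 0 ≤ ∑ A : AddChar (ZMod d) ℂ, (if d' • A = 0 then ‖muh d W K A‖ ^ 2 else 0) :=
    Finset.sum_nonneg (fun _ _ => by positivity)
  have h4 := mul_le_mul h2 h2 h3 (by positivity)
  calc _ ≤ (K * (K + d' : ℝ)) * (K * (K + d' : ℝ)) - (K : ℝ) ^ 4 := by
        apply sub_le_sub_right
        convert h4
    _ = _ := by ring

theorem cnt_error (m f g d W K a₀ b₀ : ℕ) [NeZero d] [NeZero g] (hd : d = f * g)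
    (hsf : Squarefree f) (hf : ∀ p, p.Prime → p ∣ f → p ≠ 2 ∧ ¬ p ∣ m) (hfg : Nat.Coprime f g)
    (hW : Nat.Coprime W d) :
    |((cnt m d W K a₀ b₀ : ℕ) : ℝ) - (K : ℝ) ^ 4 * rho m d / (d : ℝ) ^ 2| ≤
      rho m g * 8 ^ f.primeFactors.card * (f : ℝ) ^ (3 / 4 : ℝ) *
        (2 * (K : ℝ) ^ 3 / d + (K : ℝ) ^ 2) := by
  classical
  have hd0 : (0 : ℝ) < d := by exact_mod_cast Nat.pos_of_ne_zero (NeZero.ne d)
  refine (cnt_sub_main_le).trans ?_
  set P := f.primeFactors with hP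
  -- pointwise bound
  have hb : ∀ C : AddChar (ZMod d) ℂ × AddChar (ZMod d) ℂ,
      ‖SS (ZMod d) (m : ZMod d) (-C.1) (-C.2)‖ ≤ rho m g * ∑ T ∈ P.powerset,
        ((∏ p ∈ T, 4 * (p : ℝ)) * ∏ p ∈ P \ T, (4 * (p : ℝ) ^ (3 / 4 : ℝ))) *
        (if (d / ∏ p ∈ T, p) • C.1 = 0 ∧ (d / ∏ p ∈ T, p) • C.2 = 0 then 1 else 0) := by
    intro C
    refine (norm_SS_le m f hsf hf g d hd hfg (-C.1) (-C.2)).trans ?_
    apply mul_le_mul_of_nonneg_left _ (by positivity)
    have h1 : ∏ p ∈ f.primeFactors, (4 * (p : ℝ) ^ (3 / 4 : ℝ) +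
        (if (d / p) • (-C.1) = 0 ∧ (d / p) • (-C.2) = 0 then 4 * (p : ℝ) else 0)) =
        ∏ p ∈ f.primeFactors, ((if (d / p) • (-C.1) = 0 ∧ (d / p) • (-C.2) = 0 then 4 * (p : ℝ) else 0)
          + 4 * (p : ℝ) ^ (3 / 4 : ℝ)) := by
      apply Finset.prod_congr rfl
      intro p _
      ring
    rw [h1, Finset.prod_add]
    apply Finset.sum_le_sum
    intro T hT
    rw [Finset.mem_powerset] at hT
    rw [mul_right_comm]
    apply mul_le_mul_of_nonneg_right _ (by positivity)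
    by_cases hall : ∀ p ∈ T, (d / p) • (-C.1) = 0 ∧ (d / p) • (-C.2) = 0
    · rw [Finset.prod_congr rfl (fun p hp => if_pos (hall p hp)), if_pos, mul_one]
      have hTp : ∀ p ∈ T, p.Prime := fun p hp => Nat.prime_of_mem_primeFactors (hT hp)
      have hTd : ∀ p ∈ T, p ∣ d := fun p hp => by
        rw [hd]; exact (Nat.dvd_of_mem_primeFactors (hT hp)).trans (dvd_mul_right _ _)
      constructor
      · apply nsmul_div_prod_eq_zero C.1 T hTp hTd
        intro p hp
        have := (hall p hp).1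
        rwa [smul_neg, neg_eq_zero] at this
      · apply nsmul_div_prod_eq_zero C.2 T hTp hTd
        intro p hp
        have := (hall p hp).2
        rwa [smul_neg, neg_eq_zero] at this
    · push Not at hall
      obtain ⟨p, hp, hpn⟩ := hall
      rw [Finset.prod_eq_zero hp]
      · positivity
      · rw [if_neg]
        rintro ⟨h1, h2⟩
        exact hpn h1 h2
  -- sum over C
  have hsum : ∑ C : AddChar (ZMod d) ℂ × AddChar (ZMod d) ℂ, (if C = 0 then 0 else
      ‖SS (ZMod d) (m : ZMod d) (-C.1) (-C.2)‖ * (‖muh d W K C.1‖ ^ 2 * ‖muh d W K C.2‖ ^ 2)) ≤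
      rho m g * ∑ T ∈ P.powerset, ((∏ p ∈ T, 4 * (p : ℝ)) * ∏ p ∈ P \ T, (4 * (p : ℝ) ^ (3 / 4 : ℝ))) *
        (2 * (K : ℝ) ^ 3 * ((d / ∏ p ∈ T, p : ℕ) : ℝ) + (K : ℝ) ^ 2 * ((d / ∏ p ∈ T, p : ℕ) : ℝ) ^ 2) := by
    calc _ ≤ ∑ C : AddChar (ZMod d) ℂ × AddChar (ZMod d) ℂ, rho m g * ∑ T ∈ P.powerset,
        ((∏ p ∈ T, 4 * (p : ℝ)) * ∏ p ∈ P \ T, (4 * (p : ℝ) ^ (3 / 4 : ℝ))) *
        (if C = 0 then 0 else (if (d / ∏ p ∈ T, p) • C.1 = 0 ∧ (d / ∏ p ∈ T, p) • C.2 = 0 then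
          ‖muh d W K C.1‖ ^ 2 * ‖muh d W K C.2‖ ^ 2 else 0)) := by
          apply Finset.sum_le_sum
          intro C _
          by_cases h : C = 0
          · rw [if_pos h]
            apply mul_nonneg (by positivity)
            apply Finset.sum_nonneg
            intro T _
            rw [if_pos h, mul_zero]
          · rw [if_neg h]
            calc _ ≤ (rho m g * ∑ T ∈ P.powerset,
                ((∏ p ∈ T, 4 * (p : ℝ)) * ∏ p ∈ P \ T, (4 * (p : ℝ) ^ (3 / 4 : ℝ))) *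
                (if (d / ∏ p ∈ T, p) • C.1 = 0 ∧ (d / ∏ p ∈ T, p) • C.2 = 0 then 1 else 0)) *
                (‖muh d W K C.1‖ ^ 2 * ‖muh d W K C.2‖ ^ 2) :=
                  mul_le_mul_of_nonneg_right (hb C) (by positivity)
              _ = _ := by
                  rw [mul_assoc, Finset.sum_mul]
                  congr 1
                  apply Finset.sum_congr rfl
                  intro T _
                  rw [if_neg h]
                  split_ifs <;> ring
      _ = rho m g * ∑ T ∈ P.powerset,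
          ((∏ p ∈ T, 4 * (p : ℝ)) * ∏ p ∈ P \ T, (4 * (p : ℝ) ^ (3 / 4 : ℝ))) *
          ∑ C : AddChar (ZMod d) ℂ × AddChar (ZMod d) ℂ, (if C = 0 then 0 else
          (if (d / ∏ p ∈ T, p) • C.1 = 0 ∧ (d / ∏ p ∈ T, p) • C.2 = 0 then
          ‖muh d W K C.1‖ ^ 2 * ‖muh d W K C.2‖ ^ 2 else 0)) := by
          rw [← Finset.mul_sum, Finset.sum_comm]
          congr 1
          apply Finset.sum_congr rfl
          intro T _
          rw [Finset.mul_sum]
      _ ≤ _ := by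
          apply mul_le_mul_of_nonneg_left _ (by positivity)
          apply Finset.sum_le_sum
          intro T hT
          rw [Finset.mem_powerset] at hT
          apply mul_le_mul_of_nonneg_left _ (by positivity)
          have hTd : ∏ p ∈ T, p ∣ d := by
            rw [hd]
            refine dvd_trans ?_ (dvd_mul_right f g)
            rw [← Nat.prod_primeFactors_of_squarefree hsf]
            exact Finset.prod_dvd_prod_of_subset _ _ _ hT
          have hdT : d / ∏ p ∈ T, p ∣ d := Nat.div_dvd_of_dvd hTd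
          exact sum_ne_zero_le hdT hW
  calc _ ≤ (1 / (d : ℝ) ^ 2) * (rho m g * ∑ T ∈ P.powerset,
        ((∏ p ∈ T, 4 * (p : ℝ)) * ∏ p ∈ P \ T, (4 * (p : ℝ) ^ (3 / 4 : ℝ))) *
        (2 * (K : ℝ) ^ 3 * ((d / ∏ p ∈ T, p : ℕ) : ℝ) + (K : ℝ) ^ 2 * ((d / ∏ p ∈ T, p : ℕ) : ℝ) ^ 2)) := by
        apply mul_le_mul_of_nonneg_left _ (by positivity)
        convert hsum
    _ = rho m g * ∑ T ∈ P.powerset, (1 / (d : ℝ) ^ 2) *
        (((∏ p ∈ T, 4 * (p : ℝ)) * ∏ p ∈ P \ T, (4 * (p : ℝ) ^ (3 / 4 : ℝ))) *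
        (2 * (K : ℝ) ^ 3 * ((d / ∏ p ∈ T, p : ℕ) : ℝ) + (K : ℝ) ^ 2 * ((d / ∏ p ∈ T, p : ℕ) : ℝ) ^ 2)) := by
        rw [← Finset.mul_sum]; ring
    _ ≤ rho m g * ∑ T ∈ P.powerset, (4 ^ P.card * (f : ℝ) ^ (3 / 4 : ℝ) *
        (2 * (K : ℝ) ^ 3 / d + (K : ℝ) ^ 2)) := by
        apply mul_le_mul_of_nonneg_left _ (by positivity)
        apply Finset.sum_le_sum
        intro T hT
        rw [Finset.mem_powerset] at hT
        have hTp : ∀ p ∈ T, p.Prime := fun p hp => Nat.prime_of_mem_primeFactors (hT hp)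
        have hTd : ∏ p ∈ T, p ∣ d := by
          rw [hd]
          refine dvd_trans ?_ (dvd_mul_right f g)
          rw [← Nat.prod_primeFactors_of_squarefree hsf]
          exact Finset.prod_dvd_prod_of_subset _ _ _ hT
        have hT0 : 0 < ∏ p ∈ T, p := Finset.prod_pos (fun p hp => (hTp p hp).pos)
        set e := ∏ p ∈ T, p with he
        have he1 : (1 : ℝ) ≤ e := by exact_mod_cast hT0
        have h1 : ((d / e : ℕ) : ℝ) = d / e := Nat.cast_div hTd (by exact_mod_cast hT0.ne')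
        rw [h1]
        have h2 : (∏ p ∈ T, 4 * (p : ℝ)) = 4 ^ T.card * e := by
          rw [Finset.prod_mul_distrib, Finset.prod_const, he]; push_cast; rfl
        have h3 : ∏ p ∈ P \ T, (4 * (p : ℝ) ^ (3 / 4 : ℝ)) =
            4 ^ (P \ T).card * ∏ p ∈ P \ T, (p : ℝ) ^ (3 / 4 : ℝ) := by
          rw [Finset.prod_mul_distrib, Finset.prod_const]
        have h4 : ∏ p ∈ P \ T, (p : ℝ) ^ (3 / 4 : ℝ) ≤ (f : ℝ) ^ (3 / 4 : ℝ) := by
          have h5 : (f : ℝ) ^ (3 / 4 : ℝ) = ∏ p ∈ P, (p : ℝ) ^ (3 / 4 : ℝ) := by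
            rw [Real.finsetProd_rpow _ _ (fun _ _ => by positivity)]
            congr 1
            conv_lhs => rw [← Nat.prod_primeFactors_of_squarefree hsf]
            push_cast; rfl
          rw [h5]
          rw [← Finset.prod_sdiff hT]
          apply le_mul_of_one_le_right (by positivity)
          calc (1 : ℝ) = ∏ p ∈ T, 1 := by simp
            _ ≤ _ := by
              apply Finset.prod_le_prod (fun _ _ => zero_le_one)
              intro p hp
              apply Real.one_le_rpow _ (by norm_num)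
              exact_mod_cast (hTp p hp).one_lt.le
        have h5 : T.card + (P \ T).card = P.card := by
          rw [Finset.card_sdiff_of_subset hT]
          have := Finset.card_le_card hT
          omega
        rw [h2, h3]
        have h6 : (4 : ℝ) ^ T.card * 4 ^ (P \ T).card = 4 ^ P.card := by
          rw [← pow_add, h5]
        calc _ = (4 ^ T.card * 4 ^ (P \ T).card) * (∏ p ∈ P \ T, (p : ℝ) ^ (3 / 4 : ℝ)) *
              (2 * (K : ℝ) ^ 3 / d + (K : ℝ) ^ 2 / e) := by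
              field_simp
          _ = 4 ^ P.card * (∏ p ∈ P \ T, (p : ℝ) ^ (3 / 4 : ℝ)) *
              (2 * (K : ℝ) ^ 3 / d + (K : ℝ) ^ 2 / e) := by rw [h6]
          _ ≤ _ := by
              apply mul_le_mul
              · exact mul_le_mul_of_nonneg_left h4 (by positivity)
              · gcongr
                exact div_le_self (by positivity) he1
              · positivity
              · positivity
    _ = _ := by
        rw [Finset.sum_const, Finset.card_powerset, nsmul_eq_mul]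
        push_cast
        have : (8 : ℝ) ^ P.card = 2 ^ P.card * 4 ^ P.card := by
          rw [← mul_pow]; norm_num
        rw [this]
        ring

end Pool.Agent.Lib.MP1e1427
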