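import Mathlib

/-!
Detecting sums of two squares: if `Q ≡ 1 mod 4` is not a sum of two squares, then
`∑_{d ∣ Q, d² < Q} χ₄(d) = 0`.
-/

namespace Pool.Agent.Lib.MP1e1427

open Finset ArithmeticFunction

/-- The nontrivial character mod 4 as an arithmetic function. -/
def chi : ArithmeticFunction ℤ := ⟨fun n => ZMod.χ₄ (n : ZMod 4), by simp⟩

lemma chi_apply (n : ℕ) : chi n = ZMod.χ₄ (n : ZMod 4) := rfl

lemma chi_one : chi 1 = 1 := by rw [chi_apply]; decide

lemma chi_mul' (a b : ℕ) : chi (a * b) = chi a * chi b := by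
  rw [chi_apply, chi_apply, chi_apply, Nat.cast_mul, map_mul]

lemma chi_pow' (a k : ℕ) : chi (a ^ k) = chi a ^ k := by
  rw [chi_apply, chi_apply, Nat.cast_pow, map_pow]

lemma chi_isMultiplicative : chi.IsMultiplicative := by
  refine ⟨chi_one, fun {a b} _ => chi_mul' a b⟩

lemma chi_of_one {n : ℕ} (h : n % 4 = 1) : chi n = 1 := by
  rw [chi_apply, ← ZMod.natCast_mod, h]; decide

lemma chi_of_three {n : ℕ} (h : n % 4 = 3) : chi n = -1 := by
  rw [chi_apply, ← ZMod.natCast_mod, h]; decide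

lemma chi_of_even {n : ℕ} (h : n % 2 = 0) : chi n = 0 := by
  have h4 : n % 4 = 0 ∨ n % 4 = 2 := by omega
  rcases h4 with h4 | h4 <;> rw [chi_apply, ← ZMod.natCast_mod, h4] <;> decide

lemma chi_sq_of_odd {n : ℕ} (h : n % 2 = 1) : chi n ^ 2 = 1 := by
  have h4 : n % 4 = 1 ∨ n % 4 = 3 := by omega
  rcases h4 with h4 | h4
  · rw [chi_of_one h4]; norm_num
  · rw [chi_of_three h4]; norm_num

lemma abs_chi_le (n : ℕ) : |chi n| ≤ 1 := by
  have h4 : n % 4 = 1 ∨ n % 4 = 3 ∨ n % 2 = 0 := by omega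
  rcases h4 with h4 | h4 | h4
  · rw [chi_of_one h4]; norm_num
  · rw [chi_of_three h4]; norm_num
  · rw [chi_of_even h4]; norm_num

/-- If `Q` is not a sum of two squares then `∑_{d ∣ Q} χ₄(d) = 0`. -/
lemma sum_divisors_chi_eq_zero {Q : ℕ} (hQ : ¬ ∃ u v : ℕ, Q = u ^ 2 + v ^ 2) :
    ∑ d ∈ Q.divisors, chi d = 0 := by
  rw [Nat.eq_sq_add_sq_iff] at hQ
  push Not at hQ
  obtain ⟨q, hq, hq4, hodd⟩ := hQ
  have hqp := Nat.prime_of_mem_primeFactors hq
  have hQ0 : Q ≠ 0 := by rintro rfl; simp at hq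
  have : Fact q.Prime := ⟨hqp⟩
  rw [Nat.not_even_iff_odd] at hodd
  have hmul : (chi * (zeta : ArithmeticFunction ℤ)).IsMultiplicative :=
    chi_isMultiplicative.mul isMultiplicative_zeta.natCast
  have e1 : ∑ d ∈ Q.divisors, chi d = (chi * (zeta : ArithmeticFunction ℤ)) Q := by
    rw [coe_mul_zeta_apply]
  obtain ⟨e, he⟩ : ∃ e, e = padicValNat q Q := ⟨_, rfl⟩
  have hQe : Q = q ^ e * (Q / q ^ e) := by
    rw [he]; exact (Nat.mul_div_cancel' (pow_padicValNat_dvd)).symm
  have hcop : Nat.Coprime (q ^ e) (Q / q ^ e) := by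
    apply Nat.Coprime.pow_left
    rw [he, ← Nat.factorization_def Q hqp]
    exact Nat.coprime_ordCompl hqp hQ0
  rw [e1, hQe, hmul.map_mul_of_coprime hcop, coe_mul_zeta_apply, Nat.sum_divisors_prime_pow hqp]
  have : ∑ k ∈ range (e + 1), chi (q ^ k) = 0 := by
    simp_rw [chi_pow', chi_of_three hq4]
    obtain ⟨j, hj⟩ := he ▸ hodd
    have h2 : e + 1 = 2 * (j + 1) := by omega
    rw [h2]
    clear h2 hj hcop hQe he
    induction j with
    | zero => decide
    | succ j ih =>
      rw [show 2 * (j + 1 + 1) = 2 * (j + 1) + 1 + 1 by ring, sum_range_succ, sum_range_succ, ih]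
      simp [pow_succ, pow_mul]
  rw [this, zero_mul]

/-- If `Q ≡ 1 mod 4` is not a sum of two squares then `∑_{d ∣ Q, d² < Q} χ₄(d) = 0`. -/
theorem sum_small_divisors_chi_eq_zero {Q : ℕ} (hQ4 : Q % 4 = 1)
    (hQ : ¬ ∃ u v : ℕ, Q = u ^ 2 + v ^ 2) :
    ∑ d ∈ Q.divisors with d * d < Q, chi d = 0 := by
  have h0 := sum_divisors_chi_eq_zero hQ
  have hQ0 : Q ≠ 0 := by omega
  have hns : ∀ d, d * d ≠ Q := by
    intro d hd
    exact hQ ⟨d, 0, by rw [← hd]; ring⟩
  have hsym : ∑ d ∈ Q.divisors with ¬ d * d < Q, chi d =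
      ∑ d ∈ Q.divisors with d * d < Q, chi d := by
    symm
    apply Finset.sum_bij' (fun d _ => Q / d) (fun d _ => Q / d)
    · intro d hd
      rw [mem_filter, Nat.mem_divisors] at hd ⊢
      obtain ⟨⟨⟨k, hk⟩, _⟩, hlt⟩ := hd
      have hd0 : 0 < d := Nat.pos_of_ne_zero (by rintro rfl; omega)
      have : Q / d = k := by rw [hk]; exact Nat.mul_div_cancel_left k hd0
      rw [this]
      refine ⟨⟨⟨d, by rw [hk]; ring⟩, hQ0⟩, ?_⟩
      have hdk : d < k := by
        rw [hk] at hlt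
        exact Nat.lt_of_mul_lt_mul_left hlt
      rw [not_lt, hk]
      exact Nat.mul_le_mul_right _ hdk.le
    · intro d hd
      rw [mem_filter, Nat.mem_divisors] at hd ⊢
      obtain ⟨⟨⟨k, hk⟩, _⟩, hlt⟩ := hd
      have hd0 : 0 < d := Nat.pos_of_ne_zero (by rintro rfl; omega)
      have : Q / d = k := by rw [hk]; exact Nat.mul_div_cancel_left k hd0
      rw [this]
      refine ⟨⟨⟨d, by rw [hk]; ring⟩, hQ0⟩, ?_⟩
      have hk0 : 0 < k := Nat.pos_of_ne_zero (by rintro rfl; omega)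
      have h3 : Q < d * d := lt_of_le_of_ne (not_lt.mp hlt) (Ne.symm (hns d))
      have hdk : k < d := by
        rw [hk] at h3
        exact Nat.lt_of_mul_lt_mul_left h3
      calc k * k < d * k := Nat.mul_lt_mul_of_pos_right hdk hk0
        _ = Q := hk.symm
    · intro d hd
      rw [mem_filter, Nat.mem_divisors] at hd
      exact Nat.div_div_self hd.1.1 hQ0
    · intro d hd
      rw [mem_filter, Nat.mem_divisors] at hd
      exact Nat.div_div_self hd.1.1 hQ0
    · intro d hd
      rw [mem_filter, Nat.mem_divisors] at hd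
      obtain ⟨⟨⟨k, hk⟩, _⟩, hlt⟩ := hd
      have hd0 : 0 < d := Nat.pos_of_ne_zero (by rintro rfl; omega)
      have : Q / d = k := by rw [hk]; exact Nat.mul_div_cancel_left k hd0
      rw [this]
      have h1 : chi d * chi k = 1 := by
        rw [← chi_mul', ← hk]; exact chi_of_one hQ4
      have h2 : chi k * chi k = 1 := by
        have hkodd : k % 2 = 1 := by
          have : Q % 2 = 1 := by omega
          rw [hk, Nat.mul_mod] at this
          rcases Nat.mod_two_eq_zero_or_one k with h | h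
          · rw [h] at this; simp at this
          · exact h
        have := chi_sq_of_odd hkodd
        rwa [sq] at this
      calc chi d = chi d * (chi k * chi k) := by rw [h2, mul_one]
        _ = chi k := by rw [← mul_assoc, h1, one_mul]
  have hsplit := Finset.sum_filter_add_sum_filter_not Q.divisors (fun d => d * d < Q) (fun d => chi d)
  rw [hsym, h0] at hsplit
  omega

end Pool.Agent.Lib.MP1e1427
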