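import Mathlib
import Pool.Agent.Lib.MP_1e1427_nt.SBound
import Pool.Agent.Lib.MP_1e1427_nt.Detect

/-!
The number of solutions of `x² + y² ≡ m` modulo a power of an odd prime.
-/

namespace Pool.Agent.Lib.MP1e1427

open Finset

section Abstract

variable {R S : Type*} [CommRing R] [Fintype R] [DecidableEq R] [CommRing S] [Fintype S]
  [DecidableEq S]

omit [Fintype S] in
lemma card_lift_aux (π : R →+* S) (hsurj : Function.Surjective π)
    (hker : ∀ c c', π c = 0 → π c' = 0 → c * c' = 0) (hunit : ∀ x, IsUnit (π x) → IsUnit x)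
    (h2 : IsUnit (2 : R)) (m : R) (v : S × S) (hv : v.1 ^ 2 + v.2 ^ 2 = π m)
    (hu : IsUnit v.1) :
    ((circ R m).filter (fun w => (π w.1, π w.2) = v)).card =
      (univ.filter (fun c : R => π c = 0)).card := by
  obtain ⟨X, hX⟩ := hsurj v.1
  obtain ⟨Y, hY⟩ := hsurj v.2
  have hXu : IsUnit X := hunit X (by rw [hX]; exact hu)
  have h2X : IsUnit (2 * X) := h2.mul hXu
  obtain ⟨u, hu2⟩ := h2X.exists_left_inv
  apply Finset.card_bij (fun w _ => w.2 - Y)
  · intro w hw
    rw [mem_filter, mem_circ] at hw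
    rw [mem_filter]
    refine ⟨mem_univ _, ?_⟩
    rw [map_sub, hY, ← hw.2, sub_self]
  · intro w hw w' hw' h
    rw [mem_filter, mem_circ] at hw hw'
    have e2 : w.2 = w'.2 := sub_left_injective h
    have e1 : (w.1 - w'.1) * (w.1 + w'.1) = 0 := by
      have a1 := hw.1
      have a2 := hw'.1
      rw [e2] at a1
      linear_combination a1 - a2
    have hun : IsUnit (w.1 + w'.1) := by
      apply hunit
      have b1 : π w.1 = v.1 := by rw [← hw.2]
      have b2 : π w'.1 = v.1 := by rw [← hw'.2]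
      rw [map_add, b1, b2, ← two_mul]
      have := h2.map π
      rw [map_ofNat] at this
      exact this.mul hu
    have := (IsUnit.mul_left_eq_zero hun).mp e1
    exact Prod.ext (sub_eq_zero.mp this) e2
  · intro c hc
    rw [mem_filter] at hc
    set y := Y + c with hy
    set δ := (m - y ^ 2 - X ^ 2) * u with hδ
    have hπy : π y = v.2 := by rw [hy, map_add, hc.2, hY, add_zero]
    have hπδ : π δ = 0 := by
      rw [hδ, map_mul, map_sub, map_sub, map_pow, map_pow, hπy, hX, ← hv]
      ring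
    have hδ2 : δ * δ = 0 := hker δ δ hπδ hπδ
    refine ⟨(X + δ, y), ?_, by rw [hy]; ring⟩
    rw [mem_filter, mem_circ]
    refine ⟨?_, ?_⟩
    · have h3 : 2 * X * δ = m - y ^ 2 - X ^ 2 := by
        rw [hδ]; linear_combination (m - y ^ 2 - X ^ 2) * hu2
      linear_combination hδ2 + h3
    · rw [map_add, hπδ, hX, hπy, add_zero]

omit [Fintype S] in
lemma card_lift (π : R →+* S) (hsurj : Function.Surjective π)
    (hker : ∀ c c', π c = 0 → π c' = 0 → c * c' = 0) (hunit : ∀ x, IsUnit (π x) → IsUnit x)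
    (h2 : IsUnit (2 : R)) (m : R) (v : S × S) (hv : v.1 ^ 2 + v.2 ^ 2 = π m)
    (hu : IsUnit v.1 ∨ IsUnit v.2) :
    ((circ R m).filter (fun w => (π w.1, π w.2) = v)).card =
      (univ.filter (fun c : R => π c = 0)).card := by
  rcases hu with hu | hu
  · exact card_lift_aux π hsurj hker hunit h2 m v hv hu
  · rw [← card_lift_aux π hsurj hker hunit h2 m (v.2, v.1) (by rw [← hv]; ring) hu]
    apply Finset.card_bij (fun w _ => (w.2, w.1))
    · intro w hw
      rw [mem_filter, mem_circ] at hw ⊢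
      refine ⟨by rw [← hw.1]; ring, ?_⟩
      rw [← hw.2]
    · intro w _ w' _ h
      rw [Prod.mk.injEq] at h
      exact Prod.ext h.2 h.1
    · intro w hw
      rw [mem_filter, mem_circ] at hw
      refine ⟨(w.2, w.1), ?_, rfl⟩
      rw [mem_filter, mem_circ]
      refine ⟨by rw [← hw.1]; ring, ?_⟩
      have h1 := congrArg Prod.fst hw.2
      have h2 := congrArg Prod.snd hw.2
      exact Prod.ext h2 h1

end Abstract

open Classical in
/-- Primitive solutions mod `N`. -/
noncomputable def prim (m N : ℕ) [NeZero N] : ℕ :=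
  ((circ (ZMod N) (m : ZMod N)).filter (fun v => IsUnit v.1 ∨ IsUnit v.2)).card

open Classical in
/-- Nonprimitive solutions mod `N`. -/
noncomputable def nprim (m N : ℕ) [NeZero N] : ℕ :=
  ((circ (ZMod N) (m : ZMod N)).filter (fun v => ¬ (IsUnit v.1 ∨ IsUnit v.2))).card

lemma rho_eq_prim_add (m N : ℕ) [NeZero N] : rho m N = prim m N + nprim m N := by
  classical
  unfold rho prim nprim
  rw [Finset.card_filter_add_card_filter_not]

lemma prim_step {p k : ℕ} (hp : p.Prime) (hp2 : p ≠ 2) (hk : 1 ≤ k) (m : ℕ)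
    [NeZero (p ^ k)] [NeZero (p ^ (k + 1))] :
    prim m (p ^ (k + 1)) = p * prim m (p ^ k) := by
  classical
  have hdvd : p ^ k ∣ p ^ (k + 1) := pow_dvd_pow p (Nat.le_succ k)
  set π : ZMod (p ^ (k + 1)) →+* ZMod (p ^ k) := ZMod.castHom hdvd (ZMod (p ^ k)) with hπ
  have hsurj : Function.Surjective π := ZMod.castHom_surjective hdvd
  have hval : ∀ x : ZMod (p ^ (k + 1)), π x = ((x.val : ℕ) : ZMod (p ^ k)) := by
    intro x
    conv_lhs => rw [← ZMod.natCast_zmod_val x]
    rw [map_natCast]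
  have hker : ∀ c c', π c = 0 → π c' = 0 → c * c' = 0 := by
    intro c c' hc hc'
    rw [hval, ZMod.natCast_eq_zero_iff] at hc hc'
    rw [← ZMod.natCast_zmod_val c, ← ZMod.natCast_zmod_val c', ← Nat.cast_mul,
      ZMod.natCast_eq_zero_iff]
    refine dvd_trans ?_ (mul_dvd_mul hc hc')
    rw [← pow_add]
    exact pow_dvd_pow p (by omega)
  have hunit : ∀ x, IsUnit (π x) → IsUnit x := by
    intro x hx
    rw [hval, ZMod.isUnit_iff_coprime] at hx
    rw [← ZMod.natCast_zmod_val x, ZMod.isUnit_iff_coprime]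
    have : Nat.Coprime x.val p := by
      exact (Nat.coprime_pow_right_iff (by omega) _ _).mp hx
    exact Nat.Coprime.pow_right _ this
  have h2 : IsUnit (2 : ZMod (p ^ (k + 1))) := by
    have : ((2 : ℕ) : ZMod (p ^ (k + 1))) = 2 := by norm_num
    rw [← this, ZMod.isUnit_iff_coprime]
    apply Nat.Coprime.pow_right
    rw [Nat.coprime_primes Nat.prime_two hp]
    exact fun h => hp2 h.symm
  have hkc : (univ.filter (fun c : ZMod (p ^ (k + 1)) => π c = 0)).card = p := by
    calc _ = (range p).card := by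
          symm
          apply Finset.card_bij (fun j _ => ((p ^ k * j : ℕ) : ZMod (p ^ (k + 1))))
          · intro j _
            rw [mem_filter, map_natCast, ZMod.natCast_eq_zero_iff]
            exact ⟨mem_univ _, dvd_mul_right _ _⟩
          · intro j hj j' hj' h
            rw [mem_range] at hj hj'
            rw [ZMod.natCast_eq_natCast_iff] at h
            have hlt : ∀ i, i < p → p ^ k * i < p ^ (k + 1) := by
              intro i hi
              rw [pow_succ]
              exact Nat.mul_lt_mul_of_pos_left hi (pow_pos hp.pos k)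
            have h3 := Nat.ModEq.eq_of_lt_of_lt h (hlt j hj) (hlt j' hj')
            exact Nat.eq_of_mul_eq_mul_left (pow_pos hp.pos k) h3
          · intro c hc
            rw [mem_filter, hval, ZMod.natCast_eq_zero_iff] at hc
            obtain ⟨j, hj⟩ := hc.2
            refine ⟨j, ?_, ?_⟩
            · rw [mem_range]
              have h3 := ZMod.val_lt c
              rw [hj, pow_succ] at h3
              exact Nat.lt_of_mul_lt_mul_left h3
            · rw [← hj, ZMod.natCast_zmod_val]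
      _ = p := card_range p
  unfold prim
  rw [Finset.card_eq_sum_card_fiberwise (f := fun w : ZMod (p ^ (k + 1)) × ZMod (p ^ (k + 1)) =>
      ((π w.1, π w.2) : ZMod (p ^ k) × ZMod (p ^ k)))
    (t := (circ (ZMod (p ^ k)) (m : ZMod (p ^ k))).filter (fun v => IsUnit v.1 ∨ IsUnit v.2))]
  · have h3 : ∀ v ∈ (circ (ZMod (p ^ k)) (m : ZMod (p ^ k))).filter (fun v => IsUnit v.1 ∨ IsUnit v.2),
        (((circ (ZMod (p ^ (k + 1))) (m : ZMod (p ^ (k + 1)))).filter
          (fun v => IsUnit v.1 ∨ IsUnit v.2)).filter (fun w => (π w.1, π w.2) = v)).card = p := by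
      intro v hv
      rw [mem_filter, mem_circ] at hv
      have h5 := card_lift π hsurj hker hunit h2 (m : ZMod (p ^ (k + 1))) v
        (by rw [map_natCast]; exact hv.1) hv.2
      refine Eq.trans (Eq.trans ?_ h5) hkc
      congr 1
      ext w
      rw [mem_filter, mem_filter, mem_filter]
      constructor
      · rintro ⟨⟨h1, _⟩, h3⟩
        exact ⟨h1, h3⟩
      · rintro ⟨h1, h3⟩
        refine ⟨⟨h1, ?_⟩, h3⟩
        rcases hv.2 with h4 | h4
        · left; apply hunit
          rw [← h3] at h4; exact h4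
        · right; apply hunit
          rw [← h3] at h4; exact h4
    rw [Finset.sum_congr rfl h3, Finset.sum_const, smul_eq_mul, mul_comm]
  · intro w hw
    rw [mem_coe, mem_filter, mem_circ] at hw ⊢
    refine ⟨?_, ?_⟩
    · simp only
      rw [← map_pow, ← map_pow, ← map_add, hw.1, map_natCast]
    · rcases hw.2 with h | h
      · left; exact h.map π
      · right; exact h.map π

lemma isUnit_zmod_pow_iff {p k : ℕ} (hp : p.Prime) (hk : 1 ≤ k) [NeZero (p ^ k)]
    (x : ZMod (p ^ k)) : IsUnit x ↔ ¬ p ∣ x.val := by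
  rw [← hp.coprime_iff_not_dvd]
  conv_lhs => rw [← ZMod.natCast_zmod_val x]
  rw [ZMod.isUnit_iff_coprime, Nat.coprime_comm, Nat.coprime_pow_left_iff (by omega)]

lemma nprim_one {p : ℕ} (hp : p.Prime) (m : ℕ) [NeZero (p ^ 1)] :
    nprim m (p ^ 1) = if p ∣ m then 1 else 0 := by
  classical
  unfold nprim
  have h1 : ∀ x : ZMod (p ^ 1), ¬ IsUnit x ↔ x = 0 := by
    intro x
    rw [isUnit_zmod_pow_iff hp le_rfl, not_not]
    constructor
    · intro h
      have h2 : x.val < p := lt_of_lt_of_eq (ZMod.val_lt x) (pow_one p)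
      have h3 := Nat.eq_zero_of_dvd_of_lt h h2
      exact (ZMod.val_eq_zero x).mp h3
    · rintro rfl
      rw [ZMod.val_zero]; exact dvd_zero p
  have h2 : (circ (ZMod (p ^ 1)) (m : ZMod (p ^ 1))).filter (fun v => ¬ (IsUnit v.1 ∨ IsUnit v.2)) =
      if p ∣ m then {(0, 0)} else ∅ := by
    ext v
    rw [mem_filter, mem_circ, not_or, h1, h1]
    have h3 : ((m : ZMod (p ^ 1)) = 0) ↔ p ∣ m := by
      rw [ZMod.natCast_eq_zero_iff, pow_one]
    split_ifs with h
    · rw [mem_singleton]
      constructor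
      · rintro ⟨_, h4, h5⟩
        exact Prod.ext h4 h5
      · rintro rfl
        refine ⟨?_, rfl, rfl⟩
        rw [h3.mpr h]; ring
    · constructor
      · rintro ⟨h6, h4, h5⟩
        exfalso
        apply h
        rw [← h3, ← h6, h4, h5]; ring
      · intro h4; simp at h4
  rw [h2]
  split_ifs <;> simp

lemma nprim_not_dvd {p k : ℕ} (hp : p.Prime) (hk : 2 ≤ k) {m : ℕ} (hm : ¬ p ^ 2 ∣ m)
    [NeZero (p ^ k)] : nprim m (p ^ k) = 0 := by
  classical
  unfold nprim
  rw [Finset.card_eq_zero, Finset.filter_eq_empty_iff]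
  intro v hv hnu
  rw [mem_circ] at hv
  rw [not_or, isUnit_zmod_pow_iff hp (by omega), isUnit_zmod_pow_iff hp (by omega), not_not,
    not_not] at hnu
  apply hm
  have h1 : ((v.1.val ^ 2 + v.2.val ^ 2 : ℕ) : ZMod (p ^ k)) = (m : ZMod (p ^ k)) := by
    push_cast
    rw [ZMod.natCast_zmod_val, ZMod.natCast_zmod_val]
    exact hv
  rw [ZMod.natCast_eq_natCast_iff] at h1
  have h2 : v.1.val ^ 2 + v.2.val ^ 2 ≡ m [MOD p ^ 2] := h1.of_dvd (pow_dvd_pow p hk)
  rw [← Nat.modEq_zero_iff_dvd]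
  refine h2.symm.trans ?_
  rw [Nat.modEq_zero_iff_dvd]
  exact dvd_add (pow_dvd_pow_of_dvd hnu.1 2) (pow_dvd_pow_of_dvd hnu.2 2)

lemma nprim_dvd {p k : ℕ} (hp : p.Prime) (m : ℕ) [NeZero (p ^ k)] [NeZero (p ^ (k + 2))] :
    nprim (p ^ 2 * m) (p ^ (k + 2)) = p ^ 2 * rho m (p ^ k) := by
  classical
  have hp0 := hp.pos
  obtain ⟨L, hL⟩ : ∃ L, L = p ^ k := ⟨_, rfl⟩
  have hN : p ^ (k + 2) = p ^ 2 * L := by rw [hL, pow_add, mul_comm]
  have hL0 : 0 < L := by rw [hL]; exact pow_pos hp0 k
  have hrhs : p ^ 2 * rho m (p ^ k) =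
      (circ (ZMod (p ^ k)) (m : ZMod (p ^ k)) ×ˢ (range p ×ˢ range p)).card := by
    rw [card_product, card_product, card_range, rho]; ring
  rw [hrhs]
  unfold nprim
  symm
  have hdecomp : ∀ (a : ZMod (p ^ k)) (s : ℕ), s < p → p * (a.val + L * s) < p ^ (k + 2) := by
    intro a s hs
    have h1 : a.val < L := by rw [hL]; exact ZMod.val_lt a
    rw [hN]
    calc p * (a.val + L * s) < p * (L + L * s) := by
          apply Nat.mul_lt_mul_of_pos_left _ hp0
          omega
      _ = p * (L * (s + 1)) := by ring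
      _ ≤ p * (L * p) := by gcongr; omega
      _ = p ^ 2 * L := by ring
  apply Finset.card_bij (fun w _ => (((p * (w.1.1.val + L * w.2.1) : ℕ) : ZMod (p ^ (k + 2))),
    ((p * (w.1.2.val + L * w.2.2) : ℕ) : ZMod (p ^ (k + 2)))))
  · intro w hw
    rw [mem_product, mem_product, mem_range, mem_range, mem_circ] at hw
    obtain ⟨hw1, hw2, hw3⟩ := hw
    rw [mem_filter, mem_circ, not_or, isUnit_zmod_pow_iff hp (by omega),
      isUnit_zmod_pow_iff hp (by omega), not_not, not_not]
    simp only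
    rw [ZMod.val_natCast_of_lt (hdecomp _ _ hw2), ZMod.val_natCast_of_lt (hdecomp _ _ hw3)]
    refine ⟨?_, dvd_mul_right _ _, dvd_mul_right _ _⟩
    rw [← Nat.cast_pow, ← Nat.cast_pow, ← Nat.cast_add, ZMod.natCast_eq_natCast_iff, hN]
    have h1 : (w.1.1.val + L * w.2.1) ^ 2 + (w.1.2.val + L * w.2.2) ^ 2 ≡ m [MOD L] := by
      rw [hL]
      rw [← ZMod.natCast_eq_natCast_iff]
      push_cast
      rw [ZMod.natCast_zmod_val, ZMod.natCast_zmod_val]
      have : ((p : ZMod (p ^ k)) ^ k) = 0 := by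
        rw [← Nat.cast_pow, ZMod.natCast_self]
      rw [this, zero_mul, zero_mul, add_zero, add_zero]
      exact hw1
    have h2 : (p * (w.1.1.val + L * w.2.1)) ^ 2 + (p * (w.1.2.val + L * w.2.2)) ^ 2 =
        p ^ 2 * ((w.1.1.val + L * w.2.1) ^ 2 + (w.1.2.val + L * w.2.2) ^ 2) := by ring
    rw [h2]
    exact Nat.ModEq.mul_left' _ h1
  · intro w hw w' hw' h
    rw [mem_product, mem_product, mem_range, mem_range] at hw hw'
    rw [Prod.mk.injEq] at h
    have key : ∀ (a a' : ZMod (p ^ k)) (s s' : ℕ), s < p → s' < p →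
        ((p * (a.val + L * s) : ℕ) : ZMod (p ^ (k + 2))) =
          ((p * (a'.val + L * s') : ℕ) : ZMod (p ^ (k + 2))) → a = a' ∧ s = s' := by
      intro a a' s s' hs hs' h
      rw [ZMod.natCast_eq_natCast_iff] at h
      have h1 := Nat.ModEq.eq_of_lt_of_lt h (hdecomp a s hs) (hdecomp a' s' hs')
      have h2 := Nat.eq_of_mul_eq_mul_left hp0 h1
      have ha : a.val < L := by rw [hL]; exact ZMod.val_lt a
      have ha' : a'.val < L := by rw [hL]; exact ZMod.val_lt a'
      have h3 : s = s' := by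
        have := congrArg (· / L) h2
        simpa [Nat.add_mul_div_left _ _ hL0, Nat.div_eq_of_lt ha, Nat.div_eq_of_lt ha'] using this
      subst h3
      exact ⟨ZMod.val_injective _ (Nat.add_right_cancel h2), rfl⟩
    obtain ⟨e1, e2⟩ := key _ _ _ _ hw.2.1 hw'.2.1 h.1
    obtain ⟨e3, e4⟩ := key _ _ _ _ hw.2.2 hw'.2.2 h.2
    exact Prod.ext (Prod.ext e1 e3) (Prod.ext e2 e4)
  · intro v hv
    rw [mem_filter, mem_circ, not_or, isUnit_zmod_pow_iff hp (by omega),
      isUnit_zmod_pow_iff hp (by omega), not_not, not_not] at hv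
    obtain ⟨hv1, ⟨x, hx⟩, ⟨y, hy⟩⟩ := hv
    have hlt : ∀ (u : ZMod (p ^ (k + 2))) (z : ℕ), u.val = p * z → z / L < p := by
      intro u z hz
      have h1 : u.val < p ^ 2 * L := lt_of_lt_of_eq (ZMod.val_lt u) hN
      rw [hz] at h1
      apply Nat.div_lt_of_lt_mul
      have h2 : p * z < p * (L * p) := by
        calc _ < _ := h1
          _ = _ := by ring
      exact Nat.lt_of_mul_lt_mul_left h2
    refine ⟨(((x : ZMod (p ^ k)), (y : ZMod (p ^ k))), (x / L, y / L)), ?_, ?_⟩
    · rw [mem_product, mem_product, mem_range, mem_range, mem_circ]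
      refine ⟨?_, hlt _ _ hx, hlt _ _ hy⟩
      simp only
      have h1 : ((v.1.val ^ 2 + v.2.val ^ 2 : ℕ) : ZMod (p ^ (k + 2))) =
          ((p ^ 2 * m : ℕ) : ZMod (p ^ (k + 2))) := by
        rw [← hv1]
        push_cast
        rw [ZMod.natCast_zmod_val, ZMod.natCast_zmod_val]
      rw [ZMod.natCast_eq_natCast_iff, hx, hy, hN] at h1
      have h2 : p ^ 2 * (x ^ 2 + y ^ 2) ≡ p ^ 2 * m [MOD p ^ 2 * L] := by
        have : (p * x) ^ 2 + (p * y) ^ 2 = p ^ 2 * (x ^ 2 + y ^ 2) := by ring
        rwa [this] at h1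
      have h3 : x ^ 2 + y ^ 2 ≡ m [MOD L] := Nat.ModEq.mul_left_cancel' (by positivity) h2
      rw [hL, ← ZMod.natCast_eq_natCast_iff] at h3
      push_cast at h3
      exact h3
    · have key : ∀ (u : ZMod (p ^ (k + 2))) (z : ℕ), u.val = p * z →
          ((p * ((z : ZMod (p ^ k)).val + L * (z / L)) : ℕ) : ZMod (p ^ (k + 2))) = u := by
        intro u z hz
        have h1 : (z : ZMod (p ^ k)).val = z % L := by rw [ZMod.val_natCast, hL]
        rw [h1, Nat.mod_add_div, ← hz, ZMod.natCast_zmod_val]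
      exact Prod.ext (key _ _ hx) (key _ _ hy)

end Pool.Agent.Lib.MP1e1427
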