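import Mathlib
import Pool.Agent.Lib.MP_1e1427_nt.PrimePow

/-!
Exact formula for the number of solutions of `x² + y² ≡ m mod d`, `d` odd.
-/

namespace Pool.Agent.Lib.MP1e1427

open Finset ArithmeticFunction

/-- `n ↦ n` if `n ∣ m`, else `0`. -/
def gfun (m : ℕ) : ArithmeticFunction ℤ := ⟨fun n => if n ∣ m then (n : ℤ) else 0, by simp⟩

lemma gfun_apply (m n : ℕ) : gfun m n = if n ∣ m then (n : ℤ) else 0 := rfl

lemma gfun_isMultiplicative (m : ℕ) : (gfun m).IsMultiplicative := by
  refine ⟨by simp [gfun_apply], fun {a b} hab => ?_⟩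
  rw [gfun_apply, gfun_apply, gfun_apply]
  by_cases ha : a ∣ m
  · by_cases hb : b ∣ m
    · rw [if_pos ha, if_pos hb, if_pos (hab.mul_dvd_of_dvd_of_dvd ha hb)]
      push_cast; rfl
    · rw [if_neg hb, mul_zero, if_neg]
      intro h; exact hb ((dvd_mul_left b a).trans h)
  · rw [if_neg ha, zero_mul, if_neg]
    intro h; exact ha ((dvd_mul_right a b).trans h)

/-- The Ramanujan sum `c_n(m)`. -/
def cm (m : ℕ) : ArithmeticFunction ℤ := gfun m * moebius

lemma cm_isMultiplicative (m : ℕ) : (cm m).IsMultiplicative :=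
  (gfun_isMultiplicative m).mul isMultiplicative_moebius

lemma cm_sum (m n : ℕ) : ∑ q ∈ n.divisors, cm m q = gfun m n := by
  have h : cm m * (zeta : ArithmeticFunction ℤ) = gfun m := by
    unfold cm
    rw [mul_assoc, moebius_mul_coe_zeta, mul_one]
  rw [← h, coe_mul_zeta_apply]

lemma cm_one (m : ℕ) : cm m 1 = 1 := (cm_isMultiplicative m).1

lemma cm_prime_pow {p : ℕ} (hp : p.Prime) (m k : ℕ) :
    cm m (p ^ (k + 1)) = (if p ^ (k + 1) ∣ m then ((p ^ (k + 1) : ℕ) : ℤ) else 0) -
      (if p ^ k ∣ m then ((p ^ k : ℕ) : ℤ) else 0) := by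
  have h1 := cm_sum m (p ^ (k + 1))
  have h2 := cm_sum m (p ^ k)
  rw [Nat.sum_divisors_prime_pow hp] at h1 h2
  rw [Finset.sum_range_succ, h2] at h1
  rw [gfun_apply, gfun_apply] at h1
  linarith

/-- Identity as an integer valued arithmetic function. -/
def idZ : ArithmeticFunction ℤ := ⟨fun n => (n : ℤ), by simp⟩

lemma idZ_apply (n : ℕ) : idZ n = n := rfl

lemma idZ_isMultiplicative : idZ.IsMultiplicative :=
  ⟨by simp [idZ_apply], fun {a b} _ => by simp [idZ_apply]⟩

/-- The explicit formula. -/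
def rfun (m : ℕ) : ArithmeticFunction ℤ := (chi.pmul (cm m)) * idZ

lemma rfun_isMultiplicative (m : ℕ) : (rfun m).IsMultiplicative :=
  (chi_isMultiplicative.pmul (cm_isMultiplicative m)).mul idZ_isMultiplicative

lemma rfun_prime_pow {p : ℕ} (hp : p.Prime) (m k : ℕ) :
    rfun m (p ^ (k + 1)) = p * rfun m (p ^ k) + chi p ^ (k + 1) * cm m (p ^ (k + 1)) := by
  have h : ∀ k, rfun m (p ^ k) = ∑ j ∈ range (k + 1), chi p ^ j * cm m (p ^ j) * (p : ℤ) ^ (k - j) := by
    intro k
    unfold rfun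
    rw [ArithmeticFunction.mul_apply, Nat.sum_divisorsAntidiagonal (f := fun a b =>
      (chi.pmul (cm m)) a * idZ b), Nat.sum_divisors_prime_pow hp]
    apply Finset.sum_congr rfl
    intro j hj
    rw [mem_range] at hj
    rw [pmul_apply, idZ_apply, chi_pow', Nat.pow_div (by omega) hp.pos]
    push_cast; ring
  rw [h, h, Finset.sum_range_succ, Finset.mul_sum]
  congr 1
  · apply Finset.sum_congr rfl
    intro j hj
    rw [mem_range] at hj
    rw [show k + 1 - j = (k - j) + 1 by omega, pow_succ]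
    ring
  · simp

lemma rho_one (m : ℕ) : rho m 1 = 1 := by
  unfold rho
  have : circ (ZMod 1) (m : ZMod 1) = univ := by
    ext v
    rw [mem_circ]
    simp only [mem_univ, iff_true]
    exact Subsingleton.elim _ _
  rw [this]
  simp

lemma rho_mul (m a b : ℕ) [NeZero a] [NeZero b] [NeZero (a * b)] (hab : Nat.Coprime a b) :
    rho m (a * b) = rho m a * rho m b := by
  have h := SS_prod (ZMod.chineseRemainder hab) (m : ZMod (a * b)) 0 0
  have e1 : (0 : AddChar (ZMod (a * b)) ℂ).compAddMonoidHom (incl₁ (ZMod.chineseRemainder hab)) = 0 := by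
    rw [AddChar.eq_zero_iff]; intro x; rw [AddChar.compAddMonoidHom_apply, AddChar.zero_apply]
  have e2 : (0 : AddChar (ZMod (a * b)) ℂ).compAddMonoidHom (incl₂ (ZMod.chineseRemainder hab)) = 0 := by
    rw [AddChar.eq_zero_iff]; intro x; rw [AddChar.compAddMonoidHom_apply, AddChar.zero_apply]
  rw [e1, e2, SS_zero, SS_zero, SS_zero, map_natCast] at h
  unfold rho
  exact_mod_cast h

lemma rho_congr {m N N' : ℕ} [NeZero N] [NeZero N'] (h : N = N') : rho m N = rho m N' := by
  subst h; rfl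

lemma rho_prime {p : ℕ} (hp : p.Prime) (hp2 : p ≠ 2) (m : ℕ) [NeZero p] :
    (rho m p : ℤ) = p + chi p * cm m p := by
  have : Fact p.Prime := ⟨hp⟩
  have hc : cm m p = (if p ∣ m then (p : ℤ) else 0) - 1 := by
    have := cm_prime_pow hp m 0
    simpa using this
  unfold rho
  rw [hc]
  by_cases h : p ∣ m
  · have hm : (m : ZMod p) = 0 := (ZMod.natCast_eq_zero_iff m p).mpr h
    rw [hm, if_pos h]
    have := card_circ_zero (p := p) hp2
    rw [chi_apply]
    linear_combination this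
  · have hm : (m : ZMod p) ≠ 0 := by rw [Ne, ZMod.natCast_eq_zero_iff]; exact h
    rw [if_neg h]
    have := card_circ_of_ne_zero hp2 hm
    rw [chi_apply]
    linear_combination this

/-- Prime powers. -/
lemma rho_prime_pow {p : ℕ} (hp : p.Prime) (hp2 : p ≠ 2) (k : ℕ) :
    ∀ (m : ℕ) [NeZero (p ^ (k + 1))] [NeZero (p ^ k)],
      (rho m (p ^ (k + 1)) : ℤ) = p * rho m (p ^ k) + chi p ^ (k + 1) * cm m (p ^ (k + 1)) := by
  have hne : ∀ j, NeZero (p ^ j) := fun j => ⟨pow_ne_zero _ hp.ne_zero⟩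
  have hchi : chi p ^ 2 = 1 := chi_sq_of_odd (by
    rcases hp.eq_two_or_odd with h | h
    · exact absurd h hp2
    · exact h)
  induction k using Nat.strong_induction_on with
  | _ k ih =>
  intro m _ _
  rcases k with _ | _ | k
  · -- k = 0
    have : NeZero p := ⟨hp.ne_zero⟩
    have h1 : rho m (p ^ (0 + 1)) = rho m p := rho_congr (by simp)
    have h2 : rho m (p ^ 0) = 1 := by
      rw [rho_congr (N' := 1) (by simp), rho_one]
    rw [h1, h2, rho_prime hp hp2]
    simp
  · -- k = 1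
    have := hne 1
    have h1 : prim m (p ^ (1 + 1)) = p * prim m (p ^ 1) := prim_step hp hp2 le_rfl m
    have h2 : rho m (p ^ (0 + 1)) = prim m (p ^ 1) + nprim m (p ^ 1) := by
      rw [rho_congr (N' := p ^ 1) (by simp), rho_eq_prim_add]
    have h3 : rho m (p ^ (0 + 1 + 1)) = prim m (p ^ (1 + 1)) + nprim m (p ^ (1 + 1)) :=
      rho_eq_prim_add m (p ^ (1 + 1))
    have h4 := nprim_one hp m
    have h6 : cm m (p ^ (0 + 1 + 1)) = _ := cm_prime_pow hp m (0 + 1)
    rw [h3, h2, h1, h6]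
    have hne0 := hne 0
    have h5 : (nprim m (p ^ (1 + 1)) : ℤ) = if p ^ 2 ∣ m then (p : ℤ) ^ 2 else 0 := by
      split_ifs with h
      · obtain ⟨m', rfl⟩ := h
        have h7 : nprim (p ^ 2 * m') (p ^ (0 + 2)) = p ^ 2 * rho m' (p ^ 0) := nprim_dvd hp m'
        have h8 : rho m' (p ^ 0) = 1 := by
          rw [rho_congr (N' := 1) (by simp), rho_one]
        rw [h8] at h7
        have h9 : nprim (p ^ 2 * m') (p ^ (1 + 1)) = p ^ 2 * 1 := h7
        rw [h9]; push_cast; ring
      · have h7 : nprim m (p ^ (1 + 1)) = 0 := nprim_not_dvd hp (by norm_num) h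
        rw [h7]; rfl
    have h4' : (nprim m (p ^ 1) : ℤ) = if p ∣ m then 1 else 0 := by
      rw [h4]; split_ifs <;> simp
    push_cast
    rw [h5, h4']
    simp only [pow_one, hchi, one_mul]
    split_ifs <;> push_cast <;> ring
  · -- k + 2
    have hn2 := hne (k + 2)
    have hn1 := hne (k + 1)
    have hn0 := hne k
    have hn3 := hne (k + 1 + 2)
    have h1 : prim m (p ^ (k + 2 + 1)) = p * prim m (p ^ (k + 2)) := prim_step hp hp2 (by omega) m
    have h2 : rho m (p ^ (k + 1 + 1)) = prim m (p ^ (k + 2)) + nprim m (p ^ (k + 2)) :=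
      rho_eq_prim_add m (p ^ (k + 2))
    have h3 : rho m (p ^ (k + 1 + 1 + 1)) = prim m (p ^ (k + 2 + 1)) + nprim m (p ^ (k + 2 + 1)) :=
      rho_eq_prim_add m (p ^ (k + 2 + 1))
    rw [h3, h2, h1]
    by_cases h : p ^ 2 ∣ m
    · obtain ⟨m', rfl⟩ := h
      have h4 : nprim (p ^ 2 * m') (p ^ (k + 2)) = p ^ 2 * rho m' (p ^ k) := nprim_dvd hp m'
      have h5 : nprim (p ^ 2 * m') (p ^ (k + 2 + 1)) = p ^ 2 * rho m' (p ^ (k + 1)) := nprim_dvd hp m'
      have h6 := ih k (by omega) m'
      have h7 : cm (p ^ 2 * m') (p ^ (k + 1 + 1 + 1)) = (p : ℤ) ^ 2 * cm m' (p ^ (k + 1)) := by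
        rw [cm_prime_pow hp, cm_prime_pow hp]
        have a1 : p ^ (k + 1 + 1 + 1) ∣ p ^ 2 * m' ↔ p ^ (k + 1) ∣ m' := by
          rw [show p ^ (k + 1 + 1 + 1) = p ^ 2 * p ^ (k + 1) by ring]
          exact Nat.mul_dvd_mul_iff_left (pow_pos hp.pos 2)
        have a2 : p ^ (k + 1 + 1) ∣ p ^ 2 * m' ↔ p ^ k ∣ m' := by
          rw [show p ^ (k + 1 + 1) = p ^ 2 * p ^ k by ring]
          exact Nat.mul_dvd_mul_iff_left (pow_pos hp.pos 2)
        simp only [a1, a2]
        split_ifs <;> push_cast <;> ring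
      rw [h4, h5, h7]
      push_cast
      rw [h6]
      have h8 : chi p ^ (k + 1 + 1 + 1) = chi p ^ (k + 1) := by
        rw [show k + 1 + 1 + 1 = (k + 1) + 2 by ring, pow_add, hchi, mul_one]
      rw [h8]
      ring
    · have h4 : nprim m (p ^ (k + 2)) = 0 := nprim_not_dvd hp (by omega) h
      have h5 : nprim m (p ^ (k + 2 + 1)) = 0 := nprim_not_dvd hp (by omega) h
      have h6 : cm m (p ^ (k + 1 + 1 + 1)) = 0 := by
        rw [cm_prime_pow hp, if_neg, if_neg, sub_zero]
        · intro h7; exact h ((pow_dvd_pow p (by omega)).trans h7)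
        · intro h7; exact h ((pow_dvd_pow p (by omega)).trans h7)
      rw [h4, h5, h6]
      push_cast; ring

lemma rho_prime_pow_eq {p : ℕ} (hp : p.Prime) (hp2 : p ≠ 2) (m : ℕ) :
    ∀ k : ℕ, ∀ _ : NeZero (p ^ k), (rho m (p ^ k) : ℤ) = rfun m (p ^ k) := by
  have hne : ∀ j, NeZero (p ^ j) := fun j => ⟨pow_ne_zero _ hp.ne_zero⟩
  intro k
  induction k with
  | zero =>
    intro _
    rw [rho_congr (N := p ^ 0) (N' := 1) (by simp), rho_one, pow_zero, (rfun_isMultiplicative m).1]
    rfl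
  | succ k ih =>
    intro _
    have := hne k
    rw [rho_prime_pow hp hp2 k m, rfun_prime_pow hp, ih]

/-- The exact formula. -/
theorem rho_eq_rfun (m d : ℕ) [NeZero d] (hd : d % 2 = 1) : (rho m d : ℤ) = rfun m d := by
  have key : ∀ d : ℕ, ∀ _ : NeZero d, d % 2 = 1 → (rho m d : ℤ) = rfun m d := by
    intro d
    induction d using Nat.recOnPosPrimePosCoprime with
    | prime_pow p n hp hn =>
      intro _ hodd
      have hp2 : p ≠ 2 := by
        rintro rfl
        have : 2 ∣ 2 ^ n := dvd_pow_self 2 (by omega)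
        omega
      exact rho_prime_pow_eq hp hp2 m n inferInstance
    | zero => intro h; exact absurd rfl h.out
    | one => intro _ _; rw [rho_one, (rfun_isMultiplicative m).1]; rfl
    | coprime a b ha hb hab iha ihb =>
      intro _ hodd
      have hna : NeZero a := ⟨by omega⟩
      have hnb : NeZero b := ⟨by omega⟩
      have h1 : a % 2 = 1 := by
        rcases Nat.mod_two_eq_zero_or_one a with h | h
        · rw [Nat.mul_mod, h] at hodd; simp at hodd
        · exact h
      have h2 : b % 2 = 1 := by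
        rcases Nat.mod_two_eq_zero_or_one b with h | h
        · rw [Nat.mul_mod, h] at hodd; simp at hodd
        · exact h
      rw [rho_mul m a b hab, (rfun_isMultiplicative m).map_mul_of_coprime hab]
      push_cast
      rw [iha hna h1, ihb hnb h2]
  exact key d inferInstance hd

end Pool.Agent.Lib.MP1e1427
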