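import Mathlib
import Pool.Agent.Lib.MP_1e1427_nt.Formula
import Pool.Agent.Lib.MP_1e1427_nt.Compl3

/-!
Summation of the error terms.
-/

namespace Pool.Agent.Lib.MP1e1427

open Finset ArithmeticFunction

lemma abs_cm_le (m q : ℕ) : |((cm m q : ℤ) : ℝ)| ≤ q * q.divisors.card := by
  unfold cm
  rw [ArithmeticFunction.mul_apply]
  push_cast
  calc _ ≤ ∑ x ∈ q.divisorsAntidiagonal, |((gfun m x.1 : ℤ) : ℝ) * ((moebius x.2 : ℤ) : ℝ)| :=
        Finset.abs_sum_le_sum_abs _ _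
    _ ≤ ∑ x ∈ q.divisorsAntidiagonal, (q : ℝ) := by
        apply Finset.sum_le_sum
        intro x hx
        rw [Nat.mem_divisorsAntidiagonal] at hx
        rw [abs_mul]
        have h1 : |((gfun m x.1 : ℤ) : ℝ)| ≤ q := by
          have h2 : x.1 ≤ q := Nat.le_of_dvd (Nat.pos_of_ne_zero hx.2) ⟨x.2, hx.1.symm⟩
          have h3 : (x.1 : ℝ) ≤ q := by exact_mod_cast h2
          rw [gfun_apply]
          split_ifs
          · push_cast
            rw [abs_of_nonneg (by positivity)]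
            exact h3
          · simp
        have h2 : |((moebius x.2 : ℤ) : ℝ)| ≤ 1 := by exact_mod_cast abs_moebius_le_one
        calc _ ≤ (q : ℝ) * 1 := mul_le_mul h1 h2 (abs_nonneg _) (by positivity)
          _ = q := mul_one _
    _ = _ := by
        rw [sum_const, nsmul_eq_mul]
        have : q.divisorsAntidiagonal.card = q.divisors.card := by
          rw [← Nat.map_div_right_divisors, Finset.card_map]
        rw [this]; ring

lemma abs_rfun_le (m d : ℕ) : |((rfun m d : ℤ) : ℝ)| ≤ d * (d.divisors.card : ℝ) ^ 2 := by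
  unfold rfun
  rw [ArithmeticFunction.mul_apply]
  push_cast
  calc _ ≤ ∑ x ∈ d.divisorsAntidiagonal, |((chi.pmul (cm m) x.1 : ℤ) : ℝ) * ((idZ x.2 : ℤ) : ℝ)| :=
        Finset.abs_sum_le_sum_abs _ _
    _ ≤ ∑ x ∈ d.divisorsAntidiagonal, (d : ℝ) * d.divisors.card := by
        apply Finset.sum_le_sum
        intro x hx
        rw [Nat.mem_divisorsAntidiagonal] at hx
        rw [abs_mul, pmul_apply, idZ_apply]
        push_cast
        rw [abs_mul]
        have h1 : |((chi x.1 : ℤ) : ℝ)| ≤ 1 := by exact_mod_cast abs_chi_le _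
        have h2 := abs_cm_le m x.1
        have h3 : x.1.divisors.card ≤ d.divisors.card :=
          Finset.card_le_card (Nat.divisors_subset_of_dvd hx.2 ⟨x.2, hx.1.symm⟩)
        have h3' : (x.1.divisors.card : ℝ) ≤ d.divisors.card := by exact_mod_cast h3
        have h4 : (x.1 : ℝ) * x.2 = d := by exact_mod_cast hx.1
        rw [abs_of_nonneg (by positivity : (0:ℝ) ≤ x.2)]
        calc _ ≤ 1 * ((x.1 : ℝ) * x.1.divisors.card) * x.2 := by
              apply mul_le_mul_of_nonneg_right _ (by positivity)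
              exact mul_le_mul h1 h2 (abs_nonneg _) (by norm_num)
          _ = (d : ℝ) * x.1.divisors.card := by rw [← h4]; ring
          _ ≤ _ := mul_le_mul_of_nonneg_left h3' (by positivity)
    _ = _ := by
        rw [sum_const, nsmul_eq_mul]
        have : d.divisorsAntidiagonal.card = d.divisors.card := by
          rw [← Nat.map_div_right_divisors, Finset.card_map]
        rw [this]; ring

lemma rho_le (m d : ℕ) [NeZero d] (hd : d % 2 = 1) :
    (rho m d : ℝ) ≤ d * (d.divisors.card : ℝ) ^ 2 := by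
  have h1 := rho_eq_rfun m d hd
  have h2 : (rho m d : ℝ) = ((rfun m d : ℤ) : ℝ) := by
    rw [← h1]; push_cast; rfl
  rw [h2]
  exact (le_abs_self _).trans (abs_rfun_le m d)

/-- Decomposition of `d`. -/
lemma exists_decomp (m d : ℕ) (hd : 0 < d) :
    ∃ r q f : ℕ, d = r ^ 2 * q * f ∧ q ∣ m * r ∧ Squarefree f ∧ Nat.Coprime f (r ^ 2 * q) ∧
      (∀ p, p.Prime → p ∣ f → ¬ p ∣ m) ∧ 0 < r ∧ 0 < q ∧ 0 < f := by
  obtain ⟨t, r, ht0, hr0, htr, hsf⟩ := Nat.sq_mul_squarefree_of_pos hd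
  set q := Nat.gcd t (m * r) with hq
  have hqt : q ∣ t := Nat.gcd_dvd_left _ _
  have hq0 : 0 < q := Nat.gcd_pos_of_pos_left _ ht0
  obtain ⟨f, hf⟩ := hqt
  have hf0 : 0 < f := Nat.pos_of_ne_zero (by rintro rfl; simp at hf; omega)
  have hsq : ∀ p, p.Prime → p ∣ f → ¬ p ∣ q := by
    intro p hp h1 h2
    have h3 : p * p ∣ t := by rw [hf]; exact mul_dvd_mul h2 h1
    exact hp.one_lt.ne' (Nat.isUnit_iff.mp (hsf p h3))
  have hft : f ∣ t := ⟨q, by rw [hf]; ring⟩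
  have hmr : ∀ p, p.Prime → p ∣ f → ¬ p ∣ m * r := by
    intro p hp h1 h2
    exact hsq p hp h1 (Nat.dvd_gcd (h1.trans hft) h2)
  refine ⟨r, q, f, ?_, Nat.gcd_dvd_right _ _, hsf.squarefree_of_dvd hft, ?_, ?_, hr0, hq0, hf0⟩
  · rw [← htr, mul_assoc, ← hf]
  · by_contra hc
    obtain ⟨p, hp, h1, h2⟩ := Nat.Prime.not_coprime_iff_dvd.mp hc
    rcases hp.dvd_mul.mp h2 with h3 | h3
    · exact hmr p hp h1 ((hp.dvd_of_dvd_pow h3).trans (dvd_mul_left _ _))
    · exact hsq p hp h1 h3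
  · intro p hp h1 h2
    exact hmr p hp h1 (h2.trans (dvd_mul_right _ _))

/-- Fourth root. -/
noncomputable def r4 (x : ℝ) : ℝ := x ^ (1 / 4 : ℝ)

lemma r4_nonneg {x : ℝ} (hx : 0 ≤ x) : 0 ≤ r4 x := Real.rpow_nonneg hx _

lemma r4_pow {x : ℝ} (hx : 0 ≤ x) : r4 x ^ 4 = x := by
  unfold r4
  rw [← Real.rpow_natCast, ← Real.rpow_mul hx]
  norm_num

lemma r4_pow_three {x : ℝ} (hx : 0 ≤ x) : r4 x ^ 3 = x ^ (3 / 4 : ℝ) := by
  unfold r4
  rw [← Real.rpow_natCast, ← Real.rpow_mul hx]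
  norm_num

lemma r4_pos {x : ℝ} (hx : 0 < x) : 0 < r4 x := Real.rpow_pos_of_pos hx _

lemma r4_mono {x y : ℝ} (hx : 0 ≤ x) (h : x ≤ y) : r4 x ≤ r4 y :=
  Real.rpow_le_rpow hx h (by norm_num)

lemma r4_mul {x y : ℝ} (hx : 0 ≤ x) (hy : 0 ≤ y) : r4 (x * y) = r4 x * r4 y :=
  Real.mul_rpow hx hy

lemma r4_one : r4 1 = 1 := by unfold r4; simp

lemma sum_inv_r4_le (F : ℕ) : ∑ f ∈ Ioc 0 F, 1 / r4 f ≤ 4 / 3 * r4 F ^ 3 := by
  induction F with
  | zero =>
    have : 0 ≤ r4 ((0 : ℕ) : ℝ) := r4_nonneg (by positivity)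
    simp only [Ioc_self, sum_empty]
    positivity
  | succ F ih =>
    rw [sum_Ioc_succ_top (Nat.zero_le F)]
    set a := r4 ((F + 1 : ℕ) : ℝ) with ha
    set b := r4 (F : ℝ) with hb
    have ha4 : a ^ 4 = ((F + 1 : ℕ) : ℝ) := r4_pow (by positivity)
    have hb4 : b ^ 4 = F := r4_pow (by positivity)
    have hb0 : 0 ≤ b := r4_nonneg (by positivity)
    have ha0 : 0 < a := r4_pos (by positivity)
    have hab : b ≤ a := r4_mono (by positivity) (by push_cast; linarith)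
    have hdiff : (a - b) * (a ^ 3 + a ^ 2 * b + a * b ^ 2 + b ^ 3) = 1 := by
      have : (a - b) * (a ^ 3 + a ^ 2 * b + a * b ^ 2 + b ^ 3) = a ^ 4 - b ^ 4 := by ring
      rw [this, ha4, hb4]; push_cast; ring
    have hS : 0 < a ^ 3 + a ^ 2 * b + a * b ^ 2 + b ^ 3 := by positivity
    have h1 : a - b = 1 / (a ^ 3 + a ^ 2 * b + a * b ^ 2 + b ^ 3) := by
      rw [eq_div_iff hS.ne']; exact hdiff
    have h2 : 1 / a ≤ 4 / 3 * (a ^ 3 - b ^ 3) := by
      have h3 : a ^ 3 - b ^ 3 = (a - b) * (a ^ 2 + a * b + b ^ 2) := by ring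
      rw [h3, h1]
      have h4 : 4 / 3 * (1 / (a ^ 3 + a ^ 2 * b + a * b ^ 2 + b ^ 3) * (a ^ 2 + a * b + b ^ 2)) =
          (4 * (a ^ 2 + a * b + b ^ 2)) / (3 * (a ^ 3 + a ^ 2 * b + a * b ^ 2 + b ^ 3)) := by
        field_simp
      rw [h4, div_le_div_iff₀ ha0 (by positivity)]
      have h5 : b ^ 3 ≤ a ^ 3 := pow_le_pow_left₀ hb0 hab 3
      have h6 : b ^ 3 ≤ a ^ 2 * b := by
        calc b ^ 3 = b ^ 2 * b := by ring
          _ ≤ a ^ 2 * b := mul_le_mul_of_nonneg_right (pow_le_pow_left₀ hb0 hab 2) hb0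
      have h7 : b ^ 3 ≤ a * b ^ 2 := by
        calc b ^ 3 = b * b ^ 2 := by ring
          _ ≤ a * b ^ 2 := mul_le_mul_of_nonneg_right hab (by positivity)
      nlinarith
    linarith

end Pool.Agent.Lib.MP1e1427
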