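import Mathlib
import Pool.Agent.Lib.MP_1e1427_nt.ErrSum

/-!
Summation of the error terms, part two.
-/

namespace Pool.Agent.Lib.MP1e1427

open Finset ArithmeticFunction

lemma two_pow_le_card_divisors {f : ℕ} (hf : f ≠ 0) :
    2 ^ f.primeFactors.card ≤ f.divisors.card := by
  rw [Nat.card_divisors hf, ← Finset.prod_const]
  apply Finset.prod_le_prod'
  intro p hp
  have := (Nat.prime_of_mem_primeFactors hp).factorization_pos_of_dvd hf
    (Nat.dvd_of_mem_primeFactors hp)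
  omega

lemma cnt_error_le (m d W K a₀ b₀ : ℕ) (T : ℝ) (hT : ∀ n, 0 < n → n ≤ d → (n.divisors.card : ℝ) ≤ T)
    (hd : 0 < d) (hW2 : W % 2 = 0) (hcop : Nat.Coprime d W) {r q f : ℕ}
    (hdec : d = r ^ 2 * q * f) (hsf : Squarefree f) (hfg : Nat.Coprime f (r ^ 2 * q))
    (hfm : ∀ p, p.Prime → p ∣ f → ¬ p ∣ m) (hr : 0 < r) (hq : 0 < q) (hf : 0 < f) :
    |((cnt m d W K a₀ b₀ : ℕ) : ℝ) - (K : ℝ) ^ 4 * ((rfun m d : ℤ) : ℝ) / (d : ℝ) ^ 2| ≤
      T ^ 5 * (2 * (K : ℝ) ^ 3 + (K : ℝ) ^ 2 * d) * (1 / r4 f) := by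
  obtain ⟨g, hg⟩ : ∃ g, g = r ^ 2 * q := ⟨_, rfl⟩
  rw [← hg] at hfg hdec
  have hg0 : 0 < g := by rw [hg]; positivity
  have : NeZero d := ⟨hd.ne'⟩
  have : NeZero g := ⟨hg0.ne'⟩
  have hodd : d % 2 = 1 := by
    rcases Nat.mod_two_eq_zero_or_one d with h | h
    · exfalso
      have : 2 ∣ Nat.gcd d W := Nat.dvd_gcd (Nat.dvd_of_mod_eq_zero h) (Nat.dvd_of_mod_eq_zero hW2)
      rw [hcop] at this
      omega
    · exact h
  have hgodd : g % 2 = 1 := by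
    rcases Nat.mod_two_eq_zero_or_one g with h | h
    · rw [hdec, Nat.mul_mod, h] at hodd; simp at hodd
    · exact h
  have hgd : g ∣ d := ⟨f, hdec⟩
  have hfd : f ∣ d := ⟨g, by rw [hdec]; ring⟩
  have hT1 : 1 ≤ T := by
    have := hT 1 one_pos hd
    simpa using this
  have hmain := cnt_error m f g d W K a₀ b₀ (by rw [hdec]; ring) hsf
    (fun p hp hpf => ⟨by
      rintro rfl
      have := hpf.trans hfd
      omega, hfm p hp hpf⟩) hfg hcop.symm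
  have h1 : (rho m d : ℝ) = ((rfun m d : ℤ) : ℝ) := by
    rw [← rho_eq_rfun m d hodd]; push_cast; rfl
  rw [← h1]
  refine hmain.trans ?_
  have hgT : (g.divisors.card : ℝ) ≤ T := hT g hg0 (Nat.le_of_dvd hd hgd)
  have hfT : (f.divisors.card : ℝ) ≤ T := hT f hf (Nat.le_of_dvd hd hfd)
  have h2 : (rho m g : ℝ) ≤ g * T ^ 2 := by
    refine (rho_le m g hgodd).trans ?_
    gcongr
  have h3 : (8 : ℝ) ^ f.primeFactors.card ≤ T ^ 3 := by
    have h4 : (2 : ℝ) ^ f.primeFactors.card ≤ T := by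
      refine le_trans ?_ hfT
      exact_mod_cast two_pow_le_card_divisors hf.ne'
    have h5 : (8 : ℝ) ^ f.primeFactors.card = ((2 : ℝ) ^ f.primeFactors.card) ^ 3 := by
      rw [← pow_mul, mul_comm, pow_mul]; norm_num
    rw [h5]
    exact pow_le_pow_left₀ (by positivity) h4 3
  have hf0 : (0 : ℝ) < f := by exact_mod_cast hf
  have hd0 : (0 : ℝ) < d := by exact_mod_cast hd
  have hr4 : 0 < r4 f := r4_pos hf0
  have h4 : (f : ℝ) ^ (3 / 4 : ℝ) = f * (1 / r4 f) := by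
    rw [← r4_pow_three hf0.le, eq_comm, mul_one_div, div_eq_iff hr4.ne']
    rw [← pow_succ, r4_pow hf0.le]
  rw [h4]
  have hdfg : (d : ℝ) = g * f := by exact_mod_cast hdec
  calc _ ≤ (g * T ^ 2) * T ^ 3 * (f * (1 / r4 f)) * (2 * (K : ℝ) ^ 3 / d + (K : ℝ) ^ 2) := by
        apply mul_le_mul_of_nonneg_right _ (by positivity)
        apply mul_le_mul_of_nonneg_right _ (by positivity)
        exact mul_le_mul h2 h3 (by positivity) (by positivity)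
    _ = T ^ 5 * ((g * f) * (2 * (K : ℝ) ^ 3 / d + (K : ℝ) ^ 2)) * (1 / r4 f) := by ring
    _ = _ := by
        rw [← hdfg]
        field_simp

/-- The constant `∑ n^{-3/2}`. -/
noncomputable def C32 : ℝ := ∑' n : ℕ, 1 / (n : ℝ) ^ (3 / 2 : ℝ)

lemma sum_le_C32 (s : Finset ℕ) : ∑ r ∈ s, 1 / (r : ℝ) ^ (3 / 2 : ℝ) ≤ C32 := by
  have hs : Summable (fun n : ℕ => 1 / (n : ℝ) ^ (3 / 2 : ℝ)) :=
    Real.summable_one_div_nat_rpow.mpr (by norm_num)
  exact hs.sum_le_tsum s (fun i _ => by positivity)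

lemma C32_nonneg : 0 ≤ C32 := by
  have := sum_le_C32 ∅
  simpa using this

lemma sum_decomp_le (m N : ℕ) (T : ℝ) (hm : 0 < m)
    (hT : ∀ r, 0 < r → r ≤ N → ((m * r).divisors.card : ℝ) ≤ T)
    (r q f : ℕ → ℕ) (hdec : ∀ d, 0 < d → d = r d ^ 2 * q d * f d)
    (hq : ∀ d, 0 < d → q d ∣ m * r d) (hr0 : ∀ d, 0 < d → 0 < r d) (hq0 : ∀ d, 0 < d → 0 < q d)
    (hf0 : ∀ d, 0 < d → 0 < f d) :
    ∑ d ∈ Ioc 0 N, 1 / r4 (f d) ≤ 4 / 3 * r4 N ^ 3 * (T * C32) := by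
  classical
  set S : Finset (Σ _ : ℕ, Σ _ : ℕ, ℕ) := (Ioc 0 N).sigma (fun r => ((m * r).divisors).sigma
    (fun q => Ioc 0 (N / (r ^ 2 * q)))) with hS
  have h1 : ∑ d ∈ Ioc 0 N, 1 / r4 (f d) ≤ ∑ t ∈ S, 1 / r4 (t.2.2 : ℝ) := by
    set Φ : ℕ → (Σ _ : ℕ, Σ _ : ℕ, ℕ) := fun d => ⟨r d, q d, f d⟩ with hΦ
    have hinj : Set.InjOn Φ (Ioc 0 N : Set ℕ) := by
      intro d hd d' hd' h
      rw [mem_coe, mem_Ioc] at hd hd'
      have e1 : (Φ d).1 = (Φ d').1 := by rw [h]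
      have e2 : (Φ d).2.1 = (Φ d').2.1 := by rw [h]
      have e3 : (Φ d).2.2 = (Φ d').2.2 := by rw [h]
      simp only [hΦ] at e1 e2 e3
      rw [hdec d hd.1, hdec d' hd'.1, e1, e2, e3]
    calc ∑ d ∈ Ioc 0 N, 1 / r4 (f d) = ∑ d ∈ Ioc 0 N, 1 / r4 ((Φ d).2.2 : ℝ) := rfl
      _ = ∑ t ∈ (Ioc 0 N).image Φ, 1 / r4 (t.2.2 : ℝ) := by rw [Finset.sum_image hinj]
      _ ≤ _ := by
        apply Finset.sum_le_sum_of_subset_of_nonneg
        · intro t ht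
          rw [mem_image] at ht
          obtain ⟨d, hd, rfl⟩ := ht
          rw [mem_Ioc] at hd
          have hdd := hdec d hd.1
          rw [hS, mem_sigma, mem_sigma, mem_Ioc, mem_Ioc, Nat.mem_divisors]
          have hm' : m * r d ≠ 0 := (Nat.mul_pos hm (hr0 d hd.1)).ne'
          refine ⟨⟨hr0 d hd.1, ?_⟩, ⟨hq d hd.1, hm'⟩, hf0 d hd.1, ?_⟩
          · calc r d ≤ d := by
                  have h2 : r d ≤ r d ^ 2 := Nat.le_self_pow two_ne_zero _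
                  have h3 : r d ^ 2 ≤ r d ^ 2 * (q d * f d) :=
                    Nat.le_mul_of_pos_right _ (Nat.mul_pos (hq0 d hd.1) (hf0 d hd.1))
                  calc r d ≤ _ := h2
                    _ ≤ _ := h3
                    _ = d := by rw [← mul_assoc]; exact hdd.symm
              _ ≤ N := hd.2
          · rw [Nat.le_div_iff_mul_le (Nat.mul_pos (pow_pos (hr0 d hd.1) 2) (hq0 d hd.1)), mul_comm]
            calc _ = d := hdd.symm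
              _ ≤ N := hd.2
        · intro t _ _
          have := r4_nonneg (show (0:ℝ) ≤ t.2.2 by positivity)
          positivity
  refine h1.trans ?_
  rw [hS, Finset.sum_sigma]
  have hN0 : 0 ≤ r4 (N : ℝ) := r4_nonneg (by positivity)
  have h2 : ∀ r ∈ Ioc 0 N, ∑ t ∈ ((m * r).divisors).sigma (fun q => Ioc 0 (N / (r ^ 2 * q))),
      1 / r4 (t.2 : ℝ) ≤ (4 / 3 * r4 N ^ 3 * T) * (1 / (r : ℝ) ^ (3 / 2 : ℝ)) := by
    intro r hr
    rw [mem_Ioc] at hr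
    rw [Finset.sum_sigma]
    have hr0 : (0 : ℝ) < r := by exact_mod_cast hr.1
    have h3 : ∀ q ∈ (m * r).divisors, ∑ f ∈ Ioc 0 (N / (r ^ 2 * q)), 1 / r4 (f : ℝ) ≤
        4 / 3 * r4 N ^ 3 * (1 / (r : ℝ) ^ (3 / 2 : ℝ)) := by
      intro q hq
      have hq1 : 1 ≤ q := Nat.pos_of_mem_divisors hq
      refine (sum_inv_r4_le _).trans ?_
      have h4 : ((N / (r ^ 2 * q) : ℕ) : ℝ) ≤ N * (1 / (r : ℝ) ^ 2) := by
        calc ((N / (r ^ 2 * q) : ℕ) : ℝ) ≤ (N : ℝ) / ((r ^ 2 * q : ℕ) : ℝ) := Nat.cast_div_le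
          _ ≤ (N : ℝ) / (r : ℝ) ^ 2 := by
              apply div_le_div_of_nonneg_left (by positivity) (by positivity)
              push_cast
              have : (1 : ℝ) ≤ q := by exact_mod_cast hq1
              nlinarith [pow_pos hr0 2]
          _ = _ := by ring
      have h5 : r4 ((N / (r ^ 2 * q) : ℕ) : ℝ) ≤ r4 N * r4 (1 / (r : ℝ) ^ 2) := by
        rw [← r4_mul (by positivity) (by positivity)]
        exact r4_mono (by positivity) h4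
      have h6 : r4 (1 / (r : ℝ) ^ 2) ^ 3 = 1 / (r : ℝ) ^ (3 / 2 : ℝ) := by
        rw [r4_pow_three (by positivity), Real.div_rpow (by norm_num) (by positivity),
          Real.one_rpow, ← Real.rpow_natCast, ← Real.rpow_mul hr0.le]
        norm_num
      calc _ ≤ 4 / 3 * (r4 N * r4 (1 / (r : ℝ) ^ 2)) ^ 3 := by
            apply mul_le_mul_of_nonneg_left _ (by norm_num)
            exact pow_le_pow_left₀ (r4_nonneg (by positivity)) h5 3
        _ = _ := by rw [mul_pow, h6]; ring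
    calc _ ≤ ∑ q ∈ (m * r).divisors, 4 / 3 * r4 N ^ 3 * (1 / (r : ℝ) ^ (3 / 2 : ℝ)) :=
          Finset.sum_le_sum h3
      _ = ((m * r).divisors.card : ℝ) * (4 / 3 * r4 N ^ 3 * (1 / (r : ℝ) ^ (3 / 2 : ℝ))) := by
          rw [sum_const, nsmul_eq_mul]
      _ ≤ T * (4 / 3 * r4 N ^ 3 * (1 / (r : ℝ) ^ (3 / 2 : ℝ))) :=
          mul_le_mul_of_nonneg_right (hT r hr.1 hr.2) (by positivity)
      _ = _ := by ring
  refine (Finset.sum_le_sum h2).trans ?_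
  rw [← mul_sum]
  rcases Nat.eq_zero_or_pos N with rfl | hN
  · have h7 : r4 ((0 : ℕ) : ℝ) = 0 := by unfold r4; norm_num
    rw [h7]; simp
  have hT0 : 0 ≤ T := le_trans (Nat.cast_nonneg _) (hT 1 one_pos hN)
  calc _ ≤ (4 / 3 * r4 N ^ 3 * T) * C32 := by
        apply mul_le_mul_of_nonneg_left (sum_le_C32 _) (by positivity)
    _ = _ := by ring

/-- Total error. -/
theorem sum_error_le (m N W K a₀ b₀ : ℕ) (T : ℝ) (hm : 0 < m) (hW2 : W % 2 = 0)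
    (hT : ∀ n, 0 < n → n ≤ m * N → (n.divisors.card : ℝ) ≤ T) :
    ∑ d ∈ Ioc 0 N, (if Nat.Coprime d W then
      |((cnt m d W K a₀ b₀ : ℕ) : ℝ) - (K : ℝ) ^ 4 * ((rfun m d : ℤ) : ℝ) / (d : ℝ) ^ 2| else 0) ≤
      T ^ 6 * (2 * (K : ℝ) ^ 3 + (K : ℝ) ^ 2 * N) * (4 / 3 * r4 N ^ 3 * C32) := by
  rcases Nat.eq_zero_or_pos N with rfl | hN
  · have h7 : r4 ((0 : ℕ) : ℝ) = 0 := by unfold r4; norm_num
    have h8 : (4 / 3 : ℝ) * 0 ^ 3 * C32 = 0 := by ring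
    rw [h7, h8, mul_zero, Finset.Ioc_self, Finset.sum_empty]
  have hT1 : 1 ≤ T := by
    have := hT 1 one_pos (Nat.mul_pos hm hN)
    simpa using this
  have hex : ∀ d : ℕ, ∃ r q f : ℕ, 0 < d → (d = r ^ 2 * q * f ∧ q ∣ m * r ∧ Squarefree f ∧
      Nat.Coprime f (r ^ 2 * q) ∧ (∀ p, p.Prime → p ∣ f → ¬ p ∣ m) ∧ 0 < r ∧ 0 < q ∧ 0 < f) := by
    intro d
    rcases Nat.eq_zero_or_pos d with rfl | hd
    · exact ⟨0, 0, 0, fun h => absurd h (lt_irrefl 0)⟩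
    · obtain ⟨r, q, f, h⟩ := exists_decomp m d hd
      exact ⟨r, q, f, fun _ => h⟩
  choose r q f hrqf using hex
  have h1 : ∀ d ∈ Ioc 0 N, (if Nat.Coprime d W then
      |((cnt m d W K a₀ b₀ : ℕ) : ℝ) - (K : ℝ) ^ 4 * ((rfun m d : ℤ) : ℝ) / (d : ℝ) ^ 2| else 0) ≤
      T ^ 5 * (2 * (K : ℝ) ^ 3 + (K : ℝ) ^ 2 * N) * (1 / r4 (f d)) := by
    intro d hd
    rw [mem_Ioc] at hd
    obtain ⟨h1, h2, h3, h4, h5, h6, h7, h8⟩ := hrqf d hd.1
    have hr4 : 0 < r4 (f d) := r4_pos (by exact_mod_cast h8)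
    split_ifs with hc
    · refine (cnt_error_le m d W K a₀ b₀ T (fun n hn hnd => hT n hn ?_) hd.1 hW2 hc h1 h3 h4 h5 h6 h7
        h8).trans ?_
      · exact (hnd.trans hd.2).trans (Nat.le_mul_of_pos_left N hm)
      · have : (d : ℝ) ≤ N := by exact_mod_cast hd.2
        gcongr
    · positivity
  refine (Finset.sum_le_sum h1).trans ?_
  rw [← mul_sum]
  have h2 := sum_decomp_le m N T hm (fun r hr hrN => hT (m * r) (Nat.mul_pos hm hr)
    (Nat.mul_le_mul_left m hrN)) r q f (fun d hd => (hrqf d hd).1) (fun d hd => (hrqf d hd).2.1)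
    (fun d hd => (hrqf d hd).2.2.2.2.2.1) (fun d hd => (hrqf d hd).2.2.2.2.2.2.1)
    (fun d hd => (hrqf d hd).2.2.2.2.2.2.2)
  calc _ ≤ T ^ 5 * (2 * (K : ℝ) ^ 3 + (K : ℝ) ^ 2 * N) * (4 / 3 * r4 N ^ 3 * (T * C32)) :=
        mul_le_mul_of_nonneg_left h2 (by positivity)
    _ = _ := by ring

end Pool.Agent.Lib.MP1e1427
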