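import Mathlib
import Pool.Agent.Lib.MP_1e1427_nt.Detect

/-!
Partial sums of `χ₄(d)/d` over `d` free of a finite set of primes.
-/

namespace Pool.Agent.Lib.MP1e1427

open Finset ArithmeticFunction Filter

/-- Partial sums of the Leibniz series. -/
noncomputable def leib (k : ℕ) : ℝ := ∑ i ∈ range k, (-1 : ℝ) ^ i / (2 * i + 1)

lemma abs_leib_sub_le (j : ℕ) : |leib j - Real.pi / 4| ≤ 1 / (2 * j + 1) := by
  have e : ∀ i : ℕ, (-1 : ℝ) ^ i / (2 * i + 1) = (-1 : ℝ) ^ i * (1 / (2 * (i : ℝ) + 1)) :=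
    fun i => by ring
  have hlim : Tendsto (fun k => ∑ i ∈ range k, (-1 : ℝ) ^ i * (1 / (2 * (i : ℝ) + 1))) atTop
      (nhds (Real.pi / 4)) := by
    have := Real.tendsto_sum_pi_div_four
    simp_rw [e] at this
    exact this
  have hanti : Antitone (fun i : ℕ => 1 / (2 * (i : ℝ) + 1)) := by
    intro a b hab
    have : (a : ℝ) ≤ b := by exact_mod_cast hab
    apply one_div_le_one_div_of_le (by positivity)
    linarith
  have hle : ∀ k, leib (2 * k) ≤ Real.pi / 4 := by
    intro k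
    have := hanti.alternating_series_le_tendsto hlim k
    unfold leib
    simp_rw [e]
    exact this
  have hge : ∀ k, Real.pi / 4 ≤ leib (2 * k + 1) := by
    intro k
    have := hanti.tendsto_le_alternating_series hlim k
    unfold leib
    simp_rw [e]
    exact this
  have hstep : ∀ k, leib (k + 1) = leib k + (-1 : ℝ) ^ k / (2 * k + 1) := by
    intro k; unfold leib; rw [sum_range_succ]
  rcases Nat.even_or_odd' j with ⟨k, rfl | rfl⟩
  · have h1 := hle k
    have h2 := hge k
    rw [hstep] at h2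
    have h3 : (-1 : ℝ) ^ (2 * k) = 1 := by rw [pow_mul]; norm_num
    rw [h3] at h2
    rw [abs_le]
    have h4 : (0:ℝ) ≤ 1 / (2 * ((2 * k : ℕ) : ℝ) + 1) := by positivity
    constructor <;> linarith
  · have h1 := hle (k + 1)
    have h2 := hge k
    rw [show 2 * (k + 1) = 2 * k + 1 + 1 by ring, hstep] at h1
    have h3 : (-1 : ℝ) ^ (2 * k + 1) = -1 := by rw [pow_succ, pow_mul]; norm_num
    rw [h3] at h1
    rw [abs_le]
    have h4 : (-1 : ℝ) / (2 * ((2 * k + 1 : ℕ) : ℝ) + 1) = - (1 / (2 * ((2 * k + 1 : ℕ) : ℝ) + 1)) := by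
      ring
    rw [h4] at h1
    have h5 : (0:ℝ) ≤ 1 / (2 * ((2 * k + 1 : ℕ) : ℝ) + 1) := by positivity
    constructor <;> linarith

lemma sum_chi_eq_leib (N : ℕ) : ∑ d ∈ Ioc 0 N, (chi d : ℝ) / d = leib ((N + 1) / 2) := by
  induction N with
  | zero => simp [leib]
  | succ N ih =>
    rw [sum_Ioc_succ_top (Nat.zero_le N), ih]
    rcases Nat.even_or_odd' N with ⟨k, rfl | rfl⟩
    · rw [show (2 * k + 1) / 2 = k by omega, show (2 * k + 1 + 1) / 2 = k + 1 by omega]
      unfold leib
      rw [sum_range_succ]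
      congr 1
      have : (chi (2 * k + 1) : ℝ) = (-1) ^ k := by
        rcases Nat.even_or_odd' k with ⟨j, rfl | rfl⟩
        · rw [chi_of_one (by omega), pow_mul]; norm_num
        · rw [chi_of_three (by omega), pow_succ, pow_mul]; norm_num
      rw [this]
      push_cast
      rfl
    · rw [show (2 * k + 1 + 1) / 2 = k + 1 by omega, show (2 * k + 1 + 1 + 1) / 2 = k + 1 by omega,
        chi_of_even (by omega)]
      simp

/-- `∑_{d ≤ N, p ∤ d ∀ p ∈ P} χ₄(d)/d`. -/
noncomputable def XP (P : Finset ℕ) (N : ℕ) : ℝ :=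
  ∑ d ∈ Ioc 0 N, if (∀ p ∈ P, ¬ p ∣ d) then (chi d : ℝ) / d else 0

/-- The limit. -/
noncomputable def LP (P : Finset ℕ) : ℝ := Real.pi / 4 * ∏ p ∈ P, (1 - (chi p : ℝ) / p)

lemma XP_insert (P : Finset ℕ) (hP : ∀ q ∈ P, q.Prime) {p : ℕ} (hp : p.Prime) (hpP : p ∉ P) (N : ℕ) :
    XP (insert p P) N = XP P N - (chi p : ℝ) / p * XP P (N / p) := by
  have h1 : XP (insert p P) N = XP P N - ∑ d ∈ Ioc 0 N,
      if (p ∣ d ∧ ∀ q ∈ P, ¬ q ∣ d) then (chi d : ℝ) / d else 0 := by
    unfold XP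
    rw [← sum_sub_distrib]
    apply Finset.sum_congr rfl
    intro d _
    by_cases h1 : ∀ q ∈ P, ¬ q ∣ d
    · by_cases h2 : p ∣ d
      · rw [if_neg, if_pos h1, if_pos ⟨h2, h1⟩, sub_self]
        intro h; exact h p (mem_insert_self _ _) h2
      · rw [if_pos, if_pos h1, if_neg (fun h => h2 h.1), sub_zero]
        intro q hq
        rcases mem_insert.mp hq with rfl | hq
        · exact h2
        · exact h1 q hq
    · rw [if_neg, if_neg h1, if_neg (fun h => h1 h.2), sub_zero]
      intro h; exact h1 (fun q hq => h q (mem_insert_of_mem hq))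
  rw [h1]
  congr 1
  unfold XP
  rw [mul_sum, ← Finset.sum_filter]
  symm
  rw [← Finset.sum_filter_add_sum_filter_not (Ioc 0 (N / p)) (fun d => ∀ q ∈ P, ¬ q ∣ d)]
  have h2 : ∑ d ∈ (Ioc 0 (N / p)).filter (fun d => ¬ ∀ q ∈ P, ¬ q ∣ d),
      (chi p : ℝ) / p * (if (∀ q ∈ P, ¬ q ∣ d) then (chi d : ℝ) / d else 0) = 0 := by
    apply Finset.sum_eq_zero
    intro d hd
    rw [mem_filter] at hd
    rw [if_neg hd.2, mul_zero]
  rw [h2, add_zero]
  apply Finset.sum_bij (fun d _ => p * d)
  · intro d hd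
    rw [mem_filter, mem_Ioc] at hd ⊢
    refine ⟨⟨Nat.mul_pos hp.pos hd.1.1, ?_⟩, dvd_mul_right _ _, ?_⟩
    · rw [mul_comm]; exact (Nat.le_div_iff_mul_le hp.pos).mp hd.1.2
    · intro q hq hqd
      rcases (hP q hq).dvd_mul.mp hqd with h | h
      · rw [Nat.prime_dvd_prime_iff_eq (hP q hq) hp] at h
        exact hpP (h ▸ hq)
      · exact hd.2 q hq h
  · intro a _ b _ h
    exact Nat.eq_of_mul_eq_mul_left hp.pos h
  · intro d hd
    rw [mem_filter, mem_Ioc] at hd
    obtain ⟨⟨hd0, hdN⟩, ⟨j, rfl⟩, hq⟩ := hd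
    refine ⟨j, ?_, rfl⟩
    rw [mem_filter, mem_Ioc]
    refine ⟨⟨Nat.pos_of_mul_pos_left hd0, ?_⟩, ?_⟩
    · rw [Nat.le_div_iff_mul_le hp.pos, mul_comm]; exact hdN
    · intro q hqP hqj
      exact hq q hqP (hqj.trans (dvd_mul_left _ _))
  · intro d hd
    rw [mem_filter] at hd
    rw [if_pos hd.2, chi_mul']
    push_cast
    rw [mul_div_mul_comm]

lemma abs_XP_sub_le (P : Finset ℕ) (hP : ∀ q ∈ P, q.Prime) (N : ℕ) :
    |XP P N - LP P| ≤ 2 ^ P.card / (N + 1) := by
  induction P using Finset.induction_on generalizing N with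
  | empty =>
    have h1 : XP ∅ N = leib ((N + 1) / 2) := by
      unfold XP
      rw [← sum_chi_eq_leib]
      apply Finset.sum_congr rfl
      intro d _
      rw [if_pos (by simp)]
    have h2 : LP ∅ = Real.pi / 4 := by simp [LP]
    rw [h1, h2]
    refine (abs_leib_sub_le _).trans ?_
    rw [card_empty, pow_zero]
    apply one_div_le_one_div_of_le (by positivity)
    have : N ≤ 2 * ((N + 1) / 2) := by omega
    have : (N : ℝ) ≤ 2 * (((N + 1) / 2 : ℕ) : ℝ) := by exact_mod_cast this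
    linarith
  | insert p P hpP ih =>
    have hp : p.Prime := hP p (mem_insert_self _ _)
    have hP' : ∀ q ∈ P, q.Prime := fun q hq => hP q (mem_insert_of_mem hq)
    rw [XP_insert P hP' hp hpP]
    have hL : LP (insert p P) = LP P - (chi p : ℝ) / p * LP P := by
      unfold LP; rw [prod_insert hpP]; ring
    rw [hL, card_insert_of_notMem hpP]
    have h1 := ih hP' N
    have h2 := ih hP' (N / p)
    have hp0 : (0 : ℝ) < p := by exact_mod_cast hp.pos
    have h3 : |(chi p : ℝ) / p| ≤ 1 / p := by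
      rw [abs_div, abs_of_pos hp0]
      have : |(chi p : ℝ)| ≤ 1 := by exact_mod_cast abs_chi_le p
      exact div_le_div_of_nonneg_right this hp0.le
    have h4 : (2 : ℝ) ^ P.card / ((N / p : ℕ) + 1) ≤ p * (2 ^ P.card / (N + 1)) := by
      rw [mul_div_assoc', div_le_div_iff₀ (by positivity) (by positivity)]
      have h5 : N + 1 ≤ p * (N / p + 1) := by
        have := Nat.lt_mul_div_succ N hp.pos
        omega
      have h6 : ((N : ℝ) + 1) ≤ p * (((N / p : ℕ) : ℝ) + 1) := by exact_mod_cast h5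
      calc (2 : ℝ) ^ P.card * (N + 1) ≤ 2 ^ P.card * (p * (((N / p : ℕ) : ℝ) + 1)) := by gcongr
        _ = _ := by ring
    calc |XP P N - (chi p : ℝ) / p * XP P (N / p) - (LP P - (chi p : ℝ) / p * LP P)|
        = |(XP P N - LP P) - (chi p : ℝ) / p * (XP P (N / p) - LP P)| := by ring_nf
      _ ≤ |XP P N - LP P| + |(chi p : ℝ) / p * (XP P (N / p) - LP P)| := abs_sub _ _
      _ ≤ 2 ^ P.card / (N + 1) + 1 / p * (p * (2 ^ P.card / (N + 1))) := by
          rw [abs_mul]
          apply add_le_add h1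
          exact mul_le_mul h3 (h2.trans h4) (abs_nonneg _) (by positivity)
      _ = 2 ^ (P.card + 1) / (N + 1) := by
          field_simp
          ring

lemma LP_bounds (W : ℕ) (hW : 0 < W) :
    3 / (4 * (W : ℝ)) ≤ LP W.primeFactors ∧ LP W.primeFactors ≤ 2 ^ W.primeFactors.card := by
  have hpi := Real.pi_gt_three
  have hpi4 := Real.pi_le_four
  have hpi0 : 0 ≤ Real.pi / 4 := by positivity
  have hfac : ∀ p ∈ W.primeFactors, 1 / (p : ℝ) ≤ 1 - (chi p : ℝ) / p ∧ 1 - (chi p : ℝ) / p ≤ 2 := by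
    intro p hp
    have hp2 : (2 : ℝ) ≤ p := by exact_mod_cast (Nat.prime_of_mem_primeFactors hp).two_le
    have hp0 : (0 : ℝ) < p := by linarith
    have h1 : |(chi p : ℝ)| ≤ 1 := by exact_mod_cast abs_chi_le p
    rw [abs_le] at h1
    constructor
    · have : 1 - (chi p : ℝ) / p = (p - chi p) / p := by field_simp
      rw [this]
      apply div_le_div_of_nonneg_right _ hp0.le
      linarith
    · have : (-1 : ℝ) ≤ (chi p : ℝ) / p := by
        rw [le_div_iff₀ hp0]; linarith
      linarith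
  constructor
  · unfold LP
    have h1 : ∏ p ∈ W.primeFactors, (1 / (p : ℝ)) ≤ ∏ p ∈ W.primeFactors, (1 - (chi p : ℝ) / p) := by
      apply Finset.prod_le_prod
      · intro p _; positivity
      · intro p hp; exact (hfac p hp).1
    have h2 : 1 / (W : ℝ) ≤ ∏ p ∈ W.primeFactors, (1 / (p : ℝ)) := by
      rw [Finset.prod_div_distrib, Finset.prod_const_one]
      have h3 : ∏ p ∈ W.primeFactors, p ≤ W := Nat.le_of_dvd hW (Nat.prod_primeFactors_dvd W)
      have h4 : (∏ p ∈ W.primeFactors, (p : ℝ)) ≤ W := by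
        rw [← Nat.cast_prod]; exact_mod_cast h3
      have h5 : 0 < (∏ p ∈ W.primeFactors, (p : ℝ)) := by
        apply Finset.prod_pos
        intro p hp
        exact_mod_cast (Nat.prime_of_mem_primeFactors hp).pos
      exact one_div_le_one_div_of_le h5 h4
    have hW0 : (0 : ℝ) < W := by exact_mod_cast hW
    calc 3 / (4 * (W : ℝ)) = 3 / 4 * (1 / W) := by field_simp
      _ ≤ Real.pi / 4 * (1 / W) := by
          apply mul_le_mul_of_nonneg_right _ (by positivity)
          linarith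
      _ ≤ _ := mul_le_mul_of_nonneg_left (h2.trans h1) hpi0
  · unfold LP
    have h1 : ∏ p ∈ W.primeFactors, (1 - (chi p : ℝ) / p) ≤ ∏ p ∈ W.primeFactors, (2 : ℝ) := by
      apply Finset.prod_le_prod
      · intro p hp
        exact le_trans (by positivity) (hfac p hp).1
      · intro p hp; exact (hfac p hp).2
    rw [Finset.prod_const] at h1
    calc _ ≤ 1 * (2 : ℝ) ^ W.primeFactors.card := by
          apply mul_le_mul (by linarith) h1 _ (by norm_num)
          apply Finset.prod_nonneg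
          intro p hp
          exact le_trans (by positivity) (hfac p hp).1
      _ = _ := one_mul _

end Pool.Agent.Lib.MP1e1427
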