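import Mathlib
import Pool.Agent.Lib.MP_1e1427_nt.Formula
import Pool.Agent.Lib.MP_1e1427_nt.LSum

/-!
Lower bound for the main term `∑_{d ≤ N, (d,W)=1} χ₄(d) ρ(d)/d²`.
-/

namespace Pool.Agent.Lib.MP1e1427

open Finset ArithmeticFunction

/-- `χ₄(n)/n` on `n` coprime to `W`. -/
noncomputable def AW (W : ℕ) : ArithmeticFunction ℝ :=
  ⟨fun n => if Nat.Coprime n W then (chi n : ℝ) / n else 0, by simp⟩

/-- `μ(n)/n²` on `n` coprime to `W`. -/
noncomputable def EW (W : ℕ) : ArithmeticFunction ℝ :=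
  ⟨fun n => if Nat.Coprime n W then ((moebius n : ℤ) : ℝ) / (n : ℝ) ^ 2 else 0, by simp⟩

/-- `1/n` on `n` coprime to `W`, `n ∣ m`. -/
noncomputable def GW (m W : ℕ) : ArithmeticFunction ℝ :=
  ⟨fun n => if Nat.Coprime n W ∧ n ∣ m then 1 / (n : ℝ) else 0, by simp⟩

/-- `c_n(m)/n²` on `n` coprime to `W`. -/
noncomputable def CW (m W : ℕ) : ArithmeticFunction ℝ :=
  ⟨fun n => if Nat.Coprime n W then ((cm m n : ℤ) : ℝ) / (n : ℝ) ^ 2 else 0, by simp⟩

/-- `χ₄(n) ρ(n)/n²` on `n` coprime to `W`. -/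
noncomputable def FW (m W : ℕ) : ArithmeticFunction ℝ :=
  ⟨fun n => if Nat.Coprime n W then (chi n : ℝ) * ((rfun m n : ℤ) : ℝ) / (n : ℝ) ^ 2 else 0, by simp⟩

lemma AW_apply (W n : ℕ) : AW W n = if Nat.Coprime n W then (chi n : ℝ) / n else 0 := rfl
lemma EW_apply (W n : ℕ) : EW W n =
  if Nat.Coprime n W then ((moebius n : ℤ) : ℝ) / (n : ℝ) ^ 2 else 0 := rfl
lemma GW_apply (m W n : ℕ) : GW m W n = if Nat.Coprime n W ∧ n ∣ m then 1 / (n : ℝ) else 0 := rfl
lemma CW_apply (m W n : ℕ) : CW m W n =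
  if Nat.Coprime n W then ((cm m n : ℤ) : ℝ) / (n : ℝ) ^ 2 else 0 := rfl
lemma FW_apply (m W n : ℕ) : FW m W n =
  if Nat.Coprime n W then (chi n : ℝ) * ((rfun m n : ℤ) : ℝ) / (n : ℝ) ^ 2 else 0 := rfl

lemma mul_h (h : ℕ → ℝ) (hmul : ∀ a b, h (a * b) = h a * h b) (f g : ArithmeticFunction ℤ) (n : ℕ) :
    h n * (((f * g) n : ℤ) : ℝ) = ∑ x ∈ n.divisorsAntidiagonal, (h x.1 * f x.1) * (h x.2 * g x.2) := by
  rw [ArithmeticFunction.mul_apply]
  push_cast
  rw [mul_sum]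
  apply Finset.sum_congr rfl
  intro x hx
  rw [Nat.mem_divisorsAntidiagonal] at hx
  rw [← hx.1, hmul]
  ring

lemma GW_mul_EW (m W : ℕ) : GW m W * EW W = CW m W := by
  ext n
  set h : ℕ → ℝ := fun n => if Nat.Coprime n W then 1 / (n : ℝ) ^ 2 else 0 with hh
  have hmul : ∀ a b, h (a * b) = h a * h b := by
    intro a b
    simp only [hh, Nat.coprime_mul_iff_left]
    by_cases ha : Nat.Coprime a W
    · by_cases hb : Nat.Coprime b W
      · rw [if_pos ⟨ha, hb⟩, if_pos ha, if_pos hb]; push_cast; ring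
      · rw [if_neg (fun h => hb h.2), if_neg hb, mul_zero]
    · rw [if_neg (fun h => ha h.1), if_neg ha, zero_mul]
  have h1 := mul_h h hmul (gfun m) moebius n
  rw [ArithmeticFunction.mul_apply]
  have h2 : CW m W n = h n * (((gfun m * moebius) n : ℤ) : ℝ) := by
    rw [CW_apply]
    simp only [hh]
    unfold cm
    split_ifs <;> ring
  rw [h2, h1]
  apply Finset.sum_congr rfl
  intro x _
  rw [GW_apply, EW_apply, gfun_apply]
  simp only [hh]
  by_cases h1 : Nat.Coprime x.1 W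
  · by_cases h2 : Nat.Coprime x.2 W
    · by_cases h3 : x.1 ∣ m
      · rw [if_pos ⟨h1, h3⟩, if_pos h2, if_pos h1, if_pos h3, if_pos h2]
        push_cast
        by_cases h0 : (x.1 : ℝ) = 0
        · rw [h0]; simp
        · field_simp
      · rw [if_neg (fun h => h3 h.2), if_neg h3]; simp
    · rw [if_neg h2, if_neg h2]; simp
  · rw [if_neg (fun h => h1 h.1), if_neg h1]; simp

lemma CW_mul_AW (m W : ℕ) (hW : W % 2 = 0) : CW m W * AW W = FW m W := by
  ext n
  set h : ℕ → ℝ := fun n => if Nat.Coprime n W then (chi n : ℝ) / (n : ℝ) ^ 2 else 0 with hh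
  have hmul : ∀ a b, h (a * b) = h a * h b := by
    intro a b
    simp only [hh, Nat.coprime_mul_iff_left, chi_mul']
    by_cases ha : Nat.Coprime a W
    · by_cases hb : Nat.Coprime b W
      · rw [if_pos ⟨ha, hb⟩, if_pos ha, if_pos hb]; push_cast; ring
      · rw [if_neg (fun h => hb h.2), if_neg hb, mul_zero]
    · rw [if_neg (fun h => ha h.1), if_neg ha, zero_mul]
  have h1 := mul_h h hmul (chi.pmul (cm m)) idZ n
  rw [ArithmeticFunction.mul_apply]
  have h2 : FW m W n = h n * (((chi.pmul (cm m) * idZ) n : ℤ) : ℝ) := by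
    rw [FW_apply]
    simp only [hh]
    unfold rfun
    split_ifs <;> ring
  rw [h2, h1]
  apply Finset.sum_congr rfl
  intro x _
  rw [CW_apply, AW_apply, pmul_apply, idZ_apply]
  simp only [hh]
  by_cases h1 : Nat.Coprime x.1 W
  · by_cases h2 : Nat.Coprime x.2 W
    · rw [if_pos h1, if_pos h2, if_pos h1, if_pos h2]
      have hodd : x.1 % 2 = 1 := by
        rcases Nat.mod_two_eq_zero_or_one x.1 with h | h
        · exfalso
          have : 2 ∣ Nat.gcd x.1 W := Nat.dvd_gcd (Nat.dvd_of_mod_eq_zero h) (Nat.dvd_of_mod_eq_zero hW)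
          rw [h1] at this
          omega
        · exact h
      have hc : (chi x.1 : ℝ) ^ 2 = 1 := by exact_mod_cast chi_sq_of_odd hodd
      push_cast
      by_cases h0 : (x.2 : ℝ) = 0
      · rw [h0]; simp
      · have : (chi x.1 : ℝ) / (x.1 : ℝ) ^ 2 * ((chi x.1 : ℝ) * (cm m x.1 : ℝ)) *
            ((chi x.2 : ℝ) / (x.2 : ℝ) ^ 2 * (x.2 : ℝ)) =
            (chi x.1 : ℝ) ^ 2 * ((cm m x.1 : ℝ) / (x.1 : ℝ) ^ 2 * ((chi x.2 : ℝ) / (x.2 : ℝ))) := by
          field_simp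
        rw [this, hc, one_mul]
    · rw [if_neg h2, if_neg h2]; simp
  · rw [if_neg h1, if_neg h1]; simp

lemma coprime_iff_forall {d W : ℕ} (hW : W ≠ 0) :
    Nat.Coprime d W ↔ ∀ p ∈ W.primeFactors, ¬ p ∣ d := by
  constructor
  · intro h p hp hpd
    have h1 := Nat.dvd_gcd hpd (Nat.dvd_of_mem_primeFactors hp)
    rw [h] at h1
    exact (Nat.prime_of_mem_primeFactors hp).one_lt.ne' (Nat.dvd_one.mp h1)
  · intro h
    by_contra hc
    obtain ⟨p, hp, h1, h2⟩ := Nat.Prime.not_coprime_iff_dvd.mp hc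
    exact h p (Nat.mem_primeFactors.mpr ⟨hp, h2, hW⟩) h1

lemma sum_AW (W : ℕ) (hW : W ≠ 0) (N : ℕ) : ∑ d ∈ Ioc 0 N, AW W d = XP W.primeFactors N := by
  unfold XP
  apply Finset.sum_congr rfl
  intro d _
  rw [AW_apply]
  by_cases h : Nat.Coprime d W
  · rw [if_pos h, if_pos ((coprime_iff_forall hW).mp h)]
  · rw [if_neg h, if_neg (fun h' => h ((coprime_iff_forall hW).mpr h'))]

/-- The intermediate sum. -/
noncomputable def YW (W M : ℕ) : ℝ := ∑ e ∈ Ioc 0 M, EW W e * XP W.primeFactors (M / e)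

lemma abs_EW_le (W e : ℕ) : |EW W e| ≤ ((e : ℝ) ^ 2)⁻¹ := by
  rw [EW_apply]
  split_ifs
  · rw [abs_div, abs_of_nonneg (by positivity : (0:ℝ) ≤ (e : ℝ) ^ 2), div_eq_mul_inv]
    have : |((moebius e : ℤ) : ℝ)| ≤ 1 := by exact_mod_cast abs_moebius_le_one
    calc _ ≤ 1 * ((e : ℝ) ^ 2)⁻¹ := mul_le_mul_of_nonneg_right this (by positivity)
      _ = _ := one_mul _
  · simp

lemma sum_inv_sq_le (M : ℕ) : ∑ e ∈ Ioc 0 M, ((e : ℝ) ^ 2)⁻¹ ≤ 2 := by
  rcases Nat.eq_zero_or_pos M with rfl | hM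
  · simp
  have h1 := sum_Ioc_inv_sq_le_sub (α := ℝ) (k := 1) (n := M) one_ne_zero hM
  have h2 : ∑ e ∈ Ioc 0 M, ((e : ℝ) ^ 2)⁻¹ = ((1 : ℝ) ^ 2)⁻¹ + ∑ e ∈ Ioc 1 M, ((e : ℝ) ^ 2)⁻¹ := by
    have : Ioc 0 M = insert 1 (Ioc 1 M) := by
      ext x; simp only [mem_Ioc, mem_insert]; omega
    rw [this, sum_insert (by simp)]
    simp
  rw [h2]
  have : (0 : ℝ) ≤ (M : ℝ)⁻¹ := by positivity
  have h3 : ((1 : ℕ) : ℝ)⁻¹ = 1 := by norm_num
  rw [h3] at h1
  have h4 : ((1 : ℝ) ^ 2)⁻¹ = 1 := by norm_num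
  rw [h4]
  linarith

lemma two_pow_card_le (W : ℕ) (hW : 0 < W) : (2 : ℝ) ^ W.primeFactors.card ≤ W := by
  have h1 : ∏ p ∈ W.primeFactors, 2 ≤ ∏ p ∈ W.primeFactors, p :=
    Finset.prod_le_prod' (fun p hp => (Nat.prime_of_mem_primeFactors hp).two_le)
  have h2 : ∏ p ∈ W.primeFactors, p ≤ W := Nat.le_of_dvd hW (Nat.prod_primeFactors_dvd W)
  rw [Finset.prod_const] at h1
  exact_mod_cast h1.trans h2

lemma abs_XP_le (W : ℕ) (hW : 0 < W) (N : ℕ) : |XP W.primeFactors N| ≤ 2 * W := by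
  have h1 := abs_XP_sub_le W.primeFactors (fun p hp => Nat.prime_of_mem_primeFactors hp) N
  obtain ⟨h2, h3⟩ := LP_bounds W hW
  have h4 := two_pow_card_le W hW
  have hW0 : (0 : ℝ) < W := by exact_mod_cast hW
  have h5 : (2 : ℝ) ^ W.primeFactors.card / ((N : ℝ) + 1) ≤ 2 ^ W.primeFactors.card := by
    apply div_le_self (by positivity)
    have : (0 : ℝ) ≤ N := by positivity
    linarith
  have h6 : 0 ≤ LP W.primeFactors := le_trans (by positivity) h2
  calc |XP W.primeFactors N| = |(XP W.primeFactors N - LP W.primeFactors) + LP W.primeFactors| := by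
        ring_nf
    _ ≤ |XP W.primeFactors N - LP W.primeFactors| + |LP W.primeFactors| := abs_add_le _ _
    _ ≤ W + W := by
        rw [abs_of_nonneg h6]
        exact add_le_add ((h1.trans h5).trans h4) (h3.trans h4)
    _ = 2 * W := by ring

lemma abs_YW_le (W : ℕ) (hW : 0 < W) (M : ℕ) : |YW W M| ≤ 4 * W := by
  have hW0 : (0 : ℝ) < W := by exact_mod_cast hW
  unfold YW
  calc _ ≤ ∑ e ∈ Ioc 0 M, |EW W e * XP W.primeFactors (M / e)| := Finset.abs_sum_le_sum_abs _ _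
    _ ≤ ∑ e ∈ Ioc 0 M, ((e : ℝ) ^ 2)⁻¹ * (2 * W) := by
        apply Finset.sum_le_sum
        intro e _
        rw [abs_mul]
        exact mul_le_mul (abs_EW_le W e) (abs_XP_le W hW _) (abs_nonneg _) (by positivity)
    _ = (∑ e ∈ Ioc 0 M, ((e : ℝ) ^ 2)⁻¹) * (2 * W) := by rw [Finset.sum_mul]
    _ ≤ 2 * (2 * W) := mul_le_mul_of_nonneg_right (sum_inv_sq_le M) (by positivity)
    _ = 4 * W := by ring

lemma sum_inv_le (M : ℕ) : ∑ e ∈ Ioc 0 M, (e : ℝ)⁻¹ ≤ 2 * Real.sqrt M := by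
  induction M with
  | zero => simp
  | succ M ih =>
    rw [sum_Ioc_succ_top (Nat.zero_le M)]
    have h1 : ((M + 1 : ℕ) : ℝ)⁻¹ ≤ 2 * Real.sqrt ((M + 1 : ℕ) : ℝ) - 2 * Real.sqrt M := by
      set a := Real.sqrt ((M + 1 : ℕ) : ℝ) with ha
      set b := Real.sqrt M with hb
      have ha2 : a ^ 2 = ((M + 1 : ℕ) : ℝ) := Real.sq_sqrt (by positivity)
      have hb2 : b ^ 2 = M := Real.sq_sqrt (by positivity)
      have hb0 : 0 ≤ b := Real.sqrt_nonneg _
      have ha1 : 1 ≤ a := by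
        rw [ha]
        apply Real.one_le_sqrt.mpr
        push_cast
        linarith [show (0:ℝ) ≤ M by positivity]
      have hab : b ≤ a := Real.sqrt_le_sqrt (by push_cast; linarith)
      have hdiff : (a - b) * (a + b) = 1 := by
        have : (a - b) * (a + b) = a ^ 2 - b ^ 2 := by ring
        rw [this, ha2, hb2]; push_cast; ring
      rw [← ha2]
      have h3 : (a - b) = 1 / (a + b) := by
        field_simp
        linarith
      have h4 : 1 / (2 * a) ≤ 1 / (a + b) := one_div_le_one_div_of_le (by linarith) (by linarith)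
      have h5 : (a ^ 2)⁻¹ ≤ 2 * (1 / (2 * a)) := by
        have : 2 * (1 / (2 * a)) = 1 / a := by field_simp
        rw [this, ← one_div]
        apply one_div_le_one_div_of_le (by linarith)
        nlinarith
      calc (a ^ 2)⁻¹ ≤ 2 * (1 / (2 * a)) := h5
        _ ≤ 2 * (1 / (a + b)) := by linarith
        _ = 2 * a - 2 * b := by rw [← h3]; ring
    linarith

lemma sum_EW_ge (W : ℕ) (hW2 : W % 2 = 0) {M : ℕ} (hM : 1 ≤ M) :
    1 / 2 ≤ ∑ e ∈ Ioc 0 M, EW W e := by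
  have h1 : EW W 1 = 1 := by
    rw [EW_apply, if_pos (Nat.coprime_one_left W)]; simp
  have h2 : EW W 2 = 0 := by
    rw [EW_apply, if_neg]
    intro h
    have : 2 ∣ Nat.gcd 2 W := Nat.dvd_gcd (dvd_refl 2) (Nat.dvd_of_mod_eq_zero hW2)
    rw [h] at this
    omega
  rcases Nat.lt_or_ge M 2 with hM2 | hM2
  · have : M = 1 := by omega
    subst this
    simp [h1]
    norm_num
  have hI : Ioc 0 M = insert 1 (insert 2 (Ioc 2 M)) := by
    ext x; simp only [mem_Ioc, mem_insert]; omega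
  rw [hI, sum_insert (by simp), sum_insert (by simp), h1, h2]
  have h3 := sum_Ioc_inv_sq_le_sub (α := ℝ) (k := 2) (n := M) two_ne_zero hM2
  have h4 : |∑ e ∈ Ioc 2 M, EW W e| ≤ ∑ e ∈ Ioc 2 M, ((e : ℝ) ^ 2)⁻¹ :=
    (Finset.abs_sum_le_sum_abs _ _).trans (Finset.sum_le_sum (fun e _ => abs_EW_le W e))
  rw [abs_le] at h4
  have h5 : (0 : ℝ) ≤ (M : ℝ)⁻¹ := by positivity
  push_cast at h3
  have h6 : (2 : ℝ)⁻¹ = 1 / 2 := by norm_num
  linarith [h4.1]

lemma YW_ge (W : ℕ) (hW : 0 < W) (hW2 : W % 2 = 0) {M : ℕ} (hM : 1 ≤ M) :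
    LP W.primeFactors / 2 - 2 * W / Real.sqrt M ≤ YW W M := by
  have hW0 : (0 : ℝ) < W := by exact_mod_cast hW
  have hM0 : (0 : ℝ) < M := by exact_mod_cast hM
  obtain ⟨hL1, hL2⟩ := LP_bounds W hW
  have hL0 : 0 ≤ LP W.primeFactors := le_trans (by positivity) hL1
  have hc := two_pow_card_le W hW
  have h1 : YW W M - LP W.primeFactors * ∑ e ∈ Ioc 0 M, EW W e =
      ∑ e ∈ Ioc 0 M, EW W e * (XP W.primeFactors (M / e) - LP W.primeFactors) := by
    unfold YW
    rw [mul_sum, ← sum_sub_distrib]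
    apply Finset.sum_congr rfl
    intro e _
    ring
  have h2 : |YW W M - LP W.primeFactors * ∑ e ∈ Ioc 0 M, EW W e| ≤ 2 * W / Real.sqrt M := by
    rw [h1]
    calc _ ≤ ∑ e ∈ Ioc 0 M, |EW W e * (XP W.primeFactors (M / e) - LP W.primeFactors)| :=
          Finset.abs_sum_le_sum_abs _ _
      _ ≤ ∑ e ∈ Ioc 0 M, (W / M) * (e : ℝ)⁻¹ := by
          apply Finset.sum_le_sum
          intro e he
          rw [mem_Ioc] at he
          have he0 : (0 : ℝ) < e := by exact_mod_cast he.1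
          rw [abs_mul]
          have h3 := abs_XP_sub_le W.primeFactors (fun p hp => Nat.prime_of_mem_primeFactors hp) (M / e)
          have h4 : (2 : ℝ) ^ W.primeFactors.card / (((M / e : ℕ) : ℝ) + 1) ≤ W * (e / M) := by
            rw [div_le_iff₀ (by positivity)]
            have h5 : M ≤ e * (M / e + 1) := by
              have := Nat.lt_mul_div_succ M he.1
              omega
            have h6 : (M : ℝ) ≤ e * (((M / e : ℕ) : ℝ) + 1) := by exact_mod_cast h5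
            calc (2 : ℝ) ^ W.primeFactors.card ≤ W * 1 := by rw [mul_one]; exact hc
              _ ≤ W * ((e * (((M / e : ℕ) : ℝ) + 1)) / M) := by
                  apply mul_le_mul_of_nonneg_left _ hW0.le
                  rw [le_div_iff₀ hM0, one_mul]; exact h6
              _ = _ := by ring
          calc _ ≤ ((e : ℝ) ^ 2)⁻¹ * (W * (e / M)) :=
                mul_le_mul (abs_EW_le W e) (h3.trans h4) (abs_nonneg _) (by positivity)
            _ = _ := by field_simp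
      _ = (W / M) * ∑ e ∈ Ioc 0 M, (e : ℝ)⁻¹ := by rw [mul_sum]
      _ ≤ (W / M) * (2 * Real.sqrt M) := mul_le_mul_of_nonneg_left (sum_inv_le M) (by positivity)
      _ = 2 * W / Real.sqrt M := by
          have hs : Real.sqrt M ≠ 0 := (Real.sqrt_pos.mpr hM0).ne'
          have hs2 : Real.sqrt M ^ 2 = M := Real.sq_sqrt hM0.le
          field_simp
          rw [hs2]
  have h3 := sum_EW_ge W hW2 hM
  have h4 : LP W.primeFactors * (1 / 2) ≤ LP W.primeFactors * ∑ e ∈ Ioc 0 M, EW W e :=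
    mul_le_mul_of_nonneg_left h3 hL0
  rw [abs_le] at h2
  linarith [h2.1]

/-- The main term is large. -/
theorem sum_FW_ge (m W N : ℕ) (hm : m ≠ 0) (hW : 0 < W) (hW2 : W % 2 = 0) (hN : 1 ≤ N) :
    3 / (8 * (W : ℝ)) - 2 * W / Real.sqrt N - 144 * (W : ℝ) ^ 5 * m.divisors.card / N ≤
      ∑ d ∈ Ioc 0 N, FW m W d := by
  have hW0 : (0 : ℝ) < W := by exact_mod_cast hW
  have hN0 : (0 : ℝ) < N := by exact_mod_cast hN
  obtain ⟨hL1, hL2⟩ := LP_bounds W hW
  have hexp : ∑ d ∈ Ioc 0 N, FW m W d = ∑ δ ∈ Ioc 0 N, GW m W δ * YW W (N / δ) := by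
    rw [← CW_mul_AW m W hW2, ← GW_mul_EW, mul_assoc, sum_Ioc_mul_eq_sum_sum]
    apply Finset.sum_congr rfl
    intro δ _
    rw [sum_Ioc_mul_eq_sum_sum]
    unfold YW
    congr 1
    apply Finset.sum_congr rfl
    intro e _
    rw [sum_AW W hW.ne']
  have hYpos : ∀ M, 36 * W ^ 4 ≤ M → 0 ≤ YW W M := by
    intro M hM
    have hM1 : 1 ≤ M := le_trans (by have := pow_pos hW 4; omega) hM
    have h1 := YW_ge W hW hW2 hM1
    have h2 : 6 * (W : ℝ) ^ 2 ≤ Real.sqrt M := by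
      apply Real.le_sqrt_of_sq_le
      have : ((36 * W ^ 4 : ℕ) : ℝ) ≤ M := by exact_mod_cast hM
      push_cast at this
      calc (6 * (W : ℝ) ^ 2) ^ 2 = 36 * (W : ℝ) ^ 4 := by ring
        _ ≤ (M : ℝ) := this
    have h3 : 2 * W / Real.sqrt M ≤ 2 * W / (6 * (W : ℝ) ^ 2) :=
      div_le_div_of_nonneg_left (by positivity) (by positivity) h2
    have h4 : 2 * W / (6 * (W : ℝ) ^ 2) = 1 / (3 * W) := by field_simp; norm_num
    have h5 : 1 / (3 * (W : ℝ)) ≤ 3 / (4 * (W : ℝ)) / 2 := by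
      rw [div_div, div_le_div_iff₀ (by positivity) (by positivity)]
      nlinarith
    linarith
  have hsplit : Ioc 0 N = insert 1 (Ioc 1 N) := by
    ext x; simp only [mem_Ioc, mem_insert]; omega
  rw [hexp, hsplit, sum_insert (by simp)]
  have h1 : GW m W 1 = 1 := by
    rw [GW_apply, if_pos ⟨Nat.coprime_one_left W, one_dvd m⟩]; simp
  rw [h1, one_mul, Nat.div_one]
  have h2 := YW_ge W hW hW2 hN
  have h3 : -(144 * (W : ℝ) ^ 5 * m.divisors.card / N) ≤ ∑ δ ∈ Ioc 1 N, GW m W δ * YW W (N / δ) := by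
    have h4 : ∀ δ ∈ Ioc 1 N, -(if δ ∣ m then 144 * (W : ℝ) ^ 5 / N else 0) ≤ GW m W δ * YW W (N / δ) := by
      intro δ hδ
      rw [mem_Ioc] at hδ
      have hδ0 : (0 : ℝ) < δ := by
        have : 0 < δ := by omega
        exact_mod_cast this
      by_cases hc : Nat.Coprime δ W ∧ δ ∣ m
      · rw [GW_apply, if_pos hc, if_pos hc.2]
        by_cases hbig : 36 * W ^ 4 ≤ N / δ
        · have := hYpos _ hbig
          have h5 : 0 ≤ 1 / (δ : ℝ) * YW W (N / δ) := by positivity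
          have h6 : 0 ≤ 144 * (W : ℝ) ^ 5 / N := by positivity
          linarith
        · have h5 : N < 36 * W ^ 4 * δ := by
            rw [not_le, Nat.div_lt_iff_lt_mul (by omega)] at hbig
            exact hbig
          have h6 : (N : ℝ) ≤ 36 * (W : ℝ) ^ 4 * δ := by exact_mod_cast h5.le
          have h7 : 1 / (δ : ℝ) ≤ 36 * (W : ℝ) ^ 4 / N := by
            rw [div_le_div_iff₀ hδ0 hN0, one_mul]; exact h6
          have h8 := abs_YW_le W hW (N / δ)
          rw [abs_le] at h8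
          have h9 : |1 / (δ : ℝ) * YW W (N / δ)| ≤ 36 * (W : ℝ) ^ 4 / N * (4 * W) := by
            rw [abs_mul, abs_of_pos (by positivity : 0 < 1 / (δ : ℝ))]
            exact mul_le_mul h7 (abs_YW_le W hW (N / δ)) (abs_nonneg _) (by positivity)
          rw [abs_le] at h9
          calc _ = -(36 * (W : ℝ) ^ 4 / N * (4 * W)) := by ring
            _ ≤ _ := h9.1
      · rw [GW_apply, if_neg hc, zero_mul]
        split_ifs
        · have h6 : 0 ≤ 144 * (W : ℝ) ^ 5 / N := by positivity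
          linarith
        · simp
    calc _ ≤ ∑ δ ∈ Ioc 1 N, -(if δ ∣ m then 144 * (W : ℝ) ^ 5 / N else 0) := by
          rw [Finset.sum_neg_distrib, neg_le_neg_iff, ← Finset.sum_filter, Finset.sum_const,
            nsmul_eq_mul]
          have h5 : ((Ioc 1 N).filter (fun δ => δ ∣ m)).card ≤ m.divisors.card := by
            apply Finset.card_le_card
            intro δ hδ
            rw [mem_filter] at hδ
            exact Nat.mem_divisors.mpr ⟨hδ.2, hm⟩
          have h6 : (((Ioc 1 N).filter (fun δ => δ ∣ m)).card : ℝ) ≤ m.divisors.card := by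
            exact_mod_cast h5
          calc _ ≤ (m.divisors.card : ℝ) * (144 * (W : ℝ) ^ 5 / N) :=
                mul_le_mul_of_nonneg_right h6 (by positivity)
            _ = _ := by ring
      _ ≤ _ := Finset.sum_le_sum h4
  have h5 : 3 / (8 * (W : ℝ)) ≤ LP W.primeFactors / 2 := by
    have : 3 / (8 * (W : ℝ)) = 3 / (4 * (W : ℝ)) / 2 := by field_simp; norm_num
    rw [this]
    linarith
  linarith

end Pool.Agent.Lib.MP1e1427
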