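import Mathlib
import Pool.Agent.Lib.MP_1e1427_nt.MainTerm
import Pool.Agent.Lib.MP_1e1427_nt.ErrSum2

/-!
The core inequality.
-/

namespace Pool.Agent.Lib.MP1e1427

open Finset ArithmeticFunction

/-- The remaining number `m - a² - b²`. -/
def Qw (m a₀ b₀ W : ℕ) (w : (ℕ × ℕ) × (ℕ × ℕ)) : ℕ := m - (bpt a₀ W w.1 ^ 2 + bpt b₀ W w.2 ^ 2)

lemma cnt_eq_card {m d W K a₀ b₀ : ℕ}
    (hle : ∀ w ∈ ibox K, bpt a₀ W w.1 ^ 2 + bpt b₀ W w.2 ^ 2 ≤ m) :
    cnt m d W K a₀ b₀ = ((ibox K).filter (fun w => d ∣ Qw m a₀ b₀ W w)).card := by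
  unfold cnt
  congr 1
  apply Finset.filter_congr
  intro w hw
  unfold Qw
  rw [← ZMod.natCast_eq_zero_iff, Nat.cast_sub (hle w hw), sub_eq_zero]
  push_cast
  exact eq_comm

lemma small_div_le {Q D D' : ℕ} (hQ4 : Q % 4 = 1) (hD : D * D < Q) (hD' : Q ≤ D' * D') :
    ∑ d ∈ (Ioc 0 D).filter (fun d => d ∣ Q), (chi d : ℝ) ≤
      (open Classical in if ∃ u v : ℕ, Q = u ^ 2 + v ^ 2 then (Q.divisors.card : ℝ) else 0) +
      (((Ioc D D').filter (fun d => d ∣ Q)).card : ℝ) := by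
  classical
  have hQ0 : Q ≠ 0 := by omega
  have h0 : (((∑ d ∈ Q.divisors with d * d < Q, chi d : ℤ)) : ℝ) ≤
      (if ∃ u v : ℕ, Q = u ^ 2 + v ^ 2 then (Q.divisors.card : ℝ) else 0) := by
    split_ifs with hQ
    · push_cast
      calc ∑ d ∈ Q.divisors with d * d < Q, (chi d : ℝ) ≤
          ∑ d ∈ Q.divisors with d * d < Q, (1 : ℝ) := by
            apply Finset.sum_le_sum
            intro d _
            exact_mod_cast (abs_le.mp (abs_chi_le d)).2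
        _ ≤ ∑ d ∈ Q.divisors, (1 : ℝ) := by
            apply Finset.sum_le_sum_of_subset_of_nonneg (Finset.filter_subset _ _)
            intros; norm_num
        _ = _ := by simp
    · rw [sum_small_divisors_chi_eq_zero hQ4 hQ]; simp
  have h1 : Q.divisors.filter (fun d => d * d < Q) =
      (Ioc 0 D).filter (fun d => d ∣ Q) ∪
        (Ioc D D').filter (fun d => d ∣ Q ∧ d * d < Q) := by
    ext d
    rw [mem_filter, Nat.mem_divisors, mem_union, mem_filter, mem_filter, mem_Ioc, mem_Ioc]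
    constructor
    · rintro ⟨⟨h1, _⟩, h2⟩
      have hd0 : 0 < d := Nat.pos_of_dvd_of_pos h1 (Nat.pos_of_ne_zero hQ0)
      rcases Nat.lt_or_ge D d with h | h
      · right
        refine ⟨⟨h, ?_⟩, h1, h2⟩
        by_contra hc
        push Not at hc
        have : D' * D' < d * d := Nat.mul_self_lt_mul_self hc
        omega
      · left; exact ⟨⟨hd0, h⟩, h1⟩
    · rintro (⟨⟨h1, h2⟩, h3⟩ | ⟨_, h2, h3⟩)
      · refine ⟨⟨h3, hQ0⟩, ?_⟩
        have : d * d ≤ D * D := Nat.mul_self_le_mul_self h2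
        omega
      · exact ⟨⟨h2, hQ0⟩, h3⟩
  have hdisj : Disjoint ((Ioc 0 D).filter (fun d => d ∣ Q))
      ((Ioc D D').filter (fun d => d ∣ Q ∧ d * d < Q)) := by
    rw [Finset.disjoint_left]
    intro d h1 h2
    rw [mem_filter, mem_Ioc] at h1 h2
    omega
  rw [h1, Finset.sum_union hdisj] at h0
  push_cast at h0
  have h3 : -(((Ioc D D').filter (fun d => d ∣ Q)).card : ℝ) ≤
      ∑ d ∈ (Ioc D D').filter (fun d => d ∣ Q ∧ d * d < Q), (chi d : ℝ) := by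
    calc _ ≤ -(((Ioc D D').filter (fun d => d ∣ Q ∧ d * d < Q)).card : ℝ) := by
          have : ((Ioc D D').filter (fun d => d ∣ Q ∧ d * d < Q)).card ≤
              ((Ioc D D').filter (fun d => d ∣ Q)).card := by
            apply Finset.card_le_card
            intro d hd
            rw [mem_filter] at hd ⊢
            exact ⟨hd.1, hd.2.1⟩
          rw [neg_le_neg_iff]
          exact_mod_cast this
      _ = ∑ d ∈ (Ioc D D').filter (fun d => d ∣ Q ∧ d * d < Q), (-1 : ℝ) := by simp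
      _ ≤ _ := by
          apply Finset.sum_le_sum
          intro d _
          exact_mod_cast (abs_le.mp (abs_chi_le d)).1
  linarith

/-- Abbreviation for the error. -/
noncomputable def Err (m W K a₀ b₀ d : ℕ) : ℝ :=
  ((cnt m d W K a₀ b₀ : ℕ) : ℝ) - (K : ℝ) ^ 4 * ((rfun m d : ℤ) : ℝ) / (d : ℝ) ^ 2

open Classical in
/-- The indices giving a sum of two squares. -/
noncomputable def good (m W K a₀ b₀ : ℕ) : Finset ((ℕ × ℕ) × (ℕ × ℕ)) :=
  (ibox K).filter (fun w => ∃ u v : ℕ, Qw m a₀ b₀ W w = u ^ 2 + v ^ 2)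

theorem core_ineq (m W K a₀ b₀ D D' : ℕ) (T : ℝ)
    (hle : ∀ w ∈ ibox K, bpt a₀ W w.1 ^ 2 + bpt b₀ W w.2 ^ 2 ≤ m)
    (hQ4 : ∀ w ∈ ibox K, Qw m a₀ b₀ W w % 4 = 1)
    (hQW : ∀ w ∈ ibox K, Nat.Coprime (Qw m a₀ b₀ W w) W)
    (hD : ∀ w ∈ ibox K, D * D < Qw m a₀ b₀ W w)
    (hD' : ∀ w ∈ ibox K, Qw m a₀ b₀ W w ≤ D' * D')
    (hDD' : D ≤ D')
    (hT : ∀ w ∈ ibox K, ((Qw m a₀ b₀ W w).divisors.card : ℝ) ≤ T) :
    (K : ℝ) ^ 4 * ∑ d ∈ Ioc 0 D, FW m W d ≤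
      T * (good m W K a₀ b₀).card +
      ((K : ℝ) ^ 4 * ∑ d ∈ Ioc D D', |((rfun m d : ℤ) : ℝ)| / (d : ℝ) ^ 2 +
      ∑ d ∈ Ioc 0 D', (if Nat.Coprime d W then |Err m W K a₀ b₀ d| else 0)) := by
  classical
  -- summing the inequality over the box
  have h1 : ∑ w ∈ ibox K, ∑ d ∈ (Ioc 0 D).filter (fun d => d ∣ Qw m a₀ b₀ W w), (chi d : ℝ) ≤
      T * (good m W K a₀ b₀).card +
      ∑ w ∈ ibox K, (((Ioc D D').filter (fun d => d ∣ Qw m a₀ b₀ W w)).card : ℝ) := by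
    have e1 : T * ((good m W K a₀ b₀).card : ℝ) =
        ∑ w ∈ ibox K, (if ∃ u v : ℕ, Qw m a₀ b₀ W w = u ^ 2 + v ^ 2 then T else 0) := by
      rw [← Finset.sum_filter, Finset.sum_const, nsmul_eq_mul, mul_comm]
      rfl
    rw [e1, ← sum_add_distrib]
    apply Finset.sum_le_sum
    intro w hw
    refine (small_div_le (hQ4 w hw) (hD w hw) (hD' w hw)).trans ?_
    apply add_le_add_left
    by_cases h : ∃ u v : ℕ, Qw m a₀ b₀ W w = u ^ 2 + v ^ 2
    · rw [if_pos h, if_pos h]; exact hT w hw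
    · rw [if_neg h, if_neg h]
  have hcop : ∀ w ∈ ibox K, ∀ d, d ∣ Qw m a₀ b₀ W w → Nat.Coprime d W :=
    fun w hw d hd => Nat.Coprime.coprime_dvd_left hd (hQW w hw)
  have h2 : ∑ w ∈ ibox K, ∑ d ∈ (Ioc 0 D).filter (fun d => d ∣ Qw m a₀ b₀ W w), (chi d : ℝ) =
      ∑ d ∈ Ioc 0 D, (if Nat.Coprime d W then (chi d : ℝ) * cnt m d W K a₀ b₀ else 0) := by
    simp_rw [Finset.sum_filter]
    rw [Finset.sum_comm]
    apply Finset.sum_congr rfl
    intro d _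
    rw [← Finset.sum_filter, Finset.sum_const, nsmul_eq_mul, cnt_eq_card hle]
    split_ifs with hc
    · ring
    · rw [Finset.filter_eq_empty_iff.mpr, card_empty]
      · simp
      · intro w hw hd
        exact hc (hcop w hw d hd)
  have h3 : ∑ w ∈ ibox K, (((Ioc D D').filter (fun d => d ∣ Qw m a₀ b₀ W w)).card : ℝ) =
      ∑ d ∈ Ioc D D', (if Nat.Coprime d W then (cnt m d W K a₀ b₀ : ℝ) else 0) := by
    have : ∀ w ∈ ibox K, (((Ioc D D').filter (fun d => d ∣ Qw m a₀ b₀ W w)).card : ℝ) =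
        ∑ d ∈ Ioc D D', if d ∣ Qw m a₀ b₀ W w then (1 : ℝ) else 0 := by
      intro w _
      rw [← Finset.sum_filter]; simp
    rw [Finset.sum_congr rfl this, Finset.sum_comm]
    apply Finset.sum_congr rfl
    intro d _
    rw [← Finset.sum_filter, Finset.sum_const, nsmul_eq_mul, cnt_eq_card hle, mul_one]
    split_ifs with hc
    · rfl
    · rw [Finset.filter_eq_empty_iff.mpr, card_empty]
      · simp
      · intro w hw hd
        exact hc (hcop w hw d hd)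
  rw [h2, h3] at h1
  have h4 : ∑ d ∈ Ioc 0 D, (if Nat.Coprime d W then (chi d : ℝ) * cnt m d W K a₀ b₀ else 0) =
      (K : ℝ) ^ 4 * ∑ d ∈ Ioc 0 D, FW m W d +
      ∑ d ∈ Ioc 0 D, (if Nat.Coprime d W then (chi d : ℝ) * Err m W K a₀ b₀ d else 0) := by
    rw [mul_sum, ← sum_add_distrib]
    apply Finset.sum_congr rfl
    intro d _
    rw [FW_apply]
    split_ifs
    · unfold Err; ring
    · ring
  have h5 : ∑ d ∈ Ioc D D', (if Nat.Coprime d W then (cnt m d W K a₀ b₀ : ℝ) else 0) ≤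
      (K : ℝ) ^ 4 * ∑ d ∈ Ioc D D', |((rfun m d : ℤ) : ℝ)| / (d : ℝ) ^ 2 +
      ∑ d ∈ Ioc D D', (if Nat.Coprime d W then |Err m W K a₀ b₀ d| else 0) := by
    rw [mul_sum, ← sum_add_distrib]
    apply Finset.sum_le_sum
    intro d _
    split_ifs
    · have e1 : (cnt m d W K a₀ b₀ : ℝ) =
          (K : ℝ) ^ 4 * (((rfun m d : ℤ) : ℝ) / (d : ℝ) ^ 2) + Err m W K a₀ b₀ d := by
        unfold Err; ring
      rw [e1]
      have e2 := le_abs_self ((rfun m d : ℤ) : ℝ)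
      have e3 := le_abs_self (Err m W K a₀ b₀ d)
      gcongr
    · positivity
  have h6 : -(∑ d ∈ Ioc 0 D, (if Nat.Coprime d W then |Err m W K a₀ b₀ d| else 0)) ≤
      ∑ d ∈ Ioc 0 D, (if Nat.Coprime d W then (chi d : ℝ) * Err m W K a₀ b₀ d else 0) := by
    rw [← Finset.sum_neg_distrib]
    apply Finset.sum_le_sum
    intro d _
    split_ifs
    · have e1 : |(chi d : ℝ) * Err m W K a₀ b₀ d| ≤ |Err m W K a₀ b₀ d| := by
        rw [abs_mul]
        have : |(chi d : ℝ)| ≤ 1 := by exact_mod_cast abs_chi_le d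
        calc _ ≤ 1 * |Err m W K a₀ b₀ d| := mul_le_mul_of_nonneg_right this (abs_nonneg _)
          _ = _ := one_mul _
      exact (abs_le.mp e1).1
    · simp
  have h7 : ∑ d ∈ Ioc 0 D', (if Nat.Coprime d W then |Err m W K a₀ b₀ d| else 0) =
      ∑ d ∈ Ioc 0 D, (if Nat.Coprime d W then |Err m W K a₀ b₀ d| else 0) +
      ∑ d ∈ Ioc D D', (if Nat.Coprime d W then |Err m W K a₀ b₀ d| else 0) := by
    rw [← Finset.sum_union]
    · congr 1
      ext x; simp only [mem_Ioc, mem_union]; omega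
    · rw [Finset.disjoint_left]
      intro x h1 h2
      rw [mem_Ioc] at h1 h2
      omega
  rw [h7]
  linarith

/-- The numerical form. -/
theorem card_good_ge (m W K a₀ b₀ D D' : ℕ) (T : ℝ) (hm : 0 < m) (hW : 0 < W)
    (hW2 : W % 2 = 0)
    (hle : ∀ w ∈ ibox K, bpt a₀ W w.1 ^ 2 + bpt b₀ W w.2 ^ 2 ≤ m)
    (hQ4 : ∀ w ∈ ibox K, Qw m a₀ b₀ W w % 4 = 1)
    (hQW : ∀ w ∈ ibox K, Nat.Coprime (Qw m a₀ b₀ W w) W)
    (hD : ∀ w ∈ ibox K, D * D < Qw m a₀ b₀ W w)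
    (hD' : ∀ w ∈ ibox K, Qw m a₀ b₀ W w ≤ D' * D')
    (hDD' : D ≤ D') (hD1 : 1 ≤ D)
    (hT : ∀ n, 0 < n → n ≤ m * D' → (n.divisors.card : ℝ) ≤ T) :
    (K : ℝ) ^ 4 * (3 / (8 * (W : ℝ)) - 2 * W / Real.sqrt D - 144 * (W : ℝ) ^ 5 * T / D) ≤
      T * (good m W K a₀ b₀).card + ((K : ℝ) ^ 4 * ((D' - D : ℝ) * (T ^ 2 / D)) +
        T ^ 6 * (2 * (K : ℝ) ^ 3 + (K : ℝ) ^ 2 * D') * (4 / 3 * r4 D' ^ 3 * C32)) := by
  have h1 := core_ineq m W K a₀ b₀ D D' T hle hQ4 hQW hD hD' hDD' (by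
    intro w hw
    apply hT
    · have := hD w hw; omega
    · calc Qw m a₀ b₀ W w ≤ m := Nat.sub_le _ _
        _ ≤ m * D' := Nat.le_mul_of_pos_right m (by omega))
  have h2 := sum_error_le m D' W K a₀ b₀ T hm hW2 hT
  have h3 := sum_FW_ge m W D hm.ne' hW hW2 hD1
  have hD0 : (0 : ℝ) < D := by exact_mod_cast hD1
  have hW0 : (0 : ℝ) < W := by exact_mod_cast hW
  have h4 : ∑ d ∈ Ioc D D', |((rfun m d : ℤ) : ℝ)| / (d : ℝ) ^ 2 ≤ (D' - D : ℝ) * (T ^ 2 / D) := by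
    have h5 : ∀ d ∈ Ioc D D', |((rfun m d : ℤ) : ℝ)| / (d : ℝ) ^ 2 ≤ T ^ 2 / D := by
      intro d hd
      rw [mem_Ioc] at hd
      have hd1 : 0 < d := by omega
      have hd0 : (0 : ℝ) < d := by exact_mod_cast hd1
      have hDd : (D : ℝ) ≤ d := by exact_mod_cast hd.1.le
      have h6 : (d.divisors.card : ℝ) ≤ T :=
        hT d hd1 (hd.2.trans (Nat.le_mul_of_pos_left D' hm))
      calc _ ≤ (d * (d.divisors.card : ℝ) ^ 2) / (d : ℝ) ^ 2 :=
            div_le_div_of_nonneg_right (abs_rfun_le m d) (by positivity)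
        _ = (d.divisors.card : ℝ) ^ 2 / d := by field_simp
        _ ≤ T ^ 2 / D := by gcongr
    calc _ ≤ ∑ d ∈ Ioc D D', T ^ 2 / D := Finset.sum_le_sum h5
      _ = _ := by
        rw [sum_const, Nat.card_Ioc, nsmul_eq_mul, Nat.cast_sub hDD']
  have h5 : (m.divisors.card : ℝ) ≤ T :=
    hT m hm (Nat.le_mul_of_pos_right m (by omega))
  have h6 : 3 / (8 * (W : ℝ)) - 2 * W / Real.sqrt D - 144 * (W : ℝ) ^ 5 * T / D ≤
      ∑ d ∈ Ioc 0 D, FW m W d := by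
    refine le_trans ?_ h3
    gcongr
  have h7 := mul_le_mul_of_nonneg_left h6 (by positivity : (0 : ℝ) ≤ (K : ℝ) ^ 4)
  have h8 := mul_le_mul_of_nonneg_left h4 (by positivity : (0 : ℝ) ≤ (K : ℝ) ^ 4)
  unfold Err at h1
  linarith

end Pool.Agent.Lib.MP1e1427
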