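import Mathlib

/-!
Numerical inequality.
-/

namespace Pool.Agent.Lib.MP1e1427

lemma numeric (C c32 : ℝ) (hC : 1 ≤ C) (hc : 0 ≤ c32) :
    ∃ y₀ : ℝ, 2 ≤ y₀ ∧ ∀ y : ℝ, y₀ ≤ y → ∀ t : ℝ, y ^ 50 ≤ t → ∀ K W D D' G r : ℝ,
      t ^ 4 / (2 * y ^ 10) ≤ K → K ≤ t ^ 4 / y ^ 10 → 1 ≤ W → W ≤ y → t ^ 4 / 2 ≤ D →
      D' ≤ t ^ 4 → D' - D ≤ 9 * K * W → 0 ≤ r → r ≤ t →
      K ^ 4 * (3 / (8 * W) - 2 * W / Real.sqrt D - 144 * W ^ 5 * (C * y) / D) ≤
        (C * y) * G + (K ^ 4 * ((D' - D) * ((C * y) ^ 2 / D)) +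
          (C * y) ^ 6 * (2 * K ^ 3 + K ^ 2 * D') * (4 / 3 * r ^ 3 * c32)) →
      t ^ 8 / y ^ 23 ≤ G / K ^ 2 := by
  set M : ℝ := 4 + 288 * C + 18 * C ^ 2 + 16 * C ^ 6 * c32 with hM
  have hM0 : 0 < M := by positivity
  refine ⟨max 2 (max (8 * M) (16 * C)), le_max_left _ _, ?_⟩
  intro y hy t ht K W D D' G r hK1 hK2 hW1 hW2 hD hD' hDD hr0 hr hmain
  have hy2 : 2 ≤ y := le_trans (le_max_left _ _) hy
  have hyM : 8 * M ≤ y := le_trans (le_trans (le_max_left _ _) (le_max_right _ _)) hy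
  have hyC : 16 * C ≤ y := le_trans (le_trans (le_max_right _ _) (le_max_right _ _)) hy
  have hy0 : 0 < y := by linarith
  have hy1 : 1 ≤ y := by linarith
  have ht0 : 0 < t := lt_of_lt_of_le (by positivity) ht
  have hK0 : 0 < K := lt_of_lt_of_le (by positivity) hK1
  have hD0 : 0 < D := lt_of_lt_of_le (by positivity) hD
  have hpow : ∀ i : ℕ, i ≤ 50 → y ^ i ≤ t := fun i hi => (pow_le_pow_right₀ hy1 hi).trans ht
  have ht1 : 1 ≤ t := le_trans (by simp) (hpow 0 (by norm_num))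
  -- Step A
  have hA : 3 / (8 * y) ≤ 3 / (8 * W) := by
    apply div_le_div_of_nonneg_left (by norm_num) (by positivity)
    linarith
  -- Step B
  have hB : 2 * W / Real.sqrt D ≤ 4 / y ^ 2 := by
    have h1 : t ^ 2 / 2 ≤ Real.sqrt D := by
      apply Real.le_sqrt_of_sq_le
      calc (t ^ 2 / 2) ^ 2 = t ^ 4 / 4 := by ring
        _ ≤ t ^ 4 / 2 := by
            apply div_le_div_of_nonneg_left (by positivity) (by norm_num) (by norm_num)
        _ ≤ D := hD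
    calc 2 * W / Real.sqrt D ≤ 2 * y / (t ^ 2 / 2) := by
          apply div_le_div₀ (by positivity) (by linarith) (by positivity) h1
      _ = 4 * y / t ^ 2 := by field_simp; norm_num
      _ ≤ 4 / y ^ 2 := by
          rw [div_le_div_iff₀ (by positivity) (by positivity)]
          have h2 : y ^ 3 ≤ t := hpow 3 (by norm_num)
          have h3 : t ≤ t ^ 2 := le_self_pow₀ ht1 two_ne_zero
          calc 4 * y * y ^ 2 = 4 * y ^ 3 := by ring
            _ ≤ 4 * t ^ 2 := by linarith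
  -- Step C
  have hCc : 144 * W ^ 5 * (C * y) / D ≤ 288 * C / y ^ 2 := by
    calc 144 * W ^ 5 * (C * y) / D ≤ 144 * y ^ 5 * (C * y) / (t ^ 4 / 2) := by
          apply div_le_div₀ (by positivity) _ (by positivity) hD
          gcongr
      _ = 288 * C * y ^ 6 / t ^ 4 := by field_simp; norm_num
      _ ≤ 288 * C / y ^ 2 := by
          rw [div_le_div_iff₀ (by positivity) (by positivity)]
          have h2 : y ^ 8 ≤ t := hpow 8 (by norm_num)
          have h3 : t ≤ t ^ 4 := le_self_pow₀ ht1 (by norm_num)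
          calc 288 * C * y ^ 6 * y ^ 2 = 288 * C * y ^ 8 := by ring
            _ ≤ 288 * C * t ^ 4 := by gcongr; linarith
  -- Step D
  have hDc : (D' - D) * ((C * y) ^ 2 / D) ≤ 18 * C ^ 2 / y ^ 2 := by
    calc (D' - D) * ((C * y) ^ 2 / D) ≤ (9 * K * W) * ((C * y) ^ 2 / (t ^ 4 / 2)) := by
          apply mul_le_mul hDD _ (by positivity) (by positivity)
          apply div_le_div_of_nonneg_left (by positivity) (by positivity) hD
      _ ≤ (9 * (t ^ 4 / y ^ 10) * y) * ((C * y) ^ 2 / (t ^ 4 / 2)) := by gcongr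
      _ = 18 * C ^ 2 / y ^ 7 := by field_simp; norm_num
      _ ≤ 18 * C ^ 2 / y ^ 2 := by
          apply div_le_div_of_nonneg_left (by positivity) (by positivity)
          exact pow_le_pow_right₀ hy1 (by norm_num)
  -- Step E
  have hE : (C * y) ^ 6 * (2 * K ^ 3 + K ^ 2 * D') * (4 / 3 * r ^ 3 * c32) ≤
      K ^ 4 * (16 * C ^ 6 * c32 / y ^ 2) := by
    have hK3 : K ≤ t ^ 4 := by
      refine hK2.trans (div_le_self (by positivity) (one_le_pow₀ hy1))
    have h1 : 2 * K ^ 3 + K ^ 2 * D' ≤ K ^ 2 * (3 * t ^ 4) := by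
      calc 2 * K ^ 3 + K ^ 2 * D' = K ^ 2 * (2 * K + D') := by ring
        _ ≤ K ^ 2 * (3 * t ^ 4) := by
            apply mul_le_mul_of_nonneg_left _ (by positivity)
            linarith
    have h2 : (C * y) ^ 6 * (2 * K ^ 3 + K ^ 2 * D') * (4 / 3 * r ^ 3 * c32) ≤
        (C * y) ^ 6 * (K ^ 2 * (3 * t ^ 4)) * (4 / 3 * t ^ 3 * c32) := by
      apply mul_le_mul
      · exact mul_le_mul_of_nonneg_left h1 (by positivity)
      · gcongr
      · positivity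
      · positivity
    refine h2.trans ?_
    have h3 : t ^ 8 / (4 * y ^ 20) ≤ K ^ 2 := by
      calc t ^ 8 / (4 * y ^ 20) = (t ^ 4 / (2 * y ^ 10)) ^ 2 := by field_simp; norm_num
        _ ≤ K ^ 2 := pow_le_pow_left₀ (by positivity) hK1 2
    have h4 : (C * y) ^ 6 * (K ^ 2 * (3 * t ^ 4)) * (4 / 3 * t ^ 3 * c32) =
        K ^ 2 * (4 * C ^ 6 * c32 * (y ^ 6 * t ^ 7)) := by ring
    rw [h4]
    have h5 : y ^ 6 * t ^ 7 ≤ (t ^ 8 / (4 * y ^ 20)) * (4 / y ^ 2) := by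
      have h6 : (t ^ 8 / (4 * y ^ 20)) * (4 / y ^ 2) = t ^ 8 / y ^ 22 := by field_simp
      rw [h6, le_div_iff₀ (by positivity)]
      have h7 : y ^ 28 ≤ t := hpow 28 (by norm_num)
      calc y ^ 6 * t ^ 7 * y ^ 22 = y ^ 28 * t ^ 7 := by ring
        _ ≤ t * t ^ 7 := by gcongr
        _ = t ^ 8 := by ring
    calc K ^ 2 * (4 * C ^ 6 * c32 * (y ^ 6 * t ^ 7)) ≤
        K ^ 2 * (4 * C ^ 6 * c32 * ((t ^ 8 / (4 * y ^ 20)) * (4 / y ^ 2))) := by gcongr
      _ ≤ K ^ 2 * (4 * C ^ 6 * c32 * (K ^ 2 * (4 / y ^ 2))) := by gcongr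
      _ = K ^ 4 * (16 * C ^ 6 * c32 / y ^ 2) := by ring
  -- combine
  have hcomb : K ^ 4 * (1 / (4 * y)) ≤ C * y * G := by
    have h1 : K ^ 4 * (3 / (8 * y) - 4 / y ^ 2 - 288 * C / y ^ 2) ≤
        K ^ 4 * (3 / (8 * W) - 2 * W / Real.sqrt D - 144 * W ^ 5 * (C * y) / D) := by
      apply mul_le_mul_of_nonneg_left _ (by positivity)
      linarith
    have h2 : K ^ 4 * ((D' - D) * ((C * y) ^ 2 / D)) ≤ K ^ 4 * (18 * C ^ 2 / y ^ 2) :=
      mul_le_mul_of_nonneg_left hDc (by positivity)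
    have h3 : K ^ 4 * (3 / (8 * y) - M / y ^ 2) ≤ C * y * G := by
      have : K ^ 4 * (3 / (8 * y) - M / y ^ 2) =
          K ^ 4 * (3 / (8 * y) - 4 / y ^ 2 - 288 * C / y ^ 2) - K ^ 4 * (18 * C ^ 2 / y ^ 2) -
          K ^ 4 * (16 * C ^ 6 * c32 / y ^ 2) := by
        rw [hM]; ring
      rw [this]
      linarith
    have h4 : M / y ^ 2 ≤ 1 / (8 * y) := by
      rw [div_le_div_iff₀ (by positivity) (by positivity)]
      calc M * (8 * y) = (8 * M) * y := by ring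
        _ ≤ y * y := by gcongr
        _ = 1 * y ^ 2 := by ring
    have h5 : 1 / (4 * y) ≤ 3 / (8 * y) - M / y ^ 2 := by
      have : 1 / (4 * y) = 3 / (8 * y) - 1 / (8 * y) := by field_simp; norm_num
      rw [this]
      linarith
    exact (mul_le_mul_of_nonneg_left h5 (by positivity)).trans h3
  have hKt : t ^ 8 / (4 * y ^ 20) ≤ K ^ 2 := by
    calc t ^ 8 / (4 * y ^ 20) = (t ^ 4 / (2 * y ^ 10)) ^ 2 := by field_simp; norm_num
      _ ≤ K ^ 2 := pow_le_pow_left₀ (by positivity) hK1 2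
  have hC0 : 0 < C := by linarith
  have h6 : K ^ 2 / (4 * C * y ^ 2) ≤ G / K ^ 2 := by
    rw [div_le_div_iff₀ (by positivity) (by positivity)]
    have h7 : K ^ 4 ≤ C * y * G * (4 * y) := by
      have := mul_le_mul_of_nonneg_right hcomb (by positivity : 0 ≤ 4 * y)
      calc K ^ 4 = K ^ 4 * (1 / (4 * y)) * (4 * y) := by field_simp
        _ ≤ _ := this
    calc K ^ 2 * K ^ 2 = K ^ 4 := by ring
      _ ≤ C * y * G * (4 * y) := h7
      _ = G * (4 * C * y ^ 2) := by ring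
  refine le_trans ?_ h6
  calc t ^ 8 / y ^ 23 ≤ t ^ 8 / (4 * y ^ 20) / (4 * C * y ^ 2) := by
        rw [div_div]
        apply div_le_div_of_nonneg_left (by positivity) (by positivity)
        calc 4 * y ^ 20 * (4 * C * y ^ 2) = (16 * C) * y ^ 22 := by ring
          _ ≤ y * y ^ 22 := by gcongr
          _ = y ^ 23 := by ring
    _ ≤ K ^ 2 / (4 * C * y ^ 2) := by gcongr

end Pool.Agent.Lib.MP1e1427
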