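import Mathlib
import Pool.Agent.Lib.MP_1e1427_nt.DivBound
import Pool.Agent.Lib.MP_1e1427_nt.Core
import Pool.Agent.Lib.MP_1e1427_nt.Numeric

/-!
Many pairs `(a,b)` in given residue classes with `2n - a² - b²` a sum of two squares.
-/

namespace Pool.Agent.Lib.MP1e1427

open Finset ArithmeticFunction

lemma exists_modEq_ge (A W α : ℕ) (hW : 0 < W) : ∃ a, A ≤ a ∧ a < A + W ∧ a ≡ α [MOD W] := by
  refine ⟨A + (α + (W * A - A)) % W, Nat.le_add_right _ _, ?_, ?_⟩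
  · have := Nat.mod_lt (α + (W * A - A)) hW
    omega
  · have h1 : A ≤ W * A := Nat.le_mul_of_pos_left A hW
    have h2 : A + (α + (W * A - A)) % W ≡ A + (α + (W * A - A)) [MOD W] :=
      Nat.ModEq.add_left A (Nat.mod_modEq _ _)
    refine h2.trans ?_
    have h3 : A + (α + (W * A - A)) = α + W * A := by omega
    rw [h3]
    unfold Nat.ModEq
    simp

lemma bpt_modEq (a₀ W : ℕ) (w : ℕ × ℕ) : bpt a₀ W w ≡ a₀ [MOD W] := by
  unfold bpt Nat.ModEq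
  simp

lemma card_good_le (m W K a₀ b₀ : ℕ) (hW : 0 < W) :
    (good m W K a₀ b₀).card ≤
      K ^ 2 * ((good m W K a₀ b₀).image (fun w => (bpt a₀ W w.1, bpt b₀ W w.2))).card := by
  classical
  apply Finset.card_le_mul_card_image
  intro p _
  calc _ ≤ (range K ×ˢ range K).card := by
        apply Finset.card_le_card_of_injOn (fun w => (w.1.1, w.2.1))
        · intro w hw
          rw [mem_coe, mem_filter] at hw
          have h1 : w ∈ ibox K := (mem_filter.mp hw.1).1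
          unfold ibox at h1
          rw [mem_product, mem_product, mem_product] at h1
          rw [mem_coe, mem_product]
          exact ⟨h1.1.1, h1.2.1⟩
        · intro w hw w' hw' h
          rw [mem_coe, mem_filter] at hw hw'
          have e1 : w.1.1 = w'.1.1 := (Prod.mk.inj h).1
          have e2 : w.2.1 = w'.2.1 := (Prod.mk.inj h).2
          have e3 := hw.2.trans hw'.2.symm
          rw [Prod.mk.injEq] at e3
          unfold bpt at e3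
          have e4 : w.1.1 + w.1.2 = w'.1.1 + w'.1.2 :=
            Nat.eq_of_mul_eq_mul_left hW (Nat.add_left_cancel e3.1)
          have e5 : w.2.1 + w.2.2 = w'.2.1 + w'.2.2 :=
            Nat.eq_of_mul_eq_mul_left hW (Nat.add_left_cancel e3.2)
          exact Prod.ext (Prod.ext e1 (by omega)) (Prod.ext e2 (by omega))
    _ = K ^ 2 := by rw [card_product, card_range]; ring

set_option maxHeartbeats 4000000 in
theorem dist (j : ℕ) (hj : 50 ≤ j) :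
    ∃ y₀ : ℝ, 2 ≤ y₀ ∧ ∀ y : ℝ, y₀ ≤ y → ∀ n : ℕ, (n : ℝ) = y ^ (8 * j) →
      ∀ W : ℕ, 0 < W → W % 2 = 0 → (W : ℝ) ≤ y → ∀ α β : ℕ,
      (∀ a b : ℕ, a ≡ α [MOD W] → b ≡ β [MOD W] → a ^ 2 + b ^ 2 ≤ 2 * n →
        (2 * n - (a ^ 2 + b ^ 2)) % 4 = 1 ∧ Nat.Coprime (2 * n - (a ^ 2 + b ^ 2)) W) →
      ∃ P : Finset (ℕ × ℕ), (n : ℝ) / y ^ 23 ≤ P.card ∧ ∀ p ∈ P, p.1 ≡ α [MOD W] ∧
        p.2 ≡ β [MOD W] ∧ 0 < p.2 ∧ ∃ u v : ℕ, 2 * n = p.1 ^ 2 + p.2 ^ 2 + u ^ 2 + v ^ 2 ∧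
        u ≤ p.1 ∧ u ≤ p.2 ∧ v ≤ p.1 ∧ v ≤ p.2 := by
  classical
  obtain ⟨C, hC1, hCdiv⟩ := exists_card_divisors_le (12 * j + 1) (by omega)
  obtain ⟨y₁, hy₁, hnum⟩ := numeric C C32 hC1 C32_nonneg
  refine ⟨max y₁ 10, le_trans hy₁ (le_max_left _ _), ?_⟩
  intro y hy n hn W hW hW2 hWy α β hres
  have hyy₁ : y₁ ≤ y := le_trans (le_max_left _ _) hy
  have hy10 : 10 ≤ y := le_trans (le_max_right _ _) hy
  have hy0 : 0 < y := by linarith
  have hy1 : 1 ≤ y := by linarith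
  set t : ℝ := y ^ j with ht
  have hty : y ^ 50 ≤ t := pow_le_pow_right₀ hy1 hj
  have ht0 : 0 < t := by positivity
  have ht1 : 1 ≤ t := one_le_pow₀ hy1
  have hn8 : (n : ℝ) = t ^ 8 := by rw [hn, ht, ← pow_mul, mul_comm]
  have hW0 : (0 : ℝ) < W := by exact_mod_cast hW
  have hW1 : (1 : ℝ) ≤ W := by exact_mod_cast hW
  have hW22 : (2 : ℝ) ≤ W := by
    have : 2 ≤ W := by omega
    exact_mod_cast this
  -- size of t⁴
  set s : ℝ := t ^ 4 with hs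
  have hs0 : 0 < s := by positivity
  have hss : s * s = n := by rw [hn8, hs]; ring
  have hsy : y ^ 50 ≤ s := hty.trans (le_self_pow₀ ht1 (by norm_num))
  have hs11 : y ^ 11 ≤ s := (pow_le_pow_right₀ hy1 (by norm_num)).trans hsy
  have hbig : 10000 * y ≤ s := by
    have h1 : (10000 : ℝ) ≤ y ^ 4 := by
      calc (10000 : ℝ) = 10 ^ 4 := by norm_num
        _ ≤ y ^ 4 := pow_le_pow_left₀ (by norm_num) hy10 4
    calc 10000 * y ≤ y ^ 4 * y := by gcongr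
      _ = y ^ 5 := by ring
      _ ≤ y ^ 50 := pow_le_pow_right₀ hy1 (by norm_num)
      _ ≤ s := hsy
  -- K
  obtain ⟨K, hK⟩ : ∃ K, K = ⌊s / y ^ 10⌋₊ := ⟨_, rfl⟩
  have hKle : (K : ℝ) ≤ s / y ^ 10 := by rw [hK]; exact Nat.floor_le (by positivity)
  have hKge : s / (2 * y ^ 10) ≤ K := by
    have h1 : s / y ^ 10 < K + 1 := by rw [hK]; exact Nat.lt_floor_add_one _
    have h2 : 1 ≤ s / (2 * y ^ 10) := by
      rw [le_div_iff₀ (by positivity), one_mul]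
      calc 2 * y ^ 10 ≤ y * y ^ 10 := by gcongr; linarith
        _ = y ^ 11 := by ring
        _ ≤ s := hs11
    have h3 : s / y ^ 10 = 2 * (s / (2 * y ^ 10)) := by field_simp
    linarith
  have hK1 : (1 : ℝ) ≤ K := by
    refine le_trans ?_ hKge
    rw [le_div_iff₀ (by positivity), one_mul]
    calc 2 * y ^ 10 ≤ y * y ^ 10 := by gcongr; linarith
      _ = y ^ 11 := by ring
      _ ≤ s := hs11
  have hKW : (K : ℝ) * W ≤ s / 10 ^ 9 := by
    calc (K : ℝ) * W ≤ (s / y ^ 10) * y := by gcongr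
      _ = s / y ^ 9 := by field_simp
      _ ≤ s / 10 ^ 9 := by
          apply div_le_div_of_nonneg_left hs0.le (by positivity)
          exact pow_le_pow_left₀ (by norm_num) hy10 9
  -- starting points
  set A : ℕ := ⌈(17 / 20 : ℝ) * s⌉₊ with hA
  have hA1 : (17 / 20 : ℝ) * s ≤ A := Nat.le_ceil _
  have hA2 : (A : ℝ) ≤ 17 / 20 * s + 1 := (Nat.ceil_lt_add_one (by positivity)).le
  obtain ⟨a₀, ha1, ha2, ha3⟩ := exists_modEq_ge A W α hW
  obtain ⟨b₀, hb1, hb2, hb3⟩ := exists_modEq_ge A W β hW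
  have hstart : ∀ c : ℕ, A ≤ c → c < A + W → (17 / 20 : ℝ) * s ≤ c ∧
      ((c + 2 * K * W : ℕ) : ℝ) ≤ 43 / 50 * s := by
    intro c h1 h2
    have h3 : (A : ℝ) ≤ c := by exact_mod_cast h1
    have h4 : (c : ℝ) ≤ A + W := by exact_mod_cast h2.le
    refine ⟨hA1.trans h3, ?_⟩
    push_cast
    have h5 : 2 * (K : ℝ) * W ≤ 2 * (s / 10 ^ 9) := by linarith
    have h6 : 1 + y ≤ s / 1000 := by
      have : 1000 * (1 + y) ≤ s := by linarith
      linarith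
    norm_num at h5
    linarith
  obtain ⟨ha4, ha5⟩ := hstart a₀ ha1 ha2
  obtain ⟨hb4, hb5⟩ := hstart b₀ hb1 hb2
  set B : ℕ := a₀ + 2 * K * W with hB
  set B' : ℕ := b₀ + 2 * K * W with hB'
  have hBn : B ^ 2 + B' ^ 2 < 2 * n := by
    have h1 : ((B ^ 2 + B' ^ 2 : ℕ) : ℝ) < ((2 * n : ℕ) : ℝ) := by
      push_cast
      rw [← hss]
      have h2 : (B : ℝ) ^ 2 ≤ (43 / 50 * s) ^ 2 := pow_le_pow_left₀ (by positivity) ha5 2
      have h3 : (B' : ℝ) ^ 2 ≤ (43 / 50 * s) ^ 2 := pow_le_pow_left₀ (by positivity) hb5 2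
      have h4 : 0 < s * s := by positivity
      have e2 : (43 / 50 * s) ^ 2 = 1849 / 2500 * (s * s) := by ring
      rw [e2] at h2 h3
      linarith
    exact_mod_cast h1
  -- Qmin, Qmax
  obtain ⟨Qmin, hQmin⟩ : ∃ Q, Q = 2 * n - (B ^ 2 + B' ^ 2) := ⟨_, rfl⟩
  obtain ⟨Qmax, hQmax⟩ : ∃ Q, Q = 2 * n - (a₀ ^ 2 + b₀ ^ 2) := ⟨_, rfl⟩
  have haB : a₀ ≤ B := Nat.le_add_right _ _
  have hbB : b₀ ≤ B' := Nat.le_add_right _ _
  have ha0n : a₀ ^ 2 + b₀ ^ 2 ≤ 2 * n := by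
    have h1 := Nat.pow_le_pow_left haB 2
    have h2 := Nat.pow_le_pow_left hbB 2
    omega
  have hQminR : (Qmin : ℝ) = 2 * (s * s) - ((B : ℝ) ^ 2 + (B' : ℝ) ^ 2) := by
    rw [hQmin, Nat.cast_sub hBn.le]; push_cast; rw [hss]
  have hQmaxR : (Qmax : ℝ) = 2 * (s * s) - ((a₀ : ℝ) ^ 2 + (b₀ : ℝ) ^ 2) := by
    rw [hQmax, Nat.cast_sub ha0n]; push_cast; rw [hss]
  have hQmin0 : 0 < Qmin := by omega
  have hbox : ∀ (c : ℕ) (w : ℕ × ℕ), w ∈ range K ×ˢ range K →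
      c ≤ bpt c W w ∧ bpt c W w ≤ c + 2 * K * W := by
    intro c w hw
    rw [mem_product, mem_range, mem_range] at hw
    unfold bpt
    refine ⟨Nat.le_add_right _ _, ?_⟩
    have : w.1 + w.2 ≤ 2 * K := by omega
    calc c + W * (w.1 + w.2) ≤ c + W * (2 * K) := by gcongr
      _ = c + 2 * K * W := by ring
  have hibox : ∀ w ∈ ibox K, (a₀ ≤ bpt a₀ W w.1 ∧ bpt a₀ W w.1 ≤ B) ∧
      (b₀ ≤ bpt b₀ W w.2 ∧ bpt b₀ W w.2 ≤ B') := by
    intro w hw
    unfold ibox at hw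
    rw [mem_product] at hw
    exact ⟨hbox a₀ w.1 hw.1, hbox b₀ w.2 hw.2⟩
  have hle2 : ∀ w ∈ ibox K, bpt a₀ W w.1 ^ 2 + bpt b₀ W w.2 ^ 2 ≤ B ^ 2 + B' ^ 2 := by
    intro w hw
    obtain ⟨⟨_, h1⟩, ⟨_, h2⟩⟩ := hibox w hw
    exact Nat.add_le_add (Nat.pow_le_pow_left h1 2) (Nat.pow_le_pow_left h2 2)
  have hge2 : ∀ w ∈ ibox K, a₀ ^ 2 + b₀ ^ 2 ≤ bpt a₀ W w.1 ^ 2 + bpt b₀ W w.2 ^ 2 := by
    intro w hw
    obtain ⟨⟨h1, _⟩, ⟨h2, _⟩⟩ := hibox w hw
    exact Nat.add_le_add (Nat.pow_le_pow_left h1 2) (Nat.pow_le_pow_left h2 2)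
  have hle : ∀ w ∈ ibox K, bpt a₀ W w.1 ^ 2 + bpt b₀ W w.2 ^ 2 ≤ 2 * n :=
    fun w hw => (hle2 w hw).trans hBn.le
  have hQw1 : ∀ w ∈ ibox K, Qmin ≤ Qw (2 * n) a₀ b₀ W w := by
    intro w hw
    rw [hQmin]
    exact Nat.sub_le_sub_left (hle2 w hw) _
  have hQw2 : ∀ w ∈ ibox K, Qw (2 * n) a₀ b₀ W w ≤ Qmax := by
    intro w hw
    rw [hQmax]
    exact Nat.sub_le_sub_left (hge2 w hw) _
  have hmod : ∀ w ∈ ibox K, bpt a₀ W w.1 ≡ α [MOD W] ∧ bpt b₀ W w.2 ≡ β [MOD W] :=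
    fun w _ => ⟨(bpt_modEq a₀ W w.1).trans ha3, (bpt_modEq b₀ W w.2).trans hb3⟩
  have hres' : ∀ w ∈ ibox K, Qw (2 * n) a₀ b₀ W w % 4 = 1 ∧
      Nat.Coprime (Qw (2 * n) a₀ b₀ W w) W := by
    intro w hw
    exact hres _ _ (hmod w hw).1 (hmod w hw).2 (hle w hw)
  -- D and D'
  obtain ⟨D, hD⟩ : ∃ D, D = Nat.sqrt (Qmin - 1) := ⟨_, rfl⟩
  obtain ⟨D', hD'⟩ : ∃ D', D' = Nat.sqrt Qmax + 1 := ⟨_, rfl⟩
  have hDD1 : D * D < Qmin := by
    have := Nat.sqrt_le (Qmin - 1)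
    rw [← hD] at this
    omega
  have hDD2 : Qmin ≤ (D + 1) * (D + 1) := by
    have := Nat.lt_succ_sqrt (Qmin - 1)
    rw [← hD] at this
    simp only [Nat.succ_eq_add_one] at this
    omega
  have hDD3 : Qmax < D' * D' := by
    have := Nat.lt_succ_sqrt Qmax
    rw [hD']
    exact this
  have hDD4 : (Nat.sqrt Qmax) * (Nat.sqrt Qmax) ≤ Qmax := Nat.sqrt_le Qmax
  have hQmm : Qmin ≤ Qmax := by
    rw [hQmin, hQmax]
    apply Nat.sub_le_sub_left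
    exact Nat.add_le_add (Nat.pow_le_pow_left haB 2) (Nat.pow_le_pow_left hbB 2)
  have hDleD' : D ≤ D' := by
    rw [hD, hD']
    have := Nat.sqrt_le_sqrt (show Qmin - 1 ≤ Qmax by omega)
    omega
  have hs2 : (10000 : ℝ) ≤ s := by linarith
  have hDreal : s / 2 ≤ D := by
    have h1 : (Qmin : ℝ) ≤ ((D : ℝ) + 1) ^ 2 := by
      have : ((Qmin : ℕ) : ℝ) ≤ (((D + 1) * (D + 1) : ℕ) : ℝ) := by exact_mod_cast hDD2
      push_cast at this
      linarith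
    have h2 : (B : ℝ) ^ 2 ≤ (43 / 50 * s) ^ 2 := pow_le_pow_left₀ (by positivity) ha5 2
    have h3 : (B' : ℝ) ^ 2 ≤ (43 / 50 * s) ^ 2 := pow_le_pow_left₀ (by positivity) hb5 2
    have h4 : (18 / 25 * s) ^ 2 ≤ ((D : ℝ) + 1) ^ 2 := by
      rw [hQminR] at h1
      have e1 : (18 / 25 * s) ^ 2 = 324 / 625 * (s * s) := by ring
      have e2 : (43 / 50 * s) ^ 2 = 1849 / 2500 * (s * s) := by ring
      rw [e2] at h2 h3
      rw [e1]
      have e3 := mul_pos hs0 hs0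
      linarith
    have h5 : 18 / 25 * s ≤ (D : ℝ) + 1 := by
      exact le_of_sq_le_sq h4 (by positivity)
    linarith
  have hD1 : 1 ≤ D := by
    have : (1 : ℝ) ≤ D := by linarith
    exact_mod_cast this
  have hD'real : (D' : ℝ) ≤ 3 / 4 * s + 1 := by
    have h1 : (Nat.sqrt Qmax : ℝ) ^ 2 ≤ Qmax := by
      have : (((Nat.sqrt Qmax) * (Nat.sqrt Qmax) : ℕ) : ℝ) ≤ ((Qmax : ℕ) : ℝ) := by
        exact_mod_cast hDD4
      push_cast at this
      linarith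
    have h2 : (17 / 20 * s) ^ 2 ≤ (a₀ : ℝ) ^ 2 := pow_le_pow_left₀ (by positivity) ha4 2
    have h3 : (17 / 20 * s) ^ 2 ≤ (b₀ : ℝ) ^ 2 := pow_le_pow_left₀ (by positivity) hb4 2
    have h4 : (Nat.sqrt Qmax : ℝ) ^ 2 ≤ (3 / 4 * s) ^ 2 := by
      rw [hQmaxR] at h1
      have e1 : (3 / 4 * s) ^ 2 = 9 / 16 * (s * s) := by ring
      have e2 : (17 / 20 * s) ^ 2 = 289 / 400 * (s * s) := by ring
      rw [e2] at h2 h3
      rw [e1]
      have e3 := mul_pos hs0 hs0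
      linarith
    have h5 : (Nat.sqrt Qmax : ℝ) ≤ 3 / 4 * s := le_of_sq_le_sq h4 (by positivity)
    rw [hD']
    push_cast
    linarith
  have hD's : (D' : ℝ) ≤ s := by linarith
  have hDDs : (D' : ℝ) - D ≤ 9 * K * W := by
    have hKW2 : (2 : ℝ) ≤ K * W := by
      calc (2 : ℝ) = 1 * 2 := by norm_num
        _ ≤ K * W := mul_le_mul hK1 hW22 (by norm_num) (by positivity)
    have hKW9 : 9 * (K : ℝ) * W = 9 * (K * W) := by ring
    rw [hKW9]
    by_cases hc : (D' : ℝ) - D ≤ 2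
    · linarith
    push Not at hc
    have h1 : ((D' : ℝ) - 1) ^ 2 - ((D : ℝ) + 1) ^ 2 ≤ (Qmax : ℝ) - Qmin := by
      have e1 : (Nat.sqrt Qmax : ℝ) ^ 2 ≤ Qmax := by
        have : (((Nat.sqrt Qmax) * (Nat.sqrt Qmax) : ℕ) : ℝ) ≤ ((Qmax : ℕ) : ℝ) := by
          exact_mod_cast hDD4
        push_cast at this
        linarith
      have e2 : (D' : ℝ) - 1 = Nat.sqrt Qmax := by rw [hD']; push_cast; ring
      have e3 : (Qmin : ℝ) ≤ ((D : ℝ) + 1) ^ 2 := by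
        have : ((Qmin : ℕ) : ℝ) ≤ (((D + 1) * (D + 1) : ℕ) : ℝ) := by exact_mod_cast hDD2
        push_cast at this
        linarith
      rw [e2]
      linarith
    have h2 : (Qmax : ℝ) - Qmin ≤ 2 * (K * W) * (172 / 50 * s) := by
      rw [hQmaxR, hQminR]
      have e1 : (B : ℝ) = a₀ + 2 * K * W := by rw [hB]; push_cast; ring
      have e2 : (B' : ℝ) = b₀ + 2 * K * W := by rw [hB']; push_cast; ring
      have e3 : (a₀ : ℝ) ≤ 43 / 50 * s := by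
        refine le_trans ?_ ha5
        exact_mod_cast haB
      have e4 : (b₀ : ℝ) ≤ 43 / 50 * s := by
        refine le_trans ?_ hb5
        exact_mod_cast hbB
      have e5 : 2 * (s * s) - ((a₀ : ℝ) ^ 2 + (b₀ : ℝ) ^ 2) -
          (2 * (s * s) - ((B : ℝ) ^ 2 + (B' : ℝ) ^ 2)) =
          2 * (K * W) * (B + a₀) + 2 * (K * W) * (B' + b₀) := by
        rw [e1, e2]; ring
      rw [e5]
      have e6 : 0 ≤ 2 * ((K : ℝ) * W) := by positivity
      calc _ = 2 * ((K : ℝ) * W) * ((B : ℝ) + a₀ + (B' + b₀)) := by ring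
        _ ≤ 2 * ((K : ℝ) * W) * (172 / 50 * s) := by
            apply mul_le_mul_of_nonneg_left _ e6
            linarith
    have h3 : ((D' : ℝ) - D - 2) * s ≤ ((D' : ℝ) - 1) ^ 2 - ((D : ℝ) + 1) ^ 2 := by
      have e1 : ((D' : ℝ) - 1) ^ 2 - ((D : ℝ) + 1) ^ 2 = ((D' : ℝ) - D - 2) * (D' + D) := by ring
      rw [e1]
      apply mul_le_mul_of_nonneg_left _ (by linarith)
      linarith
    have h4 : ((D' : ℝ) - D - 2) * s ≤ (2 * (K * W) * (172 / 50)) * s := by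
      calc _ ≤ _ := h3
        _ ≤ _ := h1
        _ ≤ _ := h2
        _ = _ := by ring
    have h5 : (D' : ℝ) - D - 2 ≤ 2 * (K * W) * (172 / 50) := le_of_mul_le_mul_right h4 hs0
    linarith
  -- divisor bound
  have hT : ∀ k, 0 < k → k ≤ 2 * n * D' → (k.divisors.card : ℝ) ≤ C * y := by
    intro k _ hk
    apply hCdiv y hy1
    have h1 : (k : ℝ) ≤ 2 * n * D' := by exact_mod_cast hk
    calc (k : ℝ) ≤ 2 * n * D' := h1
      _ ≤ y * t ^ 8 * t ^ 4 := by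
          rw [hn8]
          apply mul_le_mul _ hD's (by positivity) (by positivity)
          gcongr
          linarith
      _ = y ^ (12 * j + 1) := by
          rw [ht, ← pow_mul, ← pow_mul]
          ring
  -- r4
  have hr4 : r4 (D' : ℝ) ≤ t := by
    have h1 : r4 (D' : ℝ) ^ 4 ≤ t ^ 4 := by
      rw [r4_pow (by positivity)]; exact hD's
    exact le_of_pow_le_pow_left₀ (by norm_num) ht0.le h1
  have hr40 : 0 ≤ r4 (D' : ℝ) := r4_nonneg (by positivity)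
  have hn0 : 0 < 2 * n := by omega
  have hmain := card_good_ge (2 * n) W K a₀ b₀ D D' (C * y) hn0 hW hW2 hle
    (fun w hw => (hres' w hw).1) (fun w hw => (hres' w hw).2)
    (fun w hw => lt_of_lt_of_le hDD1 (hQw1 w hw)) (fun w hw => (hQw2 w hw).trans hDD3.le)
    hDleD' hD1 hT
  have hfin := hnum y hyy₁ t hty K W D D' ((good (2 * n) W K a₀ b₀).card : ℝ) (r4 D')
    hKge hKle hW1 hWy hDreal hD's hDDs hr40 hr4 hmain
  refine ⟨(good (2 * n) W K a₀ b₀).image (fun w => (bpt a₀ W w.1, bpt b₀ W w.2)), ?_, ?_⟩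
  · rw [hn8]
    refine hfin.trans ?_
    have h1 := card_good_le (2 * n) W K a₀ b₀ hW
    rw [div_le_iff₀ (by positivity)]
    have h2 : ((good (2 * n) W K a₀ b₀).card : ℝ) ≤ ((K ^ 2 * ((good (2 * n) W K a₀ b₀).image
      (fun w => (bpt a₀ W w.1, bpt b₀ W w.2))).card : ℕ) : ℝ) := by exact_mod_cast h1
    push_cast at h2
    linarith
  · intro p hp
    rw [mem_image] at hp
    obtain ⟨w, hw, rfl⟩ := hp
    have hw1 : w ∈ ibox K := (mem_filter.mp hw).1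
    obtain ⟨u, v, huv⟩ := (mem_filter.mp hw).2
    obtain ⟨⟨hwa, _⟩, ⟨hwb, _⟩⟩ := hibox w hw1
    refine ⟨(hmod w hw1).1, (hmod w hw1).2, ?_, u, v, ?_, ?_⟩
    · have h1 : (0 : ℝ) < b₀ := lt_of_lt_of_le (by positivity) hb4
      have h2 : 0 < b₀ := by exact_mod_cast h1
      exact lt_of_lt_of_le h2 hwb
    · have h1 := hle w hw1
      have h2 : Qw (2 * n) a₀ b₀ W w = 2 * n - (bpt a₀ W w.1 ^ 2 + bpt b₀ W w.2 ^ 2) := rfl
      rw [h2] at huv
      simp only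
      omega
    · have h1 : (17 / 20 * s) ^ 2 ≤ (a₀ : ℝ) ^ 2 := pow_le_pow_left₀ (by positivity) ha4 2
      have h2 : (17 / 20 * s) ^ 2 ≤ (b₀ : ℝ) ^ 2 := pow_le_pow_left₀ (by positivity) hb4 2
      have h3 : Qmax ≤ a₀ ^ 2 := by
        have : (Qmax : ℝ) ≤ ((a₀ ^ 2 : ℕ) : ℝ) := by
          rw [hQmaxR]
          push_cast
          have e2 : (17 / 20 * s) ^ 2 = 289 / 400 * (s * s) := by ring
          rw [e2] at h1 h2
          have e3 := mul_pos hs0 hs0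
          linarith
        exact_mod_cast this
      have h4 : Qmax ≤ b₀ ^ 2 := by
        have : (Qmax : ℝ) ≤ ((b₀ ^ 2 : ℕ) : ℝ) := by
          rw [hQmaxR]
          push_cast
          have e2 : (17 / 20 * s) ^ 2 = 289 / 400 * (s * s) := by ring
          rw [e2] at h1 h2
          have e3 := mul_pos hs0 hs0
          linarith
        exact_mod_cast this
      have h5 := hQw2 w hw1
      rw [huv] at h5
      have hu : u ^ 2 ≤ Qmax := le_trans (Nat.le_add_right _ _) h5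
      have hv : v ^ 2 ≤ Qmax := le_trans (Nat.le_add_left _ _) h5
      have key : ∀ c d e : ℕ, c ^ 2 ≤ Qmax → Qmax ≤ d ^ 2 → d ≤ e → c ≤ e := by
        intro c d e h1 h2 h3
        exact (Nat.pow_le_pow_iff_left two_ne_zero).mp (h1.trans h2) |>.trans h3
      exact ⟨key u a₀ _ hu h3 hwa, key u b₀ _ hu h4 hwb, key v a₀ _ hv h3 hwa,
        key v b₀ _ hv h4 hwb⟩

end Pool.Agent.Lib.MP1e1427
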