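import Mathlib
import Pool.Agent.Lib.MP_1e1427_nt.Dist

/-!
Residue classes, passage to four squares, and the count.
-/

namespace Pool.Agent.Lib.MP1e1427

open Finset

lemma exists_split (m : ℕ) : ∀ W : ℕ, W ≠ 0 → ∃ U V : ℕ, W = U * V ∧ Nat.Coprime U V ∧
    (∀ p, p.Prime → p ∣ U → p ∣ m) ∧ Nat.Coprime V m := by
  intro W
  induction W using Nat.recOnPosPrimePosCoprime with
  | prime_pow p n hp hn =>
    intro _
    by_cases h : p ∣ m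
    · refine ⟨p ^ n, 1, by simp, Nat.coprime_one_right _, ?_, Nat.coprime_one_left _⟩
      intro q hq hqp
      have := (Nat.prime_dvd_prime_iff_eq hq hp).mp (hq.dvd_of_dvd_pow hqp)
      rw [this]; exact h
    · refine ⟨1, p ^ n, by simp, Nat.coprime_one_left _, ?_, ?_⟩
      · intro q hq hq1
        exact absurd (Nat.dvd_one.mp hq1) hq.one_lt.ne'
      · exact Nat.Coprime.pow_left n ((Nat.Prime.coprime_iff_not_dvd hp).mpr h)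
  | zero => intro h; exact absurd rfl h
  | one => intro _; exact ⟨1, 1, rfl, Nat.coprime_one_left _, fun p hp h =>
      absurd (Nat.dvd_one.mp h) hp.one_lt.ne', Nat.coprime_one_left _⟩
  | coprime a b ha hb hab iha ihb =>
    intro _
    obtain ⟨U₁, V₁, h1, h2, h3, h4⟩ := iha (by omega)
    obtain ⟨U₂, V₂, k1, k2, k3, k4⟩ := ihb (by omega)
    refine ⟨U₁ * U₂, V₁ * V₂, by rw [h1, k1]; ring, ?_, ?_, ?_⟩
    · have hUV : Nat.Coprime U₁ V₂ := by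
        apply Nat.Coprime.coprime_dvd_left (k := a) (by rw [h1]; exact dvd_mul_right _ _)
        apply Nat.Coprime.coprime_dvd_right (m := b) _ hab
        rw [k1]; exact dvd_mul_left _ _
      have hUV' : Nat.Coprime U₂ V₁ := by
        apply Nat.Coprime.coprime_dvd_left (k := b) (by rw [k1]; exact dvd_mul_right _ _)
        apply Nat.Coprime.coprime_dvd_right (m := a) _ hab.symm
        rw [h1]; exact dvd_mul_left _ _
      exact Nat.Coprime.mul_left (Nat.Coprime.mul_right h2 hUV) (Nat.Coprime.mul_right hUV' k2)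
    · intro p hp hpU
      rcases hp.dvd_mul.mp hpU with h | h
      · exact h3 p hp h
      · exact k3 p hp h
    · exact Nat.Coprime.mul_left h4 k4

lemma sq_mod_four (a : ℕ) : (a % 2 = 1 → a ^ 2 % 4 = 1) ∧ (a % 2 = 0 → a ^ 2 % 4 = 0) := by
  constructor
  · intro h
    have h4 : a % 4 = 1 ∨ a % 4 = 3 := by omega
    rcases h4 with h4 | h4 <;> simp [Nat.pow_mod, h4]
  · intro h
    have h4 : a % 4 = 0 ∨ a % 4 = 2 := by omega
    rcases h4 with h4 | h4 <;> simp [Nat.pow_mod, h4]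

/-- The choice of residue classes. -/
lemma exists_residue (n W ν W₁ : ℕ) (hn : n % 2 = 1) (hW : 0 < W) (hW2 : W % 2 = 0)
    (hWν : W = 2 ^ ν * W₁) :
    ∃ α : ℕ, α ≡ 1 [MOD 2 ^ ν] ∧ α ≡ 1 [MOD 2] ∧
      ∀ a b : ℕ, a ≡ α [MOD W] → b ≡ 0 [MOD W] → a ^ 2 + b ^ 2 ≤ 2 * n →
        (2 * n - (a ^ 2 + b ^ 2)) % 4 = 1 ∧ Nat.Coprime (2 * n - (a ^ 2 + b ^ 2)) W := by
  obtain ⟨U, V, hUV, hcop, hU, hV⟩ := exists_split (2 * n) W hW.ne'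
  obtain ⟨α, hα1, hα2⟩ := Nat.chineseRemainder hcop 1 0
  have h2V : Nat.Coprime 2 V := by
    apply Nat.Coprime.coprime_dvd_left (k := 2 * n) (dvd_mul_right _ _) hV.symm
  have hνU : 2 ^ ν ∣ U := by
    have h1 : 2 ^ ν ∣ U * V := by rw [← hUV, hWν]; exact dvd_mul_right _ _
    exact Nat.Coprime.dvd_of_dvd_mul_right (Nat.Coprime.pow_left ν h2V) h1
  have h2U : 2 ∣ U := by
    have h1 : 2 ∣ U * V := by rw [← hUV]; exact Nat.dvd_of_mod_eq_zero hW2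
    exact Nat.Coprime.dvd_of_dvd_mul_right h2V h1
  refine ⟨α, hα1.of_dvd hνU, hα1.of_dvd h2U, ?_⟩
  intro a b ha hb hab
  have hUW : U ∣ W := ⟨V, hUV⟩
  have hVW : V ∣ W := ⟨U, by rw [hUV]; ring⟩
  have ha1 : a ≡ 1 [MOD U] := (ha.of_dvd hUW).trans hα1
  have ha0 : a ≡ 0 [MOD V] := (ha.of_dvd hVW).trans hα2
  have haodd : a % 2 = 1 := ha1.of_dvd h2U
  have hbeven : b % 2 = 0 := hb.of_dvd (Nat.dvd_of_mod_eq_zero hW2)
  obtain ⟨Q, hQ⟩ : ∃ Q, Q = 2 * n - (a ^ 2 + b ^ 2) := ⟨_, rfl⟩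
  have hsum : Q + (a ^ 2 + b ^ 2) = 2 * n := by omega
  rw [← hQ]
  constructor
  · have h1 := (sq_mod_four a).1 haodd
    have h2 := (sq_mod_four b).2 hbeven
    omega
  · by_contra hc
    obtain ⟨p, hp, h1, h2⟩ := Nat.Prime.not_coprime_iff_dvd.mp hc
    rw [hUV] at h2
    have hbp : p ∣ W → p ∣ b := by
      intro h
      exact h.trans ((Nat.modEq_zero_iff_dvd).mp hb)
    rcases hp.dvd_mul.mp h2 with h3 | h3
    · have h4 := hU p hp h3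
      have h5 : p ∣ b := hbp (h3.trans hUW)
      have h6 : p ∣ a ^ 2 + b ^ 2 := by
        have := h4
        rw [← hsum] at this
        exact (Nat.dvd_add_right h1).mp this
      have h7 : p ∣ a ^ 2 := (Nat.dvd_add_left (dvd_pow h5 two_ne_zero)).mp h6
      have h8 : p ∣ a := hp.dvd_of_dvd_pow h7
      have h9 : a ≡ 1 [MOD p] := ha1.of_dvd h3
      have h10 : 0 ≡ 1 [MOD p] := ((Nat.modEq_zero_iff_dvd).mpr h8).symm.trans h9
      have h11 : p ∣ 1 := (Nat.modEq_zero_iff_dvd).mp h10.symm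
      exact hp.one_lt.ne' (Nat.dvd_one.mp h11)
    · have h5 : p ∣ b := hbp (h3.trans hVW)
      have h6 : p ∣ a := by
        have := (Nat.modEq_zero_iff_dvd).mp ha0
        exact h3.trans this
      have h7 : p ∣ 2 * n := by
        rw [← hsum]
        exact dvd_add h1 (dvd_add (dvd_pow h6 two_ne_zero) (dvd_pow h5 two_ne_zero))
      have h8 := Nat.dvd_gcd h3 h7
      rw [hV] at h8
      exact hp.one_lt.ne' (Nat.dvd_one.mp h8)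

/-- No prime factor of `2^W - 1` divides `2^a + 2^b + 1`. -/
lemma not_dvd_of_residue {W ν W₁ a b p : ℕ} (hW : 0 < W) (hWν : W = 2 ^ ν * W₁) (hW₁ : W₁ % 2 = 1)
    (ha0 : 0 < a) (ha : a ≡ 1 [MOD 2 ^ ν]) (hb : b ≡ 0 [MOD W]) (hp : p.Prime)
    (hpW : p ∣ 2 ^ W - 1) : ¬ p ∣ 2 ^ a + 2 ^ b + 1 := by
  intro hdiv
  have hpos : 1 ≤ 2 ^ W := Nat.one_le_two_pow
  have hp2 : p ≠ 2 := by
    rintro rfl
    have h1 : 2 ∣ 2 ^ W := dvd_pow_self 2 hW.ne'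
    have h2 : 2 ∣ 2 ^ W - (2 ^ W - 1) := Nat.dvd_sub h1 hpW
    have h3 : 2 ^ W - (2 ^ W - 1) = 1 := by omega
    rw [h3] at h2
    omega
  have : Fact p.Prime := ⟨hp⟩
  have h2ne : (2 : ZMod p) ≠ 0 := Ring.two_ne_zero (R := ZMod p) (by rwa [ZMod.ringChar_zmod_n])
  have e1 : (2 : ZMod p) ^ W = 1 := by
    have h1 : ((2 ^ W - 1 : ℕ) : ZMod p) = 0 := (ZMod.natCast_eq_zero_iff _ _).mpr hpW
    rw [Nat.cast_sub hpos] at h1
    push_cast at h1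
    exact sub_eq_zero.mp h1
  have e2 : (2 : ZMod p) ^ b = 1 := by
    obtain ⟨l, hl⟩ := (Nat.modEq_zero_iff_dvd).mp hb
    rw [hl, pow_mul, e1, one_pow]
  have e3 : (2 : ZMod p) ^ a + 2 ^ b + 1 = 0 := by
    have h1 : ((2 ^ a + 2 ^ b + 1 : ℕ) : ZMod p) = 0 := (ZMod.natCast_eq_zero_iff _ _).mpr hdiv
    push_cast at h1
    exact h1
  obtain ⟨a', rfl⟩ : ∃ a', a = a' + 1 := ⟨a - 1, by omega⟩
  have e4 : (2 : ZMod p) ^ a' = -1 := by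
    rw [e2, pow_succ] at e3
    have : 2 * ((2 : ZMod p) ^ a' + 1) = 0 := by linear_combination e3
    have h1 := (mul_eq_zero.mp this).resolve_left h2ne
    exact eq_neg_of_add_eq_zero_left h1
  have ha' : 2 ^ ν ∣ a' := by
    have h1 : a' + 1 ≡ 0 + 1 [MOD 2 ^ ν] := by simpa using ha
    have h2 := Nat.ModEq.add_right_cancel' 1 h1
    exact (Nat.modEq_zero_iff_dvd).mp h2
  obtain ⟨l, hl⟩ := ha'
  have e5 : ((2 : ZMod p) ^ a') ^ W₁ = 1 := by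
    rw [← pow_mul, hl, show 2 ^ ν * l * W₁ = W * l by rw [hWν]; ring, pow_mul, e1, one_pow]
  rw [e4, Odd.neg_one_pow (Nat.odd_iff.mpr hW₁)] at e5
  apply h2ne
  linear_combination -e5

/-- From `(a,b,u,v)` to four squares. -/
lemma exists_quad {n a b u v : ℕ} (ha : a % 2 = 1) (hb : b % 2 = 0)
    (h : 2 * n = a ^ 2 + b ^ 2 + u ^ 2 + v ^ 2) (hua : u ≤ a) (hub : u ≤ b) (hva : v ≤ a)
    (hvb : v ≤ b) :
    ∃ x y z w : ℕ, x ^ 2 + y ^ 2 + z ^ 2 + w ^ 2 = n ∧ x + y = a ∧ z + w = b := by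
  -- order so that `u` is odd and `v` even
  have key : ∀ u v : ℕ, 2 * n = a ^ 2 + b ^ 2 + u ^ 2 + v ^ 2 → u ≤ a → v ≤ b → u % 2 = 1 →
      v % 2 = 0 → ∃ x y z w : ℕ, x ^ 2 + y ^ 2 + z ^ 2 + w ^ 2 = n ∧ x + y = a ∧ z + w = b := by
    intro u v h hua hvb hu hv
    obtain ⟨y, hy⟩ : ∃ y, a = u + 2 * y := ⟨(a - u) / 2, by omega⟩
    obtain ⟨w, hw⟩ : ∃ w, b = v + 2 * w := ⟨(b - v) / 2, by omega⟩
    refine ⟨u + y, y, v + w, w, ?_, by omega, by omega⟩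
    subst hy hw
    have : 2 * ((u + y) ^ 2 + y ^ 2 + (v + w) ^ 2 + w ^ 2) = 2 * n := by rw [h]; ring
    omega
  have h1 := (sq_mod_four a).1 ha
  have h2 := (sq_mod_four b).2 hb
  have hu4 := sq_mod_four u
  have hv4 := sq_mod_four v
  rcases Nat.mod_two_eq_zero_or_one u with hu | hu
  · rcases Nat.mod_two_eq_zero_or_one v with hv | hv
    · have := hu4.2 hu; have := hv4.2 hv; omega
    · exact key v u (by rw [h]; ring) hva hub hv hu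
  · rcases Nat.mod_two_eq_zero_or_one v with hv | hv
    · exact key u v h hua hvb hu hv
    · have := hu4.1 hu; have := hv4.1 hv; omega

/-- The engine: many representations with `x + y` and `z + w` in given residue classes. -/
theorem engine (ε : ℝ) (hε : 0 < ε) :
    ∃ δ : ℝ, 0 < δ ∧ ∃ n₀ : ℕ, ∀ n : ℕ, n₀ ≤ n → ∀ W : ℕ, 0 < W → W % 2 = 0 →
      (W : ℝ) ≤ (n : ℝ) ^ δ → ∀ α β : ℕ, α % 2 = 1 → β % 2 = 0 →
      (∀ a b : ℕ, a ≡ α [MOD W] → b ≡ β [MOD W] → a ^ 2 + b ^ 2 ≤ 2 * n →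
        (2 * n - (a ^ 2 + b ^ 2)) % 4 = 1 ∧ Nat.Coprime (2 * n - (a ^ 2 + b ^ 2)) W) →
      ∃ P : Finset (ℕ × ℕ), (n : ℝ) ^ (1 - ε) ≤ P.card ∧ ∀ p ∈ P, p.1 ≡ α [MOD W] ∧
        p.2 ≡ β [MOD W] ∧ 0 < p.1 ∧ 0 < p.2 ∧ p.1 % 2 = 1 ∧ p.2 % 2 = 0 ∧
        ∃ x y z w : ℕ, x ^ 2 + y ^ 2 + z ^ 2 + w ^ 2 = n ∧ x + y = p.1 ∧ z + w = p.2 := by
  obtain ⟨j, hj50, hjε⟩ : ∃ j : ℕ, 50 ≤ j ∧ 23 / (8 * (j : ℝ)) ≤ ε := by
    obtain ⟨i, hi⟩ := exists_nat_ge (23 / (8 * ε))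
    refine ⟨max i 50, le_max_right _ _, ?_⟩
    have h1 : (i : ℝ) ≤ ((max i 50 : ℕ) : ℝ) := by exact_mod_cast le_max_left _ _
    have h2 : (50 : ℝ) ≤ ((max i 50 : ℕ) : ℝ) := by exact_mod_cast le_max_right _ _
    rw [div_le_iff₀ (by positivity)]
    rw [div_le_iff₀ (by positivity)] at hi
    calc (23 : ℝ) ≤ i * (8 * ε) := hi
      _ ≤ ((max i 50 : ℕ) : ℝ) * (8 * ε) := by gcongr
      _ = _ := by ring
  have hj0 : (0 : ℝ) < j := by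
    have : (50 : ℝ) ≤ j := by exact_mod_cast hj50
    linarith
  obtain ⟨y₀, hy₀2, hdist⟩ := dist j hj50
  have hy₀0 : 0 < y₀ := by linarith
  obtain ⟨n₀, hn₀⟩ := exists_nat_ge (y₀ ^ (8 * j))
  refine ⟨1 / (8 * (j : ℝ)), by positivity, max n₀ 1, ?_⟩
  intro n hnn W hW hW2 hWδ α β hα hβ hres
  have hn₀n : n₀ ≤ n := le_trans (le_max_left _ _) hnn
  have hn1 : 1 ≤ n := le_trans (le_max_right _ _) hnn
  have hnpos : (0 : ℝ) < n := by exact_mod_cast hn1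
  have hn1R : (1 : ℝ) ≤ n := by exact_mod_cast hn1
  set y : ℝ := (n : ℝ) ^ (1 / (8 * (j : ℝ))) with hy
  have hypow : y ^ (8 * j) = n := by
    rw [hy, ← Real.rpow_natCast, ← Real.rpow_mul hnpos.le]
    push_cast
    rw [one_div_mul_cancel (by positivity), Real.rpow_one]
  have hy0 : 0 < y := Real.rpow_pos_of_pos hnpos _
  have hyy₀ : y₀ ≤ y := by
    have h1 : y₀ ^ (8 * j) ≤ y ^ (8 * j) := by
      rw [hypow]
      exact hn₀.trans (by exact_mod_cast hn₀n)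
    exact le_of_pow_le_pow_left₀ (by omega) hy0.le h1
  obtain ⟨P, hPcard, hP⟩ := hdist y hyy₀ n hypow.symm W hW hW2 hWδ α β hres
  refine ⟨P, ?_, ?_⟩
  · refine le_trans ?_ hPcard
    have h1 : (n : ℝ) / y ^ 23 = (n : ℝ) ^ (1 - 23 / (8 * (j : ℝ))) := by
      rw [hy, ← Real.rpow_natCast, ← Real.rpow_mul hnpos.le, Real.rpow_sub hnpos, Real.rpow_one]
      congr 2
      push_cast
      ring
    rw [h1]
    exact Real.rpow_le_rpow_of_exponent_le hn1R (by linarith)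
  · intro p hp
    obtain ⟨h1, h2, hb0, u, v, huv, hua, hub, hva, hvb⟩ := hP p hp
    have h2W : 2 ∣ W := Nat.dvd_of_mod_eq_zero hW2
    have ha : p.1 % 2 = 1 := by
      have : p.1 % 2 = α % 2 := h1.of_dvd h2W
      omega
    have hb : p.2 % 2 = 0 := by
      have : p.2 % 2 = β % 2 := h2.of_dvd h2W
      omega
    exact ⟨h1, h2, by omega, hb0, ha, hb, exists_quad ha hb huv hua hub hva hvb⟩

/-- Counting through the sums. -/
lemma card_le_ncard {n : ℕ} {S : Set (ℕ × ℕ × ℕ × ℕ)}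
    (hS : ∀ q ∈ S, q.1 ^ 2 + q.2.1 ^ 2 + q.2.2.1 ^ 2 + q.2.2.2 ^ 2 = n) (P : Finset (ℕ × ℕ))
    (hP : ∀ p ∈ P, ∃ q ∈ S, q.1 + q.2.1 = p.1 ∧ q.2.2.1 + q.2.2.2 = p.2) :
    P.card ≤ S.ncard := by
  have hfin : S.Finite := by
    have h : (Set.Iic n ×ˢ (Set.Iic n ×ˢ (Set.Iic n ×ˢ Set.Iic n)) :
        Set (ℕ × ℕ × ℕ × ℕ)).Finite :=
      (Set.finite_Iic n).prod ((Set.finite_Iic n).prod ((Set.finite_Iic n).prod (Set.finite_Iic n)))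
    apply h.subset
    intro q hq
    have h1 := hS q hq
    have e1 := Nat.le_self_pow two_ne_zero q.1
    have e2 := Nat.le_self_pow two_ne_zero q.2.1
    have e3 := Nat.le_self_pow two_ne_zero q.2.2.1
    have e4 := Nat.le_self_pow two_ne_zero q.2.2.2
    simp only [Set.mem_prod, Set.mem_Iic]
    refine ⟨?_, ?_, ?_, ?_⟩ <;> omega
  have hsub : (P : Set (ℕ × ℕ)) ⊆
      (fun q : ℕ × ℕ × ℕ × ℕ => (q.1 + q.2.1, q.2.2.1 + q.2.2.2)) '' S := by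
    intro p hp
    obtain ⟨q, hq, h1, h2⟩ := hP p hp
    exact ⟨q, hq, Prod.ext h1 h2⟩
  have h1 : (P : Set (ℕ × ℕ)).ncard ≤
      ((fun q : ℕ × ℕ × ℕ × ℕ => (q.1 + q.2.1, q.2.2.1 + q.2.2.2)) '' S).ncard :=
    Set.ncard_le_ncard hsub (hfin.image _)
  have h2 := Set.ncard_image_le (f := fun q : ℕ × ℕ × ℕ × ℕ => (q.1 + q.2.1, q.2.2.1 + q.2.2.2)) hfin
  rw [Set.ncard_coe_finset] at h1
  exact h1.trans h2

/-- `W ≤ n^(δ/2)` implies `2 W ≤ n^δ` for large `n`. -/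
lemma two_mul_le_rpow {δ : ℝ} (hδ : 0 < δ) : ∃ n₁ : ℕ, ∀ n : ℕ, n₁ ≤ n → ∀ W : ℕ,
    (W : ℝ) ≤ (n : ℝ) ^ (δ / 2) → ((2 * W : ℕ) : ℝ) ≤ (n : ℝ) ^ δ := by
  obtain ⟨n₁, hn₁⟩ := exists_nat_ge ((2 : ℝ) ^ (2 / δ))
  refine ⟨max n₁ 1, ?_⟩
  intro n hn W hW
  have hn1 : 1 ≤ n := le_trans (le_max_right _ _) hn
  have hnn : n₁ ≤ n := le_trans (le_max_left _ _) hn
  have hnpos : (0 : ℝ) < n := by exact_mod_cast hn1
  have h1 : (2 : ℝ) ≤ (n : ℝ) ^ (δ / 2) := by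
    have h2 : (2 : ℝ) ^ (2 / δ) ≤ n := hn₁.trans (by exact_mod_cast hnn)
    have h3 : ((2 : ℝ) ^ (2 / δ)) ^ (δ / 2) ≤ (n : ℝ) ^ (δ / 2) :=
      Real.rpow_le_rpow (by positivity) h2 (by positivity)
    rw [← Real.rpow_mul (by norm_num)] at h3
    have h4 : 2 / δ * (δ / 2) = 1 := by field_simp
    rw [h4, Real.rpow_one] at h3
    exact h3
  have h2 : (n : ℝ) ^ δ = (n : ℝ) ^ (δ / 2) * (n : ℝ) ^ (δ / 2) := by
    rw [← Real.rpow_add hnpos]; congr 1; ring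
  rw [h2]
  push_cast
  exact mul_le_mul h1 hW (by positivity) (by positivity)

/-- Main theorem 1: `N` is coprime to `2 (2^W - 1)`. -/
theorem main_coprime (ε : ℝ) (hε : 0 < ε) :
    ∃ δ : ℝ, 0 < δ ∧ ∃ n₀ : ℕ, ∀ n : ℕ, n₀ ≤ n → Odd n → ∀ W : ℕ, 0 < W →
      (W : ℝ) ≤ (n : ℝ) ^ δ →
      (n : ℝ) ^ (1 - ε) ≤
        (({q : ℕ × ℕ × ℕ × ℕ |
          q.1 ^ 2 + q.2.1 ^ 2 + q.2.2.1 ^ 2 + q.2.2.2 ^ 2 = n ∧
          Nat.Coprime (2 ^ (q.1 + q.2.1) + 2 ^ (q.2.2.1 + q.2.2.2) + 1) (2 * (2 ^ W - 1))} :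
          Set (ℕ × ℕ × ℕ × ℕ)).ncard : ℝ) := by
  obtain ⟨δ, hδ, n₀, heng⟩ := engine ε hε
  obtain ⟨n₁, hn₁⟩ := two_mul_le_rpow hδ
  refine ⟨δ / 2, by positivity, max n₀ n₁, ?_⟩
  intro n hn hodd W₀ hW₀ hW₀δ
  have hn0 : n₀ ≤ n := le_trans (le_max_left _ _) hn
  have hn1 : n₁ ≤ n := le_trans (le_max_right _ _) hn
  obtain ⟨W, hWdef⟩ : ∃ W, W = 2 * W₀ := ⟨_, rfl⟩
  have hW : 0 < W := by omega
  have hW2 : W % 2 = 0 := by omega
  have hWδ : (W : ℝ) ≤ (n : ℝ) ^ δ := by rw [hWdef]; exact hn₁ n hn1 W₀ hW₀δ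
  obtain ⟨ν, W₁, hW₁, hWν⟩ : ∃ ν W₁ : ℕ, W₁ % 2 = 1 ∧ W = 2 ^ ν * W₁ := by
    obtain ⟨ν, W₁, h1, h2⟩ := Nat.exists_eq_two_pow_mul_odd hW.ne'
    exact ⟨ν, W₁, Nat.odd_iff.mp h1, h2⟩
  obtain ⟨α, hα1, hα2, hres⟩ := exists_residue n W ν W₁ (Nat.odd_iff.mp hodd) hW hW2 hWν
  obtain ⟨P, hPcard, hP⟩ := heng n hn0 W hW hW2 hWδ α 0 hα2 rfl hres
  refine hPcard.trans ?_
  have hle := card_le_ncard (n := n) (S := {q : ℕ × ℕ × ℕ × ℕ |
          q.1 ^ 2 + q.2.1 ^ 2 + q.2.2.1 ^ 2 + q.2.2.2 ^ 2 = n ∧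
          Nat.Coprime (2 ^ (q.1 + q.2.1) + 2 ^ (q.2.2.1 + q.2.2.2) + 1) (2 * (2 ^ W₀ - 1))})
    (fun q hq => hq.1) P ?_
  · exact_mod_cast hle
  intro p hp
  obtain ⟨h1, h2, ha0, hb0, ha, hb, x, x', z, z', hq, hxa, hzb⟩ := hP p hp
  refine ⟨(x, x', z, z'), ⟨hq, ?_⟩, hxa, hzb⟩
  simp only
  rw [hxa, hzb]
  have hνW : 2 ^ ν ∣ W := ⟨W₁, hWν⟩
  by_contra hc
  obtain ⟨q, hqp, hqN, hqd⟩ := Nat.Prime.not_coprime_iff_dvd.mp hc
  rcases hqp.dvd_mul.mp hqd with h | h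
  · have hq2 : q = 2 := (Nat.prime_dvd_prime_iff_eq hqp Nat.prime_two).mp h
    subst hq2
    have e1 : 2 ∣ 2 ^ p.1 := dvd_pow_self 2 ha0.ne'
    have e2 : 2 ∣ 2 ^ p.2 := dvd_pow_self 2 hb0.ne'
    omega
  · have hqW : q ∣ 2 ^ W - 1 :=
      h.trans (Nat.pow_sub_one_dvd_pow_sub_one 2 (by rw [hWdef]; exact dvd_mul_left _ _))
    exact not_dvd_of_residue hW hWν hW₁ ha0 ((h1.of_dvd hνW).trans hα1) h2 hqp hqW hqN

/-- Residues with `a + b ≡ -1 mod W`. -/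
lemma exists_beta (n : ℕ) : ∀ W : ℕ, W ≠ 0 → ∃ β : ℕ, ∀ q : ℕ, q.Prime → q ∣ W →
    (q = 2 → β % 2 = 0) ∧ (q ≠ 2 → ¬ (q : ℤ) ∣ 2 * (β : ℤ) ^ 2 + 2 * β + 1 - 2 * n) := by
  intro W
  induction W using Nat.recOnPosPrimePosCoprime with
  | prime_pow p k hp hk =>
    intro _
    have hall : ∀ q : ℕ, q.Prime → q ∣ p ^ k → q = p := fun q hq h =>
      (Nat.prime_dvd_prime_iff_eq hq hp).mp (hq.dvd_of_dvd_pow h)
    by_cases hp2 : p = 2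
    · refine ⟨0, ?_⟩
      intro q hq hqp
      have := hall q hq hqp
      exact ⟨fun _ => rfl, fun h => absurd (this.trans hp2) h⟩
    · by_cases h0 : (p : ℤ) ∣ 1 - 2 * n
      · refine ⟨1, ?_⟩
        intro q hq hqp
        have hqp' := hall q hq hqp
        subst hqp'
        refine ⟨fun h => absurd h hp2, fun _ h => ?_⟩
        have h1 : (q : ℤ) ∣ 4 := by
          have := dvd_sub h h0
          have e : (2 * ((1 : ℕ) : ℤ) ^ 2 + 2 * ((1 : ℕ) : ℤ) + 1 - 2 * n) - (1 - 2 * (n : ℤ)) = 4 := by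
            push_cast; ring
          rwa [e] at this
        have h2 : q ∣ 2 ^ 2 := by exact_mod_cast h1
        exact hp2 ((Nat.prime_dvd_prime_iff_eq hq Nat.prime_two).mp (hq.dvd_of_dvd_pow h2))
      · refine ⟨0, ?_⟩
        intro q hq hqp
        have hqp' := hall q hq hqp
        subst hqp'
        refine ⟨fun h => absurd h hp2, fun _ h => h0 ?_⟩
        have e : (2 * ((0 : ℕ) : ℤ) ^ 2 + 2 * ((0 : ℕ) : ℤ) + 1 - 2 * n) = (1 - 2 * (n : ℤ)) := by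
          push_cast; ring
        rwa [e] at h
  | zero => intro h; exact absurd rfl h
  | one => intro _; exact ⟨0, fun q hq h => absurd (Nat.dvd_one.mp h) hq.one_lt.ne'⟩
  | coprime a b ha hb hab iha ihb =>
    intro _
    obtain ⟨β₁, h1⟩ := iha (by omega)
    obtain ⟨β₂, h2⟩ := ihb (by omega)
    obtain ⟨β, hβ1, hβ2⟩ := Nat.chineseRemainder hab β₁ β₂
    refine ⟨β, ?_⟩
    have key : ∀ (c : ℕ) (γ : ℕ), β ≡ γ [MOD c] → ∀ q : ℕ, q ∣ c →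
        ((q = 2 → γ % 2 = 0) ∧ (q ≠ 2 → ¬ (q : ℤ) ∣ 2 * (γ : ℤ) ^ 2 + 2 * γ + 1 - 2 * n)) →
        ((q = 2 → β % 2 = 0) ∧ (q ≠ 2 → ¬ (q : ℤ) ∣ 2 * (β : ℤ) ^ 2 + 2 * β + 1 - 2 * n)) := by
      intro c γ hγ q hqc hprop
      have h3 : β ≡ γ [MOD q] := hγ.of_dvd hqc
      refine ⟨fun h => ?_, fun h hd => ?_⟩
      · have := hprop.1 h
        rw [h] at h3
        have h3' : β % 2 = γ % 2 := h3
        omega
      · apply hprop.2 h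
        have h4 : (q : ℤ) ∣ (γ : ℤ) - β := (Nat.modEq_iff_dvd).mp h3
        have h5 : 2 * (γ : ℤ) ^ 2 + 2 * γ + 1 - 2 * n =
            (2 * (β : ℤ) ^ 2 + 2 * β + 1 - 2 * n) + ((γ : ℤ) - β) * (2 * γ + 2 * β + 2) := by ring
        rw [h5]
        exact dvd_add hd (dvd_mul_of_dvd_left h4 _)
    intro q hq hqab
    rcases hq.dvd_mul.mp hqab with h | h
    · exact key a β₁ hβ1 q h (h1 q hq h)
    · exact key b β₂ hβ2 q h (h2 q hq h)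

/-- If `a + b ≡ -1` modulo the order of `2` mod `p` and `p ∣ 2^a + 2^b + 1` then the order is
`4 mod 8`. -/
lemma order_of_dvd {W a b p : ℕ} (hW : 0 < W) (hab : a + b + 1 ≡ 0 [MOD W])
    (hp : p.Prime) (hpW : p ∣ 2 ^ W - 1) (hN : p ∣ 2 ^ a + 2 ^ b + 1) :
    orderOf (2 : ZMod p) % 8 = 4 := by
  have hpos : 1 ≤ 2 ^ W := Nat.one_le_two_pow
  have hp2 : p ≠ 2 := by
    rintro rfl
    have h1 : 2 ∣ 2 ^ W := dvd_pow_self 2 hW.ne'
    have h2 : 2 ∣ 2 ^ W - (2 ^ W - 1) := Nat.dvd_sub h1 hpW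
    have h3 : 2 ^ W - (2 ^ W - 1) = 1 := by omega
    rw [h3] at h2
    omega
  have : Fact p.Prime := ⟨hp⟩
  have h2ne : (2 : ZMod p) ≠ 0 := Ring.two_ne_zero (R := ZMod p) (by rwa [ZMod.ringChar_zmod_n])
  have e1 : (2 : ZMod p) ^ W = 1 := by
    have h1 : ((2 ^ W - 1 : ℕ) : ZMod p) = 0 := (ZMod.natCast_eq_zero_iff _ _).mpr hpW
    rw [Nat.cast_sub hpos] at h1
    push_cast at h1
    exact sub_eq_zero.mp h1
  have e2 : (2 : ZMod p) ^ (a + b + 1) = 1 := by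
    obtain ⟨l, hl⟩ := (Nat.modEq_zero_iff_dvd).mp hab
    rw [hl, pow_mul, e1, one_pow]
  have e3 : (2 : ZMod p) ^ a + 2 ^ b + 1 = 0 := by
    have h1 : ((2 ^ a + 2 ^ b + 1 : ℕ) : ZMod p) = 0 := (ZMod.natCast_eq_zero_iff _ _).mpr hN
    push_cast at h1
    exact h1
  set X : ZMod p := 2 ^ a with hX
  set Y : ZMod p := 2 ^ b with hY
  have hXY : 2 * (X * Y) = 1 := by
    rw [hX, hY, ← e2]; ring
  have hXX : 2 * X ^ 2 + 2 * X + 1 = 0 := by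
    linear_combination (2 * X) * e3 - hXY
  -- i = 2^(2a+1)
  have hi : ((2 : ZMod p) ^ (2 * a + 1)) = -(2 * X + 1) := by
    have : (2 : ZMod p) ^ (2 * a + 1) = 2 * X ^ 2 := by rw [hX]; ring
    rw [this]; linear_combination hXX
  have hi2 : ((2 : ZMod p) ^ (2 * a + 1)) ^ 2 = -1 := by
    rw [hi]; linear_combination 2 * hXX
  have hneg : (-1 : ZMod p) ≠ 1 := by
    intro h
    apply h2ne
    linear_combination -h
  have ho4 : orderOf ((2 : ZMod p) ^ (2 * a + 1)) = 4 := by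
    have h1 : ((2 : ZMod p) ^ (2 * a + 1)) ^ (2 ^ 1) ≠ 1 := by
      rw [pow_one, hi2]; exact hneg
    have h2 : ((2 : ZMod p) ^ (2 * a + 1)) ^ (2 ^ (1 + 1)) = 1 := by
      rw [show (2 : ℕ) ^ (1 + 1) = 2 * 2 by norm_num, pow_mul, hi2]; ring
    have := orderOf_eq_prime_pow h1 h2
    simpa using this
  have hfin : IsOfFinOrder (2 : ZMod p) := by
    rw [isOfFinOrder_iff_pow_eq_one]
    exact ⟨W, hW, e1⟩
  have ho0 : 0 < orderOf (2 : ZMod p) := hfin.orderOf_pos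
  have ho : orderOf ((2 : ZMod p) ^ (2 * a + 1)) =
      orderOf (2 : ZMod p) / Nat.gcd (orderOf (2 : ZMod p)) (2 * a + 1) := by
    rw [orderOf_pow' _ (by omega)]
  rw [ho4] at ho
  set o := orderOf (2 : ZMod p) with hodef
  obtain ⟨g, hg⟩ : ∃ g, g = Nat.gcd o (2 * a + 1) := ⟨_, rfl⟩
  have hgo : g ∣ o := by rw [hg]; exact Nat.gcd_dvd_left _ _
  have hgodd : g % 2 = 1 := by
    have h1 : g ∣ 2 * a + 1 := by rw [hg]; exact Nat.gcd_dvd_right _ _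
    rcases Nat.mod_two_eq_zero_or_one g with h | h
    · exfalso
      have := (Nat.dvd_of_mod_eq_zero h).trans h1
      omega
    · exact h
  rw [← hg] at ho
  have h4 : o = 4 * g := by
    have := Nat.div_mul_cancel hgo
    rw [← ho] at this
    exact this.symm
  omega

/-- Main theorem 2: the three numbers attached to a representation. -/
theorem main_three (ε : ℝ) (hε : 0 < ε) :
    ∃ δ : ℝ, 0 < δ ∧ ∃ n₀ : ℕ, ∀ n : ℕ, n₀ ≤ n → Odd n → ∀ W : ℕ, 0 < W →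
      (W : ℝ) ≤ (n : ℝ) ^ δ →
      (n : ℝ) ^ (1 - ε) ≤
        (({q : ℕ × ℕ × ℕ × ℕ |
          q.1 ^ 2 + q.2.1 ^ 2 + q.2.2.1 ^ 2 + q.2.2.2 ^ 2 = n ∧
          ∀ p : ℕ, p.Prime → p ∣ 2 ^ W - 1 →
            (p ∣ 2 ^ (q.1 + q.2.1) + 2 ^ (q.2.2.1 + q.2.2.2) + 1 ∨
              p ∣ 2 ^ (q.1 + q.2.2.1) + 2 ^ (q.2.1 + q.2.2.2) + 1 ∨
              p ∣ 2 ^ (q.1 + q.2.2.2) + 2 ^ (q.2.1 + q.2.2.1) + 1) →
            orderOf (2 : ZMod p) % 8 = 4} :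
          Set (ℕ × ℕ × ℕ × ℕ)).ncard : ℝ) := by
  obtain ⟨δ, hδ, n₀, heng⟩ := engine ε hε
  obtain ⟨n₁, hn₁⟩ := two_mul_le_rpow hδ
  refine ⟨δ / 2, by positivity, max n₀ n₁, ?_⟩
  intro n hn hodd W₀ hW₀ hW₀δ
  have hn0 : n₀ ≤ n := le_trans (le_max_left _ _) hn
  have hn1 : n₁ ≤ n := le_trans (le_max_right _ _) hn
  obtain ⟨W, hWdef⟩ : ∃ W, W = 2 * W₀ := ⟨_, rfl⟩
  have hW : 0 < W := by omega
  have hW2 : W % 2 = 0 := by omega
  have h2W : 2 ∣ W := Nat.dvd_of_mod_eq_zero hW2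
  have hWδ : (W : ℝ) ≤ (n : ℝ) ^ δ := by rw [hWdef]; exact hn₁ n hn1 W₀ hW₀δ
  obtain ⟨β, hβ⟩ := exists_beta n W hW.ne'
  have hβ2 : β % 2 = 0 := (hβ 2 Nat.prime_two h2W).1 rfl
  obtain ⟨α, hα⟩ : ∃ α, α = (W - 1) * (β + 1) := ⟨_, rfl⟩
  have hsum : α + β + 1 ≡ 0 [MOD W] := by
    rw [Nat.modEq_zero_iff_dvd]
    refine ⟨β + 1, ?_⟩
    rw [hα, add_assoc]
    obtain ⟨W', hW'⟩ : ∃ W', W = W' + 1 := ⟨W - 1, by omega⟩
    rw [hW', Nat.add_sub_cancel]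
    ring
  have hα2 : α % 2 = 1 := by
    have h1 : α + β + 1 ≡ 0 [MOD 2] := hsum.of_dvd h2W
    unfold Nat.ModEq at h1
    omega
  have hres : ∀ a b : ℕ, a ≡ α [MOD W] → b ≡ β [MOD W] → a ^ 2 + b ^ 2 ≤ 2 * n →
      (2 * n - (a ^ 2 + b ^ 2)) % 4 = 1 ∧ Nat.Coprime (2 * n - (a ^ 2 + b ^ 2)) W := by
    intro a b ha hb hab
    have haodd : a % 2 = 1 := by
      have : a % 2 = α % 2 := ha.of_dvd h2W
      omega
    have hbeven : b % 2 = 0 := by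
      have : b % 2 = β % 2 := hb.of_dvd h2W
      omega
    obtain ⟨Q, hQ⟩ : ∃ Q, Q = 2 * n - (a ^ 2 + b ^ 2) := ⟨_, rfl⟩
    have hsumQ : Q + (a ^ 2 + b ^ 2) = 2 * n := by omega
    have h1 := (sq_mod_four a).1 haodd
    have h2 := (sq_mod_four b).2 hbeven
    have hn2 := Nat.odd_iff.mp hodd
    have hQ4 : Q % 4 = 1 := by omega
    rw [← hQ]
    refine ⟨hQ4, ?_⟩
    by_contra hc
    obtain ⟨q, hqp, hqQ, hqW⟩ := Nat.Prime.not_coprime_iff_dvd.mp hc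
    have hq2 : q ≠ 2 := by
      rintro rfl
      omega
    apply (hβ q hqp hqW).2 hq2
    have e1 : (q : ℤ) ∣ (β : ℤ) - b := (Nat.modEq_iff_dvd).mp (hb.of_dvd hqW)
    have e2 : (q : ℤ) ∣ (a : ℤ) + β + 1 := by
      have h3 : a + β + 1 ≡ α + β + 1 [MOD q] := ((ha.of_dvd hqW).add_right β).add_right 1
      have h4 : a + β + 1 ≡ 0 [MOD q] := h3.trans (hsum.of_dvd hqW)
      have h5 := (Nat.modEq_zero_iff_dvd).mp h4
      exact_mod_cast h5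
    have e3 : (q : ℤ) ∣ Q := by exact_mod_cast hqQ
    have e4 : (Q : ℤ) + ((a : ℤ) ^ 2 + (b : ℤ) ^ 2) = 2 * n := by exact_mod_cast hsumQ
    have e5 : 2 * (β : ℤ) ^ 2 + 2 * β + 1 - 2 * n =
        ((β : ℤ) - b) * (β + b) - ((a : ℤ) + β + 1) * (a - β - 1) - Q := by
      rw [← e4]; ring
    rw [e5]
    exact dvd_sub (dvd_sub (dvd_mul_of_dvd_left e1 _) (dvd_mul_of_dvd_left e2 _)) e3
  obtain ⟨P, hPcard, hP⟩ := heng n hn0 W hW hW2 hWδ α β hα2 hβ2 hres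
  refine hPcard.trans ?_
  have hle := card_le_ncard (n := n) (S := {q : ℕ × ℕ × ℕ × ℕ |
          q.1 ^ 2 + q.2.1 ^ 2 + q.2.2.1 ^ 2 + q.2.2.2 ^ 2 = n ∧
          ∀ p : ℕ, p.Prime → p ∣ 2 ^ W₀ - 1 →
            (p ∣ 2 ^ (q.1 + q.2.1) + 2 ^ (q.2.2.1 + q.2.2.2) + 1 ∨
              p ∣ 2 ^ (q.1 + q.2.2.1) + 2 ^ (q.2.1 + q.2.2.2) + 1 ∨
              p ∣ 2 ^ (q.1 + q.2.2.2) + 2 ^ (q.2.1 + q.2.2.1) + 1) →
            orderOf (2 : ZMod p) % 8 = 4}) (fun q hq => hq.1) P ?_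
  · exact_mod_cast hle
  intro p hp
  obtain ⟨h1, h2, ha0, hb0, ha, hb, x, x', z, z', hq, hxa, hzb⟩ := hP p hp
  refine ⟨(x, x', z, z'), ⟨hq, ?_⟩, hxa, hzb⟩
  intro q hqp hqW hqN
  simp only at hqN
  have hqW' : q ∣ 2 ^ W - 1 :=
    hqW.trans (Nat.pow_sub_one_dvd_pow_sub_one 2 (by rw [hWdef]; exact dvd_mul_left _ _))
  have htot : x + x' + (z + z') + 1 ≡ 0 [MOD W] := by
    rw [hxa, hzb]
    exact ((h1.add h2).add_right 1).trans hsum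
  rcases hqN with h | h | h
  · exact order_of_dvd hW htot hqp hqW' h
  · exact order_of_dvd hW (by rw [show x + z + (x' + z') + 1 = x + x' + (z + z') + 1 by ring];
                                   exact htot) hqp hqW' h
  · exact order_of_dvd hW (by rw [show x + z' + (x' + z) + 1 = x + x' + (z + z') + 1 by ring];
                                   exact htot) hqp hqW' h

end Pool.Agent.Lib.MP1e1427
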