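import Mathlib
import Pool.Agent.Lib.MP_1e1427_nt.Final

/-!
Counting the distinct values of `N = 2^(x+y) + 2^(z+w) + 1`.
-/

namespace Pool.Agent.Lib.MP1e1427

open Finset

/-- For `a, c` odd and `b, d` even the sum `2^a + 2^b` determines the exponents. -/
lemma exp_inj {a b c d : ℕ} (ha : a % 2 = 1) (hc : c % 2 = 1) (hb : b % 2 = 0) (hd : d % 2 = 0)
    (h : 2 ^ a + 2 ^ b = 2 ^ c + 2 ^ d) : a = c ∧ b = d := by
  -- a strict inequality is impossible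
  have key : ∀ a b c d : ℕ, a % 2 = 1 → c % 2 = 1 → b % 2 = 0 → d % 2 = 0 →
      2 ^ a + 2 ^ b = 2 ^ c + 2 ^ d → ¬ a < c := by
    intro a b c d ha hc hb hd h hac
    have h1 : 2 ^ a < 2 ^ c := Nat.pow_lt_pow_right (by norm_num) hac
    have h2 : 2 ^ d < 2 ^ b := by omega
    have hdb : d < b := (Nat.pow_lt_pow_iff_right (by norm_num)).mp h2
    rcases Nat.lt_or_ge a d with hd1 | hd1
    · have e1 : 2 ^ (a + 1) ∣ 2 ^ b := pow_dvd_pow 2 (by omega)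
      have e2 : 2 ^ (a + 1) ∣ 2 ^ c := pow_dvd_pow 2 (by omega)
      have e3 : 2 ^ (a + 1) ∣ 2 ^ d := pow_dvd_pow 2 (by omega)
      have e4 : 2 ^ (a + 1) ∣ 2 ^ a := by
        have : 2 ^ (a + 1) ∣ 2 ^ a + 2 ^ b := by rw [h]; exact dvd_add e2 e3
        exact (Nat.dvd_add_left e1).mp this
      have := (Nat.pow_dvd_pow_iff_le_right (by norm_num)).mp e4
      omega
    · have hd2 : d < a := by omega
      have e1 : 2 ^ (d + 1) ∣ 2 ^ b := pow_dvd_pow 2 (by omega)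
      have e2 : 2 ^ (d + 1) ∣ 2 ^ c := pow_dvd_pow 2 (by omega)
      have e3 : 2 ^ (d + 1) ∣ 2 ^ a := pow_dvd_pow 2 (by omega)
      have e4 : 2 ^ (d + 1) ∣ 2 ^ d := by
        have : 2 ^ (d + 1) ∣ 2 ^ c + 2 ^ d := by rw [← h]; exact dvd_add e3 e1
        exact (Nat.dvd_add_right e2).mp this
      have := (Nat.pow_dvd_pow_iff_le_right (by norm_num)).mp e4
      omega
  have h1 := key a b c d ha hc hb hd h
  have h2 := key c d a b hc ha hd hb h.symm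
  have hac : a = c := by omega
  subst hac
  refine ⟨rfl, ?_⟩
  have h3 : 2 ^ b = 2 ^ d := by omega
  exact Nat.pow_right_injective (le_refl 2) h3

/-- Counting the values. -/
lemma card_le_ncard_val {n : ℕ} {S : Set ℕ}
    (hS : ∀ N ∈ S, ∃ x y z w : ℕ, x ^ 2 + y ^ 2 + z ^ 2 + w ^ 2 = n ∧
      N = 2 ^ (x + y) + 2 ^ (z + w) + 1) (P : Finset (ℕ × ℕ))
    (hP1 : ∀ p ∈ P, p.1 % 2 = 1 ∧ p.2 % 2 = 0)
    (hP : ∀ p ∈ P, 2 ^ p.1 + 2 ^ p.2 + 1 ∈ S) :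
    P.card ≤ S.ncard := by
  have hfin : S.Finite := by
    apply (Set.finite_Iic (2 ^ (n + n) + 2 ^ (n + n) + 1)).subset
    intro N hN
    obtain ⟨x, y, z, w, h, rfl⟩ := hS N hN
    have e1 := Nat.le_self_pow two_ne_zero x
    have e2 := Nat.le_self_pow two_ne_zero y
    have e3 := Nat.le_self_pow two_ne_zero z
    have e4 := Nat.le_self_pow two_ne_zero w
    have e5 : 2 ^ (x + y) ≤ 2 ^ (n + n) := Nat.pow_le_pow_right (by norm_num) (by omega)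
    have e6 : 2 ^ (z + w) ≤ 2 ^ (n + n) := Nat.pow_le_pow_right (by norm_num) (by omega)
    simp only [Set.mem_Iic]
    omega
  have hinj : Set.InjOn (fun p : ℕ × ℕ => 2 ^ p.1 + 2 ^ p.2 + 1) (P : Set (ℕ × ℕ)) := by
    intro p hp q hq h
    simp only at h
    obtain ⟨hp1, hp2⟩ := hP1 p hp
    obtain ⟨hq1, hq2⟩ := hP1 q hq
    obtain ⟨h1, h2⟩ := exp_inj hp1 hq1 hp2 hq2 (by omega)
    exact Prod.ext h1 h2
  rw [← Set.ncard_coe_finset, ← hinj.ncard_image]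
  apply Set.ncard_le_ncard _ hfin
  rintro _ ⟨p, hp, rfl⟩
  exact hP p hp

/-- Main theorem 1, values: `N` is coprime to `2 (2^W - 1)`. -/
theorem main_coprime_val (ε : ℝ) (hε : 0 < ε) :
    ∃ δ : ℝ, 0 < δ ∧ ∃ n₀ : ℕ, ∀ n : ℕ, n₀ ≤ n → Odd n → ∀ W : ℕ, 0 < W →
      (W : ℝ) ≤ (n : ℝ) ^ δ →
      (n : ℝ) ^ (1 - ε) ≤
        (({N : ℕ | ∃ x y z w : ℕ, x ^ 2 + y ^ 2 + z ^ 2 + w ^ 2 = n ∧
          N = 2 ^ (x + y) + 2 ^ (z + w) + 1 ∧ Nat.Coprime N (2 * (2 ^ W - 1))} :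
          Set ℕ).ncard : ℝ) := by
  obtain ⟨δ, hδ, n₀, heng⟩ := engine ε hε
  obtain ⟨n₁, hn₁⟩ := two_mul_le_rpow hδ
  refine ⟨δ / 2, by positivity, max n₀ n₁, ?_⟩
  intro n hn hodd W₀ hW₀ hW₀δ
  have hn0 : n₀ ≤ n := le_trans (le_max_left _ _) hn
  have hn1 : n₁ ≤ n := le_trans (le_max_right _ _) hn
  obtain ⟨W, hWdef⟩ : ∃ W, W = 2 * W₀ := ⟨_, rfl⟩
  have hW : 0 < W := by omega
  have hW2 : W % 2 = 0 := by omega
  have hWδ : (W : ℝ) ≤ (n : ℝ) ^ δ := by rw [hWdef]; exact hn₁ n hn1 W₀ hW₀δ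
  obtain ⟨ν, W₁, hW₁, hWν⟩ : ∃ ν W₁ : ℕ, W₁ % 2 = 1 ∧ W = 2 ^ ν * W₁ := by
    obtain ⟨ν, W₁, h1, h2⟩ := Nat.exists_eq_two_pow_mul_odd hW.ne'
    exact ⟨ν, W₁, Nat.odd_iff.mp h1, h2⟩
  obtain ⟨α, hα1, hα2, hres⟩ := exists_residue n W ν W₁ (Nat.odd_iff.mp hodd) hW hW2 hWν
  obtain ⟨P, hPcard, hP⟩ := heng n hn0 W hW hW2 hWδ α 0 hα2 rfl hres
  refine hPcard.trans ?_
  have hle := card_le_ncard_val (n := n) (S := {N : ℕ | ∃ x y z w : ℕ,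
          x ^ 2 + y ^ 2 + z ^ 2 + w ^ 2 = n ∧
          N = 2 ^ (x + y) + 2 ^ (z + w) + 1 ∧ Nat.Coprime N (2 * (2 ^ W₀ - 1))})
    (fun N ⟨x, y, z, w, h1, h2, _⟩ => ⟨x, y, z, w, h1, h2⟩) P ?_ ?_
  · exact_mod_cast hle
  · intro p hp
    obtain ⟨h1, h2, ha0, hb0, ha, hb, _⟩ := hP p hp
    exact ⟨ha, hb⟩
  intro p hp
  obtain ⟨h1, h2, ha0, hb0, ha, hb, x, x', z, z', hq, hxa, hzb⟩ := hP p hp
  refine ⟨x, x', z, z', hq, by rw [hxa, hzb], ?_⟩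
  have hνW : 2 ^ ν ∣ W := ⟨W₁, hWν⟩
  by_contra hc
  obtain ⟨q, hqp, hqN, hqd⟩ := Nat.Prime.not_coprime_iff_dvd.mp hc
  rcases hqp.dvd_mul.mp hqd with h | h
  · have hq2 : q = 2 := (Nat.prime_dvd_prime_iff_eq hqp Nat.prime_two).mp h
    subst hq2
    have e1 : 2 ∣ 2 ^ p.1 := dvd_pow_self 2 ha0.ne'
    have e2 : 2 ∣ 2 ^ p.2 := dvd_pow_self 2 hb0.ne'
    omega
  · have hqW : q ∣ 2 ^ W - 1 :=
      h.trans (Nat.pow_sub_one_dvd_pow_sub_one 2 (by rw [hWdef]; exact dvd_mul_left _ _))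
    exact not_dvd_of_residue hW hWν hW₁ ha0 ((h1.of_dvd hνW).trans hα1) h2 hqp hqW hqN

/-- Both forms. -/
theorem main_both (ε : ℝ) (hε : 0 < ε) :
    ∃ δ : ℝ, 0 < δ ∧ ∃ n₀ : ℕ, ∀ n : ℕ, n₀ ≤ n → Odd n →
      (∀ W : ℕ, 0 < W → (W : ℝ) ≤ (n : ℝ) ^ δ →
        (n : ℝ) ^ (1 - ε) ≤
          (({N : ℕ | ∃ x y z w : ℕ, x ^ 2 + y ^ 2 + z ^ 2 + w ^ 2 = n ∧
            N = 2 ^ (x + y) + 2 ^ (z + w) + 1 ∧ Nat.Coprime N (2 * (2 ^ W - 1))} :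
            Set ℕ).ncard : ℝ)) ∧
      (n : ℝ) ^ (1 - ε) ≤
        (({N : ℕ | ∃ x y z w : ℕ, x ^ 2 + y ^ 2 + z ^ 2 + w ^ 2 = n ∧
          N = 2 ^ (x + y) + 2 ^ (z + w) + 1 ∧
          ∀ p : ℕ, p.Prime → ((p : ℝ) ≤ δ * Real.log n ∨
            ∃ k : ℕ, 0 < k ∧ (k : ℝ) ≤ δ * Real.log n ∧ p ∣ 2 ^ k - 1) → ¬ p ∣ N} :
          Set ℕ).ncard : ℝ) := by
  obtain ⟨δ, hδ, n₀, hmain⟩ := main_coprime_val ε hε
  refine ⟨δ / 6, by positivity, max n₀ 1, ?_⟩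
  intro n hn hodd
  have hn0 : n₀ ≤ n := le_trans (le_max_left _ _) hn
  have hn1 : 1 ≤ n := le_trans (le_max_right _ _) hn
  have hnpos : (0 : ℝ) < n := by exact_mod_cast hn1
  have hn1R : (1 : ℝ) ≤ n := by exact_mod_cast hn1
  refine ⟨?_, ?_⟩
  · intro W hW hWδ
    refine hmain n hn0 hodd W hW (hWδ.trans ?_)
    exact Real.rpow_le_rpow_of_exponent_le hn1R (by linarith)
  have hlog0 : 0 ≤ Real.log n := Real.log_nonneg hn1R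
  obtain ⟨Z, hZ⟩ : ∃ Z, Z = ⌊δ / 6 * Real.log n⌋₊ := ⟨_, rfl⟩
  have hZle : (Z : ℝ) ≤ δ / 6 * Real.log n := by
    rw [hZ]; exact Nat.floor_le (by positivity)
  have hlcm0 : 0 < Nat.lcmUpto Z := Nat.lcmUpto_pos Z
  have hWy : ((Nat.lcmUpto Z : ℕ) : ℝ) ≤ (n : ℝ) ^ δ := by
    have h1 : Real.log (Nat.lcmUpto Z) ≤ 6 * Z := by
      rw [← Chebyshev.psi_eq_log_lcmUpto]
      refine (Chebyshev.psi_le_const_mul_self (by positivity)).trans ?_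
      apply mul_le_mul_of_nonneg_right _ (by positivity)
      have h2 : Real.log 4 = 2 * Real.log 2 := by
        rw [show (4 : ℝ) = 2 ^ 2 by norm_num, Real.log_pow]; norm_num
      have h3 := Real.log_two_lt_d9
      rw [h2]
      linarith
    rw [← Real.log_le_log_iff (by exact_mod_cast hlcm0) (Real.rpow_pos_of_pos hnpos _),
      Real.log_rpow hnpos]
    calc Real.log (Nat.lcmUpto Z) ≤ 6 * Z := h1
      _ ≤ 6 * (δ / 6 * Real.log n) := by linarith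
      _ = δ * Real.log n := by ring
  refine (hmain n hn0 hodd (Nat.lcmUpto Z) hlcm0 hWy).trans ?_
  have hfin : ({N : ℕ | ∃ x y z w : ℕ, x ^ 2 + y ^ 2 + z ^ 2 + w ^ 2 = n ∧
          N = 2 ^ (x + y) + 2 ^ (z + w) + 1 ∧
          ∀ p : ℕ, p.Prime → ((p : ℝ) ≤ δ / 6 * Real.log n ∨
            ∃ k : ℕ, 0 < k ∧ (k : ℝ) ≤ δ / 6 * Real.log n ∧ p ∣ 2 ^ k - 1) → ¬ p ∣ N} :
          Set ℕ).Finite := by
    apply (Set.finite_Iic (2 ^ (n + n) + 2 ^ (n + n) + 1)).subset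
    rintro N ⟨x, y, z, w, h, rfl, _⟩
    have e1 := Nat.le_self_pow two_ne_zero x
    have e2 := Nat.le_self_pow two_ne_zero y
    have e3 := Nat.le_self_pow two_ne_zero z
    have e4 := Nat.le_self_pow two_ne_zero w
    have e5 : 2 ^ (x + y) ≤ 2 ^ (n + n) := Nat.pow_le_pow_right (by norm_num) (by omega)
    have e6 : 2 ^ (z + w) ≤ 2 ^ (n + n) := Nat.pow_le_pow_right (by norm_num) (by omega)
    simp only [Set.mem_Iic]
    omega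
  have hsub := Set.ncard_le_ncard (s := {N : ℕ | ∃ x y z w : ℕ, x ^ 2 + y ^ 2 + z ^ 2 + w ^ 2 = n ∧
            N = 2 ^ (x + y) + 2 ^ (z + w) + 1 ∧ Nat.Coprime N (2 * (2 ^ (Nat.lcmUpto Z) - 1))})
      (t := {N : ℕ | ∃ x y z w : ℕ, x ^ 2 + y ^ 2 + z ^ 2 + w ^ 2 = n ∧
          N = 2 ^ (x + y) + 2 ^ (z + w) + 1 ∧
          ∀ p : ℕ, p.Prime → ((p : ℝ) ≤ δ / 6 * Real.log n ∨
            ∃ k : ℕ, 0 < k ∧ (k : ℝ) ≤ δ / 6 * Real.log n ∧ p ∣ 2 ^ k - 1) → ¬ p ∣ N}) ?_ hfin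
  · exact_mod_cast hsub
  rintro N ⟨x, y, z, w, h, hN, hcop⟩
  refine ⟨x, y, z, w, h, hN, ?_⟩
  intro q hqp hsmall hqN
  have hndvd : ¬ q ∣ 2 * (2 ^ (Nat.lcmUpto Z) - 1) := by
    intro hd
    have := Nat.dvd_gcd hqN hd
    rw [hcop] at this
    exact hqp.one_lt.ne' (Nat.dvd_one.mp this)
  apply hndvd
  by_cases hq2 : q = 2
  · rw [hq2]; exact dvd_mul_right _ _
  · have hk : ∃ k : ℕ, 0 < k ∧ (k : ℝ) ≤ δ / 6 * Real.log n ∧ q ∣ 2 ^ k - 1 := by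
      rcases hsmall with h | h
      · have hqge : 2 ≤ q := hqp.two_le
        refine ⟨q - 1, by omega, ?_, ?_⟩
        · refine le_trans ?_ h
          exact_mod_cast Nat.sub_le q 1
        · have hcop : Nat.Coprime 2 q := by
            rw [Nat.coprime_primes Nat.prime_two hqp]
            exact fun h => hq2 h.symm
          have h3 := Nat.ModEq.pow_totient hcop
          rw [Nat.totient_prime hqp] at h3
          exact (Nat.modEq_iff_dvd' Nat.one_le_two_pow).mp h3.symm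
      · exact h
    obtain ⟨k, hk0, hkle, hqk⟩ := hk
    have hkZ : k ≤ Z := by
      rw [hZ]; exact Nat.le_floor hkle
    have hkW : k ∣ Nat.lcmUpto Z := Finset.dvd_lcm (f := id) (Finset.mem_Icc.mpr ⟨hk0, hkZ⟩)
    exact (hqk.trans (Nat.pow_sub_one_dvd_pow_sub_one 2 hkW)).mul_left 2

end Pool.Agent.Lib.MP1e1427
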