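import Mathlib
import Pool.Agent.Lib.MP_1e1427_nt.DivBound

/-!
The number of representations of `m` as a sum of two squares is at most `2 τ(m)²`.
-/

namespace Pool.Agent.Lib.MP1e1427

open Finset

/-- Square roots of `-1` modulo `m`. -/
lemma card_sqrt_neg_one (m : ℕ) (hm : 0 < m) :
    ((range m).filter (fun t => m ∣ t ^ 2 + 1)).card ≤ 2 * m.divisors.card := by
  classical
  rcases ((range m).filter (fun t => m ∣ t ^ 2 + 1)).eq_empty_or_nonempty with h | ⟨t0, ht0⟩
  · rw [h]; simp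
  rw [mem_filter, mem_range] at ht0
  have hcop0 : Nat.Coprime m t0 := by
    rw [Nat.coprime_iff_gcd_eq_one]
    have h1 : Nat.gcd m t0 ∣ t0 ^ 2 + 1 := (Nat.gcd_dvd_left _ _).trans ht0.2
    have h2 : Nat.gcd m t0 ∣ t0 ^ 2 := (Nat.gcd_dvd_right m t0).trans (dvd_pow_self _ two_ne_zero)
    exact Nat.dvd_one.mp ((Nat.dvd_add_right h2).mp h1)
  have hinj : Set.InjOn (fun t : ℕ => (Nat.gcd m ((t : ℤ) - t0).natAbs, decide (2 * t < m)))
      (((range m).filter (fun t => m ∣ t ^ 2 + 1) : Finset ℕ) : Set ℕ) := by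
    intro t ht t' ht' heq
    rw [mem_coe, mem_filter, mem_range] at ht ht'
    simp only [Prod.mk.injEq] at heq
    obtain ⟨hg, hb⟩ := heq
    obtain ⟨d, hd⟩ : ∃ d, d = Nat.gcd m ((t : ℤ) - t0).natAbs := ⟨_, rfl⟩
    have hdm : d ∣ m := by rw [hd]; exact Nat.gcd_dvd_left _ _
    obtain ⟨e, he⟩ := hdm
    -- divisibilities
    have key : ∀ s : ℕ, m ∣ s ^ 2 + 1 → d = Nat.gcd m ((s : ℤ) - t0).natAbs →
        (d : ℤ) ∣ (s : ℤ) - t0 ∧ (e : ℤ) ∣ (s : ℤ) + t0 := by
      intro s hs hds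
      have h1 : (d : ℤ) ∣ (s : ℤ) - t0 := by
        rw [← Int.dvd_natAbs, Int.natCast_dvd_natCast, hds]
        exact Nat.gcd_dvd_right _ _
      refine ⟨h1, ?_⟩
      have h2 : (m : ℤ) ∣ ((s : ℤ) - t0) * ((s : ℤ) + t0) := by
        have a1 : (m : ℤ) ∣ (s : ℤ) ^ 2 + 1 := by exact_mod_cast hs
        have a2 : (m : ℤ) ∣ (t0 : ℤ) ^ 2 + 1 := by exact_mod_cast ht0.2
        have a3 := dvd_sub a1 a2
        have a4 : (s : ℤ) ^ 2 + 1 - ((t0 : ℤ) ^ 2 + 1) = ((s : ℤ) - t0) * ((s : ℤ) + t0) := by ring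
        rwa [a4] at a3
      have h3 : m ∣ ((s : ℤ) - t0).natAbs * ((s : ℤ) + t0).natAbs := by
        rw [← Int.natAbs_mul, ← Int.natCast_dvd]; exact h2
      have h4 : m ∣ Nat.gcd m ((s : ℤ) - t0).natAbs * Nat.gcd m ((s : ℤ) + t0).natAbs := by
        have h5 := Nat.gcd_mul_right_dvd_mul_gcd m ((s : ℤ) - t0).natAbs ((s : ℤ) + t0).natAbs
        rwa [Nat.gcd_eq_left h3] at h5
      rw [← hds] at h4
      have hd0 : 0 < d := by
        rcases Nat.eq_zero_or_pos d with h | h
        · rw [h, zero_mul] at he; omega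
        · exact h
      nth_rewrite 1 [he] at h4
      have h6 : e ∣ Nat.gcd m ((s : ℤ) + t0).natAbs := Nat.dvd_of_mul_dvd_mul_left hd0 h4
      have h7 : e ∣ ((s : ℤ) + t0).natAbs := h6.trans (Nat.gcd_dvd_right _ _)
      rw [← Int.dvd_natAbs, Int.natCast_dvd_natCast]
      exact h7
    obtain ⟨k1, k2⟩ := key t ht.2 hd
    obtain ⟨k3, k4⟩ := key t' ht'.2 (hd.trans hg)
    have hde : Nat.gcd d e ∣ 2 := by
      have g1 : ((Nat.gcd d e : ℕ) : ℤ) ∣ (t : ℤ) - t0 :=
        (Int.natCast_dvd_natCast.mpr (Nat.gcd_dvd_left d e)).trans k1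
      have g2 : ((Nat.gcd d e : ℕ) : ℤ) ∣ (t : ℤ) + t0 :=
        (Int.natCast_dvd_natCast.mpr (Nat.gcd_dvd_right d e)).trans k2
      have g3 : ((Nat.gcd d e : ℕ) : ℤ) ∣ 2 * t0 := by
        have := dvd_sub g2 g1
        have e1 : (t : ℤ) + t0 - ((t : ℤ) - t0) = 2 * t0 := by ring
        rwa [e1] at this
      have g4 : Nat.gcd d e ∣ 2 * t0 := by exact_mod_cast g3
      have g5 : Nat.Coprime (Nat.gcd d e) t0 :=
        Nat.Coprime.coprime_dvd_left (((Nat.gcd_dvd_left d e)).trans ⟨e, he⟩) hcop0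
      exact g5.dvd_of_dvd_mul_right g4
    have h8 : (m : ℤ) ∣ 2 * ((t : ℤ) - t') := by
      have d1 : (d : ℤ) ∣ (t : ℤ) - t' := by
        have := dvd_sub k1 k3
        have e1 : (t : ℤ) - t0 - ((t' : ℤ) - t0) = (t : ℤ) - t' := by ring
        rwa [e1] at this
      have d2 : (e : ℤ) ∣ (t : ℤ) - t' := by
        have := dvd_sub k2 k4
        have e1 : (t : ℤ) + t0 - ((t' : ℤ) + t0) = (t : ℤ) - t' := by ring
        rwa [e1] at this
      have d3 : Nat.lcm d e ∣ ((t : ℤ) - t').natAbs :=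
        Nat.lcm_dvd (Int.natCast_dvd.mp d1) (Int.natCast_dvd.mp d2)
      have d4 : m ∣ 2 * ((t : ℤ) - t').natAbs := by
        rw [he, ← Nat.gcd_mul_lcm d e]
        exact mul_dvd_mul hde d3
      have d5 : (m : ℤ) ∣ ((2 * ((t : ℤ) - t').natAbs : ℕ) : ℤ) := Int.natCast_dvd_natCast.mpr d4
      push_cast at d5
      rcases abs_choice ((t : ℤ) - t') with h | h
      · rw [h] at d5; exact d5
      · rw [h] at d5
        have : 2 * ((t : ℤ) - t') = -(2 * -((t : ℤ) - t')) := by ring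
        rw [this]
        exact (dvd_neg).mpr d5
    have hlt : |2 * ((t : ℤ) - t')| < m := by
      have hb' : (2 * t < m) ↔ (2 * t' < m) := by
        constructor
        · intro h; have := hb ▸ (decide_eq_true h); exact of_decide_eq_true this
        · intro h; have := hb.symm ▸ (decide_eq_true h); exact of_decide_eq_true this
      have m1 := ht.1
      have m2 := ht'.1
      rw [abs_lt]
      by_cases hc : 2 * t < m
      · have hc' := hb'.mp hc
        constructor <;> omega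
      · have hc' : ¬ 2 * t' < m := fun h => hc (hb'.mpr h)
        constructor <;> omega
    have := Int.eq_zero_of_abs_lt_dvd h8 hlt
    omega
  calc ((range m).filter (fun t => m ∣ t ^ 2 + 1)).card
      ≤ (m.divisors ×ˢ (Finset.univ : Finset Bool)).card := by
        apply Finset.card_le_card_of_injOn _ _ hinj
        intro t _
        simp only [coe_product, coe_univ, Set.mem_prod, mem_coe, Nat.mem_divisors, Set.mem_univ,
          and_true]
        exact ⟨Nat.gcd_dvd_left _ _, hm.ne'⟩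
    _ = 2 * m.divisors.card := by
        rw [card_product, Finset.card_univ, Fintype.card_bool, mul_comm]

/-- Pairs with `u² + v² = m`. -/
def twoSq (m : ℕ) : Finset (ℕ × ℕ) :=
  ((range (m + 1)) ×ˢ (range (m + 1))).filter (fun t => t.1 ^ 2 + t.2 ^ 2 = m)

lemma mem_twoSq {m : ℕ} {t : ℕ × ℕ} : t ∈ twoSq m ↔ t.1 ^ 2 + t.2 ^ 2 = m := by
  simp only [twoSq, mem_filter, mem_product, mem_range]
  constructor
  · rintro ⟨-, h⟩; exact h
  · intro h
    have e1 := Nat.le_self_pow two_ne_zero t.1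
    have e2 := Nat.le_self_pow two_ne_zero t.2
    exact ⟨⟨by omega, by omega⟩, h⟩

/-- Primitive representations. -/
lemma card_twoSq_coprime (m : ℕ) (hm : 0 < m) :
    ((twoSq m).filter (fun t => Nat.Coprime t.1 t.2)).card ≤ 2 * m.divisors.card := by
  classical
  rcases Nat.lt_or_ge 1 m with hm1 | hm1
  · have : NeZero m := ⟨hm.ne'⟩
    refine le_trans ?_ (card_sqrt_neg_one m hm)
    have hcopv : ∀ u v : ℕ, u ^ 2 + v ^ 2 = m → Nat.Coprime u v → Nat.Coprime v m := by
      intro u v h hc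
      rw [Nat.coprime_iff_gcd_eq_one]
      have h1 : Nat.gcd v m ∣ u ^ 2 := by
        have a1 : Nat.gcd v m ∣ u ^ 2 + v ^ 2 := by rw [h]; exact Nat.gcd_dvd_right _ _
        have a2 : Nat.gcd v m ∣ v ^ 2 := (Nat.gcd_dvd_left _ _).trans (dvd_pow_self _ two_ne_zero)
        exact (Nat.dvd_add_left a2).mp a1
      have h2 : Nat.Coprime (Nat.gcd v m) (u ^ 2) :=
        Nat.Coprime.coprime_dvd_left (Nat.gcd_dvd_left v m) (hc.symm.pow_right 2)
      exact Nat.Coprime.eq_one_of_dvd h2 h1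
    apply Finset.card_le_card_of_injOn
      (fun t : ℕ × ℕ => ((t.1 : ZMod m) * (t.2 : ZMod m)⁻¹).val)
    · intro t ht
      rw [mem_coe, mem_filter, mem_twoSq] at ht
      simp only [coe_filter, mem_range, Set.mem_setOf_eq]
      refine ⟨ZMod.val_lt _, ?_⟩
      rw [← ZMod.natCast_eq_zero_iff]
      push_cast
      rw [ZMod.natCast_zmod_val]
      have hv := hcopv t.1 t.2 ht.1 ht.2
      have h1 : (t.2 : ZMod m) * (t.2 : ZMod m)⁻¹ = 1 := ZMod.coe_mul_inv_eq_one t.2 hv
      have h2 : (t.1 : ZMod m) ^ 2 + (t.2 : ZMod m) ^ 2 = 0 := by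
        have : ((t.1 ^ 2 + t.2 ^ 2 : ℕ) : ZMod m) = 0 := by rw [ht.1]; exact ZMod.natCast_self m
        exact_mod_cast this
      calc ((t.1 : ZMod m) * (t.2 : ZMod m)⁻¹) ^ 2 + 1
          = ((t.1 : ZMod m) * (t.2 : ZMod m)⁻¹) ^ 2 + ((t.2 : ZMod m) * (t.2 : ZMod m)⁻¹) ^ 2 := by
            rw [h1]; ring
        _ = ((t.1 : ZMod m) ^ 2 + (t.2 : ZMod m) ^ 2) * ((t.2 : ZMod m)⁻¹) ^ 2 := by ring
        _ = 0 := by rw [h2, zero_mul]
    · rintro ⟨u, v⟩ ht ⟨u', v'⟩ ht' heq
      rw [mem_coe, mem_filter, mem_twoSq] at ht ht'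
      simp only at ht ht' heq
      have hv := hcopv u v ht.1 ht.2
      have hv' := hcopv u' v' ht'.1 ht'.2
      have h1 : (v : ZMod m) * (v : ZMod m)⁻¹ = 1 := ZMod.coe_mul_inv_eq_one v hv
      have h1' : (v' : ZMod m) * (v' : ZMod m)⁻¹ = 1 := ZMod.coe_mul_inv_eq_one v' hv'
      have h2 : (u : ZMod m) * (v : ZMod m)⁻¹ = (u' : ZMod m) * (v' : ZMod m)⁻¹ :=
        ZMod.val_injective m heq
      have h3 : (u : ZMod m) * v' = (u' : ZMod m) * v := by
        calc (u : ZMod m) * v' = (u : ZMod m) * v' * ((v : ZMod m) * (v : ZMod m)⁻¹) := by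
              rw [h1, mul_one]
          _ = ((u : ZMod m) * (v : ZMod m)⁻¹) * v * v' := by ring
          _ = ((u' : ZMod m) * (v' : ZMod m)⁻¹) * v * v' := by rw [h2]
          _ = (u' : ZMod m) * v * ((v' : ZMod m) * (v' : ZMod m)⁻¹) := by ring
          _ = _ := by rw [h1', mul_one]
      have h4 : (m : ℤ) ∣ (u : ℤ) * v' - u' * v := by
        rw [← ZMod.intCast_zmod_eq_zero_iff_dvd]
        push_cast
        rw [h3, sub_self]
      have hid : ((u : ℤ) * v' - u' * v) ^ 2 + ((u : ℤ) * u' + v * v') ^ 2 = (m : ℤ) ^ 2 := by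
        have a1 : (u : ℤ) ^ 2 + (v : ℤ) ^ 2 = m := by exact_mod_cast ht.1
        have a2 : (u' : ℤ) ^ 2 + (v' : ℤ) ^ 2 = m := by exact_mod_cast ht'.1
        calc _ = ((u : ℤ) ^ 2 + (v : ℤ) ^ 2) * ((u' : ℤ) ^ 2 + (v' : ℤ) ^ 2) := by ring
          _ = _ := by rw [a1, a2]; ring
      have hpos : 0 < (u : ℤ) * u' + v * v' := by
        have hn : 0 < u * u' + v * v' := by
          by_contra hc
          have h0 : u * u' = 0 ∧ v * v' = 0 := by omega
          rcases Nat.mul_eq_zero.mp h0.1 with hu | hu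
          · -- u = 0, so v = 1, m = 1
            have : v = 1 := by
              have := ht.2; rw [hu] at this
              simpa using this
            have e := ht.1
            rw [hu, this] at e
            omega
          · have : v' = 1 := by
              have := ht'.2; rw [hu] at this
              simpa using this
            have e := ht'.1
            rw [hu, this] at e
            omega
        exact_mod_cast hn
      have hlt : |(u : ℤ) * v' - u' * v| < m := by
        have hm0 : (0 : ℤ) ≤ m := Int.natCast_nonneg m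
        apply abs_lt_of_sq_lt_sq _ hm0
        nlinarith
      have h5 := Int.eq_zero_of_abs_lt_dvd h4 hlt
      have h6 : u * v' = u' * v := by
        have : (u : ℤ) * v' = u' * v := by linarith
        exact_mod_cast this
      have h7 : u ∣ u' := by
        have : u ∣ u' * v := by rw [← h6]; exact dvd_mul_right _ _
        exact ht.2.dvd_of_dvd_mul_right this
      have h8 : u' ∣ u := by
        have : u' ∣ u * v' := by rw [h6]; exact dvd_mul_right _ _
        exact ht'.2.dvd_of_dvd_mul_right this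
      have h9 : u = u' := Nat.dvd_antisymm h7 h8
      have h10 : v = v' := by
        have a1 := ht.1
        have a2 := ht'.1
        rw [h9] at a1
        have : v ^ 2 = v' ^ 2 := by omega
        exact Nat.pow_left_injective two_ne_zero this
      rw [h9, h10]
  · have h1 : m = 1 := by omega
    subst h1
    calc ((twoSq 1).filter (fun t => Nat.Coprime t.1 t.2)).card ≤ (twoSq 1).card :=
          Finset.card_filter_le _ _
      _ ≤ 2 * (Nat.divisors 1).card := by decide

/-- All representations. -/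
theorem card_twoSq_le (m : ℕ) (hm : 0 < m) :
    (twoSq m).card ≤ 2 * m.divisors.card ^ 2 := by
  classical
  have h1 : ∀ g ∈ m.divisors, ((twoSq m).filter (fun t => Nat.gcd t.1 t.2 = g)).card ≤
      2 * m.divisors.card := by
    intro g hg
    rw [Nat.mem_divisors] at hg
    have hg0 : 0 < g := Nat.pos_of_ne_zero (by rintro rfl; exact hm.ne' (zero_dvd_iff.mp hg.1))
    rcases ((twoSq m).filter (fun t => Nat.gcd t.1 t.2 = g)).eq_empty_or_nonempty with h | ⟨t0, ht0⟩
    · rw [h]; simp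
    rw [mem_filter, mem_twoSq] at ht0
    have hg2 : g ^ 2 ∣ m := by
      rw [← ht0.1]
      have a1 : g ∣ t0.1 := by rw [← ht0.2]; exact Nat.gcd_dvd_left _ _
      have a2 : g ∣ t0.2 := by rw [← ht0.2]; exact Nat.gcd_dvd_right _ _
      exact dvd_add (pow_dvd_pow_of_dvd a1 2) (pow_dvd_pow_of_dvd a2 2)
    obtain ⟨m', hm'⟩ := hg2
    have hm'0 : 0 < m' := Nat.pos_of_ne_zero (by rintro rfl; omega)
    have h2 : ((twoSq m).filter (fun t => Nat.gcd t.1 t.2 = g)).card ≤
        ((twoSq m').filter (fun t => Nat.Coprime t.1 t.2)).card := by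
      apply Finset.card_le_card_of_injOn (fun t : ℕ × ℕ => (t.1 / g, t.2 / g))
      · rintro ⟨u, v⟩ ht
        rw [mem_coe, mem_filter, mem_twoSq] at ht
        simp only at ht
        rw [mem_coe, mem_filter, mem_twoSq]
        simp only
        have a1 : g ∣ u := by rw [← ht.2]; exact Nat.gcd_dvd_left _ _
        have a2 : g ∣ v := by rw [← ht.2]; exact Nat.gcd_dvd_right _ _
        obtain ⟨u', rfl⟩ := a1
        obtain ⟨v', rfl⟩ := a2
        rw [Nat.mul_div_cancel_left _ hg0, Nat.mul_div_cancel_left _ hg0]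
        constructor
        · have h3 := ht.1
          rw [hm'] at h3
          have h4 : g ^ 2 * (u' ^ 2 + v' ^ 2) = g ^ 2 * m' := by rw [← h3]; ring
          exact Nat.eq_of_mul_eq_mul_left (by positivity) h4
        · have h3 := ht.2
          rw [Nat.gcd_mul_left] at h3
          have h4 : g * Nat.gcd u' v' = g * 1 := by rw [h3, mul_one]
          exact Nat.eq_of_mul_eq_mul_left hg0 h4
      · rintro ⟨u, v⟩ ht ⟨u', v'⟩ ht' heq
        rw [mem_coe, mem_filter, mem_twoSq] at ht ht'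
        simp only at ht ht'
        simp only [Prod.mk.injEq] at heq
        have a1 : g ∣ u := by rw [← ht.2]; exact Nat.gcd_dvd_left _ _
        have a2 : g ∣ v := by rw [← ht.2]; exact Nat.gcd_dvd_right _ _
        have a3 : g ∣ u' := by rw [← ht'.2]; exact Nat.gcd_dvd_left _ _
        have a4 : g ∣ v' := by rw [← ht'.2]; exact Nat.gcd_dvd_right _ _
        rw [← Nat.div_mul_cancel a1, ← Nat.div_mul_cancel a2, ← Nat.div_mul_cancel a3,
          ← Nat.div_mul_cancel a4, heq.1, heq.2]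
    refine h2.trans ((card_twoSq_coprime m' hm'0).trans ?_)
    apply Nat.mul_le_mul_left
    apply Finset.card_le_card
    apply Nat.divisors_subset_of_dvd hm.ne'
    exact ⟨g ^ 2, by rw [hm']; ring⟩
  have h2 : (twoSq m).card = ∑ g ∈ m.divisors, ((twoSq m).filter (fun t => Nat.gcd t.1 t.2 = g)).card := by
    apply Finset.card_eq_sum_card_fiberwise
    intro t ht
    rw [mem_coe, mem_twoSq] at ht
    rw [mem_coe, Nat.mem_divisors]
    refine ⟨?_, hm.ne'⟩
    rw [← ht]
    have a1 : Nat.gcd t.1 t.2 ∣ t.1 ^ 2 := (Nat.gcd_dvd_left _ _).trans (dvd_pow_self _ two_ne_zero)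
    have a2 : Nat.gcd t.1 t.2 ∣ t.2 ^ 2 := (Nat.gcd_dvd_right _ _).trans (dvd_pow_self _ two_ne_zero)
    exact dvd_add a1 a2
  rw [h2]
  calc ∑ g ∈ m.divisors, ((twoSq m).filter (fun t => Nat.gcd t.1 t.2 = g)).card
      ≤ ∑ g ∈ m.divisors, 2 * m.divisors.card := Finset.sum_le_sum h1
    _ = 2 * m.divisors.card ^ 2 := by
        rw [Finset.sum_const, smul_eq_mul]; ring

/-- Real form. -/
theorem exists_card_twoSq_le (k : ℕ) (hk : k ≠ 0) :
    ∃ C : ℝ, 1 ≤ C ∧ ∀ y : ℝ, 1 ≤ y → ∀ m : ℕ, (m : ℝ) ≤ y ^ k →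
      ((twoSq m).card : ℝ) ≤ C * y ^ 2 := by
  obtain ⟨C, hC, h⟩ := exists_card_divisors_le k hk
  refine ⟨2 * C ^ 2, by nlinarith, fun y hy m hm => ?_⟩
  have hy2 : 1 ≤ y ^ 2 := one_le_pow₀ hy
  rcases Nat.eq_zero_or_pos m with rfl | hpos
  · have h0 : (twoSq 0).card = 1 := by decide
    rw [h0]
    push_cast
    nlinarith
  · have h1 := card_twoSq_le m hpos
    have h2 : ((twoSq m).card : ℝ) ≤ 2 * (m.divisors.card : ℝ) ^ 2 := by exact_mod_cast h1
    have h3 := h y hy m hm
    have h4 : (m.divisors.card : ℝ) ^ 2 ≤ (C * y) ^ 2 := by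
      apply pow_le_pow_left₀ (by positivity) h3
    calc ((twoSq m).card : ℝ) ≤ 2 * (m.divisors.card : ℝ) ^ 2 := h2
      _ ≤ 2 * (C * y) ^ 2 := by linarith
      _ = 2 * C ^ 2 * y ^ 2 := by ring

end Pool.Agent.Lib.MP1e1427
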