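import Mathlib

/-!
Solutions of `q ∣ 2^a + 2^b + 1` in a box: a row bound and, for large `q`, a determinant bound.
-/

namespace Pool.Agent.Lib.MP1e1427

open Finset

/-- The pairs `(a, b)`, `a, b ≤ A`, with `q ∣ 2^a + 2^b + 1`. -/
def Fset (A q : ℕ) : Finset (ℕ × ℕ) :=
  ((range (A + 1)) ×ˢ (range (A + 1))).filter (fun t => q ∣ 2 ^ t.1 + 2 ^ t.2 + 1)

lemma mem_Fset {A q : ℕ} {t : ℕ × ℕ} :
    t ∈ Fset A q ↔ t.1 ≤ A ∧ t.2 ≤ A ∧ q ∣ 2 ^ t.1 + 2 ^ t.2 + 1 := by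
  simp only [Fset, mem_filter, mem_product, mem_range]
  constructor
  · rintro ⟨⟨h1, h2⟩, h3⟩; exact ⟨by omega, by omega, h3⟩
  · rintro ⟨h1, h2, h3⟩; exact ⟨⟨by omega, by omega⟩, h3⟩

lemma coprime_two_pow {q : ℕ} (hq : q % 2 = 1) (u : ℕ) : IsCoprime (q : ℤ) (2 ^ u) := by
  apply IsCoprime.pow_right
  have h : Nat.Coprime q 2 := by
    rw [Nat.coprime_comm, Nat.Prime.coprime_iff_not_dvd Nat.prime_two]
    omega
  exact_mod_cast Nat.isCoprime_iff_coprime.mpr h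

lemma two_pow_mul_sub (s a : ℕ) : (2 : ℤ) ^ (s + a) - 2 ^ s = 2 ^ s * (2 ^ a - 1) := by
  rw [pow_add]; ring

/-- `(2^α-1)(2^δ-1) = (2^β-1)(2^γ-1)`, `1 ≤ α < β`, `1 ≤ γ < δ` forces `α = γ`. -/
lemma eq_of_mul_eq {α β γ δ : ℕ} (hα : 1 ≤ α) (hγ : 1 ≤ γ) (hαβ : α < β) (hγδ : γ < δ)
    (h : ((2 : ℤ) ^ α - 1) * (2 ^ δ - 1) = (2 ^ β - 1) * (2 ^ γ - 1)) : α = γ := by
  -- helper: the strict inequality is impossible
  have key : ∀ α β γ δ : ℕ, 1 ≤ α → 1 ≤ γ → α < β → γ < δ →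
      ((2 : ℤ) ^ α - 1) * (2 ^ δ - 1) = (2 ^ β - 1) * (2 ^ γ - 1) → ¬ α < γ := by
    intro α β γ δ hα hγ hαβ hγδ h hlt
    -- everything modulo 2^(α+1)
    have h1 : (2 : ℤ) ^ (α + 1) ∣ 2 ^ δ := pow_dvd_pow 2 (by omega)
    have h2 : (2 : ℤ) ^ (α + 1) ∣ 2 ^ β := pow_dvd_pow 2 (by omega)
    have h3 : (2 : ℤ) ^ (α + 1) ∣ 2 ^ γ := pow_dvd_pow 2 (by omega)
    have h4 : (2 : ℤ) ^ (α + 1) ∣ 2 ^ α := by
      have e : (2 : ℤ) ^ α = 2 ^ δ * (2 ^ α - 1) - 2 ^ β * (2 ^ γ - 1) + 2 ^ γ := by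
        linear_combination -h
      rw [e]
      exact dvd_add (dvd_sub (h1.mul_right _) (h2.mul_right _)) h3
    have h5 : (2 : ℕ) ^ (α + 1) ∣ 2 ^ α := by exact_mod_cast h4
    have h6 := Nat.le_of_dvd (by positivity) h5
    rw [pow_succ] at h6
    have : 0 < 2 ^ α := by positivity
    omega
  have k1 := key α β γ δ hα hγ hαβ hγδ h
  have k2 := key γ δ α β hγ hα hγδ hαβ (by linarith)
  omega

lemma dvd_sub_of {q x x' y y' : ℤ} (h : q ∣ x + y + 1) (h' : q ∣ x' + y' + 1) :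
    q ∣ (x' - x) + (y' - y) := by
  have h2 := dvd_sub h' h
  have e : x' + y' + 1 - (x + y + 1) = (x' - x) + (y' - y) := by ring
  rwa [e] at h2

/-- No three points with increasing first coordinates. -/
lemma no_three {q u v L s₁ t₁ s₂ t₂ s₃ t₃ : ℕ} (hq : q % 2 = 1) (hqL : 2 ^ (2 * L + 2) ≤ q)
    (hs3 : s₃ < L) (ht1 : t₁ < L) (ht2 : t₂ < L) (ht3 : t₃ < L)
    (h1 : q ∣ 2 ^ (u + s₁) + 2 ^ (v + t₁) + 1) (h2 : q ∣ 2 ^ (u + s₂) + 2 ^ (v + t₂) + 1)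
    (h3 : q ∣ 2 ^ (u + s₃) + 2 ^ (v + t₃) + 1) (h12 : s₁ < s₂) (h23 : s₂ < s₃) : False := by
  have h1' : (q : ℤ) ∣ 2 ^ u * 2 ^ s₁ + 2 ^ v * 2 ^ t₁ + 1 := by
    rw [← pow_add, ← pow_add]; exact_mod_cast h1
  have h2' : (q : ℤ) ∣ 2 ^ u * 2 ^ s₂ + 2 ^ v * 2 ^ t₂ + 1 := by
    rw [← pow_add, ← pow_add]; exact_mod_cast h2
  have h3' : (q : ℤ) ∣ 2 ^ u * 2 ^ s₃ + 2 ^ v * 2 ^ t₃ + 1 := by
    rw [← pow_add, ← pow_add]; exact_mod_cast h3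
  have K12 := dvd_sub_of h1' h2'
  have K13 := dvd_sub_of h1' h3'
  have hqbig : (2 : ℤ) ^ (2 * L + 2) ≤ q := by exact_mod_cast hqL
  have hqL2 : (2 : ℤ) ^ (2 * L + 2) = 4 * (2 ^ L * 2 ^ L) := by
    rw [pow_add, two_mul, pow_add]; ring
  have hL1 : (1 : ℤ) ≤ 2 ^ L := one_le_pow₀ (by norm_num)
  have pw : ∀ s : ℕ, s < L → (1 : ℤ) ≤ 2 ^ s ∧ (2 : ℤ) ^ s ≤ 2 ^ L := fun s hs =>
    ⟨one_le_pow₀ (by norm_num), pow_le_pow_right₀ (by norm_num) hs.le⟩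
  obtain ⟨x1, x1'⟩ := pw s₁ (by omega)
  obtain ⟨x2, x2'⟩ := pw s₂ (by omega)
  obtain ⟨x3, x3'⟩ := pw s₃ hs3
  obtain ⟨y1, y1'⟩ := pw t₁ ht1
  obtain ⟨y2, y2'⟩ := pw t₂ ht2
  obtain ⟨y3, y3'⟩ := pw t₃ ht3
  have X12 : (2 : ℤ) ^ s₁ < 2 ^ s₂ := pow_lt_pow_right₀ (by norm_num) h12
  have X23 : (2 : ℤ) ^ s₂ < 2 ^ s₃ := pow_lt_pow_right₀ (by norm_num) h23
  -- small multiples of q vanish
  have small : ∀ z : ℤ, (q : ℤ) ∣ z → |z| < 4 * (2 ^ L * 2 ^ L) → z = 0 := by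
    intro z hz hlt
    exact Int.eq_zero_of_abs_lt_dvd hz (by linarith)
  have hD : (q : ℤ) ∣ (2 ^ s₂ - 2 ^ s₁) * (2 ^ t₃ - 2 ^ t₁) - (2 ^ s₃ - 2 ^ s₁) * (2 ^ t₂ - 2 ^ t₁) := by
    apply (coprime_two_pow hq u).dvd_of_dvd_mul_left
    have h4 := dvd_sub (K12.mul_right ((2 : ℤ) ^ t₃ - 2 ^ t₁)) (K13.mul_right ((2 : ℤ) ^ t₂ - 2 ^ t₁))
    have e : ((2 : ℤ) ^ u * 2 ^ s₂ - 2 ^ u * 2 ^ s₁ + (2 ^ v * 2 ^ t₂ - 2 ^ v * 2 ^ t₁)) *
        (2 ^ t₃ - 2 ^ t₁) - (2 ^ u * 2 ^ s₃ - 2 ^ u * 2 ^ s₁ + (2 ^ v * 2 ^ t₃ - 2 ^ v * 2 ^ t₁)) *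
        (2 ^ t₂ - 2 ^ t₁) = 2 ^ u * ((2 ^ s₂ - 2 ^ s₁) * (2 ^ t₃ - 2 ^ t₁) -
          (2 ^ s₃ - 2 ^ s₁) * (2 ^ t₂ - 2 ^ t₁)) := by ring
    rwa [e] at h4
  have hD0 := small _ hD (by
    have b1 : |((2 : ℤ) ^ s₂ - 2 ^ s₁) * (2 ^ t₃ - 2 ^ t₁)| ≤ 2 ^ L * 2 ^ L := by
      rw [abs_mul]
      apply mul_le_mul _ _ (abs_nonneg _) (by positivity)
      · rw [abs_le]; constructor <;> linarith
      · rw [abs_le]; constructor <;> linarith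
    have b2 : |((2 : ℤ) ^ s₃ - 2 ^ s₁) * (2 ^ t₂ - 2 ^ t₁)| ≤ 2 ^ L * 2 ^ L := by
      rw [abs_mul]
      apply mul_le_mul _ _ (abs_nonneg _) (by positivity)
      · rw [abs_le]; constructor <;> linarith
      · rw [abs_le]; constructor <;> linarith
    have b3 := abs_sub (((2 : ℤ) ^ s₂ - 2 ^ s₁) * (2 ^ t₃ - 2 ^ t₁)) (((2 : ℤ) ^ s₃ - 2 ^ s₁) * (2 ^ t₂ - 2 ^ t₁))
    have b4 : (0 : ℤ) < 2 ^ L * 2 ^ L := by positivity
    linarith)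
  have hLL : (2 : ℤ) ^ L ≤ 2 ^ L * 2 ^ L := by nlinarith
  rcases lt_trichotomy t₁ t₂ with ht | ht | ht
  · -- increasing
    have Y12 : (2 : ℤ) ^ t₁ < 2 ^ t₂ := pow_lt_pow_right₀ (by norm_num) ht
    have hpos : 0 < ((2 : ℤ) ^ s₂ - 2 ^ s₁) * (2 ^ t₃ - 2 ^ t₁) := by
      have : 0 < ((2 : ℤ) ^ s₃ - 2 ^ s₁) * (2 ^ t₂ - 2 ^ t₁) :=
        mul_pos (by linarith) (by linarith)
      linarith
    have Y13 : (2 : ℤ) ^ t₁ < 2 ^ t₃ := by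
      have := (mul_pos_iff_of_pos_left (by linarith : (0 : ℤ) < 2 ^ s₂ - 2 ^ s₁)).mp hpos
      linarith
    have Y23 : (2 : ℤ) ^ t₂ < 2 ^ t₃ := by
      by_contra hc
      push Not at hc
      nlinarith
    have ht13 : t₁ < t₃ := (pow_lt_pow_iff_right₀ (by norm_num : (1 : ℤ) < 2)).mp Y13
    have ht23 : t₂ < t₃ := (pow_lt_pow_iff_right₀ (by norm_num : (1 : ℤ) < 2)).mp Y23
    obtain ⟨α, rfl⟩ : ∃ α, s₂ = s₁ + α := ⟨s₂ - s₁, by omega⟩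
    obtain ⟨β, rfl⟩ : ∃ β, s₃ = s₁ + β := ⟨s₃ - s₁, by omega⟩
    obtain ⟨γ, rfl⟩ : ∃ γ, t₂ = t₁ + γ := ⟨t₂ - t₁, by omega⟩
    obtain ⟨δ, rfl⟩ : ∃ δ, t₃ = t₁ + δ := ⟨t₃ - t₁, by omega⟩
    have hαγ : α = γ := by
      refine eq_of_mul_eq (α := α) (β := β) (γ := γ) (δ := δ) (by omega) (by omega) (by omega)
        (by omega) ?_
      have hne : (2 : ℤ) ^ s₁ * 2 ^ t₁ ≠ 0 := by positivity
      apply mul_left_cancel₀ hne
      rw [two_pow_mul_sub, two_pow_mul_sub, two_pow_mul_sub, two_pow_mul_sub] at hD0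
      linear_combination hD0
    subst hαγ
    have h4 : (q : ℤ) ∣ 2 ^ α - 1 := by
      have h5 := dvd_sub (h1'.mul_right ((2 : ℤ) ^ α)) h2'
      have e : ((2 : ℤ) ^ u * 2 ^ s₁ + 2 ^ v * 2 ^ t₁ + 1) * 2 ^ α -
          (2 ^ u * 2 ^ (s₁ + α) + 2 ^ v * 2 ^ (t₁ + α) + 1) = 2 ^ α - 1 := by
        rw [pow_add, pow_add]; ring
      rwa [e] at h5
    have h5 := small _ h4 (by
      have e1 : (1 : ℤ) ≤ 2 ^ α := one_le_pow₀ (by norm_num)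
      have e2 : (2 : ℤ) ^ α ≤ 2 ^ L := pow_le_pow_right₀ (by norm_num) (by omega)
      rw [abs_of_nonneg (by linarith)]
      nlinarith)
    have e3 : (2 : ℤ) ^ 1 ≤ 2 ^ α := pow_le_pow_right₀ (by norm_num) (by omega)
    norm_num at e3
    linarith
  · -- equal
    subst ht
    have h4 : (q : ℤ) ∣ 2 ^ s₂ - 2 ^ s₁ := by
      apply (coprime_two_pow hq u).dvd_of_dvd_mul_left
      have e : (2 : ℤ) ^ u * 2 ^ s₂ - 2 ^ u * 2 ^ s₁ + (2 ^ v * 2 ^ t₁ - 2 ^ v * 2 ^ t₁) =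
          2 ^ u * (2 ^ s₂ - 2 ^ s₁) := by ring
      rwa [e] at K12
    have h5 := small _ h4 (by
      rw [abs_of_nonneg (by linarith)]
      nlinarith)
    linarith
  · -- decreasing
    have Y12 : (2 : ℤ) ^ t₂ < 2 ^ t₁ := pow_lt_pow_right₀ (by norm_num) ht
    have hneg : ((2 : ℤ) ^ s₂ - 2 ^ s₁) * (2 ^ t₁ - 2 ^ t₃) =
        (2 ^ s₃ - 2 ^ s₁) * (2 ^ t₁ - 2 ^ t₂) := by linear_combination -hD0
    have Y23 : (2 : ℤ) ^ t₃ < 2 ^ t₂ := by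
      by_contra hc
      push Not at hc
      nlinarith
    have ht23 : t₃ < t₂ := (pow_lt_pow_iff_right₀ (by norm_num : (1 : ℤ) < 2)).mp Y23
    obtain ⟨α, rfl⟩ : ∃ α, s₂ = s₁ + α := ⟨s₂ - s₁, by omega⟩
    obtain ⟨β, rfl⟩ : ∃ β, s₃ = s₁ + β := ⟨s₃ - s₁, by omega⟩
    obtain ⟨γ, rfl⟩ : ∃ γ, t₂ = t₃ + γ := ⟨t₂ - t₃, by omega⟩
    obtain ⟨δ, rfl⟩ : ∃ δ, t₁ = t₃ + δ := ⟨t₁ - t₃, by omega⟩
    have hne : (2 : ℤ) ^ s₁ * 2 ^ t₃ ≠ 0 := by positivity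
    have h6 : ((2 : ℤ) ^ α - 1) * (2 ^ δ - 1) = (2 ^ β - 1) * (2 ^ δ - 2 ^ γ) := by
      apply mul_left_cancel₀ hne
      rw [two_pow_mul_sub, two_pow_mul_sub, two_pow_mul_sub] at hneg
      rw [pow_add 2 t₃ γ, pow_add 2 t₃ δ] at hneg
      linear_combination hneg
    have e1 : (2 : ℤ) ∣ 2 ^ α := dvd_pow_self 2 (by omega)
    have e2 : (2 : ℤ) ∣ 2 ^ β := dvd_pow_self 2 (by omega)
    have e3 : (2 : ℤ) ∣ 2 ^ γ := dvd_pow_self 2 (by omega)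
    have e4 : (2 : ℤ) ∣ 2 ^ δ := dvd_pow_self 2 (by omega)
    have e5 : (2 : ℤ) ∣ 1 := by
      have : (1 : ℤ) = 2 ^ δ * (2 ^ β - 1) - 2 ^ γ * (2 ^ β - 1) - 2 ^ α * (2 ^ δ - 1) + 2 ^ δ := by
        linear_combination h6
      rw [this]
      exact dvd_add (dvd_sub (dvd_sub (e4.mul_right _) (e3.mul_right _)) (e1.mul_right _)) e4
    omega

/-- Two points with the same first coordinate coincide. -/
lemma same_row {q u v L s t₁ t₂ : ℕ} (hq : q % 2 = 1) (hqL : 2 ^ (2 * L + 2) ≤ q)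
    (ht1 : t₁ < L) (ht2 : t₂ < L)
    (h1 : q ∣ 2 ^ (u + s) + 2 ^ (v + t₁) + 1) (h2 : q ∣ 2 ^ (u + s) + 2 ^ (v + t₂) + 1) :
    t₁ = t₂ := by
  have h1' : (q : ℤ) ∣ 2 ^ (u + s) + 2 ^ v * 2 ^ t₁ + 1 := by
    rw [← pow_add]; exact_mod_cast h1
  have h2' : (q : ℤ) ∣ 2 ^ (u + s) + 2 ^ v * 2 ^ t₂ + 1 := by
    rw [← pow_add]; exact_mod_cast h2
  have K := dvd_sub_of h1' h2'
  have h4 : (q : ℤ) ∣ 2 ^ t₂ - 2 ^ t₁ := by
    apply (coprime_two_pow hq v).dvd_of_dvd_mul_left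
    have e : (2 : ℤ) ^ (u + s) - 2 ^ (u + s) + (2 ^ v * 2 ^ t₂ - 2 ^ v * 2 ^ t₁) =
        2 ^ v * (2 ^ t₂ - 2 ^ t₁) := by ring
    rwa [e] at K
  have hqbig : (2 : ℤ) ^ (2 * L + 2) ≤ q := by exact_mod_cast hqL
  have hqL2 : (2 : ℤ) ^ (2 * L + 2) = 4 * (2 ^ L * 2 ^ L) := by
    rw [pow_add, two_mul, pow_add]; ring
  have hL1 : (1 : ℤ) ≤ 2 ^ L := one_le_pow₀ (by norm_num)
  have y1 : (1 : ℤ) ≤ 2 ^ t₁ := one_le_pow₀ (by norm_num)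
  have y2 : (1 : ℤ) ≤ 2 ^ t₂ := one_le_pow₀ (by norm_num)
  have y1' : (2 : ℤ) ^ t₁ ≤ 2 ^ L := pow_le_pow_right₀ (by norm_num) ht1.le
  have y2' : (2 : ℤ) ^ t₂ ≤ 2 ^ L := pow_le_pow_right₀ (by norm_num) ht2.le
  have h5 := Int.eq_zero_of_abs_lt_dvd h4 (by
    rw [abs_lt]
    constructor <;> nlinarith)
  have h6 : (2 : ℤ) ^ t₂ = 2 ^ t₁ := by linarith
  have h7 : (2 : ℕ) ^ t₂ = 2 ^ t₁ := by exact_mod_cast h6
  exact (Nat.pow_right_injective (le_refl 2) h7).symm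

/-- The determinant bound. -/
theorem card_Fset_le_box {A q L : ℕ} (hq : q % 2 = 1) (hL : 0 < L) (hqL : 2 ^ (2 * L + 2) ≤ q) :
    (Fset A q).card ≤ 2 * (A / L + 1) ^ 2 := by
  classical
  have h := Finset.card_le_mul_card_image_of_maps_to (s := Fset A q)
    (t := (range (A / L + 1)) ×ˢ (range (A / L + 1)))
    (f := fun t => (t.1 / L, t.2 / L)) (n := 2) ?_ ?_
  · refine h.trans ?_
    rw [card_product, card_range]
    apply le_of_eq; ring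
  · intro t ht
    rw [mem_Fset] at ht
    simp only [mem_product, mem_range]
    exact ⟨Nat.lt_succ_of_le (Nat.div_le_div_right ht.1),
      Nat.lt_succ_of_le (Nat.div_le_div_right ht.2.1)⟩
  · rintro ⟨i, j⟩ _
    by_contra hcon
    push Not at hcon
    obtain ⟨a, ha, b, hb, c, hc, hab, hac, hbc⟩ := Finset.two_lt_card.mp hcon
    rw [mem_filter, mem_Fset] at ha hb hc
    obtain ⟨⟨-, -, ha3⟩, ha4⟩ := ha
    obtain ⟨⟨-, -, hb3⟩, hb4⟩ := hb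
    obtain ⟨⟨-, -, hc3⟩, hc4⟩ := hc
    -- normal form
    have nf : ∀ t : ℕ × ℕ, q ∣ 2 ^ t.1 + 2 ^ t.2 + 1 → (t.1 / L, t.2 / L) = (i, j) →
        ∃ s r : ℕ, s < L ∧ r < L ∧ t = (L * i + s, L * j + r) ∧
          q ∣ 2 ^ (L * i + s) + 2 ^ (L * j + r) + 1 := by
      intro t h1 h2
      rw [Prod.mk.injEq] at h2
      obtain ⟨h2, h3⟩ := h2
      refine ⟨t.1 % L, t.2 % L, Nat.mod_lt _ hL, Nat.mod_lt _ hL, ?_, ?_⟩
      · rw [← h2, ← h3, Nat.div_add_mod, Nat.div_add_mod]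
      · rw [← h2, ← h3, Nat.div_add_mod, Nat.div_add_mod]; exact h1
    obtain ⟨s1, r1, hs1, hr1, rfl, k1⟩ := nf a ha3 ha4
    obtain ⟨s2, r2, hs2, hr2, rfl, k2⟩ := nf b hb3 hb4
    obtain ⟨s3, r3, hs3, hr3, rfl, k3⟩ := nf c hc3 hc4
    have d12 : s1 ≠ s2 := by
      rintro rfl
      exact hab (by rw [same_row hq hqL hr1 hr2 k1 k2])
    have d13 : s1 ≠ s3 := by
      rintro rfl
      exact hac (by rw [same_row hq hqL hr1 hr3 k1 k3])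
    have d23 : s2 ≠ s3 := by
      rintro rfl
      exact hbc (by rw [same_row hq hqL hr2 hr3 k2 k3])
    rcases lt_or_gt_of_ne d12 with e12 | e12 <;> rcases lt_or_gt_of_ne d13 with e13 | e13 <;>
      rcases lt_or_gt_of_ne d23 with e23 | e23
    · exact no_three hq hqL hs3 hr1 hr2 hr3 k1 k2 k3 e12 e23
    · exact no_three hq hqL hs2 hr1 hr3 hr2 k1 k3 k2 e13 e23
    · omega
    · exact no_three hq hqL hs2 hr3 hr1 hr2 k3 k1 k2 e13 e12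
    · exact no_three hq hqL hs3 hr2 hr1 hr3 k2 k1 k3 e12 e13
    · omega
    · exact no_three hq hqL hs1 hr2 hr3 hr1 k2 k3 k1 e23 e13
    · exact no_three hq hqL hs1 hr3 hr2 hr1 k3 k2 k1 e23 e12

/-- The row bound. -/
theorem card_Fset_le_row {A q : ℕ} (hq : q % 2 = 1) (hq1 : 1 < q) :
    ((Fset A q).card : ℝ) ≤ ((A : ℝ) + 1) * (((A : ℝ) + 1) / (orderOf (2 : ZMod q) : ℝ) + 1) := by
  classical
  have : NeZero q := ⟨by omega⟩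
  have hcop : Nat.Coprime 2 q := by
    rw [Nat.Prime.coprime_iff_not_dvd Nat.prime_two]; omega
  set k := orderOf (2 : ZMod q) with hk
  have hunit : IsUnit (2 : ZMod q) := by
    have := (ZMod.isUnit_iff_coprime 2 q).mpr hcop
    exact_mod_cast this
  have hkpos : 0 < k := by
    rw [hk]
    obtain ⟨w, hw⟩ := hunit
    rw [← hw, orderOf_units]
    exact orderOf_pos w
  have h := Finset.card_le_mul_card_image_of_maps_to (s := Fset A q) (t := range (A + 1))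
    (f := fun t => t.1) (n := A / k + 1) ?_ ?_
  · rw [card_range] at h
    have h2 : ((Fset A q).card : ℝ) ≤ (((A / k + 1) * (A + 1) : ℕ) : ℝ) := by exact_mod_cast h
    refine h2.trans ?_
    push_cast
    have h3 : ((A / k : ℕ) : ℝ) ≤ (A : ℝ) / k := Nat.cast_div_le
    have hk0 : (0 : ℝ) < k := by exact_mod_cast hkpos
    have h4 : (A : ℝ) / k ≤ ((A : ℝ) + 1) / k := by gcongr; linarith
    nlinarith [(Nat.cast_nonneg A : (0 : ℝ) ≤ A)]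
  · intro t ht
    rw [mem_Fset] at ht
    simp only [mem_range]
    omega
  · intro a _
    -- the fibre injects into range (A/k+1) by b ↦ b / k
    have hinj : ∀ t ∈ (Fset A q).filter (fun t => t.1 = a), ∀ t' ∈ (Fset A q).filter (fun t => t.1 = a),
        t.2 / k = t'.2 / k → t = t' := by
      intro t ht t' ht' hdiv
      rw [mem_filter, mem_Fset] at ht ht'
      obtain ⟨⟨-, -, h1⟩, h2⟩ := ht
      obtain ⟨⟨-, -, h3⟩, h4⟩ := ht'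
      have e1 : ((2 : ZMod q)) ^ t.1 + 2 ^ t.2 + 1 = 0 := by
        have := (ZMod.natCast_eq_zero_iff _ _).mpr h1
        push_cast at this; exact this
      have e2 : ((2 : ZMod q)) ^ t'.1 + 2 ^ t'.2 + 1 = 0 := by
        have := (ZMod.natCast_eq_zero_iff _ _).mpr h3
        push_cast at this; exact this
      rw [h2] at e1
      rw [h4] at e2
      have e3 : (2 : ZMod q) ^ t.2 = 2 ^ t'.2 := by linear_combination e1 - e2
      have e4 : t.2 ≡ t'.2 [MOD k] := by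
        obtain ⟨w, hw⟩ := hunit
        rw [hk, ← hw, orderOf_units]
        rw [← hw] at e3
        rw [← pow_eq_pow_iff_modEq]
        exact Units.ext (by push_cast; exact e3)
      have e5 : t.2 = t'.2 := by
        have := Nat.div_add_mod t.2 k
        have h6 := Nat.div_add_mod t'.2 k
        rw [← this, ← h6, hdiv, e4]
      exact Prod.ext (by rw [h2, h4]) e5
    calc ((Fset A q).filter (fun t => t.1 = a)).card ≤ (range (A / k + 1)).card := by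
          apply Finset.card_le_card_of_injOn (fun t => t.2 / k)
          · intro t ht
            rw [mem_coe, mem_filter, mem_Fset] at ht
            simp only [coe_range, Set.mem_Iio]
            exact Nat.lt_succ_of_le (Nat.div_le_div_right ht.1.2.1)
          · intro t ht t' ht' hh
            exact hinj t (mem_coe.mp ht) t' (mem_coe.mp ht') hh
      _ = A / k + 1 := card_range _

end Pool.Agent.Lib.MP1e1427
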