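import Mathlib
import Pool.Agent.Lib.MP_1e1427_nt.Smooth1

/-!
First moment of the smooth part of `2^a + 2^b + 1` over a box.
-/

namespace Pool.Agent.Lib.MP1e1427

open Finset ArithmeticFunction

/-- The box. -/
def Bx (A : ℕ) : Finset (ℕ × ℕ) := (range (A + 1)) ×ˢ (range (A + 1))

/-- The number attached to a pair of exponents. -/
def Nv (t : ℕ × ℕ) : ℕ := 2 ^ t.1 + 2 ^ t.2 + 1

/-- Odd primes up to `Y`. -/
def PP (Y : ℕ) : Finset ℕ := (Icc 3 Y).filter Nat.Prime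

lemma mem_PP {Y p : ℕ} : p ∈ PP Y ↔ p.Prime ∧ 3 ≤ p ∧ p ≤ Y := by
  simp only [PP, mem_filter, mem_Icc]; tauto

lemma PP_odd {Y p : ℕ} (h : p ∈ PP Y) : p % 2 = 1 := by
  rw [mem_PP] at h
  rcases h.1.eq_two_or_odd with h2 | h2
  · omega
  · exact h2

lemma sum_log_PP_le (Y : ℕ) : ∑ p ∈ PP Y, Real.log p ≤ 2 * Y := by
  have h1 := Chebyshev.theta_le_log4_mul_x (x := (Y : ℝ)) (by positivity)
  rw [Chebyshev.theta_eq_sum_Icc, Nat.floor_natCast] at h1
  have h2 : ∑ p ∈ PP Y, Real.log p ≤ ∑ p ∈ (Icc 0 Y).filter Nat.Prime, Real.log p := by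
    apply Finset.sum_le_sum_of_subset_of_nonneg
    · intro p hp
      rw [mem_PP] at hp
      simp only [mem_filter, mem_Icc]
      exact ⟨⟨by omega, hp.2.2⟩, hp.1⟩
    · intro p hp _
      exact Real.log_natCast_nonneg p
  have h3 : Real.log 4 ≤ 2 := by
    rw [show (4 : ℝ) = 2 ^ 2 by norm_num, Real.log_pow]
    have := Real.log_two_lt_d9
    push_cast; linarith
  have h4 : Real.log 4 * (Y : ℝ) ≤ 2 * Y := by gcongr
  linarith

lemma dvd_two_pow_order_sub (q : ℕ) : q ∣ 2 ^ (orderOf (2 : ZMod q)) - 1 := by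
  rw [← ZMod.natCast_eq_zero_iff, Nat.cast_sub Nat.one_le_two_pow]
  push_cast
  rw [pow_orderOf_eq_one, sub_self]

lemma order_pos {q : ℕ} (hq : q % 2 = 1) (hq1 : 1 < q) : 0 < orderOf (2 : ZMod q) := by
  have : NeZero q := ⟨by omega⟩
  have hcop : Nat.Coprime 2 q := by
    rw [Nat.Prime.coprime_iff_not_dvd Nat.prime_two]; omega
  have hunit : IsUnit (2 : ZMod q) := by
    have := (ZMod.isUnit_iff_coprime 2 q).mpr hcop
    exact_mod_cast this
  obtain ⟨w, hw⟩ := hunit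
  rw [← hw, orderOf_units]
  exact orderOf_pos w

/-- Large orders. -/
theorem order_sum (Q : Finset ℕ) (hQ : ∀ q ∈ Q, q % 2 = 1 ∧ 1 < q) (T : ℕ) (hT : 0 < T) :
    ∑ q ∈ Q, vonMangoldt q / (orderOf (2 : ZMod q) : ℝ) ≤ T * Real.log 2 + (∑ q ∈ Q, vonMangoldt q) / T := by
  classical
  have hTR : (0 : ℝ) < T := by exact_mod_cast hT
  rw [← Finset.sum_filter_add_sum_filter_not Q (fun q => orderOf (2 : ZMod q) ≤ T)]
  apply add_le_add
  · -- small orders
    have h1 : ∑ q ∈ Q.filter (fun q => orderOf (2 : ZMod q) ≤ T), vonMangoldt q / (orderOf (2 : ZMod q) : ℝ) =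
        ∑ k ∈ Icc 1 T, ∑ q ∈ (Q.filter (fun q => orderOf (2 : ZMod q) ≤ T)).filter
          (fun q => orderOf (2 : ZMod q) = k), vonMangoldt q / (orderOf (2 : ZMod q) : ℝ) := by
      rw [Finset.sum_fiberwise_of_maps_to]
      intro q hq
      rw [mem_filter] at hq
      rw [mem_Icc]
      exact ⟨order_pos (hQ q hq.1).1 (hQ q hq.1).2, hq.2⟩
    rw [h1]
    have h2 : ∀ k ∈ Icc 1 T, ∑ q ∈ (Q.filter (fun q => orderOf (2 : ZMod q) ≤ T)).filter
          (fun q => orderOf (2 : ZMod q) = k), vonMangoldt q / (orderOf (2 : ZMod q) : ℝ) ≤ Real.log 2 := by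
      intro k hk
      rw [mem_Icc] at hk
      have hk0 : (0 : ℝ) < k := by exact_mod_cast hk.1
      have h3 : ∑ q ∈ (Q.filter (fun q => orderOf (2 : ZMod q) ≤ T)).filter
          (fun q => orderOf (2 : ZMod q) = k), vonMangoldt q / (orderOf (2 : ZMod q) : ℝ) =
          (∑ q ∈ (Q.filter (fun q => orderOf (2 : ZMod q) ≤ T)).filter
          (fun q => orderOf (2 : ZMod q) = k), vonMangoldt q) / k := by
        rw [Finset.sum_div]
        apply Finset.sum_congr rfl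
        intro q hq
        rw [mem_filter] at hq
        rw [hq.2]
      rw [h3, div_le_iff₀ hk0]
      have h2k : 2 ^ k - 1 ≠ 0 := by
        have : 2 ^ 1 ≤ 2 ^ k := Nat.pow_le_pow_right (by norm_num) hk.1
        omega
      calc ∑ q ∈ (Q.filter (fun q => orderOf (2 : ZMod q) ≤ T)).filter
              (fun q => orderOf (2 : ZMod q) = k), vonMangoldt q
          ≤ ∑ q ∈ (2 ^ k - 1).divisors, vonMangoldt q := by
            apply Finset.sum_le_sum_of_subset_of_nonneg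
            · intro q hq
              rw [mem_filter] at hq
              rw [Nat.mem_divisors]
              refine ⟨?_, h2k⟩
              have := dvd_two_pow_order_sub q
              rwa [hq.2] at this
            · intro q _ _
              exact vonMangoldt_nonneg
        _ = Real.log ((2 ^ k - 1 : ℕ) : ℝ) := vonMangoldt_sum
        _ ≤ Real.log ((2 : ℝ) ^ k) := by
            apply Real.log_le_log
            · exact_mod_cast Nat.pos_of_ne_zero h2k
            · have : (2 ^ k - 1 : ℕ) ≤ 2 ^ k := Nat.sub_le _ _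
              exact_mod_cast this
        _ = Real.log 2 * k := by rw [Real.log_pow]; ring
    calc _ ≤ ∑ k ∈ Icc 1 T, Real.log 2 := Finset.sum_le_sum h2
      _ = T * Real.log 2 := by simp
  · -- large orders
    calc ∑ q ∈ Q.filter (fun q => ¬ orderOf (2 : ZMod q) ≤ T), vonMangoldt q / (orderOf (2 : ZMod q) : ℝ)
        ≤ ∑ q ∈ Q.filter (fun q => ¬ orderOf (2 : ZMod q) ≤ T), vonMangoldt q / T := by
          apply Finset.sum_le_sum
          intro q hq
          rw [mem_filter, not_le] at hq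
          have : (T : ℝ) ≤ (orderOf (2 : ZMod q) : ℝ) := by exact_mod_cast hq.2.le
          exact div_le_div_of_nonneg_left vonMangoldt_nonneg hTR this
      _ ≤ ∑ q ∈ Q, vonMangoldt q / T := by
          apply Finset.sum_le_sum_of_subset_of_nonneg (Finset.filter_subset _ _)
          intro q _ _
          exact div_nonneg vonMangoldt_nonneg hTR.le
      _ = (∑ q ∈ Q, vonMangoldt q) / T := by rw [Finset.sum_div]

/-- Primes. -/
lemma order_sum_primes (Y T : ℕ) (hT : 0 < T) :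
    ∑ p ∈ PP Y, Real.log p / (orderOf (2 : ZMod p) : ℝ) ≤ T * Real.log 2 + 2 * Y / T := by
  have h := order_sum (PP Y) (fun q hq => ⟨PP_odd hq, by rw [mem_PP] at hq; omega⟩) T hT
  have e1 : ∑ q ∈ PP Y, vonMangoldt q / (orderOf (2 : ZMod q) : ℝ) =
      ∑ p ∈ PP Y, Real.log p / (orderOf (2 : ZMod p) : ℝ) := by
    apply Finset.sum_congr rfl
    intro q hq
    rw [vonMangoldt_apply_prime (mem_PP.mp hq).1]
  have e2 : ∑ q ∈ PP Y, vonMangoldt q = ∑ p ∈ PP Y, Real.log p := by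
    apply Finset.sum_congr rfl
    intro q hq
    rw [vonMangoldt_apply_prime (mem_PP.mp hq).1]
  rw [e1, e2] at h
  have hTR : (0 : ℝ) < T := by exact_mod_cast hT
  have h2 : (∑ p ∈ PP Y, Real.log p) / (T : ℝ) ≤ 2 * Y / T := by
    apply div_le_div_of_nonneg_right (sum_log_PP_le Y) hTR.le
  linarith

/-- Prime powers. -/
lemma order_sum_pow (Y J T : ℕ) (hT : 0 < T) :
    ∑ p ∈ PP Y, ∑ j ∈ Icc 1 J, Real.log p / (orderOf (2 : ZMod (p ^ j)) : ℝ) ≤
      T * Real.log 2 + J * (2 * Y) / T := by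
  classical
  have hinj : Set.InjOn (fun w : ℕ × ℕ => w.1 ^ w.2) (((PP Y) ×ˢ (Icc 1 J) : Finset (ℕ × ℕ)) : Set (ℕ × ℕ)) := by
    rintro ⟨p, i⟩ hp ⟨q, j⟩ hq h
    simp only [coe_product, Set.mem_prod, mem_coe, mem_PP, mem_Icc] at hp hq
    simp only at h
    have h1 : p ∣ q ^ j := by rw [← h]; exact dvd_pow_self p (by omega)
    have h2 : p = q := (Nat.prime_dvd_prime_iff_eq hp.1.1 hq.1.1).mp (hp.1.1.dvd_of_dvd_pow h1)
    subst h2
    have h3 : i = j := Nat.pow_right_injective hp.1.1.two_le h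
    rw [h3]
  have h := order_sum (((PP Y) ×ˢ (Icc 1 J)).image (fun w : ℕ × ℕ => w.1 ^ w.2)) ?_ T hT
  · rw [Finset.sum_image hinj, Finset.sum_image hinj, Finset.sum_product, Finset.sum_product] at h
    have e : ∀ p ∈ PP Y, ∀ j ∈ Icc 1 J, vonMangoldt (p ^ j) = Real.log p := by
      intro p hp j hj
      rw [mem_Icc] at hj
      rw [vonMangoldt_apply_pow (by omega), vonMangoldt_apply_prime (mem_PP.mp hp).1]
    have e1 : ∑ p ∈ PP Y, ∑ j ∈ Icc 1 J, vonMangoldt (p ^ j) / (orderOf (2 : ZMod (p ^ j)) : ℝ) =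
        ∑ p ∈ PP Y, ∑ j ∈ Icc 1 J, Real.log p / (orderOf (2 : ZMod (p ^ j)) : ℝ) :=
      Finset.sum_congr rfl fun p hp => Finset.sum_congr rfl fun j hj => by rw [e p hp j hj]
    have e2 : ∑ p ∈ PP Y, ∑ j ∈ Icc 1 J, vonMangoldt (p ^ j) = J * ∑ p ∈ PP Y, Real.log p := by
      rw [Finset.mul_sum]
      apply Finset.sum_congr rfl
      intro p hp
      rw [Finset.sum_congr rfl (e p hp)]
      simp
    simp only at h
    rw [e1, e2] at h
    have hTR : (0 : ℝ) < T := by exact_mod_cast hT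
    have h2 : ((J : ℝ) * ∑ p ∈ PP Y, Real.log p) / (T : ℝ) ≤ J * (2 * Y) / T := by
      apply div_le_div_of_nonneg_right _ hTR.le
      exact mul_le_mul_of_nonneg_left (sum_log_PP_le Y) (by positivity)
    linarith
  · intro q hq
    rw [mem_image] at hq
    obtain ⟨⟨p, j⟩, hpj, rfl⟩ := hq
    rw [mem_product, mem_Icc] at hpj
    have hodd := PP_odd hpj.1
    have hp := mem_PP.mp hpj.1
    refine ⟨?_, ?_⟩
    · simp only at hodd
      simp [Nat.pow_mod, hodd]
    · exact Nat.one_lt_pow (by omega) (by omega)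

lemma Nv_pos (t : ℕ × ℕ) : 0 < Nv t := by unfold Nv; positivity

lemma Nv_le {A : ℕ} {t : ℕ × ℕ} (ht : t ∈ Bx A) : Nv t ≤ 2 ^ (A + 2) := by
  simp only [Bx, mem_product, mem_range] at ht
  have h1 : 2 ^ t.1 ≤ 2 ^ A := Nat.pow_le_pow_right (by norm_num) (by omega)
  have h2 : 2 ^ t.2 ≤ 2 ^ A := Nat.pow_le_pow_right (by norm_num) (by omega)
  have h3 : 0 < 2 ^ A := by positivity
  unfold Nv
  rw [pow_add]
  omega

lemma card_filter_Bx (A q : ℕ) : ((Bx A).filter (fun t => q ∣ Nv t)).card = (Fset A q).card := rfl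

/-- The valuation summed over the box. -/
lemma sum_val {A p : ℕ} (hp : p.Prime) :
    ∑ t ∈ Bx A, ((Nv t).factorization p : ℝ) = ∑ j ∈ Icc 1 (A + 2), ((Fset A (p ^ j)).card : ℝ) := by
  classical
  have h1 : ∀ t ∈ Bx A, ((Nv t).factorization p : ℝ) =
      ∑ j ∈ Icc 1 (A + 2), if p ^ j ∣ Nv t then (1 : ℝ) else 0 := by
    intro t ht
    rw [← Finset.sum_filter, Finset.sum_const, nsmul_eq_mul, mul_one]
    congr 1
    have hle : (Nv t).factorization p ≤ A + 2 := by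
      have h2 : p ^ (Nv t).factorization p ∣ Nv t := Nat.ordProj_dvd _ _
      have h3 := (Nat.le_of_dvd (Nv_pos t) h2).trans (Nv_le ht)
      have h4 : 2 ^ (Nv t).factorization p ≤ 2 ^ (A + 2) :=
        (Nat.pow_le_pow_left hp.two_le _).trans h3
      exact (Nat.pow_le_pow_iff_right (by norm_num)).mp h4
    have h5 : (Icc 1 (A + 2)).filter (fun j => p ^ j ∣ Nv t) = Icc 1 ((Nv t).factorization p) := by
      ext j
      simp only [mem_filter, mem_Icc]
      rw [hp.pow_dvd_iff_le_factorization (Nv_pos t).ne']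
      omega
    rw [h5]
    simp
  rw [Finset.sum_congr rfl h1, Finset.sum_comm]
  apply Finset.sum_congr rfl
  intro j _
  rw [← Finset.sum_filter, Finset.sum_const, nsmul_eq_mul, mul_one, card_filter_Bx]

/-- Prime powers with a large exponent. -/
lemma card_Fset_pow_le {A p j : ℕ} (hp : p.Prime) (hp2 : p % 2 = 1) (hj : 5 ≤ j) :
    ((Fset A (p ^ j)).card : ℝ) ≤ 100 * (A : ℝ) ^ 2 * ((j : ℝ) ^ 2)⁻¹ + 4 := by
  have hL : 0 < (j - 2) / 2 := by omega
  have hodd : p ^ j % 2 = 1 := by simp [Nat.pow_mod, hp2]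
  have hqL : 2 ^ (2 * ((j - 2) / 2) + 2) ≤ p ^ j :=
    (Nat.pow_le_pow_right (by norm_num) (by omega)).trans (Nat.pow_le_pow_left hp.two_le j)
  have h := card_Fset_le_box (A := A) hodd hL hqL
  have h1 : ((Fset A (p ^ j)).card : ℝ) ≤ 2 * (((A / ((j - 2) / 2) : ℕ) : ℝ) + 1) ^ 2 := by
    exact_mod_cast h
  have hLj : (j : ℝ) / 5 ≤ (((j - 2) / 2 : ℕ) : ℝ) := by
    rw [div_le_iff₀ (by norm_num)]
    have : j ≤ ((j - 2) / 2) * 5 := by omega
    exact_mod_cast this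
  have hj0 : (0 : ℝ) < j := by exact_mod_cast (by omega : 0 < j)
  have h2 : ((A / ((j - 2) / 2) : ℕ) : ℝ) ≤ 5 * A / j := by
    refine Nat.cast_div_le.trans ?_
    have hL0 : (0 : ℝ) < (((j - 2) / 2 : ℕ) : ℝ) := by exact_mod_cast hL
    rw [div_le_div_iff₀ hL0 hj0]
    have hA : (0 : ℝ) ≤ A := Nat.cast_nonneg A
    nlinarith
  have h3 : (((A / ((j - 2) / 2) : ℕ) : ℝ) + 1) ^ 2 ≤ (5 * A / j + 1) ^ 2 := by
    gcongr
  have h4 : (5 * (A : ℝ) / j + 1) ^ 2 ≤ 2 * (25 * (A : ℝ) ^ 2 * ((j : ℝ) ^ 2)⁻¹) + 2 := by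
    have e : (5 * (A : ℝ) / j) ^ 2 = 25 * (A : ℝ) ^ 2 * ((j : ℝ) ^ 2)⁻¹ := by
      rw [div_pow]; ring
    nlinarith [sq_nonneg (5 * (A : ℝ) / j - 1)]
  linarith

/-- All prime powers. -/
lemma sum_card_pow_le {A p J : ℕ} (hp : p.Prime) (hp2 : p % 2 = 1) (hJ : 4 ≤ J) :
    ∑ j ∈ Icc 1 (A + 2), ((Fset A (p ^ j)).card : ℝ) ≤
      ((A : ℝ) + 1) ^ 2 * ∑ j ∈ Icc 1 J, 1 / (orderOf (2 : ZMod (p ^ j)) : ℝ) +
        (((A : ℝ) + 1) * J + (100 * (A : ℝ) ^ 2 / J + 4 * (A + 2))) := by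
  classical
  have hJ0 : (0 : ℝ) < J := by exact_mod_cast (by omega : 0 < J)
  have h1 : ∑ j ∈ Icc 1 (A + 2), ((Fset A (p ^ j)).card : ℝ) ≤
      ∑ j ∈ Icc 1 J, ((Fset A (p ^ j)).card : ℝ) + ∑ j ∈ Ioc J (A + 2), ((Fset A (p ^ j)).card : ℝ) := by
    rw [← Finset.sum_union]
    · apply Finset.sum_le_sum_of_subset_of_nonneg
      · intro j hj
        simp only [mem_union, mem_Icc, mem_Ioc] at hj ⊢
        omega
      · intro j _ _; positivity
    · rw [Finset.disjoint_left]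
      intro j hj hj'
      simp only [mem_Icc, mem_Ioc] at hj hj'
      omega
  have h2 : ∑ j ∈ Icc 1 J, ((Fset A (p ^ j)).card : ℝ) ≤
      ((A : ℝ) + 1) ^ 2 * ∑ j ∈ Icc 1 J, 1 / (orderOf (2 : ZMod (p ^ j)) : ℝ) + ((A : ℝ) + 1) * J := by
    calc ∑ j ∈ Icc 1 J, ((Fset A (p ^ j)).card : ℝ) ≤
        ∑ j ∈ Icc 1 J, (((A : ℝ) + 1) ^ 2 * (1 / (orderOf (2 : ZMod (p ^ j)) : ℝ)) + ((A : ℝ) + 1)) := by
          apply Finset.sum_le_sum
          intro j hj
          rw [mem_Icc] at hj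
          have hodd : p ^ j % 2 = 1 := by simp [Nat.pow_mod, hp2]
          have := card_Fset_le_row (A := A) hodd (Nat.one_lt_pow (by omega) hp.one_lt)
          refine this.trans (le_of_eq ?_)
          ring
      _ = _ := by
          rw [Finset.sum_add_distrib, ← Finset.mul_sum]
          simp
          ring
  have h3 : ∑ j ∈ Ioc J (A + 2), ((Fset A (p ^ j)).card : ℝ) ≤ 100 * (A : ℝ) ^ 2 / J + 4 * (A + 2) := by
    calc ∑ j ∈ Ioc J (A + 2), ((Fset A (p ^ j)).card : ℝ) ≤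
        ∑ j ∈ Ioc J (A + 2), (100 * (A : ℝ) ^ 2 * ((j : ℝ) ^ 2)⁻¹ + 4) := by
          apply Finset.sum_le_sum
          intro j hj
          rw [mem_Ioc] at hj
          exact card_Fset_pow_le hp hp2 (by omega)
      _ = 100 * (A : ℝ) ^ 2 * ∑ j ∈ Ioc J (A + 2), ((j : ℝ) ^ 2)⁻¹ + 4 * ((A + 2 - J : ℕ) : ℝ) := by
          rw [Finset.sum_add_distrib, ← Finset.mul_sum]
          simp
          ring
      _ ≤ 100 * (A : ℝ) ^ 2 * (J : ℝ)⁻¹ + 4 * ((A : ℝ) + 2) := by
          apply add_le_add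
          · apply mul_le_mul_of_nonneg_left _ (by positivity)
            rcases le_or_gt J (A + 2) with h | h
            · refine (sum_Ioc_inv_sq_le_sub (by omega) h).trans ?_
              have : (0 : ℝ) ≤ ((A + 2 : ℕ) : ℝ)⁻¹ := by positivity
              linarith
            · rw [Finset.Ioc_eq_empty (by omega), Finset.sum_empty]
              positivity
          · have : ((A + 2 - J : ℕ) : ℝ) ≤ ((A + 2 : ℕ) : ℝ) := by exact_mod_cast Nat.sub_le _ _
            push_cast at this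
            linarith
      _ = _ := by rw [div_eq_mul_inv]
  linarith

/-- First moment, squarefree part. -/
theorem E1_le (A Y T : ℕ) (hT : 0 < T) :
    ∑ t ∈ Bx A, ∑ p ∈ (PP Y).filter (fun p => p ∣ Nv t), Real.log p ≤
      ((A : ℝ) + 1) ^ 2 * (T * Real.log 2 + 2 * Y / T) + ((A : ℝ) + 1) * (2 * Y) := by
  classical
  have h1 : ∑ t ∈ Bx A, ∑ p ∈ (PP Y).filter (fun p => p ∣ Nv t), Real.log p =
      ∑ p ∈ PP Y, Real.log p * ((Fset A p).card : ℝ) := by
    simp_rw [Finset.sum_filter]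
    rw [Finset.sum_comm]
    apply Finset.sum_congr rfl
    intro p _
    rw [← Finset.sum_filter, Finset.sum_const, nsmul_eq_mul, card_filter_Bx, mul_comm]
  rw [h1]
  calc ∑ p ∈ PP Y, Real.log p * ((Fset A p).card : ℝ)
      ≤ ∑ p ∈ PP Y, (((A : ℝ) + 1) ^ 2 * (Real.log p / (orderOf (2 : ZMod p) : ℝ)) +
          ((A : ℝ) + 1) * Real.log p) := by
        apply Finset.sum_le_sum
        intro p hp
        have hlog : 0 ≤ Real.log p := Real.log_natCast_nonneg p
        have h2 := card_Fset_le_row (A := A) (PP_odd hp) (by rw [mem_PP] at hp; omega)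
        calc Real.log p * ((Fset A p).card : ℝ) ≤ Real.log p *
            (((A : ℝ) + 1) * (((A : ℝ) + 1) / (orderOf (2 : ZMod p) : ℝ) + 1)) := by gcongr
          _ = _ := by ring
    _ = ((A : ℝ) + 1) ^ 2 * ∑ p ∈ PP Y, (Real.log p / (orderOf (2 : ZMod p) : ℝ)) +
          ((A : ℝ) + 1) * ∑ p ∈ PP Y, Real.log p := by
        rw [Finset.sum_add_distrib, Finset.mul_sum, Finset.mul_sum]
    _ ≤ _ := by
        have := order_sum_primes Y T hT
        have h3 := sum_log_PP_le Y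
        gcongr

/-- First moment, full part. -/
theorem E2_le (A Y T J : ℕ) (hT : 0 < T) (hJ : 4 ≤ J) :
    ∑ t ∈ Bx A, ∑ p ∈ PP Y, ((Nv t).factorization p : ℝ) * Real.log p ≤
      ((A : ℝ) + 1) ^ 2 * (T * Real.log 2 + J * (2 * Y) / T) +
        2 * Y * (((A : ℝ) + 1) * J + (100 * (A : ℝ) ^ 2 / J + 4 * (A + 2))) := by
  classical
  have h1 : ∑ t ∈ Bx A, ∑ p ∈ PP Y, ((Nv t).factorization p : ℝ) * Real.log p =
      ∑ p ∈ PP Y, Real.log p * ∑ j ∈ Icc 1 (A + 2), ((Fset A (p ^ j)).card : ℝ) := by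
    rw [Finset.sum_comm]
    apply Finset.sum_congr rfl
    intro p hp
    rw [← Finset.sum_mul, sum_val (mem_PP.mp hp).1, mul_comm]
  rw [h1]
  calc ∑ p ∈ PP Y, Real.log p * ∑ j ∈ Icc 1 (A + 2), ((Fset A (p ^ j)).card : ℝ)
      ≤ ∑ p ∈ PP Y, (((A : ℝ) + 1) ^ 2 * ∑ j ∈ Icc 1 J, Real.log p / (orderOf (2 : ZMod (p ^ j)) : ℝ)
          + Real.log p * (((A : ℝ) + 1) * J + (100 * (A : ℝ) ^ 2 / J + 4 * (A + 2)))) := by
        apply Finset.sum_le_sum
        intro p hp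
        have hlog : 0 ≤ Real.log p := Real.log_natCast_nonneg p
        have h2 := sum_card_pow_le (A := A) (mem_PP.mp hp).1 (PP_odd hp) hJ
        have h3 := mul_le_mul_of_nonneg_left h2 hlog
        refine h3.trans (le_of_eq ?_)
        have e : ∑ j ∈ Icc 1 J, Real.log p / (orderOf (2 : ZMod (p ^ j)) : ℝ) =
            Real.log p * ∑ j ∈ Icc 1 J, 1 / (orderOf (2 : ZMod (p ^ j)) : ℝ) := by
          rw [Finset.mul_sum]
          apply Finset.sum_congr rfl
          intro j _; ring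
        rw [e]; ring
    _ = ((A : ℝ) + 1) ^ 2 * ∑ p ∈ PP Y, ∑ j ∈ Icc 1 J, Real.log p / (orderOf (2 : ZMod (p ^ j)) : ℝ)
          + (∑ p ∈ PP Y, Real.log p) * (((A : ℝ) + 1) * J + (100 * (A : ℝ) ^ 2 / J + 4 * (A + 2))) := by
        rw [Finset.sum_add_distrib, Finset.mul_sum, Finset.sum_mul]
    _ ≤ _ := by
        have h2 := order_sum_pow Y J T hT
        have h3 := sum_log_PP_le Y
        gcongr

end Pool.Agent.Lib.MP1e1427
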