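import Mathlib
import Pool.Agent.Lib.MP_1e1427_nt.Smooth2
import Pool.Agent.Lib.MP_1e1427_nt.Final2

/-!
Final assembly: the smooth part of `N` is negligible for at least `n^(1-ε)` values.
-/

namespace Pool.Agent.Lib.MP1e1427

open Finset ArithmeticFunction

/-- The engine with the coprimality property. -/
lemma exists_P (ε : ℝ) (hε : 0 < ε) :
    ∃ δ : ℝ, 0 < δ ∧ ∃ n₀ : ℕ, ∀ n : ℕ, n₀ ≤ n → Odd n → ∀ W : ℕ, 0 < W →
      (W : ℝ) ≤ (n : ℝ) ^ δ →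
      ∃ P : Finset (ℕ × ℕ), (n : ℝ) ^ (1 - ε) ≤ P.card ∧ ∀ p ∈ P,
        p.1 % 2 = 1 ∧ p.2 % 2 = 0 ∧ Nat.Coprime (Nv p) (2 * (2 ^ W - 1)) ∧
        ∃ x y z w : ℕ, x ^ 2 + y ^ 2 + z ^ 2 + w ^ 2 = n ∧ x + y = p.1 ∧ z + w = p.2 := by
  obtain ⟨δ, hδ, n₀, heng⟩ := engine ε hε
  obtain ⟨n₁, hn₁⟩ := two_mul_le_rpow hδ
  refine ⟨δ / 2, by positivity, max n₀ n₁, ?_⟩
  intro n hn hodd W₀ hW₀ hW₀δ
  have hn0 : n₀ ≤ n := le_trans (le_max_left _ _) hn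
  have hn1 : n₁ ≤ n := le_trans (le_max_right _ _) hn
  obtain ⟨W, hWdef⟩ : ∃ W, W = 2 * W₀ := ⟨_, rfl⟩
  have hW : 0 < W := by omega
  have hW2 : W % 2 = 0 := by omega
  have hWδ : (W : ℝ) ≤ (n : ℝ) ^ δ := by rw [hWdef]; exact hn₁ n hn1 W₀ hW₀δ
  obtain ⟨ν, W₁, hW₁, hWν⟩ : ∃ ν W₁ : ℕ, W₁ % 2 = 1 ∧ W = 2 ^ ν * W₁ := by
    obtain ⟨ν, W₁, h1, h2⟩ := Nat.exists_eq_two_pow_mul_odd hW.ne'
    exact ⟨ν, W₁, Nat.odd_iff.mp h1, h2⟩
  obtain ⟨α, hα1, hα2, hres⟩ := exists_residue n W ν W₁ (Nat.odd_iff.mp hodd) hW hW2 hWν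
  obtain ⟨P, hPcard, hP⟩ := heng n hn0 W hW hW2 hWδ α 0 hα2 rfl hres
  refine ⟨P, hPcard, ?_⟩
  intro p hp
  obtain ⟨h1, h2, ha0, hb0, ha, hb, x, x', z, z', hq, hxa, hzb⟩ := hP p hp
  refine ⟨ha, hb, ?_, x, x', z, z', hq, hxa, hzb⟩
  have hνW : 2 ^ ν ∣ W := ⟨W₁, hWν⟩
  by_contra hc
  obtain ⟨q, hqp, hqN, hqd⟩ := Nat.Prime.not_coprime_iff_dvd.mp hc
  unfold Nv at hqN
  rcases hqp.dvd_mul.mp hqd with h | h
  · have hq2 : q = 2 := (Nat.prime_dvd_prime_iff_eq hqp Nat.prime_two).mp h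
    subst hq2
    have e1 : 2 ∣ 2 ^ p.1 := dvd_pow_self 2 ha0.ne'
    have e2 : 2 ∣ 2 ^ p.2 := dvd_pow_self 2 hb0.ne'
    omega
  · have hqW : q ∣ 2 ^ W - 1 :=
      h.trans (Nat.pow_sub_one_dvd_pow_sub_one 2 (by rw [hWdef]; exact dvd_mul_left _ _))
    exact not_dvd_of_residue hW hWν hW₁ ha0 ((h1.of_dvd hνW).trans hα1) h2 hqp hqW hqN

/-- Logarithm of the squarefree odd part from primes up to `Y`. -/
noncomputable def S1 (Y N : ℕ) : ℝ := ∑ p ∈ (PP Y).filter (fun p => p ∣ N), Real.log p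

/-- Logarithm of the odd part from primes up to `Y`. -/
noncomputable def S2 (Y N : ℕ) : ℝ := ∑ p ∈ PP Y, (N.factorization p : ℝ) * Real.log p

lemma S1_nonneg (Y N : ℕ) : 0 ≤ S1 Y N := Finset.sum_nonneg fun p _ => Real.log_natCast_nonneg p

lemma S2_nonneg (Y N : ℕ) : 0 ≤ S2 Y N :=
  Finset.sum_nonneg fun p _ => mul_nonneg (Nat.cast_nonneg _) (Real.log_natCast_nonneg p)

/-- Markov. -/
lemma card_filter_mul_le {ι : Type*} (B : Finset ι) (f : ι → ℝ) (hf : ∀ t ∈ B, 0 ≤ f t) (V : ℝ)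
    (E : ℝ) (hE : ∑ t ∈ B, f t ≤ E) :
    ((B.filter (fun t => V < f t)).card : ℝ) * V ≤ E := by
  classical
  calc ((B.filter (fun t => V < f t)).card : ℝ) * V = ∑ t ∈ B.filter (fun t => V < f t), V := by
        rw [Finset.sum_const, nsmul_eq_mul]
    _ ≤ ∑ t ∈ B.filter (fun t => V < f t), f t := by
        apply Finset.sum_le_sum
        intro t ht
        rw [mem_filter] at ht
        exact ht.2.le
    _ ≤ ∑ t ∈ B, f t := by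
        apply Finset.sum_le_sum_of_subset_of_nonneg (Finset.filter_subset _ _)
        intro t ht _
        exact hf t ht
    _ ≤ E := hE

lemma factorization_two_le (t : ℕ × ℕ) : (Nv t).factorization 2 ≤ 2 := by
  by_contra h
  push Not at h
  have h1 : 2 ^ 3 ∣ Nv t := (Nat.prime_two.pow_dvd_iff_le_factorization (Nv_pos t).ne').mpr h
  unfold Nv at h1
  norm_num at h1
  have key : ∀ a : ℕ, 2 ^ a % 8 = 1 ∧ a = 0 ∨ 2 ^ a % 8 = 2 ∨ 2 ^ a % 8 = 4 ∨ 2 ^ a % 8 = 0 := by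
    intro a
    rcases a with _ | _ | _ | a
    · left; simp
    · right; left; norm_num
    · right; right; left; norm_num
    · right; right; right
      have : 2 ^ (a + 3) = 8 * 2 ^ a := by rw [pow_add]; ring
      omega
  have k1 := key t.1
  have k2 := key t.2
  omega

lemma primeFactors_subset (N : ℕ) (y : ℝ) :
    N.primeFactors.filter (fun p : ℕ => (p : ℝ) ≤ y) ⊆ insert 2 ((PP ⌊y⌋₊).filter (fun p => p ∣ N)) := by
  intro p hp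
  rw [mem_filter, Nat.mem_primeFactors] at hp
  obtain ⟨⟨hp1, hp2, -⟩, hp3⟩ := hp
  rw [mem_insert]
  by_cases h2 : p = 2
  · exact Or.inl h2
  · right
    rw [mem_filter, mem_PP]
    have := hp1.two_le
    exact ⟨⟨hp1, by omega, Nat.le_floor hp3⟩, hp2⟩

lemma prod_sq_le {N : ℕ} {y V : ℝ} (hV : S1 ⌊y⌋₊ N ≤ V) :
    ∏ p ∈ N.primeFactors.filter (fun p : ℕ => (p : ℝ) ≤ y), (p : ℝ) ≤ Real.exp (V + 2) := by
  classical
  have hpos : ∀ p ∈ N.primeFactors.filter (fun p : ℕ => (p : ℝ) ≤ y), (0 : ℝ) < p := by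
    intro p hp
    rw [mem_filter, Nat.mem_primeFactors] at hp
    exact_mod_cast hp.1.1.pos
  rw [← Real.log_le_iff_le_exp (Finset.prod_pos hpos), Real.log_prod (fun p hp => (hpos p hp).ne')]
  calc ∑ p ∈ N.primeFactors.filter (fun p : ℕ => (p : ℝ) ≤ y), Real.log p
      ≤ ∑ p ∈ insert 2 ((PP ⌊y⌋₊).filter (fun p => p ∣ N)), Real.log p := by
        apply Finset.sum_le_sum_of_subset_of_nonneg (primeFactors_subset N y)
        intro p _ _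
        exact Real.log_natCast_nonneg p
    _ = Real.log (2 : ℕ) + S1 ⌊y⌋₊ N := by
        rw [Finset.sum_insert]
        · rfl
        · rw [mem_filter, mem_PP]; rintro ⟨⟨-, h, -⟩, -⟩; omega
    _ ≤ V + 2 := by
        have := Real.log_two_lt_d9
        push_cast
        linarith

lemma prod_pow_le {t : ℕ × ℕ} {y V : ℝ} (hV : S2 ⌊y⌋₊ (Nv t) ≤ V) :
    ∏ p ∈ (Nv t).primeFactors.filter (fun p : ℕ => (p : ℝ) ≤ y), (p : ℝ) ^ ((Nv t).factorization p) ≤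
      Real.exp (V + 2) := by
  classical
  have hpos : ∀ p ∈ (Nv t).primeFactors.filter (fun p : ℕ => (p : ℝ) ≤ y),
      (0 : ℝ) < (p : ℝ) ^ ((Nv t).factorization p) := by
    intro p hp
    rw [mem_filter, Nat.mem_primeFactors] at hp
    have : (0 : ℝ) < p := by exact_mod_cast hp.1.1.pos
    positivity
  rw [← Real.log_le_iff_le_exp (Finset.prod_pos hpos), Real.log_prod (fun p hp => (hpos p hp).ne')]
  have e : ∀ p ∈ (Nv t).primeFactors.filter (fun p : ℕ => (p : ℝ) ≤ y),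
      Real.log ((p : ℝ) ^ ((Nv t).factorization p)) = ((Nv t).factorization p : ℝ) * Real.log p := by
    intro p _
    rw [Real.log_pow]
  rw [Finset.sum_congr rfl e]
  calc ∑ p ∈ (Nv t).primeFactors.filter (fun p : ℕ => (p : ℝ) ≤ y),
        ((Nv t).factorization p : ℝ) * Real.log p
      ≤ ∑ p ∈ insert 2 (PP ⌊y⌋₊), ((Nv t).factorization p : ℝ) * Real.log p := by
        apply Finset.sum_le_sum_of_subset_of_nonneg
        · refine (primeFactors_subset (Nv t) y).trans ?_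
          apply Finset.insert_subset_insert
          exact Finset.filter_subset _ _
        · intro p _ _
          exact mul_nonneg (Nat.cast_nonneg _) (Real.log_natCast_nonneg p)
    _ = ((Nv t).factorization 2 : ℝ) * Real.log (2 : ℕ) + S2 ⌊y⌋₊ (Nv t) := by
        rw [Finset.sum_insert]
        · rfl
        · rw [mem_PP]; omega
    _ ≤ V + 2 := by
        have h1 := Real.log_two_lt_d9
        have h2 := Real.log_two_gt_d9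
        have h3 : ((Nv t).factorization 2 : ℝ) ≤ 2 := by exact_mod_cast factorization_two_le t
        push_cast
        nlinarith

/-- Size of `N`. -/
lemma exp_le_N {n x y z w : ℕ} (h : x ^ 2 + y ^ 2 + z ^ 2 + w ^ 2 = n) :
    Real.exp (Real.sqrt n / 3) ≤ ((2 ^ (x + y) + 2 ^ (z + w) + 1 : ℕ) : ℝ) := by
  have hlog := Real.log_two_gt_d9
  have key : ∀ a : ℕ, n ≤ 2 * a ^ 2 → Real.exp (Real.sqrt n / 3) ≤ (2 : ℝ) ^ a := by
    intro a ha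
    have h1 : Real.sqrt n ≤ 3 / 2 * a := by
      rw [Real.sqrt_le_left (by positivity)]
      have : (n : ℝ) ≤ 2 * (a : ℝ) ^ 2 := by exact_mod_cast ha
      nlinarith [sq_nonneg (a : ℝ)]
    have h2 : (2 : ℝ) ^ a = Real.exp (Real.log 2 * a) := by
      rw [Real.exp_mul, Real.exp_log (by norm_num), Real.rpow_natCast]
    rw [h2, Real.exp_le_exp]
    have : (0 : ℝ) ≤ a := Nat.cast_nonneg a
    nlinarith
  have hab : n ≤ (x + y) ^ 2 + (z + w) ^ 2 := by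
    rw [← h]
    nlinarith [Nat.zero_le (x * y), Nat.zero_le (z * w)]
  push_cast
  rcases Nat.le_total ((x + y) ^ 2) ((z + w) ^ 2) with hc | hc
  · have := key (z + w) (by omega)
    have h3 : (0 : ℝ) ≤ 2 ^ (x + y) := by positivity
    linarith
  · have := key (x + y) (by omega)
    have h3 : (0 : ℝ) ≤ 2 ^ (z + w) := by positivity
    linarith

/-- The numerical estimates. -/
lemma bounds {ε X : ℝ} (hε : 0 < ε) (hε1 : ε ≤ 1 / 4) (hX : 1 ≤ X) (hbig : 8000 ≤ X ^ (ε / 4))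
    {A : ℕ} (hA : ((A : ℝ) + 1) ≤ 3 * Real.sqrt X) :
    ∃ c₁ c₂ : ℕ, (c₁ : ℝ) + c₂ ≤ 1 / 2 * X ^ (1 - ε / 8) ∧
      ((Bx A).filter (fun t => 1 / 2 * X ^ (1 / 2 - ε / 8) < S1 ⌊X ^ (1 - ε)⌋₊ (Nv t))).card = c₁ ∧
      ((Bx A).filter (fun t => 1 / 2 * X ^ (1 / 2 - ε / 8) < S2 ⌊X ^ (3 / 4 - ε)⌋₊ (Nv t))).card = c₂ := by
  refine ⟨_, _, ?_, rfl, rfl⟩
  have hX0 : 0 < X := by linarith
  have hA0 : (0 : ℝ) ≤ A := Nat.cast_nonneg A
  obtain ⟨V, hV⟩ : ∃ V, V = 1 / 2 * X ^ (1 / 2 - ε / 8) := ⟨_, rfl⟩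
  have hVpos : 0 < V := by rw [hV]; positivity
  -- parameters
  obtain ⟨T, hT⟩ : ∃ T, T = ⌈X ^ (1 / 2 - ε / 2)⌉₊ := ⟨_, rfl⟩
  obtain ⟨J, hJ⟩ : ∃ J, J = ⌈X ^ (1 / 4 : ℝ)⌉₊ := ⟨_, rfl⟩
  have hτ1 : (1 : ℝ) ≤ X ^ (1 / 2 - ε / 2) := Real.one_le_rpow hX (by linarith)
  have hτ2 : (1 : ℝ) ≤ X ^ (1 / 4 : ℝ) := Real.one_le_rpow hX (by norm_num)
  have hTge : X ^ (1 / 2 - ε / 2) ≤ T := by rw [hT]; exact Nat.le_ceil _
  have hTle : (T : ℝ) ≤ 2 * X ^ (1 / 2 - ε / 2) := by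
    have := (Nat.ceil_lt_add_one (by linarith : (0 : ℝ) ≤ X ^ (1 / 2 - ε / 2))).le
    rw [hT]; linarith
  have hJge : X ^ (1 / 4 : ℝ) ≤ J := by rw [hJ]; exact Nat.le_ceil _
  have hJle : (J : ℝ) ≤ 2 * X ^ (1 / 4 : ℝ) := by
    have := (Nat.ceil_lt_add_one (by linarith : (0 : ℝ) ≤ X ^ (1 / 4 : ℝ))).le
    rw [hJ]; linarith
  have hT0 : 0 < T := by
    have : (0 : ℝ) < T := by linarith
    exact_mod_cast this
  have hJ4 : 4 ≤ J := by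
    have h1 : X ^ (ε / 4) ≤ X ^ (1 / 4 : ℝ) :=
      Real.rpow_le_rpow_of_exponent_le hX (by linarith)
    have : (4 : ℝ) ≤ J := by linarith
    exact_mod_cast this
  have hTR : (0 : ℝ) < T := by exact_mod_cast hT0
  have hJR : (0 : ℝ) < J := by exact_mod_cast (by omega : 0 < J)
  have hY1 : ((⌊X ^ (1 - ε)⌋₊ : ℕ) : ℝ) ≤ X ^ (1 - ε) := Nat.floor_le (by positivity)
  have hY2 : ((⌊X ^ (3 / 4 - ε)⌋₊ : ℕ) : ℝ) ≤ X ^ (3 / 4 - ε) := Nat.floor_le (by positivity)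
  have hs : Real.sqrt X = X ^ (1 / 2 : ℝ) := Real.sqrt_eq_rpow X
  have hA2 : ((A : ℝ) + 1) ^ 2 ≤ 9 * X := by
    calc ((A : ℝ) + 1) ^ 2 ≤ (3 * Real.sqrt X) ^ 2 := by gcongr
      _ = 9 * X := by rw [mul_pow, Real.sq_sqrt hX0.le]; norm_num
  have hlog2 : Real.log 2 ≤ 1 := by have := Real.log_two_lt_d9; linarith
  have hlog20 : 0 ≤ Real.log 2 := by have := Real.log_two_gt_d9; linarith
  -- powers
  have pm : ∀ a b : ℝ, X ^ a * X ^ b = X ^ (a + b) := fun a b => (Real.rpow_add hX0 a b).symm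
  have mono : ∀ a b : ℝ, a ≤ b → X ^ a ≤ X ^ b := fun a b h => Real.rpow_le_rpow_of_exponent_le hX h
  have hXX : X = X ^ (1 : ℝ) := (Real.rpow_one X).symm
  have main1 : ∑ t ∈ Bx A, S1 ⌊X ^ (1 - ε)⌋₊ (Nv t) ≤ 42 * X ^ (3 / 2 - ε / 2) := by
    refine (E1_le A ⌊X ^ (1 - ε)⌋₊ T hT0).trans ?_
    have h1 : 2 * ((⌊X ^ (1 - ε)⌋₊ : ℕ) : ℝ) / T ≤ 2 * X ^ (1 / 2 - ε / 2) := by
      rw [div_le_iff₀ hTR]
      have e : X ^ (1 - ε) = X ^ (1 / 2 - ε / 2) * X ^ (1 / 2 - ε / 2) := by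
        rw [pm]; congr 1; ring
      calc 2 * ((⌊X ^ (1 - ε)⌋₊ : ℕ) : ℝ) ≤ 2 * X ^ (1 - ε) := by linarith
        _ = 2 * X ^ (1 / 2 - ε / 2) * X ^ (1 / 2 - ε / 2) := by rw [e]; ring
        _ ≤ 2 * X ^ (1 / 2 - ε / 2) * T := by gcongr
    have h2 : (T : ℝ) * Real.log 2 ≤ 2 * X ^ (1 / 2 - ε / 2) := by
      calc (T : ℝ) * Real.log 2 ≤ T * 1 := by gcongr
        _ ≤ _ := by linarith
    have h3 : ((A : ℝ) + 1) ^ 2 * (T * Real.log 2 + 2 * ((⌊X ^ (1 - ε)⌋₊ : ℕ) : ℝ) / T) ≤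
        9 * X * (4 * X ^ (1 / 2 - ε / 2)) := by
      apply mul_le_mul hA2 (by linarith) (by positivity) (by positivity)
    have h4 : 9 * X * (4 * X ^ (1 / 2 - ε / 2)) = 36 * X ^ (3 / 2 - ε / 2) := by
      have : X * X ^ (1 / 2 - ε / 2) = X ^ (3 / 2 - ε / 2) := by
        nth_rewrite 1 [hXX]
        rw [pm]; congr 1; ring
      rw [← this]; ring
    have h5 : ((A : ℝ) + 1) * (2 * ((⌊X ^ (1 - ε)⌋₊ : ℕ) : ℝ)) ≤ 6 * X ^ (3 / 2 - ε / 2) := by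
      calc ((A : ℝ) + 1) * (2 * ((⌊X ^ (1 - ε)⌋₊ : ℕ) : ℝ)) ≤ (3 * X ^ (1 / 2 : ℝ)) * (2 * X ^ (1 - ε)) := by
            rw [← hs]
            apply mul_le_mul hA (by linarith) (by positivity) (by positivity)
        _ = 6 * X ^ (1 / 2 + (1 - ε)) := by rw [← pm]; ring
        _ ≤ 6 * X ^ (3 / 2 - ε / 2) := by
            have := mono (1 / 2 + (1 - ε)) (3 / 2 - ε / 2) (by linarith)
            linarith
    linarith
  have main2 : ∑ t ∈ Bx A, S2 ⌊X ^ (3 / 4 - ε)⌋₊ (Nv t) ≤ 1914 * X ^ (3 / 2 - ε / 2) := by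
    refine (E2_le A ⌊X ^ (3 / 4 - ε)⌋₊ T J hT0 hJ4).trans ?_
    have h1 : (J : ℝ) * (2 * ((⌊X ^ (3 / 4 - ε)⌋₊ : ℕ) : ℝ)) / T ≤ 4 * X ^ (1 / 2 - ε / 2) := by
      rw [div_le_iff₀ hTR]
      have e : X ^ (1 / 4 : ℝ) * X ^ (3 / 4 - ε) = X ^ (1 / 2 - ε / 2) * X ^ (1 / 2 - ε / 2) := by
        rw [pm, pm]; congr 1; ring
      calc (J : ℝ) * (2 * ((⌊X ^ (3 / 4 - ε)⌋₊ : ℕ) : ℝ)) ≤ (2 * X ^ (1 / 4 : ℝ)) * (2 * X ^ (3 / 4 - ε)) := by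
            gcongr
        _ = 4 * (X ^ (1 / 4 : ℝ) * X ^ (3 / 4 - ε)) := by ring
        _ = 4 * X ^ (1 / 2 - ε / 2) * X ^ (1 / 2 - ε / 2) := by rw [e]; ring
        _ ≤ 4 * X ^ (1 / 2 - ε / 2) * T := by gcongr
    have h2 : (T : ℝ) * Real.log 2 ≤ 2 * X ^ (1 / 2 - ε / 2) := by
      calc (T : ℝ) * Real.log 2 ≤ T * 1 := by gcongr
        _ ≤ _ := by linarith
    have h3 : ((A : ℝ) + 1) ^ 2 * (T * Real.log 2 + (J : ℝ) * (2 * ((⌊X ^ (3 / 4 - ε)⌋₊ : ℕ) : ℝ)) / T) ≤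
        9 * X * (6 * X ^ (1 / 2 - ε / 2)) := by
      apply mul_le_mul hA2 (by linarith) (by positivity) (by positivity)
    have h4 : 9 * X * (6 * X ^ (1 / 2 - ε / 2)) = 54 * X ^ (3 / 2 - ε / 2) := by
      have : X * X ^ (1 / 2 - ε / 2) = X ^ (3 / 2 - ε / 2) := by
        nth_rewrite 1 [hXX]
        rw [pm]; congr 1; ring
      rw [← this]; ring
    have h5 : ((A : ℝ) + 1) * J ≤ 6 * X ^ (3 / 4 : ℝ) := by
      calc ((A : ℝ) + 1) * J ≤ (3 * X ^ (1 / 2 : ℝ)) * (2 * X ^ (1 / 4 : ℝ)) := by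
            rw [← hs]
            apply mul_le_mul hA hJle (by positivity) (by positivity)
        _ = 6 * (X ^ (1 / 2 : ℝ) * X ^ (1 / 4 : ℝ)) := by ring
        _ = 6 * X ^ (3 / 4 : ℝ) := by rw [pm]; norm_num
    have h6 : 100 * (A : ℝ) ^ 2 / J ≤ 900 * X ^ (3 / 4 : ℝ) := by
      rw [div_le_iff₀ hJR]
      have e : X = X ^ (3 / 4 : ℝ) * X ^ (1 / 4 : ℝ) := by
        rw [pm]; norm_num
      calc 100 * (A : ℝ) ^ 2 ≤ 100 * ((A : ℝ) + 1) ^ 2 := by gcongr; linarith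
        _ ≤ 900 * X := by linarith
        _ = 900 * X ^ (3 / 4 : ℝ) * X ^ (1 / 4 : ℝ) := by
            nth_rewrite 1 [e]; ring
        _ ≤ 900 * X ^ (3 / 4 : ℝ) * J := by gcongr
    have h7 : 4 * ((A : ℝ) + 2) ≤ 24 * X ^ (3 / 4 : ℝ) := by
      have h8 := mono (1 / 2) (3 / 4) (by norm_num)
      rw [hs] at hA
      linarith
    have h8 : 2 * ((⌊X ^ (3 / 4 - ε)⌋₊ : ℕ) : ℝ) * (((A : ℝ) + 1) * J + (100 * (A : ℝ) ^ 2 / J + 4 * (A + 2))) ≤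
        (2 * X ^ (3 / 4 - ε)) * (930 * X ^ (3 / 4 : ℝ)) := by
      apply mul_le_mul (by linarith) (by linarith) (by positivity) (by positivity)
    have h9 : (2 * X ^ (3 / 4 - ε)) * (930 * X ^ (3 / 4 : ℝ)) ≤ 1860 * X ^ (3 / 2 - ε / 2) := by
      calc (2 * X ^ (3 / 4 - ε)) * (930 * X ^ (3 / 4 : ℝ)) = 1860 * (X ^ (3 / 4 - ε) * X ^ (3 / 4 : ℝ)) := by ring
        _ = 1860 * X ^ (3 / 4 - ε + 3 / 4) := by rw [pm]
        _ ≤ _ := by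
            have := mono (3 / 4 - ε + 3 / 4) (3 / 2 - ε / 2) (by linarith)
            linarith
    linarith
  have m1 := card_filter_mul_le (Bx A) (fun t => S1 ⌊X ^ (1 - ε)⌋₊ (Nv t))
    (fun t _ => S1_nonneg _ _) V _ main1
  have m2 := card_filter_mul_le (Bx A) (fun t => S2 ⌊X ^ (3 / 4 - ε)⌋₊ (Nv t))
    (fun t _ => S2_nonneg _ _) V _ main2
  rw [← hV]
  have h1 : ((((Bx A).filter (fun t => V < S1 ⌊X ^ (1 - ε)⌋₊ (Nv t))).card : ℝ) +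
      ((Bx A).filter (fun t => V < S2 ⌊X ^ (3 / 4 - ε)⌋₊ (Nv t))).card) * V ≤
      1956 * X ^ (3 / 2 - ε / 2) := by
    linarith
  have h2 : 1956 * X ^ (3 / 2 - ε / 2) ≤ 1 / 2 * X ^ (1 - ε / 8) * V := by
    have e1 : X ^ (3 / 2 - ε / 2) * X ^ (ε / 4) = X ^ (1 - ε / 8) * X ^ (1 / 2 - ε / 8) := by
      rw [pm, pm]; congr 1; ring
    have e2 : 1 / 2 * X ^ (1 - ε / 8) * V = 1 / 4 * (X ^ (3 / 2 - ε / 2) * X ^ (ε / 4)) := by
      rw [e1, hV]; ring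
    rw [e2]
    have h3 : 0 < X ^ (3 / 2 - ε / 2) := by positivity
    nlinarith
  exact le_of_mul_le_mul_right (h1.trans h2) hVpos

/-- Main theorem: the smooth part of `N` is negligible. -/
theorem main_smooth (ε : ℝ) (hε : 0 < ε) (hε1 : ε ≤ 1 / 4) :
    ∃ δ : ℝ, 0 < δ ∧ ∃ n₀ : ℕ, ∀ n : ℕ, n₀ ≤ n → Odd n → ∀ W : ℕ, 0 < W →
      (W : ℝ) ≤ (n : ℝ) ^ δ →
      (n : ℝ) ^ (1 - ε) ≤
        (({N : ℕ | (∃ x y z w : ℕ, x ^ 2 + y ^ 2 + z ^ 2 + w ^ 2 = n ∧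
            N = 2 ^ (x + y) + 2 ^ (z + w) + 1) ∧
          Real.exp (Real.sqrt n / 3) ≤ N ∧
          Nat.Coprime N (2 * (2 ^ W - 1)) ∧
          ∏ p ∈ N.primeFactors.filter (fun p : ℕ => (p : ℝ) ≤ (n : ℝ) ^ (1 - ε)), (p : ℝ) ≤
            Real.exp ((n : ℝ) ^ (1 / 2 - δ)) ∧
          ∏ p ∈ N.primeFactors.filter (fun p : ℕ => (p : ℝ) ≤ (n : ℝ) ^ (3 / 4 - ε)),
            (p : ℝ) ^ (N.factorization p) ≤ Real.exp ((n : ℝ) ^ (1 / 2 - δ))} : Set ℕ).ncard : ℝ) := by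
  classical
  obtain ⟨δ₀, hδ₀, n₀, hP⟩ := exists_P (ε / 8) (by positivity)
  obtain ⟨n₁, hn₁⟩ := exists_nat_ge ((8000 : ℝ) ^ (4 / ε))
  refine ⟨min δ₀ (ε / 8), by positivity, max n₀ (max n₁ 1), ?_⟩
  intro n hn hodd W hW hWδ
  have hn0 : n₀ ≤ n := le_trans (le_max_left _ _) hn
  have hn1 : n₁ ≤ n := le_trans (le_trans (le_max_left _ _) (le_max_right _ _)) hn
  have hn2 : 1 ≤ n := le_trans (le_trans (le_max_right _ _) (le_max_right _ _)) hn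
  obtain ⟨X, hX⟩ : ∃ X : ℝ, X = (n : ℝ) := ⟨_, rfl⟩
  have hX1 : 1 ≤ X := by rw [hX]; exact_mod_cast hn2
  have hX0 : 0 < X := by linarith
  have hbig : 8000 ≤ X ^ (ε / 4) := by
    have h2 : (8000 : ℝ) ^ (4 / ε) ≤ X := by rw [hX]; exact hn₁.trans (by exact_mod_cast hn1)
    have h3 : ((8000 : ℝ) ^ (4 / ε)) ^ (ε / 4) ≤ X ^ (ε / 4) :=
      Real.rpow_le_rpow (by positivity) h2 (by positivity)
    rw [← Real.rpow_mul (by norm_num)] at h3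
    have h4 : 4 / ε * (ε / 4) = 1 := by field_simp
    rwa [h4, Real.rpow_one] at h3
  rw [← hX] at hWδ ⊢
  have hWδ' : (W : ℝ) ≤ (n : ℝ) ^ δ₀ := by
    rw [← hX]
    exact hWδ.trans (Real.rpow_le_rpow_of_exponent_le hX1 (min_le_left _ _))
  obtain ⟨P, hPcard, hPp⟩ := hP n hn0 hodd W hW hWδ'
  rw [← hX] at hPcard
  obtain ⟨A, hA⟩ : ∃ A, A = Nat.sqrt (2 * n) := ⟨_, rfl⟩
  have hA1 : (A : ℝ) + 1 ≤ 3 * Real.sqrt X := by
    have h1 : (A : ℝ) ^ 2 ≤ 2 * X := by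
      have : A ^ 2 ≤ 2 * n := by rw [hA]; exact Nat.sqrt_le' _
      rw [hX]; exact_mod_cast this
    have h2 : (1 : ℝ) ≤ Real.sqrt X := by
      rw [show (1 : ℝ) = Real.sqrt 1 by simp]; exact Real.sqrt_le_sqrt hX1
    have h3 : (A : ℝ) ≤ 2 * Real.sqrt X := by
      apply abs_le_of_sq_le_sq' _ (by positivity) |>.2
      rw [mul_pow, Real.sq_sqrt hX0.le]; linarith
    linarith
  obtain ⟨c₁, c₂, hc, hc₁, hc₂⟩ := bounds hε hε1 hX1 hbig hA1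
  obtain ⟨V, hV⟩ : ∃ V, V = 1 / 2 * X ^ (1 / 2 - ε / 8) := ⟨_, rfl⟩
  rw [← hV] at hc₁ hc₂
  -- good pairs
  set G := P.filter (fun t => S1 ⌊X ^ (1 - ε)⌋₊ (Nv t) ≤ V ∧ S2 ⌊X ^ (3 / 4 - ε)⌋₊ (Nv t) ≤ V) with hG
  have hPB : ∀ t ∈ P, t ∈ Bx A := by
    intro t ht
    obtain ⟨-, -, -, x, y, z, w, hs, h1, h2⟩ := hPp t ht
    simp only [Bx, mem_product, mem_range]
    have k1 : t.1 ≤ A := by
      rw [hA, Nat.le_sqrt']
      rw [← h1, ← hs]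
      nlinarith [sq_nonneg ((x : ℤ) - y), two_mul_le_add_sq x y, Nat.zero_le (z ^ 2), Nat.zero_le (w ^ 2)]
    have k2 : t.2 ≤ A := by
      rw [hA, Nat.le_sqrt']
      rw [← h2, ← hs]
      nlinarith [two_mul_le_add_sq z w, Nat.zero_le (x ^ 2), Nat.zero_le (y ^ 2)]
    omega
  have hcardP : P.card ≤ G.card + (c₁ + c₂) := by
    rw [← hc₁, ← hc₂]
    have hsub : P ⊆ G ∪ ((Bx A).filter (fun t => V < S1 ⌊X ^ (1 - ε)⌋₊ (Nv t)) ∪
        (Bx A).filter (fun t => V < S2 ⌊X ^ (3 / 4 - ε)⌋₊ (Nv t))) := by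
      intro t ht
      simp only [mem_union, mem_filter, hG]
      by_cases h1 : S1 ⌊X ^ (1 - ε)⌋₊ (Nv t) ≤ V
      · by_cases h2 : S2 ⌊X ^ (3 / 4 - ε)⌋₊ (Nv t) ≤ V
        · exact Or.inl ⟨ht, h1, h2⟩
        · exact Or.inr (Or.inr ⟨hPB t ht, not_le.mp h2⟩)
      · exact Or.inr (Or.inl ⟨hPB t ht, not_le.mp h1⟩)
    exact (Finset.card_le_card hsub).trans ((Finset.card_union_le _ _).trans
      (Nat.add_le_add_left (Finset.card_union_le _ _) _))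
  have hGcard : X ^ (1 - ε) ≤ G.card := by
    have h1 : (P.card : ℝ) ≤ G.card + (c₁ + c₂) := by exact_mod_cast hcardP
    have h2 : 1 / 2 * X ^ (1 - ε / 8) ≤ G.card := by linarith
    refine le_trans ?_ h2
    have e : X ^ (1 - ε / 8) = X ^ (1 - ε) * X ^ (7 * ε / 8) := by
      rw [← Real.rpow_add hX0]; congr 1; ring
    have h3 : (2 : ℝ) ≤ X ^ (7 * ε / 8) := by
      have := Real.rpow_le_rpow_of_exponent_le hX1 (by linarith : ε / 4 ≤ 7 * ε / 8)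
      linarith
    rw [e]
    have h4 : 0 < X ^ (1 - ε) := by positivity
    nlinarith
  refine hGcard.trans ?_
  have hVδ : V + 2 ≤ X ^ (1 / 2 - min δ₀ (ε / 8)) := by
    have h1 : X ^ (1 / 2 - ε / 8) ≤ X ^ (1 / 2 - min δ₀ (ε / 8)) :=
      Real.rpow_le_rpow_of_exponent_le hX1 (by have := min_le_right δ₀ (ε / 8); linarith)
    have h2 : X ^ (ε / 4) ≤ X ^ (1 / 2 - ε / 8) :=
      Real.rpow_le_rpow_of_exponent_le hX1 (by linarith)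
    rw [hV]; linarith
  have hle := card_le_ncard_val (n := n) (S := {N : ℕ | (∃ x y z w : ℕ, x ^ 2 + y ^ 2 + z ^ 2 + w ^ 2 = n ∧
            N = 2 ^ (x + y) + 2 ^ (z + w) + 1) ∧
          Real.exp (Real.sqrt X / 3) ≤ N ∧
          Nat.Coprime N (2 * (2 ^ W - 1)) ∧
          ∏ p ∈ N.primeFactors.filter (fun p : ℕ => (p : ℝ) ≤ X ^ (1 - ε)), (p : ℝ) ≤
            Real.exp (X ^ (1 / 2 - min δ₀ (ε / 8))) ∧
          ∏ p ∈ N.primeFactors.filter (fun p : ℕ => (p : ℝ) ≤ X ^ (3 / 4 - ε)),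
            (p : ℝ) ^ (N.factorization p) ≤ Real.exp (X ^ (1 / 2 - min δ₀ (ε / 8)))})
    (fun N h => h.1) G ?_ ?_
  · exact_mod_cast hle
  · intro t ht
    rw [hG, mem_filter] at ht
    exact ⟨(hPp t ht.1).1, (hPp t ht.1).2.1⟩
  · intro t ht
    rw [hG, mem_filter] at ht
    obtain ⟨htP, ht1, ht2⟩ := ht
    obtain ⟨-, -, hcop, x, y, z, w, hs, h1, h2⟩ := hPp t htP
    have hN : 2 ^ t.1 + 2 ^ t.2 + 1 = Nv t := rfl
    rw [hN]
    refine ⟨⟨x, y, z, w, hs, by rw [h1, h2]; rfl⟩, ?_, hcop, ?_, ?_⟩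
    · have := exp_le_N hs
      rw [h1, h2, ← hX] at this
      exact this
    · exact (prod_sq_le ht1).trans (Real.exp_le_exp.mpr hVδ)
    · exact (prod_pow_le ht2).trans (Real.exp_le_exp.mpr hVδ)

end Pool.Agent.Lib.MP1e1427
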