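import Mathlib
import Pool.Agent.Lib.MP_1e1427_nt.Smooth3
import Pool.Agent.Lib.MP_1e1427_nt.TwoSq

/-!
All three numbers attached to a representation have a negligible smooth part.
-/

namespace Pool.Agent.Lib.MP1e1427

open Finset

/-- Representations of `n` as a sum of four squares. -/
def quads (n : ℕ) : Finset (ℕ × ℕ × ℕ × ℕ) :=
  ((range (n + 1)) ×ˢ (range (n + 1)) ×ˢ (range (n + 1)) ×ˢ (range (n + 1))).filter
    (fun q => q.1 ^ 2 + q.2.1 ^ 2 + q.2.2.1 ^ 2 + q.2.2.2 ^ 2 = n)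

lemma mem_quads {n : ℕ} {q : ℕ × ℕ × ℕ × ℕ} :
    q ∈ quads n ↔ q.1 ^ 2 + q.2.1 ^ 2 + q.2.2.1 ^ 2 + q.2.2.2 ^ 2 = n := by
  simp only [quads, mem_filter, mem_product, mem_range]
  constructor
  · rintro ⟨-, h⟩; exact h
  · intro h
    have e1 := Nat.le_self_pow two_ne_zero q.1
    have e2 := Nat.le_self_pow two_ne_zero q.2.1
    have e3 := Nat.le_self_pow two_ne_zero q.2.2.1
    have e4 := Nat.le_self_pow two_ne_zero q.2.2.2
    exact ⟨⟨by omega, by omega, by omega, by omega⟩, h⟩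

lemma sq_abs_nat (x y : ℕ) :
    ((x - y) + (y - x)) ^ 2 + (x + y) ^ 2 = 2 * (x ^ 2 + y ^ 2) := by
  rcases Nat.le_total x y with h | h
  · obtain ⟨k, rfl⟩ := Nat.exists_eq_add_of_le h
    rw [Nat.sub_eq_zero_of_le h, Nat.add_sub_cancel_left, zero_add]
    ring
  · obtain ⟨k, rfl⟩ := Nat.exists_eq_add_of_le h
    rw [Nat.sub_eq_zero_of_le h, Nat.add_sub_cancel_left, add_zero]
    ring

/-- Fibres of the first pairing. -/
lemma card_fibre_le (n : ℕ) (t : ℕ × ℕ) :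
    ((quads n).filter (fun q => (q.1 + q.2.1, q.2.2.1 + q.2.2.2) = t)).card ≤
      4 * (twoSq (2 * n - (t.1 ^ 2 + t.2 ^ 2))).card := by
  classical
  calc ((quads n).filter (fun q => (q.1 + q.2.1, q.2.2.1 + q.2.2.2) = t)).card
      ≤ ((twoSq (2 * n - (t.1 ^ 2 + t.2 ^ 2))) ×ˢ
          ((Finset.univ : Finset Bool) ×ˢ (Finset.univ : Finset Bool))).card := by
        apply Finset.card_le_card_of_injOn
          (fun q : ℕ × ℕ × ℕ × ℕ => (((q.1 - q.2.1) + (q.2.1 - q.1),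
            (q.2.2.1 - q.2.2.2) + (q.2.2.2 - q.2.2.1)),
            (decide (q.1 ≤ q.2.1), decide (q.2.2.1 ≤ q.2.2.2))))
        · rintro ⟨x, y, z, w⟩ hq
          rw [mem_coe, mem_filter, mem_quads] at hq
          simp only at hq
          obtain ⟨hq1, rfl⟩ := hq
          simp only [coe_product, coe_univ, Set.mem_prod, mem_coe, Set.mem_univ, and_true]
          rw [mem_twoSq]
          simp only
          have h1 := sq_abs_nat x y
          have h2 := sq_abs_nat z w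
          omega
        · rintro ⟨x, y, z, w⟩ hq ⟨x', y', z', w'⟩ hq' heq
          rw [mem_coe, mem_filter] at hq hq'
          simp only [Prod.mk.injEq] at hq hq' heq
          obtain ⟨-, h1⟩ := hq
          obtain ⟨-, h2⟩ := hq'
          obtain ⟨⟨h3, h4⟩, h5, h6⟩ := heq
          have h5' : (x ≤ y) ↔ (x' ≤ y') := by
            constructor
            · intro h; have := h5 ▸ (decide_eq_true h); exact of_decide_eq_true this
            · intro h; have := h5.symm ▸ (decide_eq_true h); exact of_decide_eq_true this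
          have h6' : (z ≤ w) ↔ (z' ≤ w') := by
            constructor
            · intro h; have := h6 ▸ (decide_eq_true h); exact of_decide_eq_true this
            · intro h; have := h6.symm ▸ (decide_eq_true h); exact of_decide_eq_true this
          have e1 : t.1 = x + y ∧ t.2 = z + w := by rw [← h1]; exact ⟨rfl, rfl⟩
          have e2 : t.1 = x' + y' ∧ t.2 = z' + w' := by rw [← h2]; exact ⟨rfl, rfl⟩
          have a1 : x = x' := by omega
          have a2 : y = y' := by omega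
          have a3 : z = z' := by omega
          have a4 : w = w' := by omega
          rw [a1, a2, a3, a4]
    _ = 4 * (twoSq (2 * n - (t.1 ^ 2 + t.2 ^ 2))).card := by
        rw [card_product, card_product, Finset.card_univ, Fintype.card_bool, mul_comm]

/-- The number of representations with a pairing in a given set. -/
lemma card_pair_mem_le (n : ℕ) (R : ℝ) (hR : ∀ m : ℕ, m ≤ 2 * n → ((twoSq m).card : ℝ) ≤ R)
    (B : Finset (ℕ × ℕ)) (s : ℕ × ℕ × ℕ × ℕ → ℕ × ℕ × ℕ × ℕ) (hs : Function.Injective s)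
    (hsn : ∀ q ∈ quads n, s q ∈ quads n) :
    (((quads n).filter (fun q => ((s q).1 + (s q).2.1, (s q).2.2.1 + (s q).2.2.2) ∈ B)).card : ℝ) ≤
      B.card * (4 * R) := by
  classical
  have h1 : ((quads n).filter
      (fun q => ((s q).1 + (s q).2.1, (s q).2.2.1 + (s q).2.2.2) ∈ B)).card ≤
      ((quads n).filter (fun q => (q.1 + q.2.1, q.2.2.1 + q.2.2.2) ∈ B)).card := by
    apply Finset.card_le_card_of_injOn s
    · intro q hq
      rw [mem_coe, mem_filter] at hq ⊢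
      exact ⟨hsn q hq.1, hq.2⟩
    · exact hs.injOn
  have h2 : ((quads n).filter (fun q => (q.1 + q.2.1, q.2.2.1 + q.2.2.2) ∈ B)).card =
      ∑ t ∈ B, ((quads n).filter (fun q => (q.1 + q.2.1, q.2.2.1 + q.2.2.2) = t)).card := by
    have h3 := Finset.card_eq_sum_card_fiberwise
      (s := (quads n).filter (fun q => (q.1 + q.2.1, q.2.2.1 + q.2.2.2) ∈ B)) (t := B)
      (f := fun q => (q.1 + q.2.1, q.2.2.1 + q.2.2.2))
      (fun q hq => by rw [mem_coe, mem_filter] at hq; exact hq.2)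
    rw [h3]
    refine Finset.sum_congr rfl fun t ht => ?_
    congr 1
    ext q
    simp only [mem_filter]
    constructor
    · rintro ⟨⟨h4, -⟩, h5⟩; exact ⟨h4, h5⟩
    · rintro ⟨h4, h5⟩; exact ⟨⟨h4, by rw [h5]; exact ht⟩, h5⟩
  calc (((quads n).filter
      (fun q => ((s q).1 + (s q).2.1, (s q).2.2.1 + (s q).2.2.2) ∈ B)).card : ℝ)
      ≤ ((∑ t ∈ B, ((quads n).filter
          (fun q => (q.1 + q.2.1, q.2.2.1 + q.2.2.2) = t)).card : ℕ) : ℝ) := by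
        rw [← h2]; exact_mod_cast h1
    _ = ∑ t ∈ B, (((quads n).filter
          (fun q => (q.1 + q.2.1, q.2.2.1 + q.2.2.2) = t)).card : ℝ) := by push_cast; rfl
    _ ≤ ∑ t ∈ B, 4 * R := by
        refine Finset.sum_le_sum fun t _ => ?_
        have h3 := card_fibre_le n t
        have h4 := hR (2 * n - (t.1 ^ 2 + t.2 ^ 2)) (Nat.sub_le _ _)
        have h5 : (((quads n).filter
          (fun q => (q.1 + q.2.1, q.2.2.1 + q.2.2.2) = t)).card : ℝ) ≤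
            4 * ((twoSq (2 * n - (t.1 ^ 2 + t.2 ^ 2))).card : ℝ) := by exact_mod_cast h3
        linarith
    _ = B.card * (4 * R) := by rw [Finset.sum_const, nsmul_eq_mul]

/-- The bound for the number of representations as a sum of two squares. -/
lemma exists_R (ε : ℝ) (hε : 0 < ε) :
    ∃ C : ℝ, 1 ≤ C ∧ ∀ X : ℝ, 1 ≤ X → ∀ m : ℕ, (m : ℝ) ≤ 2 * X →
      ((twoSq m).card : ℝ) ≤ C * X ^ ε := by
  obtain ⟨k, hk⟩ := exists_nat_ge (2 / ε)
  have hk0 : 0 < k := by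
    have : 0 < 2 / ε := by positivity
    have : (0 : ℝ) < k := by linarith
    exact_mod_cast this
  have hkR : (0 : ℝ) < k := by exact_mod_cast hk0
  obtain ⟨C, hC, h⟩ := exists_card_twoSq_le k hk0.ne'
  refine ⟨C * 2 ^ ε, ?_, fun X hX m hm => ?_⟩
  · have : (1 : ℝ) ≤ 2 ^ ε := Real.one_le_rpow (by norm_num) hε.le
    nlinarith
  have hX0 : 0 < X := by linarith
  have h2X : (1 : ℝ) ≤ 2 * X := by linarith
  have h1 := h ((2 * X) ^ (1 / (k : ℝ))) (Real.one_le_rpow h2X (by positivity)) m ?_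
  · refine h1.trans ?_
    rw [mul_assoc]
    apply mul_le_mul_of_nonneg_left _ (by linarith)
    have e : ((2 * X) ^ (1 / (k : ℝ))) ^ 2 = (2 * X) ^ (2 / (k : ℝ)) := by
      rw [← Real.rpow_natCast, ← Real.rpow_mul (by positivity)]
      congr 1
      push_cast
      ring
    rw [e]
    calc (2 * X) ^ (2 / (k : ℝ)) ≤ (2 * X) ^ ε := by
          apply Real.rpow_le_rpow_of_exponent_le h2X
          rw [div_le_iff₀ hkR]
          rw [div_le_iff₀ hε] at hk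
          linarith
      _ = 2 ^ ε * X ^ ε := Real.mul_rpow (by norm_num) hX0.le
  · refine hm.trans (le_of_eq ?_)
    rw [← Real.rpow_natCast, ← Real.rpow_mul (by positivity), one_div_mul_cancel hkR.ne',
      Real.rpow_one]

/-- Main theorem: the three numbers attached to a representation. -/
theorem main_three_smooth (ε : ℝ) (hε : 0 < ε) (hε1 : ε ≤ 1 / 4) :
    ∃ δ : ℝ, 0 < δ ∧ ∃ n₀ : ℕ, ∀ n : ℕ, n₀ ≤ n → Odd n → ∀ W : ℕ, 0 < W →
      (W : ℝ) ≤ (n : ℝ) ^ δ →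
      (n : ℝ) ^ (1 - ε) ≤
        (({q : ℕ × ℕ × ℕ × ℕ |
          q.1 ^ 2 + q.2.1 ^ 2 + q.2.2.1 ^ 2 + q.2.2.2 ^ 2 = n ∧
          ∀ N : ℕ, (N = 2 ^ (q.1 + q.2.1) + 2 ^ (q.2.2.1 + q.2.2.2) + 1 ∨
              N = 2 ^ (q.1 + q.2.2.1) + 2 ^ (q.2.1 + q.2.2.2) + 1 ∨
              N = 2 ^ (q.1 + q.2.2.2) + 2 ^ (q.2.1 + q.2.2.1) + 1) →
            Real.exp (Real.sqrt n / 3) ≤ N ∧
            (∀ p : ℕ, p.Prime → p ∣ 2 ^ W - 1 → p ∣ N → orderOf (2 : ZMod p) % 8 = 4) ∧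
            ∏ p ∈ N.primeFactors.filter (fun p : ℕ => (p : ℝ) ≤ (n : ℝ) ^ (1 - ε)), (p : ℝ) ≤
              Real.exp ((n : ℝ) ^ (1 / 2 - δ)) ∧
            ∏ p ∈ N.primeFactors.filter (fun p : ℕ => (p : ℝ) ≤ (n : ℝ) ^ (3 / 4 - ε)),
              (p : ℝ) ^ (N.factorization p) ≤ Real.exp ((n : ℝ) ^ (1 / 2 - δ))} :
          Set (ℕ × ℕ × ℕ × ℕ)).ncard : ℝ) := by
  classical
  obtain ⟨δ₀, hδ₀, n₀, hthree⟩ := main_three (ε / 16) (by positivity)
  obtain ⟨C, hC, hR⟩ := exists_R (ε / 32) (by positivity)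
  obtain ⟨n₁, hn₁⟩ := exists_nat_ge ((8000 : ℝ) ^ (4 / ε))
  obtain ⟨n₂, hn₂⟩ := exists_nat_ge ((24 * C) ^ (32 / ε))
  refine ⟨min δ₀ (ε / 8), by positivity, max n₀ (max n₁ (max n₂ 1)), ?_⟩
  intro n hn hodd W hW hWδ
  have hn0 : n₀ ≤ n := le_trans (le_max_left _ _) hn
  have hn1 : n₁ ≤ n := le_trans (le_trans (le_max_left _ _) (le_max_right _ _)) hn
  have hn2 : n₂ ≤ n := le_trans (le_trans (le_trans (le_max_left _ _) (le_max_right _ _))
    (le_max_right _ _)) hn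
  have hn3 : 1 ≤ n := le_trans (le_trans (le_trans (le_max_right _ _) (le_max_right _ _))
    (le_max_right _ _)) hn
  obtain ⟨X, hX⟩ : ∃ X : ℝ, X = (n : ℝ) := ⟨_, rfl⟩
  have hX1 : 1 ≤ X := by rw [hX]; exact_mod_cast hn3
  have hX0 : 0 < X := by linarith
  have hbig : 8000 ≤ X ^ (ε / 4) := by
    have h2 : (8000 : ℝ) ^ (4 / ε) ≤ X := by rw [hX]; exact hn₁.trans (by exact_mod_cast hn1)
    have h3 : ((8000 : ℝ) ^ (4 / ε)) ^ (ε / 4) ≤ X ^ (ε / 4) :=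
      Real.rpow_le_rpow (by positivity) h2 (by positivity)
    rw [← Real.rpow_mul (by norm_num)] at h3
    have h4 : 4 / ε * (ε / 4) = 1 := by field_simp
    rwa [h4, Real.rpow_one] at h3
  have hbig2 : 24 * C ≤ X ^ (ε / 32) := by
    have h2 : (24 * C) ^ (32 / ε) ≤ X := by rw [hX]; exact hn₂.trans (by exact_mod_cast hn2)
    have h3 : ((24 * C) ^ (32 / ε)) ^ (ε / 32) ≤ X ^ (ε / 32) :=
      Real.rpow_le_rpow (by positivity) h2 (by positivity)
    rw [← Real.rpow_mul (by positivity)] at h3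
    have h4 : 32 / ε * (ε / 32) = 1 := by field_simp
    rwa [h4, Real.rpow_one] at h3
  rw [← hX] at hWδ ⊢
  have hWδ' : (W : ℝ) ≤ (n : ℝ) ^ δ₀ := by
    rw [← hX]
    exact hWδ.trans (Real.rpow_le_rpow_of_exponent_le hX1 (min_le_left _ _))
  have hS := hthree n hn0 hodd W hW hWδ'
  rw [← hX] at hS
  -- the finite set of representations with the order property
  obtain ⟨Q, hQ⟩ : ∃ Q : Finset (ℕ × ℕ × ℕ × ℕ), Q = (quads n).filter (fun q =>
      ∀ p : ℕ, p.Prime → p ∣ 2 ^ W - 1 →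
            (p ∣ 2 ^ (q.1 + q.2.1) + 2 ^ (q.2.2.1 + q.2.2.2) + 1 ∨
              p ∣ 2 ^ (q.1 + q.2.2.1) + 2 ^ (q.2.1 + q.2.2.2) + 1 ∨
              p ∣ 2 ^ (q.1 + q.2.2.2) + 2 ^ (q.2.1 + q.2.2.1) + 1) →
            orderOf (2 : ZMod p) % 8 = 4) := ⟨_, rfl⟩
  have hQS : ({q : ℕ × ℕ × ℕ × ℕ |
          q.1 ^ 2 + q.2.1 ^ 2 + q.2.2.1 ^ 2 + q.2.2.2 ^ 2 = n ∧
          ∀ p : ℕ, p.Prime → p ∣ 2 ^ W - 1 →
            (p ∣ 2 ^ (q.1 + q.2.1) + 2 ^ (q.2.2.1 + q.2.2.2) + 1 ∨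
              p ∣ 2 ^ (q.1 + q.2.2.1) + 2 ^ (q.2.1 + q.2.2.2) + 1 ∨
              p ∣ 2 ^ (q.1 + q.2.2.2) + 2 ^ (q.2.1 + q.2.2.1) + 1) →
            orderOf (2 : ZMod p) % 8 = 4} : Set (ℕ × ℕ × ℕ × ℕ)) = (Q : Set (ℕ × ℕ × ℕ × ℕ)) := by
    ext q
    rw [hQ, mem_coe, mem_filter, mem_quads]
    rfl
  rw [hQS, Set.ncard_coe_finset] at hS
  -- size of the box
  obtain ⟨A, hA⟩ : ∃ A, A = Nat.sqrt (2 * n) := ⟨_, rfl⟩
  have hA1 : (A : ℝ) + 1 ≤ 3 * Real.sqrt X := by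
    have h1 : (A : ℝ) ^ 2 ≤ 2 * X := by
      have : A ^ 2 ≤ 2 * n := by rw [hA]; exact Nat.sqrt_le' _
      rw [hX]; exact_mod_cast this
    have h2 : (1 : ℝ) ≤ Real.sqrt X := by
      rw [show (1 : ℝ) = Real.sqrt 1 by simp]; exact Real.sqrt_le_sqrt hX1
    have h3 : (A : ℝ) ≤ 2 * Real.sqrt X := by
      apply abs_le_of_sq_le_sq' _ (by positivity) |>.2
      rw [mul_pow, Real.sq_sqrt hX0.le]; linarith
    linarith
  obtain ⟨c₁, c₂, hc, hc₁, hc₂⟩ := bounds hε hε1 hX1 hbig hA1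
  obtain ⟨V, hV⟩ : ∃ V, V = 1 / 2 * X ^ (1 / 2 - ε / 8) := ⟨_, rfl⟩
  rw [← hV] at hc₁ hc₂
  -- the bad pairs
  obtain ⟨B, hB⟩ : ∃ B : Finset (ℕ × ℕ), B =
      (Bx A).filter (fun t => V < S1 ⌊X ^ (1 - ε)⌋₊ (Nv t)) ∪
        (Bx A).filter (fun t => V < S2 ⌊X ^ (3 / 4 - ε)⌋₊ (Nv t)) := ⟨_, rfl⟩
  have hBcard : (B.card : ℝ) ≤ 1 / 2 * X ^ (1 - ε / 8) := by
    have h1 : B.card ≤ c₁ + c₂ := by
      rw [hB, ← hc₁, ← hc₂]; exact Finset.card_union_le _ _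
    have h2 : (B.card : ℝ) ≤ c₁ + c₂ := by exact_mod_cast h1
    linarith
  have hBgood : ∀ t ∈ Bx A, t ∉ B → S1 ⌊X ^ (1 - ε)⌋₊ (Nv t) ≤ V ∧
      S2 ⌊X ^ (3 / 4 - ε)⌋₊ (Nv t) ≤ V := by
    intro t ht htB
    rw [hB, mem_union, mem_filter, mem_filter] at htB
    push Not at htB
    exact ⟨htB.1 ht, htB.2 ht⟩
  have hpairBx : ∀ x y z w : ℕ, x ^ 2 + y ^ 2 + z ^ 2 + w ^ 2 = n → (x + y, z + w) ∈ Bx A := by
    intro x y z w h
    simp only [Bx, mem_product, mem_range]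
    have k1 : x + y ≤ A := by
      rw [hA, Nat.le_sqrt', ← h]
      nlinarith [two_mul_le_add_sq x y, Nat.zero_le (z ^ 2), Nat.zero_le (w ^ 2)]
    have k2 : z + w ≤ A := by
      rw [hA, Nat.le_sqrt', ← h]
      nlinarith [two_mul_le_add_sq z w, Nat.zero_le (x ^ 2), Nat.zero_le (y ^ 2)]
    omega
  -- the three pairings
  have hR' : ∀ m : ℕ, m ≤ 2 * n → ((twoSq m).card : ℝ) ≤ C * X ^ (ε / 32) := by
    intro m hm
    refine hR X hX1 m ?_
    rw [hX]; exact_mod_cast hm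
  have b1 := card_pair_mem_le n (C * X ^ (ε / 32)) hR' B id Function.injective_id (fun q h => h)
  have b2 := card_pair_mem_le n (C * X ^ (ε / 32)) hR' B
    (fun q => (q.1, q.2.2.1, q.2.1, q.2.2.2))
    (fun q q' h => by
      simp only [Prod.mk.injEq] at h
      obtain ⟨h1, h2, h3, h4⟩ := h
      exact Prod.ext h1 (Prod.ext h3 (Prod.ext h2 h4)))
    (fun q h => by
      rw [mem_quads] at h ⊢
      simp only
      omega)
  have b3 := card_pair_mem_le n (C * X ^ (ε / 32)) hR' B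
    (fun q => (q.1, q.2.2.2, q.2.1, q.2.2.1))
    (fun q q' h => by
      simp only [Prod.mk.injEq] at h
      obtain ⟨h1, h2, h3, h4⟩ := h
      exact Prod.ext h1 (Prod.ext h3 (Prod.ext h4 h2)))
    (fun q h => by
      rw [mem_quads] at h ⊢
      simp only
      omega)
  simp only [id] at b1 b2 b3
  -- the good representations
  obtain ⟨G, hG⟩ : ∃ G : Finset (ℕ × ℕ × ℕ × ℕ), G = Q.filter (fun q =>
      (q.1 + q.2.1, q.2.2.1 + q.2.2.2) ∉ B ∧ (q.1 + q.2.2.1, q.2.1 + q.2.2.2) ∉ B ∧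
        (q.1 + q.2.2.2, q.2.1 + q.2.2.1) ∉ B) := ⟨_, rfl⟩
  have hQG : (Q.card : ℝ) ≤ G.card + 3 * (B.card * (4 * (C * X ^ (ε / 32)))) := by
    have hsub : Q ⊆ G ∪ ((quads n).filter (fun q => (q.1 + q.2.1, q.2.2.1 + q.2.2.2) ∈ B) ∪
        ((quads n).filter (fun q => (q.1 + q.2.2.1, q.2.1 + q.2.2.2) ∈ B) ∪
          (quads n).filter (fun q => (q.1 + q.2.2.2, q.2.1 + q.2.2.1) ∈ B))) := by
      intro q hq
      have hqn : q ∈ quads n := by rw [hQ, mem_filter] at hq; exact hq.1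
      simp only [mem_union, mem_filter, hG]
      by_cases h1 : (q.1 + q.2.1, q.2.2.1 + q.2.2.2) ∈ B
      · exact Or.inr (Or.inl ⟨hqn, h1⟩)
      by_cases h2 : (q.1 + q.2.2.1, q.2.1 + q.2.2.2) ∈ B
      · exact Or.inr (Or.inr (Or.inl ⟨hqn, h2⟩))
      by_cases h3 : (q.1 + q.2.2.2, q.2.1 + q.2.2.1) ∈ B
      · exact Or.inr (Or.inr (Or.inr ⟨hqn, h3⟩))
      exact Or.inl ⟨hq, h1, h2, h3⟩
    have h1 := (Finset.card_le_card hsub).trans ((Finset.card_union_le _ _).trans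
      (Nat.add_le_add_left ((Finset.card_union_le _ _).trans
        (Nat.add_le_add_left (Finset.card_union_le _ _) _)) _))
    have h2 : (Q.card : ℝ) ≤ G.card +
        (((quads n).filter (fun q => (q.1 + q.2.1, q.2.2.1 + q.2.2.2) ∈ B)).card +
        (((quads n).filter (fun q => (q.1 + q.2.2.1, q.2.1 + q.2.2.2) ∈ B)).card +
          ((quads n).filter (fun q => (q.1 + q.2.2.2, q.2.1 + q.2.2.1) ∈ B)).card)) := by
      exact_mod_cast h1
    linarith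
  have hGcard : X ^ (1 - ε) ≤ G.card := by
    have h1 : 3 * (B.card * (4 * (C * X ^ (ε / 32)))) ≤ 6 * C * X ^ (1 - 3 * ε / 32) := by
      have e : X ^ (1 - ε / 8) * X ^ (ε / 32) = X ^ (1 - 3 * ε / 32) := by
        rw [← Real.rpow_add hX0]; congr 1; ring
      calc 3 * (B.card * (4 * (C * X ^ (ε / 32)))) = B.card * (12 * (C * X ^ (ε / 32))) := by ring
        _ ≤ (1 / 2 * X ^ (1 - ε / 8)) * (12 * (C * X ^ (ε / 32))) :=
            mul_le_mul_of_nonneg_right hBcard (by positivity)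
        _ = 6 * C * (X ^ (1 - ε / 8) * X ^ (ε / 32)) := by ring
        _ = _ := by rw [e]
    have h2 : 6 * C * X ^ (1 - 3 * ε / 32) ≤ 1 / 2 * X ^ (1 - ε / 16) := by
      have e : X ^ (1 - 3 * ε / 32) * X ^ (ε / 32) = X ^ (1 - ε / 16) := by
        rw [← Real.rpow_add hX0]; congr 1; ring
      rw [← e]
      have h3 : 0 < X ^ (1 - 3 * ε / 32) := by positivity
      have h4 : X ^ (1 - 3 * ε / 32) * (6 * C) ≤ X ^ (1 - 3 * ε / 32) * (1 / 2 * X ^ (ε / 32)) :=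
        mul_le_mul_of_nonneg_left (by linarith) h3.le
      linarith
    have h3 : 1 / 2 * X ^ (1 - ε / 16) ≤ G.card := by linarith
    refine le_trans ?_ h3
    have e : X ^ (1 - ε / 16) = X ^ (1 - ε) * X ^ (15 * ε / 16) := by
      rw [← Real.rpow_add hX0]; congr 1; ring
    have h4 : (2 : ℝ) ≤ X ^ (15 * ε / 16) := by
      have := Real.rpow_le_rpow_of_exponent_le hX1 (by linarith : ε / 4 ≤ 15 * ε / 16)
      linarith
    rw [e]
    have h5 : 0 < X ^ (1 - ε) := by positivity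
    have h6 : X ^ (1 - ε) * 2 ≤ X ^ (1 - ε) * X ^ (15 * ε / 16) :=
      mul_le_mul_of_nonneg_left h4 h5.le
    linarith
  refine hGcard.trans ?_
  have hVδ : V + 2 ≤ X ^ (1 / 2 - min δ₀ (ε / 8)) := by
    have h1 : X ^ (1 / 2 - ε / 8) ≤ X ^ (1 / 2 - min δ₀ (ε / 8)) :=
      Real.rpow_le_rpow_of_exponent_le hX1 (by have := min_le_right δ₀ (ε / 8); linarith)
    have h2 : X ^ (ε / 4) ≤ X ^ (1 / 2 - ε / 8) :=
      Real.rpow_le_rpow_of_exponent_le hX1 (by linarith)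
    rw [hV]; linarith
  have hfin : ({q : ℕ × ℕ × ℕ × ℕ |
          q.1 ^ 2 + q.2.1 ^ 2 + q.2.2.1 ^ 2 + q.2.2.2 ^ 2 = n ∧
          ∀ N : ℕ, (N = 2 ^ (q.1 + q.2.1) + 2 ^ (q.2.2.1 + q.2.2.2) + 1 ∨
              N = 2 ^ (q.1 + q.2.2.1) + 2 ^ (q.2.1 + q.2.2.2) + 1 ∨
              N = 2 ^ (q.1 + q.2.2.2) + 2 ^ (q.2.1 + q.2.2.1) + 1) →
            Real.exp (Real.sqrt X / 3) ≤ N ∧
            (∀ p : ℕ, p.Prime → p ∣ 2 ^ W - 1 → p ∣ N → orderOf (2 : ZMod p) % 8 = 4) ∧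
            ∏ p ∈ N.primeFactors.filter (fun p : ℕ => (p : ℝ) ≤ X ^ (1 - ε)), (p : ℝ) ≤
              Real.exp (X ^ (1 / 2 - min δ₀ (ε / 8))) ∧
            ∏ p ∈ N.primeFactors.filter (fun p : ℕ => (p : ℝ) ≤ X ^ (3 / 4 - ε)),
              (p : ℝ) ^ (N.factorization p) ≤ Real.exp (X ^ (1 / 2 - min δ₀ (ε / 8)))} :
          Set (ℕ × ℕ × ℕ × ℕ)).Finite := by
    refine (quads n).finite_toSet.subset ?_
    intro q hq
    rw [mem_coe, mem_quads]
    exact hq.1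
  have hle := Set.ncard_le_ncard (s := (G : Set (ℕ × ℕ × ℕ × ℕ))) (t := _) ?_ hfin
  · rw [Set.ncard_coe_finset] at hle
    exact_mod_cast hle
  · intro q hq
    rw [mem_coe, hG, mem_filter, hQ, mem_filter, mem_quads] at hq
    obtain ⟨⟨hsum, hord⟩, g1, g2, g3⟩ := hq
    have hone : ∀ x y z w : ℕ, x ^ 2 + y ^ 2 + z ^ 2 + w ^ 2 = n → (x + y, z + w) ∉ B →
        Real.exp (Real.sqrt X / 3) ≤ ((2 ^ (x + y) + 2 ^ (z + w) + 1 : ℕ) : ℝ) ∧
        ∏ p ∈ (Nat.primeFactors (2 ^ (x + y) + 2 ^ (z + w) + 1)).filter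
          (fun p : ℕ => (p : ℝ) ≤ X ^ (1 - ε)), (p : ℝ) ≤
              Real.exp (X ^ (1 / 2 - min δ₀ (ε / 8))) ∧
            ∏ p ∈ (Nat.primeFactors (2 ^ (x + y) + 2 ^ (z + w) + 1)).filter
              (fun p : ℕ => (p : ℝ) ≤ X ^ (3 / 4 - ε)),
              (p : ℝ) ^ (Nat.factorization (2 ^ (x + y) + 2 ^ (z + w) + 1) p) ≤
                Real.exp (X ^ (1 / 2 - min δ₀ (ε / 8))) := by
      intro x y z w hs hb
      obtain ⟨t1, t2⟩ := hBgood _ (hpairBx x y z w hs) hb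
      refine ⟨?_, ?_, ?_⟩
      · have := exp_le_N hs
        rw [← hX] at this
        exact this
      · exact (prod_sq_le t1).trans (Real.exp_le_exp.mpr hVδ)
      · exact (prod_pow_le t2).trans (Real.exp_le_exp.mpr hVδ)
    refine ⟨hsum, ?_⟩
    intro N hN
    rcases hN with rfl | rfl | rfl
    · obtain ⟨k1, k2, k3⟩ := hone q.1 q.2.1 q.2.2.1 q.2.2.2 hsum g1
      exact ⟨k1, fun p hp hpW hpN => hord p hp hpW (Or.inl hpN), k2, k3⟩
    · obtain ⟨k1, k2, k3⟩ := hone q.1 q.2.2.1 q.2.1 q.2.2.2 (by omega) g2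
      exact ⟨k1, fun p hp hpW hpN => hord p hp hpW (Or.inr (Or.inl hpN)), k2, k3⟩
    · obtain ⟨k1, k2, k3⟩ := hone q.1 q.2.2.2 q.2.1 q.2.2.1 (by omega) g3
      exact ⟨k1, fun p hp hpW hpN => hord p hp hpW (Or.inr (Or.inr hpN)), k2, k3⟩

end Pool.Agent.Lib.MP1e1427
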